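import Pool.Agent.H.MP_137e81_co.ls.Cln2

/-! Edges between good vertices and the others. -/

set_option autoImplicit false

namespace KS137

open Finset

open Classical in
/-- Proof: `p = k - 2 s`.  As `P`, `R` are disjoint, `e(P, R) = ∑_{v ∈ P} d_R(v)` is at least
`(p - 2 a) #P + s #R`; if `s' ≤ s` then `p' ≤ p - 2 a` is used, if `s < s'` then
`(s' - s) #R ≤ 2 (s' - s) #P ≤ (p - 2 a - p') #P`. -/
theorem bip_level {V : Type} (G : SimpleGraph V) {k s a p' s' : ℕ} (P R : Finset V)
    (hdis : Disjoint P R) (hRP : R.card ≤ 2 * P.card) (h2s : 2 * s ≤ k)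
    (hsum : (k - 2 * s) * P.card + s * R.card ≤
      ∑ v ∈ P, ((P ∪ R).filter fun x => G.Adj v x).card)
    (hPP : ∑ v ∈ P, (P.filter fun x => G.Adj v x).card ≤ 2 * a * P.card)
    (h1 : p' + 2 * s' + 2 * a ≤ k) (h2 : p' + 2 * s + 2 * a ≤ k) :
    p' * P.card + s' * R.card ≤ ∑ v ∈ P, (R.filter fun x => G.Adj v x).card := by
  obtain ⟨p, rfl⟩ : ∃ p, k = 2 * s + p := ⟨k - 2 * s, by omega⟩
  rw [show 2 * s + p - 2 * s = p by omega] at hsum
  have hdeg : ∀ v ∈ P, ((P ∪ R).filter fun x => G.Adj v x).card =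
      (P.filter fun x => G.Adj v x).card + (R.filter fun x => G.Adj v x).card := by
    intro v _
    rw [filter_union, card_union_of_disjoint (disjoint_filter_filter hdis)]
  rw [sum_congr rfl hdeg, sum_add_distrib] at hsum
  have h3 : p * P.card + s * R.card ≤
      2 * a * P.card + ∑ v ∈ P, (R.filter fun x => G.Adj v x).card :=
    hsum.trans (Nat.add_le_add_right hPP _)
  rcases Nat.le_total s' s with h | h
  · obtain ⟨q, rfl⟩ : ∃ q, p = p' + 2 * a + q := ⟨p - (p' + 2 * a), by omega⟩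
    have h4 : s' * R.card ≤ s * R.card := Nat.mul_le_mul_right _ h
    have h5 : (p' + 2 * a + q) * P.card = p' * P.card + 2 * a * P.card + q * P.card := by ring
    omega
  · obtain ⟨b, rfl⟩ : ∃ b, s' = s + b := ⟨s' - s, by omega⟩
    obtain ⟨q, rfl⟩ : ∃ q, p = p' + 2 * a + 2 * b + q := ⟨p - (p' + 2 * a + 2 * b), by omega⟩
    have h4 : b * R.card ≤ b * (2 * P.card) := Nat.mul_le_mul_left _ hRP
    have h5 : (p' + 2 * a + 2 * b + q) * P.card =
        p' * P.card + 2 * a * P.card + b * (2 * P.card) + q * P.card := by ring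
    have h6 : (s + b) * R.card = s * R.card + b * R.card := by ring
    omega

end KS137
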