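import Pool.Agent.H.MP_137e81_co.ls.Root

/-! Trees with two vertices of large degree have few other relevant vertices. -/

set_option autoImplicit false

namespace KS137

open Finset

open Classical in
/-- Proof: `∑_{t ≠ z₁, z₂} (dg t - 1) = k + 1 - dg z₁ - dg z₂` (`sum_dg`), call it `σ`.  The number of the
`t ≠ z₁, z₂` with `dg t ≥ 2` is at most `σ`; the number of the leaves which are adjacent to some
`p ≠ z₁, z₂` with `dg p ≥ 2` is at most `∑ dg p ≤ ∑ 2 (dg p - 1) ≤ 2 σ`. -/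
theorem small_card {β : Type} [Fintype β] {T : SimpleGraph β} (hT : T.IsTree) {k : ℕ} (h1 : 1 ≤ k)
    (hk : Fintype.card β = k + 1) {z₁ z₂ : β} (hz : z₁ ≠ z₂) :
    (univ.filter fun t => 2 ≤ dg T t ∨ ∃ p, p ≠ z₁ ∧ p ≠ z₂ ∧ 2 ≤ dg T p ∧ T.Adj p t).card +
      3 * (dg T z₁ + dg T z₂) ≤ 3 * (k + 1) + 2 := by
  set B : Finset β := univ.filter fun p => p ≠ z₁ ∧ p ≠ z₂ ∧ 2 ≤ dg T p with hB
  have hBm : ∀ p, p ∈ B ↔ p ≠ z₁ ∧ p ≠ z₂ ∧ 2 ≤ dg T p := fun p => by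
    rw [hB, mem_filter]
    exact ⟨fun h => h.2, fun h => ⟨mem_univ _, h⟩⟩
  have hdis : Disjoint ({z₁, z₂} : Finset β) B := by
    rw [Finset.disjoint_left]
    intro p hp hpB
    rw [mem_insert, mem_singleton] at hp
    obtain ⟨h2, h3, -⟩ := (hBm p).1 hpB
    rcases hp with h | h
    · exact h2 h
    · exact h3 h
  have hs := sum_dg_le hT h1 hk ({z₁, z₂} ∪ B)
  rw [Finset.sum_union hdis, Finset.card_union_of_disjoint hdis, Finset.sum_pair hz,
    Finset.card_pair hz] at hs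
  have h3 : B.card • 2 ≤ ∑ t ∈ B, dg T t :=
    Finset.card_nsmul_le_sum _ _ _ fun p hp => ((hBm p).1 hp).2.2
  rw [smul_eq_mul] at h3
  have hsub : (univ.filter fun t => 2 ≤ dg T t ∨ ∃ p, p ≠ z₁ ∧ p ≠ z₂ ∧ 2 ≤ dg T p ∧ T.Adj p t) ⊆
      ({z₁, z₂} ∪ B) ∪ B.biUnion fun p => univ.filter fun u => T.Adj p u := by
    intro t ht
    rw [mem_filter] at ht
    rw [mem_union, mem_union, mem_insert, mem_singleton]
    rcases ht.2 with h | ⟨p, hp1, hp2, hp3, hp4⟩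
    · by_cases e1 : t = z₁
      · exact Or.inl (Or.inl (Or.inl e1))
      · by_cases e2 : t = z₂
        · exact Or.inl (Or.inl (Or.inr e2))
        · exact Or.inl (Or.inr ((hBm t).2 ⟨e1, e2, h⟩))
    · exact Or.inr (mem_biUnion.2 ⟨p, (hBm p).2 ⟨hp1, hp2, hp3⟩, mem_filter.2 ⟨mem_univ _, hp4⟩⟩)
  have hc := Finset.card_le_card hsub
  have hc2 := Finset.card_union_le ({z₁, z₂} ∪ B)
    (B.biUnion fun p => univ.filter fun u => T.Adj p u)
  have hc3 : (B.biUnion fun p => univ.filter fun u => T.Adj p u).card ≤ ∑ p ∈ B, dg T p :=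
    Finset.card_biUnion_le
  rw [Finset.card_union_of_disjoint hdis, Finset.card_pair hz] at hc2
  omega

end KS137
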