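import Pool.Agent.H.MP_137e81_co.ls.Defs

/-! The parent function of a rooted tree. -/

set_option autoImplicit false

namespace KS137

open Finset

/-- Proof: `dep t = T.dist r t`; for `t ≠ r` there is a neighbour `par t` of `t` with
`dist r (par t) + 1 = dist r t` (a shortest walk).  The map `t ↦ s(t, par t)` from `{t // t ≠ r}` to the
edges is injective (`dep (par t) < dep t`), and the tree has `card β - 1` edges
(`SimpleGraph.IsTree.card_edgeFinset`), so it is surjective. -/
theorem exists_parent {β : Type} [Fintype β] {T : SimpleGraph β} (hT : T.IsTree) (r : β) :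
    ∃ (par : β → β) (dep : β → ℕ),
      (∀ t, t ≠ r → T.Adj t (par t) ∧ dep (par t) < dep t) ∧
      ∀ u v, T.Adj u v → (u ≠ r ∧ par u = v) ∨ (v ≠ r ∧ par v = u) := by
  classical
  have hc : T.Connected := hT.connected
  have hpar : ∀ t, ∃ s, t ≠ r → T.Adj t s ∧ T.dist r s < T.dist r t := by
    intro t
    by_cases h : t = r
    · exact ⟨t, fun h' => absurd h h'⟩
    · obtain ⟨p, hp⟩ := hc.exists_walk_length_eq_dist t r
      cases p with
      | nil => exact absurd rfl h
      | @cons _ b _ hadj q =>
        refine ⟨b, fun _ => ⟨hadj, ?_⟩⟩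
        have h1 : T.dist b r ≤ q.length := SimpleGraph.dist_le q
        rw [SimpleGraph.Walk.length_cons] at hp
        rw [SimpleGraph.dist_comm (u := r) (v := b), SimpleGraph.dist_comm (u := r) (v := t)]
        omega
  choose par hp using hpar
  refine ⟨par, fun t => T.dist r t, hp, ?_⟩
  intro u v huv
  let f : {t // t ≠ r} → T.edgeFinset := fun t => ⟨s(t.1, par t.1), by
    rw [SimpleGraph.mem_edgeFinset, SimpleGraph.mem_edgeSet]
    exact (hp t.1 t.2).1⟩
  have hf : Function.Injective f := by
    rintro ⟨t, ht⟩ ⟨t', ht'⟩ h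
    have h1 : s(t, par t) = s(t', par t') := congrArg Subtype.val h
    rw [Sym2.eq_iff] at h1
    rcases h1 with ⟨h2, -⟩ | ⟨h2, h3⟩
    · exact Subtype.ext h2
    · exfalso
      have h4 := (hp t ht).2
      have h5 := (hp t' ht').2
      rw [h3] at h4
      rw [← h2] at h5
      exact absurd h4 (not_lt.mpr h5.le)
  have hcard : Fintype.card {t // t ≠ r} = Fintype.card T.edgeFinset := by
    have h1 := hT.card_edgeFinset
    have h2 : Fintype.card {t // t ≠ r} = Fintype.card β - 1 := by
      rw [Fintype.card_subtype_compl, Fintype.card_subtype_eq]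
    rw [h2, Fintype.card_coe]
    omega
  have hbij : Function.Bijective f := (Fintype.bijective_iff_injective_and_card f).2 ⟨hf, hcard⟩
  obtain ⟨⟨t, ht⟩, h⟩ := hbij.2 ⟨s(u, v), by
    rw [SimpleGraph.mem_edgeFinset, SimpleGraph.mem_edgeSet]; exact huv⟩
  have h1 : s(t, par t) = s(u, v) := congrArg Subtype.val h
  rw [Sym2.eq_iff] at h1
  rcases h1 with ⟨h2, h3⟩ | ⟨h2, h3⟩
  · subst h2
    exact Or.inl ⟨ht, h3⟩
  · subst h2
    exact Or.inr ⟨ht, h3⟩

end KS137
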