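import Pool.Agent.H.MP_137e81_co.ls.Root
import Pool.Agent.H.MP_137e81_co.ls.Par

/-! Colours and branches of a tree. -/

set_option autoImplicit false

namespace KS137

open Finset

/-- Proof: parent function of `exists_parent` (Par.lean); define the colour by recursion on `dep` (for example
`col t` the parity of the least `j` with `par^[j] t = r`), or Mathlib: trees are 2-colourable. -/
theorem exists_col {β : Type} [Fintype β] {T : SimpleGraph β} (hT : T.IsTree) :
    ∃ col : β → Bool, ∀ u v, T.Adj u v → col u ≠ col v := by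
  classical
  have hne : Nonempty β := hT.connected.nonempty
  obtain ⟨r⟩ := hne
  obtain ⟨par, dep, hp, hadj⟩ := exists_parent hT r
  have hwf : WellFounded (fun a b : β => dep a < dep b) := (measure dep).wf
  obtain ⟨col, hcol⟩ : ∃ col : β → Bool, ∀ t, col t = if t ≠ r then !(col (par t)) else false := by
    refine ⟨hwf.fix (fun t ih => if h : t ≠ r then !(ih (par t) (hp t h).2) else false),
      fun t => ?_⟩
    rw [hwf.fix_eq]
    by_cases h : t ≠ r
    · rw [dif_pos h, if_pos h]
    · rw [dif_neg h, if_neg h]
  have key : ∀ u, u ≠ r → col u ≠ col (par u) := by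
    intro u hu h
    have h1 := hcol u
    rw [if_pos hu, h] at h1
    cases hc : col (par u) <;> simp [hc] at h1
  refine ⟨col, fun u v huv => ?_⟩
  rcases hadj u v huv with ⟨hu, rfl⟩ | ⟨hv, rfl⟩
  · exact key u hu
  · exact (key v hv).symm

/-- the child of the root `r` above a vertex `t ≠ r` -/
theorem exists_top {β : Type} {par : β → β} {dep : β → ℕ} {r : β}
    (hp : ∀ t, t ≠ r → dep (par t) < dep t) :
    ∃ top : β → β, (∀ t, t ≠ r → par t = r → top t = t) ∧
      (∀ t, t ≠ r → par t ≠ r → top t = top (par t)) ∧ ∀ t, t ≠ r → top t ≠ r ∧ par (top t) = r := by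
  classical
  have hwf : WellFounded (fun a b : β => dep a < dep b) := (measure dep).wf
  obtain ⟨top, htop⟩ : ∃ top : β → β, ∀ t, top t =
      if t ≠ r ∧ par t ≠ r then top (par t) else t := by
    refine ⟨hwf.fix (fun t ih => if h : t ≠ r ∧ par t ≠ r then ih (par t) (hp t h.1) else t),
      fun t => ?_⟩
    rw [hwf.fix_eq]
    by_cases h : t ≠ r ∧ par t ≠ r
    · rw [dif_pos h, if_pos h]
    · rw [dif_neg h, if_neg h]
  refine ⟨top, fun t _ h => ?_, fun t ht h => ?_, fun t => ?_⟩
  · rw [htop t, if_neg fun h' => h'.2 h]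
  · rw [htop t, if_pos ⟨ht, h⟩]
  · induction t using hwf.induction with
    | _ t ih =>
      intro ht
      by_cases h : par t = r
      · rw [htop t, if_neg fun h' => h'.2 h]
        exact ⟨ht, h⟩
      · rw [htop t, if_pos ⟨ht, h⟩]
        exact ih (par t) (hp t ht) h

end KS137
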