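import Pool.Agent.H.MP_137e81_co.ls.Host
import Pool.Agent.H.MP_137e81_co.ls.HubC
import Pool.Agent.H.MP_137e81_co.ls.HubD
import Pool.Agent.H.MP_137e81_co.ls.Par

/-! Trees with few vertices which are not leaves: embeddings into cores. -/

set_option autoImplicit false

namespace KS137

open Finset

/-- Two different neighbours. -/
private theorem BrA_two {β : Type} [Fintype β] {T : SimpleGraph β} {t x y : β} (hx : T.Adj t x)
    (hy : T.Adj t y) (hxy : x ≠ y) : 2 ≤ dg T t := by
  classical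
  unfold dg
  rw [← card_pair hxy]
  apply card_le_card
  intro z hz
  rw [mem_insert, mem_singleton] at hz
  rw [mem_filter]
  rcases hz with rfl | rfl
  · exact ⟨mem_univ _, hx⟩
  · exact ⟨mem_univ _, hy⟩

/-- A parent which is not the root is not a leaf. -/
private theorem BrA_par {β : Type} [Fintype β] {T : SimpleGraph β} {par : β → β} {dep : β → ℕ}
    {r : β} (hp1 : ∀ t, t ≠ r → T.Adj t (par t) ∧ dep (par t) < dep t) {t : β} (ht : t ≠ r)
    (hpt : par t ≠ r) : 2 ≤ dg T (par t) := by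
  have h5 := hp1 t ht
  have h6 := hp1 (par t) hpt
  refine BrA_two h6.1 h5.1.symm ?_
  intro h
  have h7 := h6.2
  rw [h] at h7
  omega

/-- A tree with at least three vertices has a vertex of degree at least two. -/
private theorem BrA_deg {β : Type} [Fintype β] {T : SimpleGraph β} (hT : T.IsTree)
    (h : 3 ≤ Fintype.card β) : ∃ r, 2 ≤ dg T r := by
  obtain ⟨r, s, t, hrs, hrt, hst⟩ := Fintype.two_lt_card_iff.1 h
  obtain ⟨par, dep, hp1, -⟩ := exists_parent hT r
  by_cases h1 : par s = r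
  · by_cases h2 : par t = r
    · have h3 := (hp1 s hrs.symm).1
      have h4 := (hp1 t hrt.symm).1
      rw [h1] at h3
      rw [h2] at h4
      exact ⟨r, BrA_two h3.symm h4.symm hst⟩
    · exact ⟨_, BrA_par hp1 hrt.symm h2⟩
  · exact ⟨_, BrA_par hp1 hrs.symm h1⟩

open Classical in
/-- Proof: root any vertex `r` with `2 ≤ dg r` (degree sum); `host_embed` with `Q` always true, `A t = X`,
`D₀ = {r}`, `n = a`. -/
theorem br_core {β V : Type} [Fintype β] [Fintype V] {T : SimpleGraph β} (hT : T.IsTree)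
    (G : SimpleGraph V) {k a : ℕ} (h2 : 2 ≤ k) (hk : Fintype.card β = k + 1)
    (hn : (univ.filter fun t => 2 ≤ dg T t).card ≤ a) (X : Finset V) (hX : X.Nonempty)
    (hXd : ∀ v ∈ X, k ≤ dg G v) (hXa : ∀ v ∈ X, a ≤ (X.filter fun x => G.Adj v x).card) :
    T.IsContained G := by
  obtain ⟨r, hr⟩ := BrA_deg hT (by omega)
  obtain ⟨par, dep, hp1, hp2⟩ := exists_parent hT r
  obtain ⟨x₀, hx₀⟩ := hX
  obtain ⟨Q, hQ⟩ : ∃ Q : β → Prop, ∀ t, Q t := ⟨fun _ => True, fun _ => trivial⟩
  refine host_embed G hk hp1 hp2 hr Q (fun _ => X) (fun _ _ v hv => hXd v hv) {r}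
    (mem_singleton_self r) ?_ ?_ (fun _ => x₀) (fun _ _ => hx₀) ?_ ?_ (n := a) ?_
    (fun _ _ _ v hv => hXa v hv)
  · intro t ht htr
    exact absurd (mem_singleton.1 ht) htr
  · intro t ht
    rw [mem_singleton.1 ht]
    exact hr
  · intro t ht u hu _
    rw [mem_singleton.1 ht, mem_singleton.1 hu]
  · intro t ht htr
    exact absurd (mem_singleton.1 ht) htr
  · refine (card_le_card ?_).trans hn
    intro t ht
    rw [mem_filter] at ht ⊢
    refine ⟨mem_univ _, ?_⟩
    rcases ht.2 with h | ⟨-, h⟩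
    · exact h
    · exact absurd (hQ _) h

open Classical in
/-- Proof: `exists_parent` for the root `z₁`; `host_embed` with `Q t` : `col t = col z₁`, `A t = P` if
`Q t`, `A t = R` otherwise, `D₀ = {z₁}`, `n = a`.  The set in `hn` of `host_embed` is contained in the
set of `hsm`: if `¬ Q p` then `p ≠ z₁, z₂`, and parents have degree at least 2. -/
theorem br_even {β V : Type} [Fintype β] [Fintype V] {T : SimpleGraph β} (hT : T.IsTree)
    (G : SimpleGraph V) {k a : ℕ} (hk : Fintype.card β = k + 1) {z₁ z₂ : β} (hz : 2 ≤ dg T z₁)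
    (hsm : (univ.filter fun t => 2 ≤ dg T t ∨
      ∃ p, p ≠ z₁ ∧ p ≠ z₂ ∧ 2 ≤ dg T p ∧ T.Adj p t).card ≤ a)
    (col : β → Bool) (hcol : ∀ u v, T.Adj u v → col u ≠ col v) (hc : col z₁ = col z₂)
    (P R : Finset V) (hP : P.Nonempty) (hPd : ∀ v ∈ P, k ≤ dg G v)
    (hPa : ∀ v ∈ P, a ≤ (R.filter fun x => G.Adj v x).card)
    (hRa : ∀ v ∈ R, a ≤ (P.filter fun x => G.Adj v x).card) : T.IsContained G := by
  obtain ⟨par, dep, hp1, hp2⟩ := exists_parent hT z₁
  obtain ⟨x₀, hx₀⟩ := hP
  obtain ⟨Q, hQ⟩ : ∃ Q : β → Prop, ∀ t, Q t ↔ col t = col z₁ := ⟨_, fun _ => Iff.rfl⟩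
  have hQ1 : Q z₁ := (hQ _).2 rfl
  have hQ2 : Q z₂ := (hQ _).2 hc.symm
  have hpar : ∀ t, t ≠ z₁ → (Q t ↔ ¬ Q (par t)) := by
    intro t ht
    have hct : col t ≠ col (par t) := hcol _ _ (hp1 t ht).1
    rw [hQ, hQ]
    revert hct
    cases col t <;> cases col (par t) <;> cases col z₁ <;> simp
  refine host_embed G hk hp1 hp2 hz Q (fun t => if Q t then P else R) ?_ {z₁}
    (mem_singleton_self z₁) ?_ ?_ (fun _ => x₀) ?_ ?_ ?_ (n := a) ?_ ?_
  · intro t ht v hv
    simp only [if_pos ht] at hv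
    exact hPd v hv
  · intro t ht htr
    exact absurd (mem_singleton.1 ht) htr
  · intro t ht
    rw [mem_singleton.1 ht]
    exact hz
  · intro t ht
    rw [mem_singleton.1 ht]
    simp only [if_pos hQ1]
    exact hx₀
  · intro t ht u hu _
    rw [mem_singleton.1 ht, mem_singleton.1 hu]
  · intro t ht htr
    exact absurd (mem_singleton.1 ht) htr
  · refine (card_le_card ?_).trans hsm
    intro t ht
    rw [mem_filter] at ht ⊢
    refine ⟨mem_univ _, ?_⟩
    rcases ht.2 with h | ⟨h1, h2⟩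
    · exact Or.inl h
    · right
      have h3 : par t ≠ z₁ := fun h => h2 (h ▸ hQ1)
      have h4 : par t ≠ z₂ := fun h => h2 (h ▸ hQ2)
      exact ⟨par t, h3, h4, BrA_par hp1 h1 h3, (hp1 t h1).1.symm⟩
  · intro t ht _ v hv
    have h1 := hpar t fun h => ht (mem_singleton.2 h)
    by_cases h2 : Q t
    · have h3 := h1.1 h2
      simp only [if_neg h3] at hv
      simp only [if_pos h2]
      exact hRa v hv
    · have h3 : Q (par t) := by
        by_contra h4
        exact h2 (h1.2 h4)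
      simp only [if_pos h3] at hv
      simp only [if_neg h2]
      exact hPa v hv

open Classical in
/-- Proof: `exists_parent` for the root `z₂`; `host_embed` with `Q t` : `t = z₂ ∨ col t ≠ col z₂`,
`A z₂ = {u}`, `A t = P` for `col t ≠ col z₂`, `A t = R` for the other `t`, `D₀ = {z₂}`, `n = a`. -/
theorem br_odd1 {β V : Type} [Fintype β] [Fintype V] {T : SimpleGraph β} (hT : T.IsTree)
    (G : SimpleGraph V) {k a : ℕ} (hk : Fintype.card β = k + 1) {z₁ z₂ : β} (hz : 2 ≤ dg T z₂)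
    (hsm : (univ.filter fun t => 2 ≤ dg T t ∨
      ∃ p, p ≠ z₁ ∧ p ≠ z₂ ∧ 2 ≤ dg T p ∧ T.Adj p t).card ≤ a)
    (col : β → Bool) (hcol : ∀ u v, T.Adj u v → col u ≠ col v) (hc : col z₁ ≠ col z₂)
    (P R : Finset V) (hPd : ∀ v ∈ P, k ≤ dg G v)
    (hPa : ∀ v ∈ P, a ≤ (R.filter fun x => G.Adj v x).card)
    (hRa : ∀ v ∈ R, a ≤ (P.filter fun x => G.Adj v x).card) (u : V) (hu : k ≤ dg G u)
    (hua : a ≤ (P.filter fun x => G.Adj u x).card) : T.IsContained G := by
  obtain ⟨par, dep, hp1, hp2⟩ := exists_parent hT z₂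
  have hpar : ∀ t, t ≠ z₂ → (col t ≠ col z₂ ↔ col (par t) = col z₂) := by
    intro t ht
    have hct : col t ≠ col (par t) := hcol _ _ (hp1 t ht).1
    revert hct
    cases col t <;> cases col (par t) <;> cases col z₂ <;> simp
  obtain ⟨A, hA1, hA2, hA3⟩ : ∃ A : β → Finset V, A z₂ = {u} ∧
      (∀ t, t ≠ z₂ → col t ≠ col z₂ → A t = P) ∧ ∀ t, t ≠ z₂ → col t = col z₂ → A t = R := by
    refine ⟨fun t => if t = z₂ then {u} else if col t = col z₂ then R else P, ?_, ?_, ?_⟩
    · simp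
    · intro t h1 h2
      simp only [if_neg h1, if_neg h2]
    · intro t h1 h2
      simp only [if_neg h1, if_pos h2]
  obtain ⟨Q, hQ⟩ : ∃ Q : β → Prop, ∀ t, Q t ↔ (t = z₂ ∨ col t ≠ col z₂) :=
    ⟨_, fun _ => Iff.rfl⟩
  refine host_embed G hk hp1 hp2 hz Q A ?_ {z₂}
    (mem_singleton_self z₂) ?_ ?_ (fun _ => u) ?_ ?_ ?_ (n := a) ?_ ?_
  · intro t ht v hv
    by_cases h : t = z₂
    · rw [h, hA1, mem_singleton] at hv
      rw [hv]
      exact hu
    · rcases (hQ t).1 ht with h1 | h1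
      · exact absurd h1 h
      · rw [hA2 t h h1] at hv
        exact hPd v hv
  · intro t ht htr
    exact absurd (mem_singleton.1 ht) htr
  · intro t ht
    rw [mem_singleton.1 ht]
    exact hz
  · intro t ht
    rw [mem_singleton.1 ht, hA1]
    exact mem_singleton_self u
  · intro t ht t' ht' _
    rw [mem_singleton.1 ht, mem_singleton.1 ht']
  · intro t ht htr
    exact absurd (mem_singleton.1 ht) htr
  · refine (card_le_card ?_).trans hsm
    intro t ht
    rw [mem_filter] at ht ⊢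
    refine ⟨mem_univ _, ?_⟩
    rcases ht.2 with h | ⟨h1, h2⟩
    · exact Or.inl h
    · right
      rw [hQ] at h2
      push Not at h2
      have h3 : par t ≠ z₁ := by
        intro h
        rw [h] at h2
        exact hc h2.2
      exact ⟨par t, h3, h2.1, BrA_par hp1 h1 h2.1, (hp1 t h1).1.symm⟩
  · intro t ht _ v hv
    have htz : t ≠ z₂ := fun h => ht (mem_singleton.2 h)
    by_cases hpt : par t = z₂
    · have h1 : col t ≠ col z₂ := (hpar t htz).2 (by rw [hpt])
      rw [hpt, hA1, mem_singleton] at hv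
      rw [hA2 t htz h1, hv]
      exact hua
    · by_cases h1 : col t = col z₂
      · have h2 : col (par t) ≠ col z₂ := fun h => (hpar t htz).2 h h1
        rw [hA2 _ hpt h2] at hv
        rw [hA3 t htz h1]
        exact hPa v hv
      · have h2 : col (par t) = col z₂ := (hpar t htz).1 h1
        rw [hA3 _ hpt h2] at hv
        rw [hA2 t htz h1]
        exact hRa v hv

end KS137
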