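import Pool.Agent.H.MP_137e81_co.ls.Host
import Pool.Agent.H.MP_137e81_co.ls.HubC
import Pool.Agent.H.MP_137e81_co.ls.HubD
import Pool.Agent.H.MP_137e81_co.ls.Par

/-! Trees with few vertices which are not leaves: the case of an edge between good vertices. -/

set_option autoImplicit false

namespace KS137

open Finset

/-- Two different neighbours. -/
private theorem BrB_two {β : Type} [Fintype β] {T : SimpleGraph β} {t x y : β} (hx : T.Adj t x)
    (hy : T.Adj t y) (hxy : x ≠ y) : 2 ≤ dg T t := by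
  classical
  unfold dg
  rw [← card_pair hxy]
  apply card_le_card
  intro z hz
  rw [mem_insert, mem_singleton] at hz
  rw [mem_filter]
  rcases hz with rfl | rfl
  · exact ⟨mem_univ _, hx⟩
  · exact ⟨mem_univ _, hy⟩

/-- The top of a vertex which is not its own top is a parent. -/
private theorem BrB_top {β : Type} {par top : β → β} {dep : β → ℕ} {r : β}
    (hp : ∀ t, t ≠ r → dep (par t) < dep t) (h1 : ∀ t, t ≠ r → par t = r → top t = t)
    (h2 : ∀ t, t ≠ r → par t ≠ r → top t = top (par t)) :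
    ∀ n t, dep t ≤ n → t ≠ r → top t ≠ t → ∃ s, s ≠ r ∧ par s = top t := by
  intro n
  induction n with
  | zero =>
    intro t ht hr _
    have := hp t hr
    omega
  | succ n ih =>
    intro t ht hr htop
    have hpr : par t ≠ r := fun h => htop (h1 t hr h)
    have h3 := h2 t hr hpr
    by_cases h4 : top (par t) = par t
    · exact ⟨t, hr, by rw [h3, h4]⟩
    · obtain ⟨s, hs, hs'⟩ := ih (par t) (by have := hp t hr; omega) hpr h4
      exact ⟨s, hs, by rw [hs', h3]⟩

open Classical in
/-- Proof: `exists_parent` for the root `z₂`, `exists_top`: `top`; `y = top z₁`, `S t` : `t ≠ z₂ ∧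
top t = y`.  `host_embed` with `Q t` : `(S t ∧ col t ≠ col z₂) ∨ (¬ S t ∧ col t = col z₂)` (`col y ≠ col z₂`,
so `Q z₁`, `Q z₂`, `Q y`), `A t = P` if `Q t`, `A t = R` otherwise, `D₀ = {z₂, y}`, `f₀ z₂ = u`,
`f₀ y = w`, `n = a`.  For `t ∉ D₀`: `S t ↔ S (par t)`, so exactly one of `Q t`, `Q (par t)` holds.
`2 ≤ dg y`: if `y = z₁` by `hz1`, otherwise `y` has the neighbours `z₂` and a vertex of its subtree
which contains `z₁` (for example: `y` is the parent of some vertex, as `top z₁ = y ≠ z₁`). -/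
theorem br_odd2 {β V : Type} [Fintype β] [Fintype V] {T : SimpleGraph β} (hT : T.IsTree)
    (G : SimpleGraph V) {k a : ℕ} (hk : Fintype.card β = k + 1) {z₁ z₂ : β} (hz1 : 2 ≤ dg T z₁)
    (hz2 : 2 ≤ dg T z₂)
    (hsm : (univ.filter fun t => 2 ≤ dg T t ∨
      ∃ p, p ≠ z₁ ∧ p ≠ z₂ ∧ 2 ≤ dg T p ∧ T.Adj p t).card ≤ a)
    (col : β → Bool) (hcol : ∀ u v, T.Adj u v → col u ≠ col v) (hc : col z₁ ≠ col z₂)
    (P R : Finset V) (hPd : ∀ v ∈ P, k ≤ dg G v)
    (hPa : ∀ v ∈ P, a ≤ (R.filter fun x => G.Adj v x).card)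
    (hRa : ∀ v ∈ R, a ≤ (P.filter fun x => G.Adj v x).card) (u w : V) (hu : u ∈ P) (hw : w ∈ P)
    (huw : G.Adj u w) : T.IsContained G := by
  obtain ⟨par, dep, hp1, hp2⟩ := exists_parent hT z₂
  obtain ⟨top, ht1, ht2, ht3⟩ := exists_top (par := par) (dep := dep) (r := z₂)
    fun t ht => (hp1 t ht).2
  have hz : z₁ ≠ z₂ := fun h => hc (by rw [h])
  obtain ⟨y, hy⟩ : ∃ y, y = top z₁ := ⟨_, rfl⟩
  have hy2 : y ≠ z₂ := by rw [hy]; exact (ht3 z₁ hz).1
  have hpy : par y = z₂ := by rw [hy]; exact (ht3 z₁ hz).2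
  have hty : top y = y := ht1 y hy2 hpy
  have hyadj : T.Adj y z₂ := by
    have := (hp1 y hy2).1
    rwa [hpy] at this
  have hcy : col y ≠ col z₂ := hcol y z₂ hyadj
  have hdy : 2 ≤ dg T y := by
    by_cases h : z₁ = y
    · rw [← h]
      exact hz1
    · have h4 : top z₁ ≠ z₁ := by
        rw [← hy]
        exact fun h5 => h h5.symm
      obtain ⟨s, hs, hs'⟩ := BrB_top (fun t ht => (hp1 t ht).2) ht1 ht2 (dep z₁) z₁ le_rfl hz h4
      rw [← hy] at hs'
      have h5 : T.Adj y s := by
        have := (hp1 s hs).1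
        rw [hs'] at this
        exact this.symm
      exact BrB_two hyadj h5 (Ne.symm hs)
  set S : β → Prop := fun t => t ≠ z₂ ∧ top t = y with hS
  obtain ⟨Q, hQ⟩ : ∃ Q : β → Prop, ∀ t, Q t ↔
      (S t ∧ col t ≠ col z₂) ∨ (¬ S t ∧ col t = col z₂) := ⟨_, fun _ => Iff.rfl⟩
  have hQ1 : Q z₁ := (hQ _).2 (Or.inl ⟨⟨hz, hy.symm⟩, hc⟩)
  have hQ2 : Q z₂ := (hQ _).2 (Or.inr ⟨fun h => h.1 rfl, rfl⟩)
  have hQy : Q y := (hQ _).2 (Or.inl ⟨⟨hy2, hty⟩, hcy⟩)
  have hpar : ∀ t, t ≠ z₂ → t ≠ y → (Q t ↔ ¬ Q (par t)) := by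
    intro t ht hty'
    have hSt : S t ↔ S (par t) := by
      by_cases h : par t = z₂
      · constructor
        · rintro ⟨-, h1⟩
          rw [ht1 t ht h] at h1
          exact absurd h1 hty'
        · rintro ⟨h1, -⟩
          exact absurd h h1
      · constructor
        · rintro ⟨-, h1⟩
          exact ⟨h, by rw [← ht2 t ht h]; exact h1⟩
        · rintro ⟨-, h1⟩
          exact ⟨ht, by rw [ht2 t ht h]; exact h1⟩
    have hct : col t ≠ col (par t) := hcol _ _ (hp1 t ht).1
    have hcc : col t = col z₂ ↔ col (par t) ≠ col z₂ := by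
      revert hct
      cases col t <;> cases col (par t) <;> cases col z₂ <;> simp
    have hcc' : col (par t) = col z₂ ↔ col t ≠ col z₂ := by
      rw [ne_eq, hcc, ne_eq, not_not]
    rw [hQ, hQ]
    by_cases h1 : S (par t)
    · have h2 : S t := hSt.2 h1
      simp only [h1, h2, true_and, not_true_eq_false, false_and, or_false, ne_eq, not_not]
      exact hcc'.symm
    · have h2 : ¬ S t := fun h => h1 (hSt.1 h)
      simp only [h1, h2, false_and, not_false_eq_true, true_and, false_or]
      exact hcc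
  refine host_embed G hk hp1 hp2 hz2 Q (fun t => if Q t then P else R) ?_ {z₂, y} ?_ ?_ ?_
    (fun t => if t = z₂ then u else w) ?_ ?_ ?_ (n := a) ?_ ?_
  · intro t ht v hv
    simp only [if_pos ht] at hv
    exact hPd v hv
  · simp
  · intro t ht htr
    rw [mem_insert, mem_singleton] at ht
    rcases ht with rfl | rfl
    · exact absurd rfl htr
    · rw [hpy]
      simp
  · intro t ht
    rw [mem_insert, mem_singleton] at ht
    rcases ht with rfl | rfl
    · exact hz2
    · exact hdy
  · intro t ht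
    rw [mem_insert, mem_singleton] at ht
    rcases ht with rfl | rfl
    · simp only [if_pos hQ2, if_true]
      exact hu
    · simp only [if_pos hQy, if_neg hy2]
      exact hw
  · intro t ht t' ht' h
    rw [mem_insert, mem_singleton] at ht ht'
    have hne := huw.ne
    rcases ht with rfl | rfl <;> rcases ht' with rfl | rfl
    · rfl
    · simp only [if_true, if_neg hy2] at h
      exact absurd h hne
    · simp only [if_true, if_neg hy2] at h
      exact absurd h.symm hne
    · rfl
  · intro t ht htr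
    rw [mem_insert, mem_singleton] at ht
    rcases ht with rfl | rfl
    · exact absurd rfl htr
    · simp only [hpy, if_true, if_neg hy2]
      exact huw
  · refine (card_le_card ?_).trans hsm
    intro t ht
    rw [mem_filter] at ht ⊢
    refine ⟨mem_univ _, ?_⟩
    rcases ht.2 with h | ⟨h1, h2⟩
    · exact Or.inl h
    · right
      have h3 : par t ≠ z₁ := fun h => h2 (h ▸ hQ1)
      have h4 : par t ≠ z₂ := fun h => h2 (h ▸ hQ2)
      have h5 := hp1 t h1
      have h6 := hp1 (par t) h4
      refine ⟨par t, h3, h4, BrB_two h6.1 h5.1.symm ?_, h5.1.symm⟩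
      intro h
      have h7 := h6.2
      rw [h] at h7
      omega
  · intro t ht hor v hv
    rw [mem_insert, mem_singleton, not_or] at ht
    have h1 := hpar t ht.1 ht.2
    by_cases h2 : Q t
    · have h3 := h1.1 h2
      simp only [if_neg h3] at hv
      simp only [if_pos h2]
      exact hRa v hv
    · have h3 : Q (par t) := by
        by_contra h4
        exact h2 (h1.2 h4)
      simp only [if_pos h3] at hv
      simp only [if_neg h2]
      exact hPa v hv

end KS137
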