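import Pool.Agent.H.MP_137e81_co.ls.Emb

/-! The last leaves. -/

set_option autoImplicit false

namespace KS137

open Finset

open Classical in
/-- Proof: the end of the proof of `embed` in Emb.lean. -/
theorem finish {β V : Type} [Fintype β] [Fintype V] {T : SimpleGraph β} (G : SimpleGraph V)
    {k : ℕ} (hk : Fintype.card β = k + 1) {par : β → β} {r : β}
    (hp2 : ∀ u v, T.Adj u v → (u ≠ r ∧ par u = v) ∨ (v ≠ r ∧ par v = u)) (D : Finset β)
    (f : β → V) (hi : ∀ t ∈ D, ∀ u ∈ D, f t = f u → t = u)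
    (ha : ∀ t ∈ D, t ≠ r → par t ∈ D ∧ G.Adj (f (par t)) (f t))
    (hD : ∀ t, t ∉ D → t ≠ r ∧ par t ∈ D ∧ k ≤ dg G (f (par t))) : T.IsContained G := by
  obtain ⟨g, hg, hgm⟩ := exists_sdr (Z := {t // t ∉ D})
    (fun t => (univ.filter fun x => G.Adj (f (par t)) x) \ (D.image f).erase (f (par t))) (by
      intro t
      obtain ⟨h1, h2, h4⟩ := hD t t.2
      unfold dg at h4
      have h5 : ((D.image f).erase (f (par t))).card + 1 ≤ D.card := by
        rw [Finset.card_erase_add_one (Finset.mem_image_of_mem f h2)]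
        exact Finset.card_image_le
      have h6 := Finset.le_card_sdiff ((D.image f).erase (f (par t)))
        (univ.filter fun x => G.Adj (f (par t)) x)
      have h7 : Fintype.card {t // t ∉ D} + D.card = k + 1 := by
        rw [Fintype.card_subtype_compl, Fintype.card_coe, hk]
        have := Finset.card_le_univ D
        omega
      omega)
  have hg1 : ∀ t : {t // t ∉ D}, G.Adj (f (par t)) (g t) := by
    intro t
    have h1 := Finset.mem_sdiff.1 (hgm t)
    exact (Finset.mem_filter.1 h1.1).2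
  have hg2 : ∀ t : {t // t ∉ D}, ∀ u ∈ D, f u ≠ g t := by
    intro t u hu h1
    have h2 := Finset.mem_sdiff.1 (hgm t)
    refine h2.2 (Finset.mem_erase.2 ⟨?_, h1 ▸ Finset.mem_image_of_mem f hu⟩)
    intro h3
    have h4 := hg1 t
    rw [h3] at h4
    exact G.loopless.irrefl _ h4
  obtain ⟨F, hF⟩ : ∃ F : β → V, F = fun t => if ht : t ∈ D then f t else g ⟨t, ht⟩ := ⟨_, rfl⟩
  have hF1 : ∀ t, t ∈ D → F t = f t := by
    intro t ht
    rw [hF]
    exact dif_pos ht
  have hF2 : ∀ t (ht : t ∉ D), F t = g ⟨t, ht⟩ := by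
    intro t ht
    rw [hF]
    exact dif_neg ht
  have hinj : Function.Injective F := by
    intro t u htu
    by_cases ht : t ∈ D
    · by_cases hu : u ∈ D
      · rw [hF1 t ht, hF1 u hu] at htu
        exact hi t ht u hu htu
      · rw [hF1 t ht, hF2 u hu] at htu
        exact absurd htu (hg2 _ t ht)
    · by_cases hu : u ∈ D
      · rw [hF2 t ht, hF1 u hu] at htu
        exact absurd htu.symm (hg2 _ u hu)
      · rw [hF2 t ht, hF2 u hu] at htu
        exact congrArg Subtype.val (hg htu)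
  have hpar : ∀ t, t ≠ r → G.Adj (F (par t)) (F t) := by
    intro t htr
    by_cases ht : t ∈ D
    · obtain ⟨h1, h2⟩ := ha t ht htr
      rw [hF1 _ h1, hF1 t ht]
      exact h2
    · rw [hF1 _ (hD t ht).2.1, hF2 t ht]
      exact hg1 ⟨t, ht⟩
  have hadj : ∀ u v, T.Adj u v → G.Adj (F u) (F v) := by
    intro u v huv
    rcases hp2 u v huv with ⟨h1, rfl⟩ | ⟨h1, rfl⟩
    · exact (hpar u h1).symm
    · exact hpar v h1
  exact ⟨⟨⟨F, fun {u v} huv => hadj u v huv⟩, hinj⟩⟩

end KS137
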