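import Pool.Agent.H.MP_137e81_co.ls.HostA
import Pool.Agent.H.MP_137e81_co.ls.HostB
import Pool.Agent.H.MP_137e81_co.ls.HubC
import Pool.Agent.H.MP_137e81_co.ls.HubD

/-! The exact embedding of the trees with two vertices of large degree. -/

set_option autoImplicit false

namespace KS137

open Finset

open Classical in
/-- Proof: `exists_parent` for the root `z₂`.  `greedy_host` for `D₀ = {z₂}`, `f₀ z₂ = v₀`,
`N = univ.filter (2 ≤ dg t ∨ (t ≠ z₂ ∧ par t ≠ z₂ ∧ col (par t) = col z₂))`, hosts `A z₂ = {v₀}`,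
`A t = Γ₀` if `t` is adjacent to `z₂`, `A t = P \ Γ₀` if `col t ≠ col z₂` and `t` is not adjacent to `z₂`,
`A t = R \ insert v₀ F` if `col t = col z₂`, `t ≠ z₂`.  Then the leaves adjacent to `z₂`: their number is
`dg z₂ - di z₂ = #(Γ₀ \ f(N))`, as exactly the `di z₂` vertices of `N` adjacent to `z₂` are mapped to `Γ₀`
(`P`, `R` disjoint); choose an injection of them to `Γ₀ \ f(N)`.  `finish` for `D = N ∪` these leaves:
`t ∉ D` is a leaf, its parent `p` is not `z₂` and `col p ≠ col z₂`, so `f p ∈ P`. -/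
theorem br_exact {β V : Type} [Fintype β] [Fintype V] {T : SimpleGraph β} (hT : T.IsTree)
    (G : SimpleGraph V) {k a : ℕ} (hk : Fintype.card β = k + 1) {z₁ z₂ : β} (hz2 : 2 ≤ dg T z₂)
    (hsm : (univ.filter fun t => 2 ≤ dg T t ∨
      ∃ p, p ≠ z₁ ∧ p ≠ z₂ ∧ 2 ≤ dg T p ∧ T.Adj p t).card ≤ a)
    (col : β → Bool) (hcol : ∀ u v, T.Adj u v → col u ≠ col v) (hc : col z₁ ≠ col z₂)
    (P R F Γ₀ : Finset V) (hdis : Disjoint P R) (hPd : ∀ v ∈ P, k ≤ dg G v) {v₀ : V}
    (hv₀ : v₀ ∈ R) (hΓP : Γ₀ ⊆ P) (hΓa : ∀ x ∈ Γ₀, G.Adj v₀ x) (hΓc : Γ₀.card = dg T z₂)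
    (haz : a ≤ dg T z₂)
    (hPa : ∀ v ∈ P, a ≤ ((R \ insert v₀ F).filter fun x => G.Adj v x).card)
    (hRa : ∀ v ∈ R, v ∉ F → v ≠ v₀ → a ≤ ((P \ Γ₀).filter fun x => G.Adj v x).card) :
    T.IsContained G := by
  have hb : ∀ x y z : Bool, x ≠ y → x ≠ z → y = z := by decide
  obtain ⟨par, dep, hp1, hp2⟩ := exists_parent hT z₂
  have hpar : ∀ t, t ≠ z₂ → 2 ≤ dg T (par t) := by
    intro t ht
    by_cases h1 : par t = z₂
    · rw [h1]
      exact hz2
    · refine two_le_dg (hp1 t ht).1.symm (hp1 (par t) h1).1 ?_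
      intro h2
      have h3 := (hp1 t ht).2
      have h4 := (hp1 (par t) h1).2
      rw [← h2] at h4
      omega
  have hadj : ∀ t, T.Adj z₂ t → t ≠ z₂ ∧ par t = z₂ := by
    intro t ht
    rcases hp2 z₂ t ht with ⟨h1, -⟩ | h1
    · exact absurd rfl h1
    · exact h1
  obtain ⟨N, hN⟩ : ∃ N : Finset β, N = univ.filter fun t =>
      2 ≤ dg T t ∨ (t ≠ z₂ ∧ par t ≠ z₂ ∧ col (par t) = col z₂) := ⟨_, rfl⟩
  have memN : ∀ t, t ∈ N ↔ 2 ≤ dg T t ∨ (t ≠ z₂ ∧ par t ≠ z₂ ∧ col (par t) = col z₂) := by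
    intro t
    rw [hN, mem_filter]
    exact ⟨fun h => h.2, fun h => ⟨mem_univ _, h⟩⟩
  have hNa : N.card ≤ a := by
    refine le_trans (card_le_card ?_) hsm
    intro t ht
    rw [memN] at ht
    rw [mem_filter]
    refine ⟨mem_univ _, ?_⟩
    rcases ht with h | ⟨h1, h2, h3⟩
    · exact Or.inl h
    · refine Or.inr ⟨par t, ?_, h2, hpar t h1, (hp1 t h1).1.symm⟩
      intro h4
      rw [h4] at h3
      exact hc h3
  have hz2N : z₂ ∈ N := (memN z₂).2 (Or.inl hz2)
  -- the hosts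
  obtain ⟨A, hA⟩ : ∃ A : β → Finset V, A = fun t => if t = z₂ then {v₀} else
      if par t = z₂ then Γ₀ else if col t = col z₂ then R \ insert v₀ F else P \ Γ₀ := ⟨_, rfl⟩
  have A0 : A z₂ = {v₀} := by
    rw [hA]
    exact if_pos rfl
  have A1 : ∀ t, t ≠ z₂ → par t = z₂ → A t = Γ₀ := by
    intro t h1 h2
    rw [hA]
    show (if t = z₂ then _ else _) = _
    rw [if_neg h1, if_pos h2]
  have A2 : ∀ t, t ≠ z₂ → par t ≠ z₂ → col t = col z₂ → A t = R \ insert v₀ F := by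
    intro t h1 h2 h3
    rw [hA]
    show (if t = z₂ then _ else _) = _
    rw [if_neg h1, if_neg h2, if_pos h3]
  have A3 : ∀ t, t ≠ z₂ → par t ≠ z₂ → col t ≠ col z₂ → A t = P \ Γ₀ := by
    intro t h1 h2 h3
    rw [hA]
    show (if t = z₂ then _ else _) = _
    rw [if_neg h1, if_neg h2, if_neg h3]
  have AP : ∀ t, col t ≠ col z₂ → A t ⊆ P := by
    intro t ht
    have h1 : t ≠ z₂ := fun h => ht (by rw [h])
    by_cases h2 : par t = z₂
    · rw [A1 t h1 h2]
      exact hΓP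
    · rw [A3 t h1 h2 ht]
      exact sdiff_subset
  obtain ⟨f, f0, fA, fi, fa⟩ := greedy_host G (fun t ht => (hp1 t ht).2) N {z₂}
    (by
      rw [singleton_subset_iff]
      exact hz2N) (mem_singleton_self z₂)
    (fun t ht h => absurd (mem_singleton.1 ht) h)
    (fun t _ h => (memN _).2 (Or.inl (hpar t h))) A (fun _ => v₀)
    (by
      intro t ht
      rw [mem_singleton.1 ht, A0]
      exact mem_singleton_self _)
    (by
      intro t ht u hu _
      rw [mem_singleton.1 ht, mem_singleton.1 hu])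
    (fun t ht h => absurd (mem_singleton.1 ht) h)
    (by
      intro t htN htD v hv
      have ht : t ≠ z₂ := fun h => htD (mem_singleton.2 h)
      refine hNa.trans ?_
      by_cases h1 : par t = z₂
      · rw [h1, A0, mem_singleton] at hv
        rw [A1 t ht h1, hv, filter_true_of_mem hΓa, hΓc]
        exact haz
      · by_cases h2 : col t = col z₂
        · rw [A2 t ht h1 h2]
          refine hPa v (AP (par t) ?_ hv)
          rw [← h2]
          exact (hcol _ _ (hp1 t ht).1).symm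
        · rw [A3 t ht h1 h2]
          have h3 : col (par t) = col z₂ := hb _ _ _ (hcol _ _ (hp1 t ht).1) h2
          have h4 : par (par t) ≠ z₂ := by
            intro h4
            have h5 := hcol _ _ (hp1 (par t) h1).1
            rw [h4] at h5
            exact h5 h3
          rw [A2 (par t) h1 h4 h3, mem_sdiff, mem_insert, not_or] at hv
          exact hRa v hv.1 hv.2.2 hv.2.1)
  have fz : f z₂ = v₀ := f0 z₂ (mem_singleton_self z₂)
  -- the leaves adjacent to the root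
  obtain ⟨L, hL⟩ : ∃ L : Finset β, L = (univ.filter fun u => T.Adj z₂ u).filter fun t => t ∉ N :=
    ⟨_, rfl⟩
  obtain ⟨M, hM⟩ : ∃ M : Finset β, M = (univ.filter fun u => T.Adj z₂ u).filter fun t => t ∈ N :=
    ⟨_, rfl⟩
  have hLM : M.card + L.card = dg T z₂ := by
    rw [hL, hM, card_filter_add_card_filter_not]
    rfl
  have memL : ∀ t, t ∈ L ↔ T.Adj z₂ t ∧ t ∉ N := by
    intro t
    rw [hL, mem_filter, mem_filter]
    exact ⟨fun h => ⟨h.1.2, h.2⟩, fun h => ⟨⟨mem_univ _, h.1⟩, h.2⟩⟩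
  have hfree : Γ₀ \ M.image f ⊆ Γ₀ \ N.image f := by
    intro x hx
    rw [mem_sdiff] at hx ⊢
    refine ⟨hx.1, fun h1 => ?_⟩
    obtain ⟨t, ht, rfl⟩ := mem_image.1 h1
    have h2 := fA t ht
    have h3 : f t ∉ R := fun h3 => disjoint_left.1 hdis (hΓP hx.1) h3
    by_cases e1 : t = z₂
    · rw [e1, fz] at h3
      exact h3 hv₀
    · by_cases e2 : par t = z₂
      · refine hx.2 (mem_image.2 ⟨t, ?_, rfl⟩)
        rw [hM, mem_filter, mem_filter]
        have h4 := (hp1 t e1).1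
        rw [e2] at h4
        exact ⟨⟨mem_univ _, h4.symm⟩, ht⟩
      · by_cases e3 : col t = col z₂
        · rw [A2 t e1 e2 e3, mem_sdiff] at h2
          exact h3 h2.1
        · rw [A3 t e1 e2 e3, mem_sdiff] at h2
          exact h2.2 hx.1
  have hcard : L.card ≤ (Γ₀ \ N.image f).card := by
    have h1 := card_le_card hfree
    have h2 := le_card_sdiff (M.image f) Γ₀
    have h3 : (M.image f).card ≤ M.card := card_image_le
    omega
  obtain ⟨g⟩ : Nonempty ({t // t ∈ L} ↪ {x // x ∈ Γ₀ \ N.image f}) :=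
    Function.Embedding.nonempty_of_card_le (by rw [Fintype.card_coe, Fintype.card_coe]; exact hcard)
  obtain ⟨f', hf'⟩ : ∃ f' : β → V, f' = fun t => if h : t ∈ L then (g ⟨t, h⟩).1 else f t :=
    ⟨_, rfl⟩
  have fL : ∀ t (h : t ∈ L), f' t = (g ⟨t, h⟩).1 := by
    intro t h
    rw [hf']
    exact dif_pos h
  have fN : ∀ t, t ∈ N → f' t = f t := by
    intro t h
    rw [hf']
    exact dif_neg fun h1 => ((memL t).1 h1).2 h
  have gΓ : ∀ t (h : t ∈ L), (g ⟨t, h⟩).1 ∈ Γ₀ ∧ (g ⟨t, h⟩).1 ∉ N.image f := fun t h =>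
    mem_sdiff.1 (g ⟨t, h⟩).2
  refine finish G hk hp2 (N ∪ L) f' ?_ ?_ ?_
  · intro t ht u hu h
    rw [mem_union] at ht hu
    rcases ht with ht | ht <;> rcases hu with hu | hu
    · rw [fN t ht, fN u hu] at h
      exact fi t ht u hu h
    · rw [fN t ht, fL u hu] at h
      exact absurd (mem_image.2 ⟨t, ht, h⟩) (gΓ u hu).2
    · rw [fL t ht, fN u hu] at h
      exact absurd (mem_image.2 ⟨u, hu, h.symm⟩) (gΓ t ht).2
    · rw [fL t ht, fL u hu] at h
      exact congrArg Subtype.val (g.injective (Subtype.ext h))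
  · intro t ht htz
    rw [mem_union] at ht
    rcases ht with ht | ht
    · have h1 : par t ∈ N := (memN _).2 (Or.inl (hpar t htz))
      refine ⟨mem_union_left _ h1, ?_⟩
      rw [fN t ht, fN _ h1]
      exact fa t ht htz
    · have h1 : par t = z₂ := (hadj t ((memL t).1 ht).1).2
      rw [h1]
      refine ⟨mem_union_left _ hz2N, ?_⟩
      rw [fN z₂ hz2N, fz, fL t ht]
      exact hΓa _ (gΓ t ht).1
  · intro t ht
    rw [mem_union, not_or] at ht
    obtain ⟨h1, h2⟩ := ht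
    have h3 : t ≠ z₂ := fun h => h1 (by rw [h]; exact hz2N)
    have h4 : par t ∈ N := (memN _).2 (Or.inl (hpar t h3))
    have h5 : par t ≠ z₂ := by
      intro h5
      have h6 := (hp1 t h3).1
      rw [h5] at h6
      exact h2 ((memL t).2 ⟨h6.symm, h1⟩)
    have h6 : col (par t) ≠ col z₂ := fun h6 => h1 ((memN t).2 (Or.inr ⟨h3, h5, h6⟩))
    refine ⟨h3, mem_union_left _ h4, ?_⟩
    rw [fN _ h4]
    exact hPd _ (AP _ h6 (fA _ h4))

end KS137
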