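import Pool.Agent.H.MP_137e81_co.ls.Defs

/-! Families of large sets with small intersections have few members. -/

set_option autoImplicit false

namespace KS137

open Finset

open Classical in
/-- Proof: induction on `F` for `#F * b ≤ #(F.biUnion A) + #F.choose 2 * q`. -/
theorem few_pair {V ι : Type} (A : ι → Finset V) (W : Finset V) (F : Finset ι) {b q : ℕ}
    (hA : ∀ i ∈ F, A i ⊆ W) (hb : ∀ i ∈ F, b ≤ (A i).card)
    (hq : ∀ i ∈ F, ∀ j ∈ F, i ≠ j → (A i ∩ A j).card ≤ q) :
    F.card * b ≤ W.card + F.card.choose 2 * q := by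
  have key : ∀ F : Finset ι, (∀ i ∈ F, b ≤ (A i).card) →
      (∀ i ∈ F, ∀ j ∈ F, i ≠ j → (A i ∩ A j).card ≤ q) →
      F.card * b ≤ (F.biUnion A).card + F.card.choose 2 * q := by
    intro F
    induction F using Finset.induction_on with
    | empty =>
      intro _ _
      simp
    | insert i F hi ih =>
      intro hb hq
      have h1 := ih (fun j hj => hb j (mem_insert_of_mem hj))
        (fun j hj k hk => hq j (mem_insert_of_mem hj) k (mem_insert_of_mem hk))
      have h2 := hb i (mem_insert_self i F)
      have h3 : (A i ∩ F.biUnion A).card ≤ F.card * q := by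
        rw [inter_biUnion]
        refine card_biUnion_le.trans ?_
        rw [← smul_eq_mul, ← sum_const]
        refine sum_le_sum fun j hj => hq i (mem_insert_self i F) j (mem_insert_of_mem hj) ?_
        intro h
        exact hi (h ▸ hj)
      have h4 := card_union_add_card_inter (A i) (F.biUnion A)
      have h5 : (F.card + 1).choose 2 = F.card + F.card.choose 2 := by
        rw [Nat.choose_succ_succ' F.card 1, Nat.choose_one_right]
      rw [card_insert_of_notMem hi, biUnion_insert, h5, add_mul, add_mul, one_mul]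
      omega
  refine (key F hb hq).trans (Nat.add_le_add_right (card_le_card ?_) _)
  exact biUnion_subset.2 hA

open Classical in
/-- Proof: let `d x` be the number of `i ∈ F` with `x ∈ A i`.  `#F * b ≤ ∑_{x ∈ W} d x` (double counting),
`d x ≤ s - 1` if `d x < s`, `d x ≤ #F` always, and every `x` with `d x ≥ s` lies in
`W.filter (∀ i ∈ Q, x ∈ A i)` for some `Q ∈ F.powersetCard s` (at most `c` elements each). -/
theorem few_bound {V ι : Type} (A : ι → Finset V) (W : Finset V) (F : Finset ι) {s b c : ℕ}
    (hA : ∀ i ∈ F, A i ⊆ W) (hb : ∀ i ∈ F, b ≤ (A i).card)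
    (hc : ∀ Q ⊆ F, Q.card = s → (W.filter fun x => ∀ i ∈ Q, x ∈ A i).card ≤ c) :
    F.card * b ≤ (s - 1) * W.card + F.card * (F.card.choose s * c) := by
  have h1 : F.card * b ≤ ∑ x ∈ W, (F.filter fun i => x ∈ A i).card := by
    calc F.card * b = ∑ _i ∈ F, b := by rw [sum_const, smul_eq_mul]
      _ ≤ ∑ i ∈ F, (A i).card := sum_le_sum hb
      _ = ∑ i ∈ F, ∑ x ∈ W, (if x ∈ A i then 1 else 0) := by
          refine sum_congr rfl fun i hi => ?_
          rw [← card_filter]
          congr 1
          ext x
          rw [mem_filter]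
          exact ⟨fun h => ⟨hA i hi h, h⟩, fun h => h.2⟩
      _ = ∑ x ∈ W, ∑ i ∈ F, (if x ∈ A i then 1 else 0) := sum_comm
      _ = ∑ x ∈ W, (F.filter fun i => x ∈ A i).card :=
          sum_congr rfl fun x _ => (card_filter _ _).symm
  have h2 : ∀ x ∈ W, (F.filter fun i => x ∈ A i).card ≤
      (s - 1) + F.card * (if s ≤ (F.filter fun i => x ∈ A i).card then 1 else 0) := by
    intro x _
    split_ifs with h
    · have := card_le_card (filter_subset (fun i => x ∈ A i) F)
      omega
    · omega
  have h3 : (W.filter fun x => s ≤ (F.filter fun i => x ∈ A i).card).card ≤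
      F.card.choose s * c := by
    have h4 : (W.filter fun x => s ≤ (F.filter fun i => x ∈ A i).card) ⊆
        (F.powersetCard s).biUnion fun Q => W.filter fun x => ∀ i ∈ Q, x ∈ A i := by
      intro x hx
      obtain ⟨hxW, hxs⟩ := mem_filter.1 hx
      obtain ⟨Q, hQ, hQc⟩ := exists_subset_card_eq hxs
      refine mem_biUnion.2 ⟨Q, mem_powersetCard.2 ⟨hQ.trans (filter_subset _ _), hQc⟩, ?_⟩
      exact mem_filter.2 ⟨hxW, fun i hi => (mem_filter.1 (hQ hi)).2⟩
    refine (card_le_card h4).trans (card_biUnion_le.trans ?_)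
    calc ∑ Q ∈ F.powersetCard s, (W.filter fun x => ∀ i ∈ Q, x ∈ A i).card
        ≤ ∑ _Q ∈ F.powersetCard s, c := by
          refine sum_le_sum fun Q hQ => ?_
          obtain ⟨hQ1, hQ2⟩ := mem_powersetCard.1 hQ
          exact hc Q hQ1 hQ2
      _ = F.card.choose s * c := by rw [sum_const, smul_eq_mul, card_powersetCard]
  calc F.card * b ≤ ∑ x ∈ W, (F.filter fun i => x ∈ A i).card := h1
    _ ≤ ∑ x ∈ W, ((s - 1) + F.card *
        (if s ≤ (F.filter fun i => x ∈ A i).card then 1 else 0)) := sum_le_sum h2
    _ = (s - 1) * W.card + F.card *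
        (W.filter fun x => s ≤ (F.filter fun i => x ∈ A i).card).card := by
        rw [sum_add_distrib, ← mul_sum, card_filter, sum_const, smul_eq_mul, mul_comm W.card]
    _ ≤ (s - 1) * W.card + F.card * (F.card.choose s * c) :=
        Nat.add_le_add_left (Nat.mul_le_mul_left _ h3) _

open Classical in
/-- Proof: otherwise a set `F` of `m` of these vertices, `A v = W.filter (G.Adj v)`, `few_pair`. -/
theorem full_pair {V : Type} [Fintype V] (G : SimpleGraph V) {q m b w : ℕ}
    (hc : ∀ u v : V, u ≠ v → (univ.filter fun x => G.Adj u x ∧ G.Adj v x).card ≤ q)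
    (h : w + m.choose 2 * q < m * b) (W : Finset V) (hW : W.card ≤ w) :
    (univ.filter fun v => b ≤ (W.filter fun x => G.Adj v x).card).card < m := by
  by_contra hcon
  obtain ⟨F, hF, hFc⟩ := exists_subset_card_eq (not_lt.1 hcon)
  have h1 := few_pair (fun v => W.filter fun x => G.Adj v x) W F (b := b) (q := q)
    (fun i _ => filter_subset _ _) (fun i hi => (mem_filter.1 (hF hi)).2) (by
      intro i _ j _ hij
      refine (card_le_card ?_).trans (hc i j hij)
      intro x hx
      obtain ⟨hx1, hx2⟩ := mem_inter.1 hx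
      exact mem_filter.2 ⟨mem_univ x, (mem_filter.1 hx1).2, (mem_filter.1 hx2).2⟩)
  rw [hFc] at h1
  omega

open Classical in
/-- Proof: otherwise a set `F` of `m` of these vertices, `A v = W.filter (G.Adj v)`, `few_bound`. -/
theorem full_s {V : Type} [Fintype V] (G : SimpleGraph V) {s c m b w : ℕ}
    (hc : ∀ Q : Finset V, Q.card = s → (univ.filter fun x => ∀ a ∈ Q, G.Adj a x).card ≤ c)
    (h : (s - 1) * w + m * (m.choose s * c) < m * b) (W : Finset V) (hW : W.card ≤ w) :
    (univ.filter fun v => b ≤ (W.filter fun x => G.Adj v x).card).card < m := by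
  by_contra hcon
  obtain ⟨F, hF, hFc⟩ := exists_subset_card_eq (not_lt.1 hcon)
  have h1 := few_bound (fun v => W.filter fun x => G.Adj v x) W F (s := s) (b := b) (c := c)
    (fun i _ => filter_subset _ _) (fun i hi => (mem_filter.1 (hF hi)).2) (by
      intro Q _ hQc
      refine le_trans (card_le_card ?_) (hc Q hQc)
      intro x hx
      simp only [mem_filter, mem_univ, true_and] at hx ⊢
      exact fun i hi => (hx.2 i hi).2)
  rw [hFc] at h1
  have h2 : (s - 1) * W.card ≤ (s - 1) * w := Nat.mul_le_mul_left _ hW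
  omega

end KS137
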