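import Pool.Agent.H.MP_137e81_co.ls.NoSpot
import Pool.Agent.H.MP_137e81_co.ls.Few

/-! Sharpness: graphs with small codegrees have no dense spots. -/

set_option autoImplicit false

namespace KS137

open Finset

open Classical in
/-- Proof: let `A`, `B` be as in the definition with `M e(A, B) > #A #B`.  `#A`, `#B` are greater than
`k / M`.  The set `A'` of the `a ∈ A` with `2 M d_B(a) ≥ #B` satisfies `2 M #A' ≥ #A`, so
`#A' ≥ 4 M`; `few_pair` for `4 M` elements of `A'`: `4 M (#B / (2 M)) ≤ #B + (4 M).choose 2`, so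
`#B ≤ 8 M ^ 2 + ...`, a contradiction for large `k`. -/
theorem noSpot_of_codegree {V : Type} [Fintype V] (G : SimpleGraph V) {M k : ℕ} (hM : 1 ≤ M)
    (hk : 100 * M ^ 3 ≤ k)
    (hc : ∀ u v : V, u ≠ v → (univ.filter fun x => G.Adj u x ∧ G.Adj v x).card ≤ 1) :
    NoSpot G M k := by
  intro A B hA _ hAB hBA
  by_contra hcon
  rw [not_le] at hcon
  obtain ⟨a₀, ha₀⟩ := hA
  -- sizes
  have hB1 : k < M * B.card :=
    (hAB a₀ ha₀).trans_le (Nat.mul_le_mul_left _ (card_le_card (filter_subset _ _)))
  have hBpos : 0 < B.card := by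
    rcases Nat.eq_zero_or_pos B.card with h | h
    · rw [h] at hB1
      omega
    · exact h
  obtain ⟨x₀, hx₀⟩ := card_pos.1 hBpos
  have hA1 : k < M * A.card :=
    (hBA x₀ hx₀).trans_le (Nat.mul_le_mul_left _ (card_le_card (filter_subset _ _)))
  set d : V → ℕ := fun a => (B.filter fun x => G.Adj a x).card with hd
  have hcon' : A.card * B.card < M * ∑ a ∈ A, d a := hcon
  clear hcon
  set A' : Finset V := A.filter fun a => B.card ≤ 2 * M * d a with hA'
  have hsum : 2 * M * ∑ a ∈ A, d a ≤ 2 * M * (A'.card * B.card) + A.card * B.card := by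
    rw [← sum_filter_add_sum_filter_not A (fun a => B.card ≤ 2 * M * d a), mul_add]
    refine Nat.add_le_add (Nat.mul_le_mul_left _ ?_) ?_
    · rw [← smul_eq_mul (a := A'.card), ← sum_const]
      exact sum_le_sum fun a _ => card_le_card (filter_subset _ _)
    · rw [mul_sum]
      calc ∑ a ∈ A.filter (fun a => ¬ B.card ≤ 2 * M * d a), 2 * M * d a
          ≤ ∑ _a ∈ A.filter (fun a => ¬ B.card ≤ 2 * M * d a), B.card :=
            sum_le_sum fun a ha => (not_le.1 (mem_filter.1 ha).2).le
        _ ≤ A.card * B.card := by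
            rw [sum_const, smul_eq_mul]
            exact Nat.mul_le_mul_right _ (card_le_card (filter_subset _ _))
  have hA2 : A.card < 2 * M * A'.card := by
    have h1 : A.card * B.card < 2 * M * A'.card * B.card := by
      have h2 : 2 * (M * ∑ a ∈ A, d a) = 2 * M * ∑ a ∈ A, d a := by ring
      have h3 : 2 * M * A'.card * B.card = 2 * M * (A'.card * B.card) := by ring
      rw [h3]
      omega
    exact lt_of_mul_lt_mul_right h1 (Nat.zero_le _)
  have hM3 : M * (M * M) = M ^ 3 := by ring
  have hA3 : 4 * M ≤ A'.card := by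
    by_contra h
    have h1 : A'.card ≤ 4 * M := by omega
    have h2 : M * A.card ≤ M * (2 * M * (4 * M)) :=
      Nat.mul_le_mul_left _ (hA2.le.trans (Nat.mul_le_mul_left _ h1))
    have h3 : M * (2 * M * (4 * M)) = 8 * M ^ 3 := by ring
    omega
  obtain ⟨F, hF, hFc⟩ := exists_subset_card_eq hA3
  have h1 := few_pair (fun a => B.filter fun x => G.Adj a x) B F (b := B.card / (2 * M)) (q := 1)
    (fun i _ => filter_subset _ _)
    (fun i hi => Nat.div_le_of_le_mul (mem_filter.1 (hF hi)).2) (by
      intro i _ j _ hij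
      refine (card_le_card ?_).trans (hc i j hij)
      intro x hx
      obtain ⟨hx1, hx2⟩ := mem_inter.1 hx
      exact mem_filter.2 ⟨mem_univ x, (mem_filter.1 hx1).2, (mem_filter.1 hx2).2⟩)
  rw [hFc, Nat.choose_two_right] at h1
  have h2 : 4 * M * (4 * M - 1) ≤ 16 * (M * M) := by
    calc 4 * M * (4 * M - 1) ≤ 4 * M * (4 * M) := Nat.mul_le_mul_left _ (Nat.sub_le _ _)
      _ = 16 * (M * M) := by ring
  have h3 := Nat.div_add_mod B.card (2 * M)
  have h4 := Nat.mod_lt B.card (show 2 * M > 0 by omega)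
  have h5 : 4 * M * (B.card / (2 * M)) = 2 * (2 * M * (B.card / (2 * M))) := by ring
  have h6 : M ≤ M * M := Nat.le_mul_self M
  have h7 : B.card ≤ 12 * (M * M) := by omega
  have h8 : M * B.card ≤ M * (12 * (M * M)) := Nat.mul_le_mul_left _ h7
  have h9 : M * (12 * (M * M)) = 12 * M ^ 3 := by ring
  omega

end KS137
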