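import Pool.Agent.H.MP_137e81_co.ls.Defs

/-! Sharpness: the host. -/

set_option autoImplicit false

namespace KS137

open Finset

/-- the incidence relation -/
private def lowB_rel (j q : ℕ) (l : Fin j × ZMod q) (p : Fin (2 * j + 1) × ZMod q) : Prop :=
  p.2 = ((l.1 : ℕ) : ZMod q) * ((p.1 : ℕ) : ZMod q) + l.2

private def lowB_adj (j q : ℕ) :
    (Fin j × ZMod q) ⊕ (Fin (2 * j + 1) × ZMod q) →
    (Fin j × ZMod q) ⊕ (Fin (2 * j + 1) × ZMod q) → Prop
  | Sum.inl l, Sum.inr p => lowB_rel j q l p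
  | Sum.inr p, Sum.inl l => lowB_rel j q l p
  | Sum.inl _, Sum.inl _ => False
  | Sum.inr _, Sum.inr _ => False

private def lowB_graph (j q : ℕ) :
    SimpleGraph ((Fin j × ZMod q) ⊕ (Fin (2 * j + 1) × ZMod q)) where
  Adj := lowB_adj j q
  symm := ⟨by
    rintro (u | p) (v | r) h
    · exact h
    · exact h
    · exact h
    · exact h⟩
  loopless := ⟨by
    rintro (u | p) h
    · exact h
    · exact h⟩

private lemma lowB_cast {q m n : ℕ} (hm : m < q) (hn : n < q)
    (h : ((m : ℕ) : ZMod q) = ((n : ℕ) : ZMod q)) : m = n := by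
  have h1 := (ZMod.natCast_eq_natCast_iff' m n q).1 h
  rwa [Nat.mod_eq_of_lt hm, Nat.mod_eq_of_lt hn] at h1

/-- two lines meet in at most one point -/
private lemma lowB_lines {j q : ℕ} (hq : q.Prime) (hj : 2 * j + 1 < q) {l l' : Fin j × ZMod q}
    (hl : l ≠ l') {p p' : Fin (2 * j + 1) × ZMod q} (h1 : lowB_rel j q l p)
    (h2 : lowB_rel j q l' p) (h3 : lowB_rel j q l p') (h4 : lowB_rel j q l' p') : p = p' := by
  have : Fact q.Prime := ⟨hq⟩
  unfold lowB_rel at h1 h2 h3 h4
  have ha : ((l.1 : ℕ) : ZMod q) ≠ ((l'.1 : ℕ) : ZMod q) := by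
    intro h
    apply hl
    have e1 : l.1 = l'.1 := by
      apply Fin.ext
      have b1 := l.1.isLt
      have b2 := l'.1.isLt
      exact lowB_cast (by omega) (by omega) h
    have e2 : l.2 = l'.2 := by
      have : ((l.1 : ℕ) : ZMod q) * ((p.1 : ℕ) : ZMod q) + l.2
          = ((l'.1 : ℕ) : ZMod q) * ((p.1 : ℕ) : ZMod q) + l'.2 := by rw [← h1, ← h2]
      rw [h] at this
      exact add_left_cancel this
    exact Prod.ext e1 e2
  have hx : ((p.1 : ℕ) : ZMod q) = ((p'.1 : ℕ) : ZMod q) := by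
    have e : (((l.1 : ℕ) : ZMod q) - ((l'.1 : ℕ) : ZMod q)) *
        (((p.1 : ℕ) : ZMod q) - ((p'.1 : ℕ) : ZMod q)) = 0 := by
      linear_combination h2 - h1 + h3 - h4
    rcases mul_eq_zero.1 e with e | e
    · exact absurd (sub_eq_zero.1 e) ha
    · exact sub_eq_zero.1 e
  have e1 : p.1 = p'.1 := by
    apply Fin.ext
    have b1 := p.1.isLt
    have b2 := p'.1.isLt
    exact lowB_cast (by omega) (by omega) hx
  have e2 : p.2 = p'.2 := by rw [h1, h3, hx]
  exact Prod.ext e1 e2

/-- two points are on at most one line -/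
private lemma lowB_points {j q : ℕ} (hq : q.Prime) (hj : 2 * j + 1 < q)
    {l l' : Fin j × ZMod q} {p p' : Fin (2 * j + 1) × ZMod q} (hp : p ≠ p')
    (h1 : lowB_rel j q l p)
    (h2 : lowB_rel j q l' p) (h3 : lowB_rel j q l p') (h4 : lowB_rel j q l' p') : l = l' := by
  by_contra hl
  exact hp (lowB_lines hq hj hl h1 h2 h3 h4)

open Classical in
/-- Proof: `q` a prime greater than `2 j + 1`, `V = (Fin j × ZMod q) ⊕ (Fin (2 j + 1) × ZMod q)`,
the line `(a, b)` is adjacent to the point `(x, y)` if `y = a x + b`.  Lines have degree `2 j + 1`,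
points have degree `j`. -/
theorem exists_plane (j : ℕ) (hj : 1 ≤ j) : ∃ (V : Type) (_ : Fintype V) (G : SimpleGraph V)
    (L : Finset V), L.Nonempty ∧ Fintype.card V * j = (3 * j + 1) * L.card ∧
      (∀ v ∈ L, 2 * j + 1 ≤ dg G v) ∧ (∀ v, v ∉ L → dg G v ≤ j) ∧
      (∀ u v, G.Adj u v → u ∈ L → v ∉ L) ∧
      ∀ u v : V, u ≠ v → (univ.filter fun x => G.Adj u x ∧ G.Adj v x).card ≤ 1 := by
  obtain ⟨q, hq1, hq⟩ := Nat.exists_infinite_primes (2 * j + 2)
  have : Fact q.Prime := ⟨hq⟩
  have : NeZero q := ⟨hq.ne_zero⟩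
  have hjq : 2 * j + 1 < q := by omega
  refine ⟨(Fin j × ZMod q) ⊕ (Fin (2 * j + 1) × ZMod q), inferInstance, lowB_graph j q,
    univ.image Sum.inl, ?_, ?_, ?_, ?_, ?_, ?_⟩
  · exact ⟨Sum.inl (⟨0, hj⟩, 0), Finset.mem_image_of_mem _ (Finset.mem_univ _)⟩
  · rw [Finset.card_image_of_injective _ Sum.inl_injective, Finset.card_univ, Fintype.card_sum,
      Fintype.card_prod, Fintype.card_prod, ZMod.card, Fintype.card_fin, Fintype.card_fin]
    ring
  · intro v hv
    obtain ⟨l, -, rfl⟩ := Finset.mem_image.1 hv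
    have hinj : Function.Injective (fun x : Fin (2 * j + 1) =>
        (Sum.inr (x, ((l.1 : ℕ) : ZMod q) * ((x : ℕ) : ZMod q) + l.2) :
          (Fin j × ZMod q) ⊕ (Fin (2 * j + 1) × ZMod q))) := by
      intro x y hxy
      exact (Prod.ext_iff.1 (Sum.inr_injective hxy)).1
    have hc : (univ.image (fun x : Fin (2 * j + 1) =>
        (Sum.inr (x, ((l.1 : ℕ) : ZMod q) * ((x : ℕ) : ZMod q) + l.2) :
          (Fin j × ZMod q) ⊕ (Fin (2 * j + 1) × ZMod q)))).card = 2 * j + 1 := by
      rw [Finset.card_image_of_injective _ hinj, Finset.card_univ, Fintype.card_fin]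
    refine le_trans (le_of_eq hc.symm) ?_
    unfold dg
    apply Finset.card_le_card
    intro u hu
    obtain ⟨x, -, rfl⟩ := Finset.mem_image.1 hu
    rw [Finset.mem_filter]
    exact ⟨Finset.mem_univ _, rfl⟩
  · intro v hv
    rcases v with l | p
    · exact absurd (Finset.mem_image_of_mem _ (Finset.mem_univ _)) hv
    · have hc : (univ.image (fun a : Fin j =>
          (Sum.inl (a, p.2 - ((a : ℕ) : ZMod q) * ((p.1 : ℕ) : ZMod q)) :
            (Fin j × ZMod q) ⊕ (Fin (2 * j + 1) × ZMod q)))).card ≤ j := by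
        refine le_trans Finset.card_image_le ?_
        rw [Finset.card_univ, Fintype.card_fin]
      refine le_trans (Finset.card_le_card ?_) hc
      intro u hu
      have hu2 := (Finset.mem_filter.1 hu).2
      rcases u with l | p'
      · have hr : lowB_rel j q l p := hu2
        unfold lowB_rel at hr
        refine Finset.mem_image.2 ⟨l.1, Finset.mem_univ _, ?_⟩
        refine congrArg Sum.inl (Prod.ext rfl ?_)
        change p.2 - ((l.1 : ℕ) : ZMod q) * ((p.1 : ℕ) : ZMod q) = l.2
        rw [hr]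
        ring
      · exact absurd hu2 (fun h => h)
  · intro u v huv hu hv
    obtain ⟨l, -, rfl⟩ := Finset.mem_image.1 hu
    obtain ⟨l', -, rfl⟩ := Finset.mem_image.1 hv
    exact huv
  · intro u v huv
    rw [Finset.card_le_one]
    intro x hx y hy
    have hx2 := (Finset.mem_filter.1 hx).2
    have hy2 := (Finset.mem_filter.1 hy).2
    obtain ⟨hx3, hx4⟩ := hx2
    obtain ⟨hy3, hy4⟩ := hy2
    rcases u with l | p <;> rcases v with l' | p' <;> rcases x with m | r <;>
      rcases y with m' | r'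
    · exact absurd hx3 (fun h => h)
    · exact absurd hx3 (fun h => h)
    · exact absurd hy3 (fun h => h)
    · have hne : l ≠ l' := fun h => huv (by rw [h])
      exact congrArg Sum.inr (lowB_lines hq hjq hne hx3 hx4 hy3 hy4)
    · exact absurd hx3 (fun h => h)
    · exact absurd hx3 (fun h => h)
    · exact absurd hx4 (fun h => h)
    · exact absurd hx4 (fun h => h)
    · exact absurd hx4 (fun h => h)
    · exact absurd hx4 (fun h => h)
    · exact absurd hx3 (fun h => h)
    · exact absurd hx3 (fun h => h)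
    · have hne : p ≠ p' := fun h => huv (by rw [h])
      exact congrArg Sum.inl (lowB_points hq hjq hne hx3 hy3 hx4 hy4)
    · exact absurd hy3 (fun h => h)
    · exact absurd hx3 (fun h => h)
    · exact absurd hx3 (fun h => h)

end KS137
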