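import Pool.Agent.H.MP_137e81_co.ls.Defs

/-! Sharpness: the tree. -/

set_option autoImplicit false

namespace KS137

open Finset

/-- the double star: two adjacent vertices with `j` further neighbours each, which are leaves -/
def dstar (j : ℕ) : SimpleGraph (Fin 2 ⊕ (Σ _ : Fin 2, Fin j)) :=
  leafed (SimpleGraph.pathGraph 2) fun _ => j

private theorem LowC_adj_inl {j : ℕ} {a b : Fin 2} :
    (dstar j).Adj (Sum.inl a) (Sum.inl b) ↔ (a : ℕ) + 1 = b ∨ (b : ℕ) + 1 = a :=
  SimpleGraph.pathGraph_adj

private theorem LowC_adj_leaf {j : ℕ} (p : Σ _ : Fin 2, Fin j) :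
    (dstar j).Adj (Sum.inl p.1) (Sum.inr p) := rfl

private theorem LowC_adj_leaf' {j : ℕ} {a : Fin 2} {p : Σ _ : Fin 2, Fin j}
    (h : (dstar j).Adj (Sum.inl a) (Sum.inr p)) : a = p.1 := h

/-- the neighbour on the way to the first centre -/
private def LowC_par (j : ℕ) :
    Fin 2 ⊕ (Σ _ : Fin 2, Fin j) → Fin 2 ⊕ (Σ _ : Fin 2, Fin j)
  | .inl _ => .inl 0
  | .inr p => .inl p.1

theorem dstar_isTree (j : ℕ) : (dstar j).IsTree := by
  classical
  have h01 : (dstar j).Adj (Sum.inl 0) (Sum.inl 1) := LowC_adj_inl.2 (Or.inl rfl)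
  have hc : ∀ a : Fin 2, (dstar j).Reachable (Sum.inl 0) (Sum.inl a) := by
    intro a
    fin_cases a
    · exact SimpleGraph.Reachable.refl _
    · exact h01.reachable
  have hr : ∀ v, (dstar j).Reachable (Sum.inl 0) v := by
    rintro (a | p)
    · exact hc a
    · exact (hc p.1).trans (LowC_adj_leaf p).reachable
  have hcon : (dstar j).Connected := by
    have : Nonempty (Fin 2 ⊕ (Σ _ : Fin 2, Fin j)) := ⟨Sum.inl 0⟩
    exact ⟨fun u v => (hr u).symm.trans (hr v)⟩
  rw [SimpleGraph.isTree_iff_connected_and_card]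
  refine ⟨hcon, le_antisymm ?_ hcon.card_vert_le_card_edgeSet_add_one⟩
  have hsub : (dstar j).edgeSet ⊆
      (((univ : Finset (Fin 2 ⊕ (Σ _ : Fin 2, Fin j))).erase (Sum.inl 0)).image
        (fun v => s(v, LowC_par j v)) : Finset _) := by
    intro e
    induction e using Sym2.ind with
    | _ x y =>
      intro h
      rw [SimpleGraph.mem_edgeSet] at h
      rw [mem_coe, mem_image]
      rcases x with a | p <;> rcases y with b | q
      · rcases LowC_adj_inl.1 h with h1 | h1
        · have ha : a = 0 := by ext; simp; omega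
          have hb : b = 1 := by ext; simp; omega
          subst ha hb
          exact ⟨Sum.inl 1, by simp, Sym2.eq_swap⟩
        · have ha : a = 1 := by ext; simp; omega
          have hb : b = 0 := by ext; simp; omega
          subst ha hb
          exact ⟨Sum.inl 1, by simp, rfl⟩
      · have h1 := LowC_adj_leaf' h
        subst h1
        exact ⟨Sum.inr q, by simp, Sym2.eq_swap⟩
      · have h1 := LowC_adj_leaf' h.symm
        subst h1
        exact ⟨Sum.inr p, by simp, rfl⟩
      · exact h.elim
  have h1 : Nat.card (dstar j).edgeSet ≤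
      ((univ : Finset (Fin 2 ⊕ (Σ _ : Fin 2, Fin j))).erase (Sum.inl 0)).card := by
    rw [Nat.card_coe_set_eq]
    refine (Set.ncard_le_ncard hsub (Finset.finite_toSet _)).trans ?_
    rw [Set.ncard_coe_finset]
    exact Finset.card_image_le
  rw [Finset.card_erase_of_mem (mem_univ _), Finset.card_univ] at h1
  have h2 : 0 < Fintype.card (Fin 2 ⊕ (Σ _ : Fin 2, Fin j)) := Fintype.card_pos_iff.2 ⟨Sum.inl 0⟩
  rw [Nat.card_eq_fintype_card (α := Fin 2 ⊕ (Σ _ : Fin 2, Fin j))]
  omega

/-- Proof: the images of the two centres are adjacent, so one of them is not in `L`; it has degree at most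
`j`, but the centre has `j + 1` neighbours. -/
theorem dstar_not {V : Type} [Fintype V] (G : SimpleGraph V) (L : Finset V) {j : ℕ}
    (h1 : ∀ v, v ∉ L → dg G v ≤ j) (h2 : ∀ u v, G.Adj u v → u ∈ L → v ∉ L) :
    ¬ (dstar j).IsContained G := by
  classical
  rintro ⟨f⟩
  have hadj : ∀ a b, (dstar j).Adj a b → G.Adj (f a) (f b) := fun a b h => f.toHom.map_adj h
  have key : ∀ c d : Fin 2, (dstar j).Adj (Sum.inl c) (Sum.inl d) → f (Sum.inl c) ∈ L := by
    intro c d hcd
    by_contra hc
    have h3 := h1 _ hc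
    let g : Option (Fin j) → Fin 2 ⊕ (Σ _ : Fin 2, Fin j) := fun o =>
      match o with
      | none => Sum.inl d
      | some i => Sum.inr ⟨c, i⟩
    have hg : Function.Injective g := by
      intro x y hxy
      rcases x with _ | x <;> rcases y with _ | y
      · rfl
      · exact absurd hxy (by simp [g])
      · exact absurd hxy (by simp [g])
      · have : (⟨c, x⟩ : Σ _ : Fin 2, Fin j) = ⟨c, y⟩ := Sum.inr_injective hxy
        simp only [Sigma.mk.injEq, heq_eq_eq, true_and] at this
        rw [this]
    have hg' : ∀ o, (dstar j).Adj (Sum.inl c) (g o) := by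
      rintro (_ | i)
      · exact hcd
      · exact LowC_adj_leaf ⟨c, i⟩
    have hfg : Function.Injective fun o => f (g o) := fun x y hxy => hg (f.injective hxy)
    have h4 : (univ.image fun o => f (g o)).card = j + 1 := by
      rw [Finset.card_image_of_injective _ hfg, Finset.card_univ,
        Fintype.card_option, Fintype.card_fin]
    have h5 : (univ.image fun o => f (g o)).card ≤ dg G (f (Sum.inl c)) := by
      unfold dg
      refine Finset.card_le_card fun x hx => ?_
      obtain ⟨o, -, rfl⟩ := mem_image.1 hx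
      exact mem_filter.2 ⟨mem_univ _, hadj _ _ (hg' o)⟩
    omega
  have h01 : (dstar j).Adj (Sum.inl 0) (Sum.inl 1) := LowC_adj_inl.2 (Or.inl rfl)
  exact h2 _ _ (hadj _ _ h01) (key 0 1 h01) (key 1 0 h01.symm)

end KS137
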