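import Pool.Agent.H.MP_137e81_co.ls.Upper
import Pool.Agent.H.MP_137e81_co.ls.LowA
import Pool.Agent.H.MP_137e81_co.ls.LowB
import Pool.Agent.H.MP_137e81_co.ls.LowC

/-! The threshold for nowhere-dense hosts. -/

set_option autoImplicit false

namespace KS137

open Finset

open Classical in
/-- `G` is `(m, γ)`-nowhere-dense: there is no `(m, γ)`-dense spot, that is, no two disjoint nonempty sets
`A`, `B` of vertices such that in the bipartite graph of the edges of `G` between `A` and `B` all degrees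
are greater than `m` and the density is greater than `γ` -/
def NowhereDense {V : Type} (G : SimpleGraph V) (m γ : ℝ) : Prop :=
  ∀ A B : Finset V, A.Nonempty → B.Nonempty → Disjoint A B →
    (∀ a ∈ A, m < ((B.filter fun x => G.Adj a x).card : ℝ)) →
    (∀ x ∈ B, m < ((A.filter fun a => G.Adj x a).card : ℝ)) →
    (∑ a ∈ A, ((B.filter fun x => G.Adj a x).card : ℝ)) ≤ γ * A.card * B.card

open Classical in
private lemma main_deg {V : Type} [Fintype V] (G : SimpleGraph V) (v : V) :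
    (G.neighborSet v).ncard = dg G v := by
  have h : G.neighborSet v = ((univ.filter fun u => G.Adj v u : Finset V) : Set V) := by
    ext u
    simp
  rw [h, Set.ncard_coe_finset]
  rfl

open Classical in
private lemma main_set {V : Type} [Fintype V] (G : SimpleGraph V) (k : ℕ) :
    {v : V | k ≤ (G.neighborSet v).ncard}.ncard = (univ.filter fun v => k ≤ dg G v).card := by
  have h : {v : V | k ≤ (G.neighborSet v).ncard} =
      ((univ.filter fun v => k ≤ dg G v : Finset V) : Set V) := by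
    ext v
    simp [main_deg]
  rw [h, Set.ncard_coe_finset]

/-- Proof: `Q` with `1 / (3 - 1 / Q) ≤ c`, `γ = 1 / M`, `upper`. -/
theorem upper_real (c : ℝ) (hc : 1 / 3 < c) : ∃ γ : ℝ, 0 < γ ∧ ∀ (k : ℕ) {β : Type} [Fintype β]
    (T : SimpleGraph β), T.IsTree → Fintype.card β = k + 1 → ∀ {V : Type} [Fintype V] [Nonempty V]
    (G : SimpleGraph V), NowhereDense G (γ * k) γ →
    c * Fintype.card V ≤ {v : V | k ≤ (G.neighborSet v).ncard}.ncard → T.IsContained G := by
  classical
  have hc0 : 0 < 3 * c - 1 := by linarith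
  have hcp : 0 < c := by linarith
  obtain ⟨Q0, hQ0⟩ := exists_nat_ge (c / (3 * c - 1))
  obtain ⟨Q, hQ1, hQ⟩ : ∃ Q : ℕ, 1 ≤ Q ∧ c ≤ (Q : ℝ) * (3 * c - 1) := by
    refine ⟨Q0 + 1, by omega, ?_⟩
    rw [div_le_iff₀ hc0] at hQ0
    push_cast
    nlinarith
  obtain ⟨M, hM, hup⟩ := upper Q hQ1
  have hM0 : (0 : ℝ) < M := by
    have : (2 : ℝ) ≤ M := by exact_mod_cast hM
    linarith
  refine ⟨1 / M, by positivity, ?_⟩
  intro k β _ T hT hk V _ _ G hG hL
  rw [main_set] at hL
  set L : Finset V := univ.filter fun v => k ≤ dg G v with hLdef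
  have hn : 0 < (Fintype.card V : ℝ) := by exact_mod_cast Fintype.card_pos
  have hLc : (0 : ℝ) < L.card := lt_of_lt_of_le (by positivity) hL
  have hLne : L.Nonempty := Finset.card_pos.1 (by exact_mod_cast hLc)
  refine hup k hT hk G ?_ L (fun v hv => (Finset.mem_filter.1 hv).2) hLne ?_
  · intro A B hA hAB h1 h2
    obtain ⟨a, ha⟩ := hA
    have hB : B.Nonempty := by
      have h3 := h1 a ha
      have h4 : 0 < (B.filter fun x => G.Adj a x).card := by
        rcases Nat.eq_zero_or_pos (B.filter fun x => G.Adj a x).card with h | h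
        · rw [h, mul_zero] at h3
          omega
        · exact h
      obtain ⟨x, hx⟩ := Finset.card_pos.1 h4
      exact ⟨x, (Finset.mem_filter.1 hx).1⟩
    have h3 := hG A B ⟨a, ha⟩ hB hAB (fun a ha => by
      have h := h1 a ha
      have h' : (k : ℝ) < M * ((B.filter fun x => G.Adj a x).card : ℝ) := by exact_mod_cast h
      rw [one_div, inv_mul_lt_iff₀ hM0]
      exact h') (fun x hx => by
      have h := h2 x hx
      have h' : (k : ℝ) < M * ((A.filter fun a => G.Adj x a).card : ℝ) := by exact_mod_cast h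
      rw [one_div, inv_mul_lt_iff₀ hM0]
      exact h')
    have h4 : (M : ℝ) * (∑ a ∈ A, ((B.filter fun x => G.Adj a x).card : ℝ)) ≤
        (A.card : ℝ) * B.card := by
      calc (M : ℝ) * (∑ a ∈ A, ((B.filter fun x => G.Adj a x).card : ℝ))
          ≤ M * (1 / M * A.card * B.card) := mul_le_mul_of_nonneg_left h3 hM0.le
        _ = (A.card : ℝ) * B.card := by field_simp
    exact_mod_cast h4
  · have hsum : (univ \ L).card + L.card = Fintype.card V := by
      rw [Finset.card_sdiff_add_card_eq_card (Finset.subset_univ L), Finset.card_univ]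
    have hsumR : ((univ \ L).card : ℝ) + L.card = Fintype.card V := by exact_mod_cast hsum
    have hQ1' : (1 : ℝ) ≤ Q := by exact_mod_cast hQ1
    have h1 : c * (Q * ((univ \ L).card : ℝ)) ≤ c * ((2 * Q - 1) * (L.card : ℝ)) := by
      rw [← hsumR] at hL
      have e1 : (Q : ℝ) * (c * ((univ \ L).card : ℝ)) ≤ Q * ((1 - c) * L.card) :=
        mul_le_mul_of_nonneg_left (by linarith) (by linarith)
      have e2 : (Q : ℝ) * (1 - c) * L.card ≤ ((2 * Q - 1) * c) * L.card :=
        mul_le_mul_of_nonneg_right (by linarith) hLc.le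
      calc c * (Q * ((univ \ L).card : ℝ)) = Q * (c * ((univ \ L).card : ℝ)) := by ring
        _ ≤ Q * ((1 - c) * L.card) := e1
        _ = Q * (1 - c) * L.card := by ring
        _ ≤ ((2 * Q - 1) * c) * L.card := e2
        _ = c * ((2 * Q - 1) * (L.card : ℝ)) := by ring
    have h2 := le_of_mul_le_mul_left h1 hcp
    have h3 : ((2 * Q - 1 : ℕ) : ℝ) = 2 * Q - 1 := by
      rw [Nat.cast_sub (by omega)]
      push_cast
      ring
    rw [← h3] at h2
    exact_mod_cast h2

/-- Proof: `M` with `1 / M ≤ γ`, `j` large, `exists_plane`, `noSpot_of_codegree`, `dstar_not`. -/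
theorem lower_real (c γ : ℝ) (hc : c < 1 / 3) (hγ : 0 < γ) : ∃ (k : ℕ) (β : Type) (_ : Fintype β)
    (T : SimpleGraph β) (V : Type) (_ : Fintype V) (G : SimpleGraph V), Nonempty V ∧ T.IsTree ∧
    Fintype.card β = k + 1 ∧ NowhereDense G (γ * k) γ ∧
    c * Fintype.card V ≤ {v : V | k ≤ (G.neighborSet v).ncard}.ncard ∧ ¬ T.IsContained G := by
  classical
  obtain ⟨M0, hM0⟩ := exists_nat_ge (1 / γ)
  obtain ⟨M, hM1, hM⟩ : ∃ M : ℕ, 1 ≤ M ∧ 1 ≤ γ * M := by
    refine ⟨M0 + 1, by omega, ?_⟩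
    rw [div_le_iff₀ hγ] at hM0
    push_cast
    nlinarith
  obtain ⟨j0, hj0⟩ := exists_nat_ge (c / (1 - 3 * c))
  obtain ⟨j, hj1, hjM, hj⟩ : ∃ j : ℕ, 1 ≤ j ∧ 100 * M ^ 3 ≤ 2 * j + 1 ∧
      c ≤ (j : ℝ) * (1 - 3 * c) := by
    refine ⟨j0 + 100 * M ^ 3 + 1, by omega, by omega, ?_⟩
    have h0 : 0 < 1 - 3 * c := by linarith
    rw [div_le_iff₀ h0] at hj0
    have h1 : (0 : ℝ) ≤ (100 * (M : ℝ) ^ 3 + 1) * (1 - 3 * c) := by positivity
    push_cast
    calc c ≤ (j0 : ℝ) * (1 - 3 * c) := hj0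
      _ ≤ (j0 : ℝ) * (1 - 3 * c) + (100 * (M : ℝ) ^ 3 + 1) * (1 - 3 * c) := by linarith
      _ = ((j0 : ℝ) + 100 * (M : ℝ) ^ 3 + 1) * (1 - 3 * c) := by ring
  obtain ⟨V, iV, G, L, hLne, hcard, hLdeg, hdeg, hindep, hcod⟩ := exists_plane j hj1
  refine ⟨2 * j + 1, _, inferInstance, dstar j, V, iV, G, ?_, dstar_isTree j, ?_, ?_, ?_, ?_⟩
  · exact ⟨hLne.choose⟩
  · simp
    ring
  · have hns := noSpot_of_codegree G hM1 hjM hcod
    have hM0' : (0 : ℝ) < M := by exact_mod_cast hM1
    intro A B hA hB hAB h1 h2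
    have key : ∀ n : ℕ, γ * ((2 * j + 1 : ℕ) : ℝ) < (n : ℝ) → 2 * j + 1 < M * n := by
      intro n hn
      have h3 : ((2 * j + 1 : ℕ) : ℝ) < M * (n : ℝ) := by
        calc ((2 * j + 1 : ℕ) : ℝ) = 1 * ((2 * j + 1 : ℕ) : ℝ) := (one_mul _).symm
          _ ≤ (γ * M) * ((2 * j + 1 : ℕ) : ℝ) :=
              mul_le_mul_of_nonneg_right hM (Nat.cast_nonneg _)
          _ = M * (γ * ((2 * j + 1 : ℕ) : ℝ)) := by ring
          _ < M * (n : ℝ) := mul_lt_mul_of_pos_left hn hM0'
      exact_mod_cast h3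
    have h3 := hns A B hA hAB (fun a ha => key _ (h1 a ha)) (fun x hx => key _ (h2 x hx))
    have h4 : (M : ℝ) * (∑ a ∈ A, ((B.filter fun x => G.Adj a x).card : ℝ)) ≤
        (A.card : ℝ) * B.card := by exact_mod_cast h3
    have h5 : (0 : ℝ) ≤ ∑ a ∈ A, ((B.filter fun x => G.Adj a x).card : ℝ) :=
      Finset.sum_nonneg fun _ _ => Nat.cast_nonneg _
    calc (∑ a ∈ A, ((B.filter fun x => G.Adj a x).card : ℝ))
        = 1 * (∑ a ∈ A, ((B.filter fun x => G.Adj a x).card : ℝ)) := (one_mul _).symm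
      _ ≤ (γ * M) * (∑ a ∈ A, ((B.filter fun x => G.Adj a x).card : ℝ)) :=
          mul_le_mul_of_nonneg_right hM h5
      _ = γ * (M * (∑ a ∈ A, ((B.filter fun x => G.Adj a x).card : ℝ))) := by ring
      _ ≤ γ * ((A.card : ℝ) * B.card) := mul_le_mul_of_nonneg_left h4 hγ.le
      _ = γ * A.card * B.card := by ring
  · rw [main_set]
    have hsub : L.card ≤ (univ.filter fun v => 2 * j + 1 ≤ dg G v).card :=
      Finset.card_le_card fun v hv => Finset.mem_filter.2 ⟨Finset.mem_univ _, hLdeg v hv⟩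
    have hsubR : (L.card : ℝ) ≤ ((univ.filter fun v => 2 * j + 1 ≤ dg G v).card : ℝ) := by
      exact_mod_cast hsub
    refine le_trans ?_ hsubR
    have hj0' : (0 : ℝ) < j := by exact_mod_cast hj1
    have hcR : (Fintype.card V : ℝ) * j = (3 * j + 1) * L.card := by exact_mod_cast hcard
    have h1 : (c * Fintype.card V) * j ≤ (L.card : ℝ) * j := by
      calc (c * Fintype.card V) * j = c * ((Fintype.card V : ℝ) * j) := by ring
        _ = (c * (3 * j + 1)) * L.card := by rw [hcR]; ring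
        _ ≤ (j : ℝ) * L.card := mul_le_mul_of_nonneg_right (by linarith) (Nat.cast_nonneg _)
        _ = (L.card : ℝ) * j := by ring
    exact le_of_mul_le_mul_right h1 hj0'
  · exact dstar_not G L hdeg hindep

end KS137
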