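import Pool.Agent.H.MP_137e81_co.ls.Spot
import Pool.Agent.H.MP_137e81_co.ls.Main

/-! Comparison of the two definitions of nowhere-dense graphs. -/

set_option autoImplicit false

namespace KS137

open Finset

open Classical in
private theorem Bridge_deg {V : Type} (B : Finset V) (p : V → Prop) :
    {b | b ∈ (B : Set V) ∧ p b}.ncard = (B.filter fun x => p x).card := by
  rw [← Set.ncard_coe_finset]
  congr 1
  ext x
  simp

open Classical in
private theorem Bridge_edges {V : Type} (G : SimpleGraph V) (A B : Finset V) :
    {p : V × V | p.1 ∈ (A : Set V) ∧ p.2 ∈ (B : Set V) ∧ G.Adj p.1 p.2}.ncard =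
      ∑ a ∈ A, (B.filter fun x => G.Adj a x).card := by
  have h1 : {p : V × V | p.1 ∈ (A : Set V) ∧ p.2 ∈ (B : Set V) ∧ G.Adj p.1 p.2} =
      (((A ×ˢ B).filter fun p => G.Adj p.1 p.2 : Finset (V × V)) : Set (V × V)) := by
    ext p
    simp [and_assoc]
  rw [h1, Set.ncard_coe_finset, Finset.card_filter, Finset.sum_product]
  refine Finset.sum_congr rfl fun a _ => ?_
  rw [Finset.card_filter]

open Classical in
theorem noDenseSpot_iff {V : Type} [Fintype V] (G : SimpleGraph V) (m γ : ℝ) :
    NoDenseSpot G m γ ↔ NowhereDense G m γ := by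
  constructor
  · intro h A B hA hB hAB h1 h2
    by_contra h3
    refine h A B ⟨?_, ?_, ?_, ?_, ?_, ?_⟩
    · exact_mod_cast hA
    · exact_mod_cast hB
    · exact_mod_cast hAB
    · intro a ha
      rw [Bridge_deg B (fun b => G.Adj a b)]
      exact h1 a ha
    · intro b hb
      rw [Bridge_deg A (fun a => G.Adj a b)]
      have h4 := h2 b hb
      simp only [G.adj_comm b] at h4
      exact h4
    · rw [Bridge_edges, Set.ncard_coe_finset, Set.ncard_coe_finset, ← mul_assoc]
      push_cast
      exact not_le.1 h3
  · rintro h A B ⟨hA, hB, hAB, h1, h2, h3⟩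
    have hA' : (A.toFinset : Set V) = A := Set.coe_toFinset A
    have hB' : (B.toFinset : Set V) = B := Set.coe_toFinset B
    have h4 := h A.toFinset B.toFinset (by simpa using hA) (by simpa using hB)
      (by rwa [← Finset.disjoint_coe, hA', hB']) (by
        intro a ha
        have h5 := h1 a (by simpa using ha)
        rw [← Bridge_deg B.toFinset (fun b => G.Adj a b), hB']
        exact h5) (by
        intro b hb
        have h5 := h2 b (by simpa using hb)
        simp only [G.adj_comm b]
        rw [← Bridge_deg A.toFinset (fun a => G.Adj a b), hA']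
        exact h5)
    have h5 := Bridge_edges G A.toFinset B.toFinset
    rw [hA', hB'] at h5
    rw [h5, ← mul_assoc, Set.ncard_eq_toFinset_card' A, Set.ncard_eq_toFinset_card' B] at h3
    push_cast at h3
    linarith

end KS137
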