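import Pool.Agent.H.MP_137e81_co.ls.Defs

/-! Graphs without dense spots. -/

set_option autoImplicit false

namespace KS137

open Finset

open Classical in
/-- `G` has no dense spot: there are no disjoint sets `A`, `B` of vertices, `A` nonempty, such that every
vertex of `A` has more than `k / M` neighbours in `B`, every vertex of `B` has more than `k / M`
neighbours in `A` and the density of the bipartite graph between `A` and `B` is greater than `1 / M` -/
def NoSpot {V : Type} (G : SimpleGraph V) (M k : ℕ) : Prop :=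
  ∀ A B : Finset V, A.Nonempty → Disjoint A B →
    (∀ a ∈ A, k < M * (B.filter fun x => G.Adj a x).card) →
    (∀ x ∈ B, k < M * (A.filter fun a => G.Adj x a).card) →
    M * ∑ a ∈ A, (B.filter fun x => G.Adj a x).card ≤ A.card * B.card

open Classical in
/-- the number of the edges between `X` and `Y` -/
private noncomputable def nsE {V : Type} (G : SimpleGraph V) (X Y : Finset V) : ℤ :=
  ∑ u ∈ X, ∑ x ∈ Y, if G.Adj u x then 1 else 0

open Classical in
private theorem nsE_deg {V : Type} (G : SimpleGraph V) (X : Finset V) (v : V) :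
    (((X.filter fun x => G.Adj v x).card : ℕ) : ℤ) = ∑ x ∈ X, if G.Adj v x then 1 else 0 := by
  rw [Finset.card_filter]
  push_cast
  rfl

open Classical in
private theorem nsE_eq {V : Type} (G : SimpleGraph V) (X Y : Finset V) :
    nsE G X Y = ((∑ u ∈ X, (Y.filter fun x => G.Adj u x).card : ℕ) : ℤ) := by
  unfold nsE
  push_cast
  exact Finset.sum_congr rfl fun u _ => (nsE_deg G Y u).symm

open Classical in
private theorem nsE_right {V : Type} (G : SimpleGraph V) (X Y : Finset V) {v : V} (hv : v ∈ Y) :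
    nsE G X Y = nsE G X (Y.erase v) + ∑ u ∈ X, if G.Adj v u then 1 else 0 := by
  have h1 : (∑ u ∈ X, if G.Adj v u then (1 : ℤ) else 0) =
      ∑ u ∈ X, if G.Adj u v then 1 else 0 :=
    Finset.sum_congr rfl fun u _ => by simp only [G.adj_comm v u]
  rw [h1]
  unfold nsE
  rw [← Finset.sum_add_distrib]
  refine Finset.sum_congr rfl fun u _ => ?_
  rw [Finset.sum_erase_add _ _ hv]

open Classical in
private theorem nsE_left {V : Type} (G : SimpleGraph V) (X Y : Finset V) {v : V} (hv : v ∈ X) :
    nsE G X Y = nsE G (X.erase v) Y + ∑ u ∈ Y, if G.Adj v u then 1 else 0 := by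
  unfold nsE
  rw [Finset.sum_erase_add _ _ hv]

open Classical in
/-- Proof: otherwise let `A` be a set of `f` of these vertices, `B = W \ A`; every vertex of `A` has at
least `a - f` neighbours in `B`.  Choose `X ⊆ A`, `Y ⊆ B` which maximise the integer
`Ψ(X, Y) = M e(X, Y) - (k + 1) (#X + #Y)`; removing a vertex shows that all degrees `d` in the bipartite
graph between `X` and `Y` satisfy `M d ≥ k + 1`, and `M e(X, Y) ≥ Ψ(A, B) > f w ≥ #X #Y`. -/
theorem few_of_noSpot {V : Type} [Fintype V] (G : SimpleGraph V) {M k w a f : ℕ}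
    (hG : NoSpot G M k) (h : (k + 1) * (f + w) + f * w < M * (f * (a - f))) (W : Finset V)
    (hW : W.card ≤ w) :
    (univ.filter fun v => a ≤ (W.filter fun x => G.Adj v x).card).card < f := by
  by_contra hcon
  push Not at hcon
  obtain ⟨A, hAs, hAf⟩ := Finset.exists_subset_card_eq hcon
  obtain ⟨B, hB⟩ : ∃ B : Finset V, B = W \ A := ⟨_, rfl⟩
  have hAB : Disjoint A B := by
    rw [hB]
    exact Finset.disjoint_sdiff
  have hBw : B.card ≤ w := by
    rw [hB]
    exact (Finset.card_le_card Finset.sdiff_subset).trans hW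
  have hdeg : ∀ v ∈ A, a - f ≤ (B.filter fun x => G.Adj v x).card := by
    intro v hv
    have h1 := (Finset.mem_filter.1 (hAs hv)).2
    have h2 : (W.filter fun x => G.Adj v x) ⊆ (B.filter fun x => G.Adj v x) ∪ A := by
      intro x hx
      rw [Finset.mem_filter] at hx
      rw [Finset.mem_union, Finset.mem_filter, hB, Finset.mem_sdiff]
      by_cases hxA : x ∈ A
      · exact Or.inr hxA
      · exact Or.inl ⟨⟨hx.1, hxA⟩, hx.2⟩
    have h3 := (Finset.card_le_card h2).trans (Finset.card_union_le _ _)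
    omega
  obtain ⟨Ψ, hΨ⟩ : ∃ Ψ : Finset V × Finset V → ℤ, Ψ = fun z => (M : ℤ) * nsE G z.1 z.2 -
      ((k : ℤ) + 1) * (z.1.card + z.2.card) := ⟨_, rfl⟩
  obtain ⟨⟨X, Y⟩, hXY, hmax⟩ := Finset.exists_max_image (A.powerset ×ˢ B.powerset) Ψ
    ⟨(A, B), by
      rw [Finset.mem_product]
      exact ⟨Finset.mem_powerset_self A, Finset.mem_powerset_self B⟩⟩
  rw [Finset.mem_product] at hXY
  obtain ⟨hX, hY⟩ := hXY
  simp only [Finset.mem_powerset] at hX hY
  have hmax' : ∀ X' Y' : Finset V, X' ⊆ A → Y' ⊆ B →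
      (M : ℤ) * nsE G X' Y' - ((k : ℤ) + 1) * (X'.card + Y'.card) ≤
      (M : ℤ) * nsE G X Y - ((k : ℤ) + 1) * (X.card + Y.card) := by
    intro X' Y' h1 h2
    have h3 := hmax (X', Y') (by
      rw [Finset.mem_product]
      exact ⟨Finset.mem_powerset.2 h1, Finset.mem_powerset.2 h2⟩)
    rw [hΨ] at h3
    exact h3
  have hXYd : Disjoint X Y := Finset.disjoint_of_subset_left hX
    (Finset.disjoint_of_subset_right hY hAB)
  -- the value of the maximum
  have hbig : ((f * w : ℕ) : ℤ) < (M : ℤ) * nsE G X Y - ((k : ℤ) + 1) * (X.card + Y.card) := by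
    refine lt_of_lt_of_le ?_ (hmax' A B subset_rfl subset_rfl)
    have h1 : f * (a - f) ≤ ∑ u ∈ A, (B.filter fun x => G.Adj u x).card := by
      rw [← hAf, ← smul_eq_mul, ← Finset.sum_const]
      refine Finset.sum_le_sum fun u hu => ?_
      rw [hAf]
      exact hdeg u hu
    have h2 : M * (f * (a - f)) ≤ M * ∑ u ∈ A, (B.filter fun x => G.Adj u x).card :=
      Nat.mul_le_mul_left M h1
    have h3 : (k + 1) * (A.card + B.card) ≤ (k + 1) * (f + w) :=
      Nat.mul_le_mul_left _ (by omega)
    have h4 : (k + 1) * (A.card + B.card) + f * w <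
        M * ∑ u ∈ A, (B.filter fun x => G.Adj u x).card := by omega
    rw [nsE_eq]
    have h5 : (((k + 1) * (A.card + B.card) + f * w : ℕ) : ℤ) <
        ((M * ∑ u ∈ A, (B.filter fun x => G.Adj u x).card : ℕ) : ℤ) := by exact_mod_cast h4
    push_cast at h5 ⊢
    linarith
  have hk0 : (0 : ℤ) ≤ (k : ℤ) + 1 := by positivity
  have hXne : X.Nonempty := by
    rw [Finset.nonempty_iff_ne_empty]
    rintro rfl
    have h1 : nsE G ∅ Y = 0 := by simp [nsE]
    rw [h1, mul_zero] at hbig
    have h2 : (0 : ℤ) ≤ ((k : ℤ) + 1) * (((∅ : Finset V).card : ℤ) + Y.card) := by positivity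
    have h3 : (0 : ℤ) ≤ ((f * w : ℕ) : ℤ) := by positivity
    linarith
  have h1 := hG X Y hXne hXYd ?_ ?_
  · have h2 : X.card * Y.card ≤ f * w := by
      refine Nat.mul_le_mul ?_ ((Finset.card_le_card hY).trans hBw)
      rw [← hAf]
      exact Finset.card_le_card hX
    have h3 := h1.trans h2
    have h4 : (M : ℤ) * nsE G X Y ≤ ((f * w : ℕ) : ℤ) := by
      rw [nsE_eq]
      exact_mod_cast h3
    have h5 : (0 : ℤ) ≤ ((k : ℤ) + 1) * (X.card + Y.card) := by positivity
    linarith
  · intro v hv
    have h2 := hmax' (X.erase v) Y ((Finset.erase_subset v X).trans hX) hY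
    have h3 : ((X.erase v).card : ℤ) = X.card - 1 := by
      have h4 := Finset.card_erase_add_one hv
      have h5 : ((X.erase v).card : ℤ) + 1 = X.card := by exact_mod_cast h4
      linarith
    rw [h3, nsE_left G X Y hv, ← nsE_deg] at h2
    have h6 : (k : ℤ) + 1 ≤ (M : ℤ) * ((Y.filter fun x => G.Adj v x).card : ℤ) := by
      nlinarith
    have h7 : k + 1 ≤ M * (Y.filter fun x => G.Adj v x).card := by exact_mod_cast h6
    omega
  · intro v hv
    have h2 := hmax' X (Y.erase v) hX ((Finset.erase_subset v Y).trans hY)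
    have h3 : ((Y.erase v).card : ℤ) = Y.card - 1 := by
      have h4 := Finset.card_erase_add_one hv
      have h5 : ((Y.erase v).card : ℤ) + 1 = Y.card := by exact_mod_cast h4
      linarith
    rw [h3, nsE_right G X Y hv, ← nsE_deg] at h2
    have h6 : (k : ℤ) + 1 ≤ (M : ℤ) * ((X.filter fun x => G.Adj v x).card : ℤ) := by
      nlinarith
    have h7 : k + 1 ≤ M * (X.filter fun x => G.Adj v x).card := by exact_mod_cast h6
    omega

open Classical in
theorem NoSpot.mono {V : Type} {G : SimpleGraph V} {M M' k : ℕ} (hG : NoSpot G M' k)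
    (hM : M ≤ M') : NoSpot G M k := by
  intro A B hA hAB h1 h2
  have h3 := hG A B hA hAB (fun a ha => lt_of_lt_of_le (h1 a ha) (Nat.mul_le_mul_right _ hM))
    (fun x hx => lt_of_lt_of_le (h2 x hx) (Nat.mul_le_mul_right _ hM))
  exact (Nat.mul_le_mul_right _ hM).trans h3

open Classical in
/-- Proof: an edge `{u, v}`: `A = {u}`, `B = {v}`. -/
theorem not_adj_of_noSpot {V : Type} (G : SimpleGraph V) {M k : ℕ} (hG : NoSpot G M k)
    (hM : k < M) (hM2 : 2 ≤ M) (u v : V) : ¬ G.Adj u v := by
  intro huv
  have hne : u ≠ v := G.ne_of_adj huv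
  have e1 : (({v} : Finset V).filter fun x => G.Adj u x) = {v} :=
    Finset.filter_true_of_mem fun x hx => by rw [Finset.mem_singleton.1 hx]; exact huv
  have e2 : (({u} : Finset V).filter fun x => G.Adj v x) = {u} :=
    Finset.filter_true_of_mem fun x hx => by rw [Finset.mem_singleton.1 hx]; exact huv.symm
  have h1 := hG {u} {v} (Finset.singleton_nonempty u) (Finset.disjoint_singleton.2 hne)
    (fun a ha => by
      rw [Finset.mem_singleton.1 ha, e1, Finset.card_singleton, mul_one]
      exact hM)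
    (fun x hx => by
      rw [Finset.mem_singleton.1 hx, e2, Finset.card_singleton, mul_one]
      exact hM)
  rw [Finset.sum_singleton, e1, Finset.card_singleton, Finset.card_singleton] at h1
  omega

end KS137
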