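import Pool.Agent.H.MP_137e81_co.ls.Defs

/-! The choice of the root. -/

set_option autoImplicit false

namespace KS137

open Finset

private theorem Root_dg_eq {β : Type} [Fintype β] (T : SimpleGraph β) [DecidableRel T.Adj] (t : β) :
    dg T t = T.degree t := by
  classical
  unfold dg
  rw [← SimpleGraph.card_neighborFinset_eq_degree, SimpleGraph.neighborFinset_eq_filter]
  congr

/-- Proof: degree sum `2 k` over `k + 1` vertices. -/
theorem sum_dg {β : Type} [Fintype β] {T : SimpleGraph β} (hT : T.IsTree) {k : ℕ}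
    (hk : Fintype.card β = k + 1) : ∑ t, dg T t = 2 * k := by
  classical
  have h1 := hT.card_edgeFinset
  have h2 := T.sum_degrees_eq_twice_card_edges
  rw [hk] at h1
  have h3 : ∑ t, dg T t = ∑ t, T.degree t := Finset.sum_congr rfl fun t _ => Root_dg_eq T t
  rw [h3, h2]
  have h4 : T.edgeFinset.card = k := by
    have : T.edgeFinset.card + 1 = k + 1 := by convert h1
    omega
  rw [h4]

private theorem Root_dg_pos {β : Type} [Fintype β] {T : SimpleGraph β} (hT : T.IsTree) {k : ℕ}
    (h1 : 1 ≤ k) (hk : Fintype.card β = k + 1) (t : β) : 1 ≤ dg T t := by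
  classical
  have : Nontrivial β := Fintype.one_lt_card_iff_nontrivial.1 (by omega)
  rw [Root_dg_eq]
  exact hT.connected.preconnected.degree_pos_of_nontrivial t

/-- Proof: `sum_dg` and `1 ≤ dg T t` for all `t` (`T` is connected with at least two vertices): the sum
over `X` of `dg T t - 1` is at most the sum over all vertices, `k - 1`. -/
theorem sum_dg_le {β : Type} [Fintype β] {T : SimpleGraph β} (hT : T.IsTree) {k : ℕ} (h1 : 1 ≤ k)
    (hk : Fintype.card β = k + 1) (X : Finset β) : ∑ t ∈ X, dg T t + 1 ≤ k + X.card := by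
  classical
  have h2 := sum_dg hT hk
  have h3 : ∑ t ∈ X, dg T t + ∑ t ∈ Xᶜ, dg T t = ∑ t, dg T t := Finset.sum_add_sum_compl X _
  have h4 : Xᶜ.card • 1 ≤ ∑ t ∈ Xᶜ, dg T t :=
    Finset.card_nsmul_le_sum _ _ _ fun t _ => Root_dg_pos hT h1 hk t
  have h5 : X.card + Xᶜ.card = k + 1 := by rw [Finset.card_add_card_compl, hk]
  rw [smul_eq_mul, mul_one] at h4
  omega

private theorem Root_c4 {β : Type} {T : SimpleGraph β} (hT : T.IsTree) {u v a b : β}
    (huv : u ≠ v) (h1 : T.Adj u a) (h2 : T.Adj v a) (h3 : T.Adj u b) (h4 : T.Adj v b) : a = b := by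
  have hp : (SimpleGraph.Walk.cons h1 (SimpleGraph.Walk.cons h2.symm SimpleGraph.Walk.nil)).IsPath := by
    simp [huv, h1.ne, h2.ne']
  have hq : (SimpleGraph.Walk.cons h3 (SimpleGraph.Walk.cons h4.symm SimpleGraph.Walk.nil)).IsPath := by
    simp [huv, h3.ne, h4.ne']
  have h := (hT.isAcyclic.subsingleton_path u v).elim ⟨_, hp⟩ ⟨_, hq⟩
  have h' := congrArg (fun p : T.Path u v => (p : T.Walk u v).support) h
  simpa using h'

private theorem Root_c3 {β : Type} {T : SimpleGraph β} (hT : T.IsTree) {u v a : β}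
    (huv : T.Adj u v) (h1 : T.Adj u a) (h2 : T.Adj v a) : False := by
  have hp : (SimpleGraph.Walk.cons h1 (SimpleGraph.Walk.cons h2.symm SimpleGraph.Walk.nil)).IsPath := by
    simp [huv.ne, h1.ne, h2.ne']
  have hq : (SimpleGraph.Walk.cons huv SimpleGraph.Walk.nil).IsPath := by
    simp [huv.ne]
  have h := (hT.isAcyclic.subsingleton_path u v).elim ⟨_, hp⟩ ⟨_, hq⟩
  have h' := congrArg (fun p : T.Path u v => (p : T.Walk u v).length) h
  simp at h'

open Classical in
/-- the neighbours of `t` of degree at least 2 -/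
private noncomputable def Root_N {β : Type} [Fintype β] (T : SimpleGraph β) (t : β) : Finset β :=
  univ.filter fun u => T.Adj t u ∧ 2 ≤ dg T u

private theorem Root_mem_N {β : Type} [Fintype β] {T : SimpleGraph β} {t u : β} :
    u ∈ Root_N T t ↔ T.Adj t u ∧ 2 ≤ dg T u := by
  classical
  simp [Root_N]

private theorem Root_card_N {β : Type} [Fintype β] (T : SimpleGraph β) (t : β) :
    (Root_N T t).card = di T t := rfl

private theorem Root_di_le {β : Type} [Fintype β] (T : SimpleGraph β) (t : β) :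
    di T t ≤ dg T t := by
  classical
  unfold di dg
  refine Finset.card_le_card ?_
  intro u hu
  rw [Finset.mem_filter] at hu ⊢
  exact ⟨hu.1, hu.2.1⟩

/-- the sum over `Z` and a set of nonleaves outside `Z`. -/
private theorem Root_sum {β : Type} [Fintype β] [DecidableEq β] {T : SimpleGraph β} (hT : T.IsTree)
    {k : ℕ} (h1 : 1 ≤ k) (hk : Fintype.card β = k + 1) (Z Y : Finset β) (hd : Disjoint Z Y)
    (hY : ∀ y ∈ Y, 2 ≤ dg T y) : ∑ t ∈ Z, dg T t + Y.card + 1 ≤ k + Z.card := by
  have h2 := sum_dg_le hT h1 hk (Z ∪ Y)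
  rw [Finset.sum_union hd, Finset.card_union_of_disjoint hd] at h2
  have h3 : Y.card • 2 ≤ ∑ t ∈ Y, dg T t := Finset.card_nsmul_le_sum _ _ _ hY
  rw [smul_eq_mul] at h3
  omega

/-- Proof: `X = {u, v} ∪ (the neighbours of u or v of degree at least 2)` in `sum_dg_le`; every
`x ∈ X` other than `u`, `v` has degree at least 2, so `d u + d v + #(X \ {u, v}) + 1 ≤ k + 2`.  The sets
`A`, `B` of the neighbours of `u`, `v` of degree at least 2 have at most one common element (no cycle
of length 4), `u ∈ B` or `v ∈ A` only if `u`, `v` are adjacent, and then `A ∩ B = ∅` (no triangle);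
so `#(X \ {u, v}) ≥ di u + di v - 2`. -/
theorem tree_two {β : Type} [Fintype β] {T : SimpleGraph β} (hT : T.IsTree) {k : ℕ} (h1 : 1 ≤ k)
    (hk : Fintype.card β = k + 1) {u v : β} (huv : u ≠ v) :
    dg T u + dg T v + di T u + di T v ≤ k + 3 := by
  classical
  set A := Root_N T u with hA
  set B := Root_N T v with hB
  have hs := Root_sum hT h1 hk {u, v} ((A ∪ B) \ {u, v}) Finset.disjoint_sdiff (by
    intro y hy
    rw [Finset.mem_sdiff, Finset.mem_union] at hy
    rcases hy.1 with h | h
    · exact (Root_mem_N.1 h).2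
    · exact (Root_mem_N.1 h).2)
  rw [Finset.sum_pair huv, Finset.card_pair huv] at hs
  have hc1 : (A ∪ B).card + (A ∩ B).card = A.card + B.card := Finset.card_union_add_card_inter A B
  have hc2 : ((A ∪ B) \ {u, v}).card + ((A ∪ B) ∩ {u, v}).card = (A ∪ B).card :=
    Finset.card_sdiff_add_card_inter _ _
  have hc3 : (A ∩ B).card + ((A ∪ B) ∩ {u, v}).card ≤ 2 := by
    by_cases had : T.Adj u v
    · have h0 : A ∩ B = ∅ := by
        rw [Finset.eq_empty_iff_forall_notMem]
        intro x hx
        rw [Finset.mem_inter] at hx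
        exact Root_c3 hT had (Root_mem_N.1 hx.1).1 (Root_mem_N.1 hx.2).1
      rw [h0, Finset.card_empty, zero_add]
      exact (Finset.card_le_card Finset.inter_subset_right).trans Finset.card_le_two
    · have h0 : (A ∪ B) ∩ {u, v} = ∅ := by
        rw [Finset.eq_empty_iff_forall_notMem]
        intro x hx
        rw [Finset.mem_inter, Finset.mem_union, Finset.mem_insert, Finset.mem_singleton] at hx
        obtain ⟨hx1, hx2⟩ := hx
        rcases hx2 with rfl | rfl
        · rcases hx1 with h | h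
          · exact (Root_mem_N.1 h).1.ne rfl
          · exact had (Root_mem_N.1 h).1.symm
        · rcases hx1 with h | h
          · exact had (Root_mem_N.1 h).1
          · exact (Root_mem_N.1 h).1.ne rfl
      rw [h0, Finset.card_empty, add_zero]
      have h1 : (A ∩ B).card ≤ 1 := by
        rw [Finset.card_le_one]
        intro a ha b hb
        rw [Finset.mem_inter] at ha hb
        exact Root_c4 hT huv (Root_mem_N.1 ha.1).1 (Root_mem_N.1 ha.2).1 (Root_mem_N.1 hb.1).1
          (Root_mem_N.1 hb.2).1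
      omega
  have hA' : A.card = di T u := Root_card_N T u
  have hB' : B.card = di T v := Root_card_N T v
  omega

/-- Proof: `X = {z₁, z₂, t} ∪ (the neighbours of t of degree at least 2)` in `sum_dg_le`. -/
theorem tree_three {β : Type} [Fintype β] {T : SimpleGraph β} (hT : T.IsTree) {k : ℕ} (h1 : 1 ≤ k)
    (hk : Fintype.card β = k + 1) {z₁ z₂ t : β} (h12 : z₁ ≠ z₂) (h1t : z₁ ≠ t) (h2t : z₂ ≠ t) :
    dg T z₁ + dg T z₂ + dg T t + di T t ≤ k + 4 := by
  classical
  set C := Root_N T t with hC
  have hs := Root_sum hT h1 hk {z₁, z₂, t} (C \ {z₁, z₂, t}) Finset.disjoint_sdiff (by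
    intro y hy
    rw [Finset.mem_sdiff] at hy
    exact (Root_mem_N.1 hy.1).2)
  have hz1 : z₁ ∉ ({z₂, t} : Finset β) := by
    rw [Finset.mem_insert, Finset.mem_singleton]
    rintro (h | h)
    · exact h12 h
    · exact h1t h
  rw [Finset.sum_insert hz1, Finset.sum_pair h2t, Finset.card_insert_of_notMem hz1,
    Finset.card_pair h2t] at hs
  have hc2 : (C \ {z₁, z₂, t}).card + (C ∩ {z₁, z₂, t}).card = C.card :=
    Finset.card_sdiff_add_card_inter _ _
  have hc3 : (C ∩ {z₁, z₂, t}).card ≤ 2 := by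
    have hsub : C ∩ {z₁, z₂, t} ⊆ {z₁, z₂} := by
      intro x hx
      rw [Finset.mem_inter, Finset.mem_insert, Finset.mem_insert, Finset.mem_singleton] at hx
      rw [Finset.mem_insert, Finset.mem_singleton]
      rcases hx.2 with h | h | h
      · exact Or.inl h
      · exact Or.inr h
      · subst h
        exact absurd rfl (Root_mem_N.1 hx.1).1.ne
    exact (Finset.card_le_card hsub).trans Finset.card_le_two
  have hC' : C.card = di T t := Root_card_N T t
  omega

/-- Proof: `z₁` of maximal degree, `z₂ ≠ z₁` of maximal degree among the others.  If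
`2 * di z₂ + dg z₂ + 3 * E ≤ k + 4` take `r = z₁`, `D = dg z₂`; otherwise `r = z₂`, `D = dg z₁`.
Everything follows by `omega` from `di ≤ dg`, `tree_two` for `z₁`, `z₂`, `tree_three` for `z₁`, `z₂`, `t`
(`dg z₁ ≥ 2` as the degree sum is `2 k > k + 1`). -/
theorem exists_root {β : Type} [Fintype β] {T : SimpleGraph β} (hT : T.IsTree) {k E : ℕ}
    (hk : Fintype.card β = k + 1) (hE : 2 ≤ E) (hEk : 12 * E ≤ k) :
    ∃ (r : β) (D : ℕ), 2 ≤ dg T r ∧ (∀ t, t ≠ r → dg T t ≤ D) ∧
      (∀ t, t ≠ r → 2 * di T t + D + 3 * E ≤ k + 4) ∧ di T r + D + 2 * E ≤ k + 1 := by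
  classical
  have h1k : 1 ≤ k := by omega
  have : Nonempty β := Fintype.card_pos_iff.1 (by omega)
  obtain ⟨z₁, -, hz₁⟩ := Finset.exists_max_image (univ : Finset β) (dg T) Finset.univ_nonempty
  have hne : (univ.erase z₁).Nonempty := by
    rw [← Finset.card_pos, Finset.card_erase_of_mem (Finset.mem_univ _), Finset.card_univ, hk]
    omega
  obtain ⟨z₂, hz₂m, hz₂⟩ := Finset.exists_max_image (univ.erase z₁) (dg T) hne
  have h12 : z₁ ≠ z₂ := (Finset.ne_of_mem_erase hz₂m).symm
  have hm1 : ∀ t, dg T t ≤ dg T z₁ := fun t => hz₁ t (Finset.mem_univ _)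
  have hm2 : ∀ t, t ≠ z₁ → dg T t ≤ dg T z₂ := fun t ht =>
    hz₂ t (Finset.mem_erase.2 ⟨ht, Finset.mem_univ _⟩)
  have h2 := tree_two hT h1k hk h12
  have h21 := hm1 z₂
  have hi1 := Root_di_le T z₁
  have hi2 := Root_di_le T z₂
  have hd1 : 2 ≤ dg T z₁ := by
    by_contra hc
    have hs := sum_dg hT hk
    have hs2 : ∑ t, dg T t ≤ (univ : Finset β).card • 1 :=
      Finset.sum_le_card_nsmul _ _ _ fun t _ => by
        have := hm1 t
        omega
    rw [Finset.card_univ, hk, smul_eq_mul] at hs2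
    omega
  by_cases hcase : 2 * di T z₂ + dg T z₂ + 3 * E ≤ k + 4
  · refine ⟨z₁, dg T z₂, hd1, hm2, ?_, ?_⟩
    · intro t ht
      by_cases htz : t = z₂
      · subst htz
        exact hcase
      · have h3 := tree_three hT h1k hk h12 (Ne.symm ht) (Ne.symm htz)
        have hdt := hm2 t ht
        have hit := Root_di_le T t
        omega
    · omega
  · refine ⟨z₂, dg T z₁, ?_, fun t _ => hm1 t, ?_, ?_⟩
    · omega
    · intro t ht
      by_cases htz : t = z₁
      · subst htz
        omega
      · have h3 := tree_three hT h1k hk h12 (Ne.symm htz) (Ne.symm ht)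
        have hdt := hm2 t htz
        have hit := Root_di_le T t
        omega
    · omega

end KS137
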