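import Pool.Agent.H.MP_137e81_co.ls.BrC
import Pool.Agent.H.MP_137e81_co.ls.NoSpot
import Pool.Agent.H.MP_137e81_co.ls.Root

/-! Trees with two vertices whose degrees have sum nearly `k`: the exact case. -/

set_option autoImplicit false

namespace KS137

open Finset

open Classical in
private theorem bx_double {V : Type} (G : SimpleGraph V) (P R : Finset V) :
    ∑ v ∈ P, (R.filter fun x => G.Adj v x).card = ∑ v ∈ R, (P.filter fun x => G.Adj v x).card := by
  have h1 := Finset.sum_card_bipartiteAbove_eq_sum_card_bipartiteBelow (s := P) (t := R)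
    (fun u v => G.Adj u v)
  unfold Finset.bipartiteAbove Finset.bipartiteBelow at h1
  rw [h1]
  refine Finset.sum_congr rfl fun v _ => ?_
  congr 1
  exact Finset.filter_congr fun x _ => G.adj_comm x v

private theorem bx_num {k f a : ℕ} (hk : 100000 ≤ k) (hf : f = k / 200) (ha : a = k / 100 + 1) :
    (k + 1) * (f + (k + 1)) + f * (k + 1) < 100000 * (f * (a - f)) := by
  have h1 : k + 1 ≤ 201 * f := by omega
  have h2 : f + 1 ≤ a - f := by omega
  have h3 : 1 ≤ f := by omega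
  have h4 : (k + 1) * (f + (k + 1)) ≤ 201 * f * (202 * f) := Nat.mul_le_mul h1 (by omega)
  have h5 : f * (k + 1) ≤ f * (201 * f) := Nat.mul_le_mul_left f h1
  have h6 : f * f ≤ f * (a - f) := Nat.mul_le_mul_left f (by omega)
  have h7 : 1 ≤ f * f := Nat.mul_pos h3 h3
  have h8 : 201 * f * (202 * f) = 40602 * (f * f) := by ring
  have h9 : f * (201 * f) = 201 * (f * f) := by ring
  omega

open Classical in
/-- Proof: `s = k / 3`, `p = k - 2 s` (at least `k / 3`), `e(P, R) = ∑_{v ∈ P} d_R(v) = ∑_{v ∈ R} d_P(v)`.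
As `P` contains no edge, `d_{P ∪ R}(v) = d_R(v)` for `v ∈ P`, so every `v ∈ P` has at least `p / 2`
neighbours in `R` (so `R` is not empty), and
`2 ∑_{v ∈ R} d_P(v) = 2 e(P, R) ≥ 2 p #P + 2 s #R ≥ (p + 2 s) #R = k #R`; so some `v₀ ∈ R` has
`k ≤ 2 d_P(v₀)`; `2 dg z₂ ≤ dg z₁ + dg z₂ ≤ k + 1` (`sum_dg_le` for `{z₁, z₂}`), so `dg z₂ ≤ d_P(v₀)`.
`Γ₀` a set of `dg z₂` neighbours of `v₀` in `P`; `F` the set of the vertices with at least `k / 100 + 1`
neighbours in `Γ₀`, `#F < k / 200` by `few_of_noSpot` (`w = k + 1`, `a` of that lemma `k / 100 + 1`,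
`f = k / 200`).  `br_exact` with `a = k / 100`: `hPa` : `p / 2 - #F - 1 ≥ k / 100`; `hRa` : at least
`s - k / 100` neighbours in `P \ Γ₀`. -/
theorem broom_x : ∃ M : ℕ, 2 ≤ M ∧ ∀ k, M ≤ k → ∀ {β V : Type} [Fintype β] [Fintype V]
    {T : SimpleGraph β}, T.IsTree → Fintype.card β = k + 1 → ∀ (G : SimpleGraph V),
    NoSpot G M k → ∀ z₁ z₂ : β, z₁ ≠ z₂ → dg T z₂ ≤ dg T z₁ → k / 100 ≤ dg T z₂ →
    (univ.filter fun t => 2 ≤ dg T t ∨
      ∃ p, p ≠ z₁ ∧ p ≠ z₂ ∧ 2 ≤ dg T p ∧ T.Adj p t).card ≤ k / 100 →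
    ∀ col : β → Bool, (∀ u v, T.Adj u v → col u ≠ col v) → col z₁ ≠ col z₂ →
    ∀ P R : Finset V, (∀ v ∈ P, k ≤ dg G v) → Disjoint P R → P.Nonempty → R.card ≤ 2 * P.card →
    (∀ v ∈ P, k - 2 * (k / 3) ≤ 2 * ((P ∪ R).filter fun x => G.Adj v x).card) →
    (∀ v ∈ R, k / 3 ≤ (P.filter fun x => G.Adj v x).card) →
    (k - 2 * (k / 3)) * P.card + k / 3 * R.card ≤
      ∑ v ∈ P, ((P ∪ R).filter fun x => G.Adj v x).card →
    (∀ u ∈ P, ∀ w ∈ P, ¬ G.Adj u w) → T.IsContained G := by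
  refine ⟨100000, by norm_num, ?_⟩
  intro k hk0 β V _ _ T hT hk G hG z₁ z₂ hz hdg hz2 hsm col hcol hc P R hPd hdis hPne hRP h1 h2
    h3 h4
  obtain ⟨s, hs⟩ : ∃ s, s = k / 3 := ⟨_, rfl⟩
  obtain ⟨p, hp⟩ : ∃ p, p = k - 2 * (k / 3) := ⟨_, rfl⟩
  rw [← hp] at h1 h3
  rw [← hs] at h2 h3
  have hps : p + 2 * s = k := by omega
  have hfil : ∀ v ∈ P, ((P ∪ R).filter fun x => G.Adj v x) = R.filter fun x => G.Adj v x := by
    intro v hv
    ext x
    rw [Finset.mem_filter, Finset.mem_filter, Finset.mem_union]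
    constructor
    · rintro ⟨hx | hx, hvx⟩
      · exact absurd hvx (h4 v hv x hx)
      · exact ⟨hx, hvx⟩
    · rintro ⟨hx, hvx⟩
      exact ⟨Or.inr hx, hvx⟩
  have h1' : ∀ v ∈ P, p ≤ 2 * (R.filter fun x => G.Adj v x).card := by
    intro v hv
    have h5 := h1 v hv
    rwa [hfil v hv] at h5
  have h3' : p * P.card + s * R.card ≤ ∑ v ∈ R, (P.filter fun x => G.Adj v x).card := by
    rw [← bx_double G P R]
    refine h3.trans (le_of_eq ?_)
    exact Finset.sum_congr rfl fun v hv => by rw [hfil v hv]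
  have hRne : R.Nonempty := by
    obtain ⟨v, hv⟩ := hPne
    have h5 := h1' v hv
    rw [Finset.nonempty_iff_ne_empty]
    rintro rfl
    rw [Finset.filter_empty, Finset.card_empty] at h5
    omega
  -- the vertex of large degree
  obtain ⟨v₀, hv₀, hv₀d⟩ : ∃ v₀ ∈ R, k ≤ 2 * (P.filter fun x => G.Adj v₀ x).card := by
    by_contra hcon
    push Not at hcon
    have h5 : ∑ v ∈ R, 2 * (P.filter fun x => G.Adj v x).card < ∑ _v ∈ R, k :=
      Finset.sum_lt_sum_of_nonempty hRne hcon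
    rw [← Finset.mul_sum, Finset.sum_const, smul_eq_mul] at h5
    have h6 : p * R.card ≤ p * (2 * P.card) := Nat.mul_le_mul_left p hRP
    have h7 : R.card * k = p * R.card + 2 * (s * R.card) := by
      rw [← hps]
      ring
    have h8 : p * (2 * P.card) = 2 * (p * P.card) := by ring
    omega
  have hdeg : dg T z₂ ≤ (P.filter fun x => G.Adj v₀ x).card := by
    have h5 := sum_dg_le hT (by omega) hk {z₁, z₂}
    rw [Finset.sum_pair hz, Finset.card_pair hz] at h5
    omega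
  obtain ⟨Γ₀, hΓs, hΓc⟩ := Finset.exists_subset_card_eq hdeg
  have hΓP : Γ₀ ⊆ P := hΓs.trans (Finset.filter_subset _ _)
  have hΓa : ∀ x ∈ Γ₀, G.Adj v₀ x := fun x hx => (Finset.mem_filter.1 (hΓs hx)).2
  have hΓw : Γ₀.card ≤ k + 1 := by
    have h5 := sum_dg_le hT (by omega) hk {z₁, z₂}
    rw [Finset.sum_pair hz, Finset.card_pair hz] at h5
    omega
  obtain ⟨F, hF⟩ : ∃ F : Finset V, F =
      univ.filter fun v => k / 100 + 1 ≤ (Γ₀.filter fun x => G.Adj v x).card := ⟨_, rfl⟩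
  have hFc : F.card < k / 200 := by
    rw [hF]
    exact few_of_noSpot G hG (bx_num hk0 rfl rfl) Γ₀ hΓw
  refine br_exact hT G (a := k / 100) hk (by omega) hsm col hcol hc P R F Γ₀ hdis hPd hv₀ hΓP hΓa
    hΓc hz2 ?_ ?_
  · intro v hv
    have h5 := h1' v hv
    have h6 : (R.filter fun x => G.Adj v x) ⊆
        ((R \ insert v₀ F).filter fun x => G.Adj v x) ∪ insert v₀ F := by
      intro x hx
      rw [Finset.mem_filter] at hx
      rw [Finset.mem_union, Finset.mem_filter, Finset.mem_sdiff]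
      by_cases hxF : x ∈ insert v₀ F
      · exact Or.inr hxF
      · exact Or.inl ⟨⟨hx.1, hxF⟩, hx.2⟩
    have h7 := (Finset.card_le_card h6).trans (Finset.card_union_le _ _)
    have h8 := Finset.card_insert_le v₀ F
    omega
  · intro v hv hvF _
    have h5 := h2 v hv
    have h6 : (Γ₀.filter fun x => G.Adj v x).card < k / 100 + 1 := by
      by_contra h7
      push Not at h7
      refine hvF ?_
      rw [hF, Finset.mem_filter]
      exact ⟨Finset.mem_univ v, h7⟩
    have h7 : (P.filter fun x => G.Adj v x) ⊆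
        ((P \ Γ₀).filter fun x => G.Adj v x) ∪ Γ₀.filter fun x => G.Adj v x := by
      intro x hx
      rw [Finset.mem_filter] at hx
      rw [Finset.mem_union, Finset.mem_filter, Finset.mem_filter, Finset.mem_sdiff]
      by_cases hxF : x ∈ Γ₀
      · exact Or.inr ⟨hxF, hx.2⟩
      · exact Or.inl ⟨⟨hx.1, hxF⟩, hx.2⟩
    have h8 := (Finset.card_le_card h7).trans (Finset.card_union_le _ _)
    omega

end KS137
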