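import Pool.Agent.H.MP_137e81_co.ls.Cln2

/-! A good bipartite region. -/

set_option autoImplicit false

namespace KS137

open Finset

open Classical in
/-- the number of ordered pairs of adjacent vertices in `P × X` -/
private noncomputable def Nice_E {V : Type} (G : SimpleGraph V) (P X : Finset V) : ℤ :=
  ∑ u ∈ P, ∑ x ∈ X, if G.Adj u x then 1 else 0

open Classical in
private theorem Nice_deg {V : Type} (G : SimpleGraph V) (X : Finset V) (v : V) :
    (((X.filter fun x => G.Adj v x).card : ℕ) : ℤ) = ∑ x ∈ X, if G.Adj v x then 1 else 0 := by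
  rw [Finset.card_filter]
  push_cast
  rfl

open Classical in
private theorem Nice_symm {V : Type} (G : SimpleGraph V) (P : Finset V) (v : V) :
    (∑ u ∈ P, if G.Adj u v then (1 : ℤ) else 0) = ∑ u ∈ P, if G.Adj v u then 1 else 0 := by
  refine Finset.sum_congr rfl fun u _ => ?_
  simp only [G.adj_comm u v]

open Classical in
private theorem Nice_sumL {V : Type} (G : SimpleGraph V) (P X : Finset V) :
    Nice_E G P X = ∑ v ∈ P, (((X.filter fun x => G.Adj v x).card : ℕ) : ℤ) := by
  unfold Nice_E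
  exact Finset.sum_congr rfl fun v _ => (Nice_deg G X v).symm

open Classical in
private theorem Nice_sumR {V : Type} (G : SimpleGraph V) (P X : Finset V) :
    Nice_E G P X = ∑ v ∈ X, (((P.filter fun x => G.Adj v x).card : ℕ) : ℤ) := by
  unfold Nice_E
  rw [Finset.sum_comm]
  refine Finset.sum_congr rfl fun v _ => ?_
  rw [Nice_deg, Nice_symm]

private theorem Nice_nn {V : Type} (G : SimpleGraph V) (P X : Finset V) : 0 ≤ Nice_E G P X := by
  rw [Nice_sumL]
  exact Finset.sum_nonneg fun v _ => by positivity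

open Classical in
private theorem Nice_splitL {V : Type} (G : SimpleGraph V) {P P' : Finset V} (X : Finset V)
    (h : P' ⊆ P) : Nice_E G P X = Nice_E G (P \ P') X + Nice_E G P' X := by
  rw [Nice_sumL, Nice_sumL, Nice_sumL, Finset.sum_sdiff h]

open Classical in
private theorem Nice_splitR {V : Type} (G : SimpleGraph V) (P : Finset V) {X X' : Finset V}
    (h : X' ⊆ X) : Nice_E G P X = Nice_E G P (X \ X') + Nice_E G P X' := by
  rw [Nice_sumR, Nice_sumR, Nice_sumR, Finset.sum_sdiff h]

open Classical in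
private theorem Nice_erase {V : Type} (G : SimpleGraph V) (P R : Finset V) {v : V} (hv : v ∈ R) :
    Nice_E G P R = Nice_E G P (R.erase v) + (P.filter fun x => G.Adj v x).card := by
  rw [Nice_sumR, Nice_sumR, Finset.sum_erase_add _ _ hv]

open Classical in
private theorem Nice_left {V : Type} (G : SimpleGraph V) (P R : Finset V) {v : V} (hv : v ∈ P) :
    Nice_E G P R = Nice_E G (P.erase v) R + (R.filter fun x => G.Adj v x).card := by
  rw [Nice_sumL, Nice_sumL, Finset.sum_erase_add _ _ hv]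

private theorem Nice_card {V : Type} [DecidableEq V] {P : Finset V} {v : V} (hv : v ∈ P) :
    ((P.erase v).card : ℤ) = P.card - 1 := by
  have h4 := Finset.card_erase_add_one hv
  have h5 : ((P.erase v).card : ℤ) + 1 = P.card := by exact_mod_cast h4
  linarith

private theorem Nice_sdiff {V : Type} [DecidableEq V] {P P' : Finset V} (h : P' ⊆ P) :
    ((P \ P').card : ℤ) = P.card - P'.card := by
  have h1 := Finset.card_sdiff_add_card_eq_card h
  have h2 : ((P \ P').card : ℤ) + P'.card = P.card := by exact_mod_cast h1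
  linarith

open Classical in
/-- Proof: maximise `Ψ(X, Y) = e(X, Y) - a #X - a #Y` over `X ⊆ P`, `Y ⊆ R`: `P'`, `R'` with degrees at
least `a`, and `e(P, R) - e(P', R') ≤ a (#P° + #R°)`, `P° = P \ P'`, `R° = R \ R'`.  If `P°` is empty the last
conclusion is clear (`P' = P`).  Otherwise some `u ∈ P°` has at least `a` neighbours in `P'` (so `P'` is not
empty, and `w` is one of them): suppose not.  `s #R° ≤ e(P, R°) ≤ e(P, R) - e(P', R')`, so `#R° ≤ #P°`
(as `s ≥ 2 a`); `∑_{u ∈ P°} d_R(u) ≤ e(P, R) - e(P', R') ≤ 2 a #P°`;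
`p #P° ≤ 2 ∑_{u ∈ P°} (d_P(u) + d_R(u))`, so `∑_{u ∈ P°} d_P(u) ≥ 3 a #P°`; the `u ∈ P°` have at most
`a - 1` neighbours in `P'`, hence `∑_{u ∈ P°} d_{P°}(u) > 2 a #P°`, and `coreP` for `P°` contradicts
`hcore`. -/
theorem nice {V : Type} (G : SimpleGraph V) {a p s : ℕ} (P R : Finset V) (hdis : Disjoint P R)
    (ha : 1 ≤ a) (hs2 : 2 * a ≤ s) (hp10 : 10 * a ≤ p) (hPne : P.Nonempty)
    (hp : ∀ v ∈ P, p ≤ 2 * ((P ∪ R).filter fun x => G.Adj v x).card)
    (hs : ∀ v ∈ R, s ≤ (P.filter fun x => G.Adj v x).card)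
    (hcore : ¬ ∃ X : Finset V, X ⊆ P ∧ X.Nonempty ∧
      ∀ v ∈ X, a ≤ (X.filter fun x => G.Adj v x).card) :
    ∃ P' R' : Finset V, P' ⊆ P ∧ R' ⊆ R ∧ P'.Nonempty ∧
      (∀ v ∈ P', a ≤ (R'.filter fun x => G.Adj v x).card) ∧
      (∀ v ∈ R', a ≤ (P'.filter fun x => G.Adj v x).card) ∧
      ((∃ u ∈ P, ∃ w ∈ P, G.Adj u w) → ∃ u ∈ P, ∃ w ∈ P', G.Adj u w ∧
        (u ∈ P' ∨ a ≤ (P'.filter fun x => G.Adj u x).card)) := by
  obtain ⟨Ψ, hΨ⟩ : ∃ Ψ : Finset V × Finset V → ℤ, Ψ = fun z => Nice_E G z.1 z.2 -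
      a * z.1.card - a * z.2.card := ⟨_, rfl⟩
  obtain ⟨⟨P', R'⟩, hPR, hmax⟩ := Finset.exists_max_image (P.powerset ×ˢ R.powerset) Ψ
    ⟨(P, R), by
      rw [Finset.mem_product]
      exact ⟨Finset.mem_powerset_self P, Finset.mem_powerset_self R⟩⟩
  rw [Finset.mem_product] at hPR
  obtain ⟨hP', hR'⟩ := hPR
  simp only [Finset.mem_powerset] at hP' hR'
  have hmax' : ∀ X Y : Finset V, X ⊆ P → Y ⊆ R →
      Nice_E G X Y - a * X.card - a * Y.card ≤
        Nice_E G P' R' - a * P'.card - a * R'.card := by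
    intro X Y h1 h2
    have h4 := hmax (X, Y) (by
      rw [Finset.mem_product]
      exact ⟨Finset.mem_powerset.2 h1, Finset.mem_powerset.2 h2⟩)
    rw [hΨ] at h4
    exact h4
  have hd1 : ∀ v ∈ P', a ≤ (R'.filter fun x => G.Adj v x).card := by
    intro v hv
    have h2 := hmax' (P'.erase v) R' ((Finset.erase_subset v P').trans hP') hR'
    rw [Nice_card hv, Nice_left G P' R' hv] at h2
    have h4 : (a : ℤ) ≤ (R'.filter fun x => G.Adj v x).card := by linarith
    exact_mod_cast h4
  have hd2 : ∀ v ∈ R', a ≤ (P'.filter fun x => G.Adj v x).card := by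
    intro v hv
    have h2 := hmax' P' (R'.erase v) hP' ((Finset.erase_subset v R').trans hR')
    rw [Nice_card hv, Nice_erase G P' R' hv] at h2
    have h4 : (a : ℤ) ≤ (P'.filter fun x => G.Adj v x).card := by linarith
    exact_mod_cast h4
  by_cases hPo : (P \ P').Nonempty
  swap
  · have hPP : P' = P := by
      rw [Finset.not_nonempty_iff_eq_empty, Finset.sdiff_eq_empty_iff_subset] at hPo
      exact Finset.Subset.antisymm hP' hPo
    subst hPP
    refine ⟨P', R', hP', hR', hPne, hd1, hd2, ?_⟩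
    rintro ⟨u, hu, w, hw, huw⟩
    exact ⟨u, hu, w, hw, huw, Or.inl hu⟩
  obtain ⟨u, hu, hua⟩ : ∃ u ∈ P \ P', a ≤ (P'.filter fun x => G.Adj u x).card := by
    by_contra hcon
    push Not at hcon
    have hcP := Nice_sdiff hP'
    have hcR := Nice_sdiff hR'
    have ha' : (1 : ℤ) ≤ a := by exact_mod_cast ha
    have hs2' : (2 : ℤ) * a ≤ s := by exact_mod_cast hs2
    have hp10' : (10 : ℤ) * a ≤ p := by exact_mod_cast hp10
    have hE : Nice_E G P R - Nice_E G P' R' ≤ a * (P \ P').card + a * (R \ R').card := by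
      have h1 := hmax' P R subset_rfl subset_rfl
      rw [hcP, hcR]
      linarith
    have hPo1 : (1 : ℤ) ≤ (P \ P').card := by exact_mod_cast Finset.card_pos.2 hPo
    have hRo0 : (0 : ℤ) ≤ (R \ R').card := by positivity
    -- the vertices of `R` outside `R'`
    have h1 : (s : ℤ) * (R \ R').card ≤ Nice_E G P (R \ R') := by
      rw [Nice_sumR, mul_comm, ← nsmul_eq_mul, ← Finset.sum_const]
      refine Finset.sum_le_sum fun v hv => ?_
      exact_mod_cast hs v (Finset.sdiff_subset hv)
    have h2 : Nice_E G P (R \ R') ≤ Nice_E G P R - Nice_E G P' R' := by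
      have h3 := Nice_splitR G P hR'
      have h4 := Nice_splitL G R' hP'
      have h5 := Nice_nn G (P \ P') R'
      linarith
    have h3 : ((R \ R').card : ℤ) ≤ (P \ P').card := by
      have h4 : (s : ℤ) * (R \ R').card ≤ a * (P \ P').card + a * (R \ R').card := by linarith
      have h5 : (2 * a : ℤ) * (R \ R').card ≤ s * (R \ R').card :=
        mul_le_mul_of_nonneg_right hs2' hRo0
      have h6 : (a : ℤ) * (R \ R').card ≤ a * (P \ P').card := by linarith
      exact le_of_mul_le_mul_left h6 (by linarith)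
    have h4 : Nice_E G (P \ P') R ≤ 2 * a * (P \ P').card := by
      have h5 := Nice_splitL G R hP'
      have h6 := Nice_splitR G P' hR'
      have h7 := Nice_nn G P' (R \ R')
      have h8 : (a : ℤ) * (R \ R').card ≤ a * (P \ P').card :=
        mul_le_mul_of_nonneg_left h3 (by linarith)
      linarith
    have h5 : (p : ℤ) * (P \ P').card ≤ 2 * (Nice_E G (P \ P') P + Nice_E G (P \ P') R) := by
      rw [Nice_sumL, Nice_sumL, ← Finset.sum_add_distrib, Finset.mul_sum, mul_comm,
        ← nsmul_eq_mul, ← Finset.sum_const]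
      refine Finset.sum_le_sum fun v hv => ?_
      have h6 := hp v (Finset.sdiff_subset hv)
      have h7 : (((P ∪ R).filter fun x => G.Adj v x).card : ℤ) =
          (P.filter fun x => G.Adj v x).card + (R.filter fun x => G.Adj v x).card := by
        rw [Nice_deg, Nice_deg, Nice_deg, Finset.sum_union hdis]
      rw [← h7]
      exact_mod_cast h6
    have h6 : Nice_E G (P \ P') P' ≤ (a - 1) * (P \ P').card := by
      rw [Nice_sumL, mul_comm, ← nsmul_eq_mul, ← Finset.sum_const]
      refine Finset.sum_le_sum fun v hv => ?_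
      have h7 := hcon v hv
      have h8 : (((P'.filter fun x => G.Adj v x).card : ℕ) : ℤ) + 1 ≤ a := by exact_mod_cast h7
      linarith
    have h7 := Nice_splitR G (P \ P') hP'
    have h8 : Nice_E G (P \ P') (P \ P') ≤ 2 * a * (P \ P').card := by
      rcases coreP G (P \ P') a with ⟨X, hX1, hX2, hX3⟩ | h9
      · exact absurd ⟨X, hX1.trans Finset.sdiff_subset, hX2, hX3⟩ hcore
      · rw [Nice_sumL]
        exact_mod_cast h9
    have h9 : (10 * a : ℤ) * (P \ P').card ≤ p * (P \ P').card :=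
      mul_le_mul_of_nonneg_right hp10' (by linarith)
    nlinarith
  obtain ⟨w, hw⟩ : (P'.filter fun x => G.Adj u x).Nonempty :=
    Finset.card_pos.1 (lt_of_lt_of_le ha hua)
  rw [Finset.mem_filter] at hw
  exact ⟨P', R', hP', hR', ⟨w, hw.1⟩, hd1, hd2,
    fun _ => ⟨u, Finset.sdiff_subset hu, w, hw.1, hw.2, Or.inr hua⟩⟩

end KS137
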