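import Pool.Agent.H.MP_137e81_co.ls.BrA
import Pool.Agent.H.MP_137e81_co.ls.BrB
import Pool.Agent.H.MP_137e81_co.ls.BroomX
import Pool.Agent.H.MP_137e81_co.ls.Nice

/-! Trees with two vertices whose degrees have sum nearly `k`. -/

set_option autoImplicit false

namespace KS137

open Finset

private theorem Broom_mono {V : Type} {G : SimpleGraph V} {M M' k : ℕ} (hM : M' ≤ M)
    (h : NoSpot G M k) : NoSpot G M' k := by
  intro A B hA hAB h1 h2
  have h3 := h A B hA hAB (fun a ha => (h1 a ha).trans_le (Nat.mul_le_mul_right _ hM))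
    (fun x hx => (h2 x hx).trans_le (Nat.mul_le_mul_right _ hM))
  exact (Nat.mul_le_mul_right _ hM).trans h3

open Classical in
/-- the set of `small_card` for `z₁`, `z₁` -/
private theorem Broom_card {β : Type} [Fintype β] (T : SimpleGraph β) (z₁ z₂ : β) {m : ℕ}
    (h : (univ.filter fun t => 2 ≤ dg T t ∨
      ∃ p, p ≠ z₁ ∧ p ≠ z₂ ∧ 2 ≤ dg T p ∧ T.Adj p t).card ≤ m) :
    (univ.filter fun t => 2 ≤ dg T t ∨
      ∃ p, p ≠ z₁ ∧ p ≠ z₁ ∧ 2 ≤ dg T p ∧ T.Adj p t).card ≤ m + dg T z₂ := by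
  have h1 : (univ.filter fun t => 2 ≤ dg T t ∨
      ∃ p, p ≠ z₁ ∧ p ≠ z₁ ∧ 2 ≤ dg T p ∧ T.Adj p t) ⊆
      (univ.filter fun t => 2 ≤ dg T t ∨ ∃ p, p ≠ z₁ ∧ p ≠ z₂ ∧ 2 ≤ dg T p ∧ T.Adj p t) ∪
        (univ.filter fun u => T.Adj z₂ u) := by
    intro t ht
    rw [Finset.mem_filter] at ht
    rw [Finset.mem_union, Finset.mem_filter, Finset.mem_filter]
    rcases ht.2 with h2 | ⟨p, hp1, -, hp2, hp3⟩
    · exact Or.inl ⟨mem_univ _, Or.inl h2⟩
    · by_cases hpz : p = z₂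
      · subst hpz
        exact Or.inr ⟨mem_univ _, hp3⟩
      · exact Or.inl ⟨mem_univ _, Or.inr ⟨p, hp1, hpz, hp2, hp3⟩⟩
  refine (card_le_card h1).trans ((card_union_le _ _).trans ?_)
  exact Nat.add_le_add_right h _

open Classical in
/-- Proof: `a = k / 40`, `s = k / 3`, `p = k - 2 s`; `small_card`: the set of `small_card` (call it `N`)
has at most `3 (k / 400) ≤ k / 100 ≤ a` elements.
`clean2` (`s #(univ \ L) ≤ 2 s #L`): `P ⊆ L`, `R ⊆ univ \ L` (so disjoint), `#R ≤ 2 #P` (from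
`s #R ≤ (k - p) #P = 2 s #P`).  If `G[P]` has a nonempty subset with all degrees at least `a`: `br_core`.
Otherwise `nice` (`2 a ≤ s`, `10 a ≤ p`): `P'`, `R'`.  `exists_col`: `col`.
If `dg z₂ < k / 100` : `br_even` for `P'`, `R'` and with `z₂ := z₁` (the set in its `hsm` is contained in the
union of `N` and the set of the neighbours of `z₂`, so it has at most `3 (k / 400) + k / 100 ≤ a` elements).
Let `k / 100 ≤ dg z₂`.  `col z₁ = col z₂` : `br_even` for `P'`, `R'`.  `col z₁ ≠ col z₂`, `G[P]` has an edge: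
`u`, `w` of `nice`, `br_odd2` (for `P'`, `R'`) if `u ∈ P'`, `br_odd1` (for `P'`, `R'`) otherwise.
`col z₁ ≠ col z₂`, `G[P]` has no edge: `broom_x`. -/
theorem broom : ∃ M : ℕ, 2 ≤ M ∧ ∀ k, M ≤ k → ∀ {β V : Type} [Fintype β] [Fintype V]
    {T : SimpleGraph β}, T.IsTree → Fintype.card β = k + 1 → ∀ (G : SimpleGraph V),
    NoSpot G M k → ∀ z₁ z₂ : β, z₁ ≠ z₂ → dg T z₂ ≤ dg T z₁ →
    k + 3 ≤ dg T z₁ + dg T z₂ + k / 400 → ∀ L : Finset V, (∀ v ∈ L, k ≤ dg G v) → L.Nonempty →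
    (univ \ L).card ≤ 2 * L.card → T.IsContained G := by
  obtain ⟨M₁, hM₁, hX⟩ := broom_x
  refine ⟨max M₁ 4000, hM₁.trans (le_max_left _ _), ?_⟩
  intro k hkM β V _ _ T hT hk G hsp z₁ z₂ hz hz21 hsum L hLd hLne hLc
  have hk1 : M₁ ≤ k := (le_max_left _ _).trans hkM
  have hk2 : 4000 ≤ k := (le_max_right _ _).trans hkM
  have hsp1 : NoSpot G M₁ k := Broom_mono (le_max_left _ _) hsp
  have hN := small_card hT (k := k) (by omega) hk hz
  have hN1 : (univ.filter fun t => 2 ≤ dg T t ∨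
      ∃ p, p ≠ z₁ ∧ p ≠ z₂ ∧ 2 ≤ dg T p ∧ T.Adj p t).card ≤ 3 * (k / 400) := by omega
  have hN2 : (univ.filter fun t => 2 ≤ dg T t ∨
      ∃ p, p ≠ z₁ ∧ p ≠ z₂ ∧ 2 ≤ dg T p ∧ T.Adj p t).card ≤ k / 100 := by omega
  have hN3 : (univ.filter fun t => 2 ≤ dg T t ∨
      ∃ p, p ≠ z₁ ∧ p ≠ z₂ ∧ 2 ≤ dg T p ∧ T.Adj p t).card ≤ k / 40 := by omega
  have hN0 : (univ.filter fun t => 2 ≤ dg T t).card ≤ k / 40 := by
    refine (card_le_card ?_).trans hN3
    intro t ht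
    rw [Finset.mem_filter] at ht ⊢
    exact ⟨ht.1, Or.inl ht.2⟩
  have hz1 : 2 ≤ dg T z₁ := by omega
  -- the cleaning
  have hkp : k - (k - 2 * (k / 3)) = 2 * (k / 3) := by omega
  have hcl : k / 3 * (univ \ L).card ≤ (k - (k - 2 * (k / 3))) * L.card := by
    rw [hkp]
    calc k / 3 * (univ \ L).card ≤ k / 3 * (2 * L.card) := Nat.mul_le_mul_left _ hLc
      _ = 2 * (k / 3) * L.card := by ring
  obtain ⟨P, R, v₀, hPL, hRL, hv₀, hp, hs, -, hRc, hsumP⟩ :=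
    clean2 G (k := k) (p := k - 2 * (k / 3)) (s := k / 3) L hLne hLd (by omega) (by omega) hcl
  have hPne : P.Nonempty := ⟨v₀, hv₀⟩
  have hPd : ∀ v ∈ P, k ≤ dg G v := fun v hv => hLd v (hPL hv)
  have hdis : Disjoint P R := by
    rw [Finset.disjoint_left]
    intro v hv hv'
    exact (mem_sdiff.1 (hRL hv')).2 (hPL hv)
  have hRc2 : R.card ≤ 2 * P.card := by
    rw [hkp] at hRc
    have h1 : k / 3 * R.card ≤ k / 3 * (2 * P.card) := by
      refine hRc.trans_eq ?_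
      ring
    exact Nat.le_of_mul_le_mul_left h1 (by omega)
  by_cases hcore : ∃ X : Finset V, X ⊆ P ∧ X.Nonempty ∧
      ∀ v ∈ X, k / 40 ≤ (X.filter fun x => G.Adj v x).card
  · obtain ⟨X, hXP, hXne, hXa⟩ := hcore
    exact br_core hT G (by omega) hk hN0 X hXne (fun v hv => hPd v (hXP hv)) hXa
  obtain ⟨P', R', hP'P, hR'R, hP'ne, hPa, hRa, hedge⟩ :=
    nice G (a := k / 40) (p := k - 2 * (k / 3)) (s := k / 3) P R hdis (by omega) (by omega)
      (by omega) hPne hp hs hcore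
  have hP'd : ∀ v ∈ P', k ≤ dg G v := fun v hv => hPd v (hP'P hv)
  obtain ⟨col, hcol⟩ := exists_col hT
  by_cases hsmall : dg T z₂ < k / 100
  · refine br_even hT G hk (z₁ := z₁) (z₂ := z₁) hz1 ?_ col hcol rfl P' R' hP'ne hP'd hPa hRa
    have := Broom_card T z₁ z₂ hN1
    omega
  push Not at hsmall
  have hz2 : 2 ≤ dg T z₂ := by omega
  by_cases hc : col z₁ = col z₂
  · exact br_even hT G hk hz1 hN3 col hcol hc P' R' hP'ne hP'd hPa hRa
  by_cases hE : ∃ u ∈ P, ∃ w ∈ P, G.Adj u w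
  · obtain ⟨u, hu, w, hw, huw, h1 | h1⟩ := hedge hE
    · exact br_odd2 hT G hk hz1 hz2 hN3 col hcol hc P' R' hP'd hPa hRa u w h1 hw huw
    · exact br_odd1 hT G hk hz2 hN3 col hcol hc P' R' hP'd hPa hRa u (hPd u hu) h1
  · refine hX k hk1 hT hk G hsp1 z₁ z₂ hz hz21 hsmall hN2 col hcol hc P R hPd hdis hPne hRc2 hp hs
      hsumP ?_
    intro u hu w hw huw
    exact hE ⟨u, hu, w, hw, huw⟩

end KS137
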