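import Pool.Agent.H.MP_137e81_co.ls.Defs

/-! Cleaning lemmas. -/

set_option autoImplicit false

namespace KS137

open Finset

open Classical in
/-- the number of ordered pairs of adjacent vertices in `P × X` -/
private noncomputable def Cln2_E {V : Type} (G : SimpleGraph V) (P X : Finset V) : ℤ :=
  ∑ u ∈ P, ∑ x ∈ X, if G.Adj u x then 1 else 0

open Classical in
private theorem Cln2_deg {V : Type} (G : SimpleGraph V) (X : Finset V) (v : V) :
    (((X.filter fun x => G.Adj v x).card : ℕ) : ℤ) = ∑ x ∈ X, if G.Adj v x then 1 else 0 := by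
  rw [Finset.card_filter]
  push_cast
  rfl

open Classical in
private theorem Cln2_sum {V : Type} (G : SimpleGraph V) (P X : Finset V) :
    ((∑ v ∈ P, (X.filter fun x => G.Adj v x).card : ℕ) : ℤ) = Cln2_E G P X := by
  unfold Cln2_E
  rw [Nat.cast_sum]
  exact Finset.sum_congr rfl fun v _ => Cln2_deg G X v

open Classical in
private theorem Cln2_symm {V : Type} (G : SimpleGraph V) (P : Finset V) (v : V) :
    (∑ u ∈ P, if G.Adj u v then (1 : ℤ) else 0) = ∑ u ∈ P, if G.Adj v u then 1 else 0 := by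
  refine Finset.sum_congr rfl fun u _ => ?_
  simp only [G.adj_comm u v]

open Classical in
private theorem Cln2_erase {V : Type} (G : SimpleGraph V) (P R : Finset V) {v : V} (hv : v ∈ R) :
    Cln2_E G P R = Cln2_E G P (R.erase v) + (P.filter fun x => G.Adj v x).card := by
  rw [Cln2_deg, ← Cln2_symm]
  unfold Cln2_E
  rw [← Finset.sum_add_distrib]
  refine Finset.sum_congr rfl fun u _ => ?_
  rw [Finset.sum_erase_add _ _ hv]

open Classical in
private theorem Cln2_left {V : Type} (G : SimpleGraph V) (P R : Finset V) {v : V} (hv : v ∈ P) :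
    Cln2_E G P R = Cln2_E G (P.erase v) R + (R.filter fun x => G.Adj v x).card := by
  rw [Cln2_deg]
  unfold Cln2_E
  rw [Finset.sum_erase_add _ _ hv]

open Classical in
private theorem Cln2_self {V : Type} (G : SimpleGraph V) (P : Finset V) {v : V} (hv : v ∈ P) :
    Cln2_E G P P = Cln2_E G (P.erase v) (P.erase v) + 2 * (P.filter fun x => G.Adj v x).card := by
  have h1 : (((P.erase v).filter fun x => G.Adj v x).card : ℤ) =
      (P.filter fun x => G.Adj v x).card := by
    rw [Cln2_deg, Cln2_deg, ← Finset.sum_erase_add P _ hv, if_neg (G.irrefl), add_zero]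
  rw [Cln2_left G P P hv, Cln2_erase G (P.erase v) P hv, h1]
  ring

private theorem Cln2_card {V : Type} [DecidableEq V] {P : Finset V} {v : V} (hv : v ∈ P) :
    ((P.erase v).card : ℤ) = P.card - 1 := by
  have h4 := Finset.card_erase_add_one hv
  have h5 : ((P.erase v).card : ℤ) + 1 = P.card := by exact_mod_cast h4
  linarith

private theorem Cln2_single {V : Type} [DecidableEq V] {P : Finset V} {v : V} (hv : v ∈ P)
    (h : ¬ (P.erase v).Nonempty) : P = {v} := by
  rw [Finset.not_nonempty_iff_eq_empty] at h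
  rw [← Finset.insert_erase hv, h, insert_empty_eq]

open Classical in
/-- Proof: as `exists_clean` in Clean.lean.  Among the pairs `(P, R)` with `P ⊆ L` nonempty and
`R ⊆ univ \ L` choose one which maximises `Φ(P, R) = ∑_{v ∈ P} d_{P ∪ R}(v) - p #P - s #R`;
`Φ(P, R) ≥ Φ(L, univ \ L) ≥ (k - p) #L - s #(univ \ L) ≥ 0`.  The last conclusion but one:
`Φ(L, S) - Φ(P, R) ≤ 0` and `Φ(L, S) - Φ(P, R) ≥ k #(L \ P) - p #(L \ P) - s #(S \ R)`, so
`(k - p) #(L \ P) ≤ s #(S \ R)`; subtract from `s #S ≤ (k - p) #L`. -/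
theorem clean2 {V : Type} [Fintype V] (G : SimpleGraph V) {k p s : ℕ} (L : Finset V)
    (hL : L.Nonempty) (hdeg : ∀ v ∈ L, k ≤ dg G v) (hpk : p ≤ k) (hs : 1 ≤ s)
    (h : s * (univ \ L).card ≤ (k - p) * L.card) :
    ∃ (P R : Finset V) (v₀ : V), P ⊆ L ∧ R ⊆ univ \ L ∧ v₀ ∈ P ∧
      (∀ v ∈ P, p ≤ 2 * ((P ∪ R).filter fun x => G.Adj v x).card) ∧
      (∀ v ∈ R, s ≤ (P.filter fun x => G.Adj v x).card) ∧
      p ≤ ((P ∪ R).filter fun x => G.Adj v₀ x).card ∧
      s * R.card ≤ (k - p) * P.card ∧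
      p * P.card + s * R.card ≤ ∑ v ∈ P, ((P ∪ R).filter fun x => G.Adj v x).card := by
  obtain ⟨S, hS⟩ : ∃ S : Finset V, S = univ \ L := ⟨_, rfl⟩
  rw [← hS] at h ⊢
  have hdisj : Disjoint L S := by
    rw [hS]
    exact Finset.disjoint_sdiff
  have hLS : L ∪ S = univ := by
    rw [hS]
    exact Finset.union_sdiff_of_subset (Finset.subset_univ L)
  obtain ⟨Φ, hΦ⟩ : ∃ Φ : Finset V × Finset V → ℤ, Φ = fun z => Cln2_E G z.1 z.1 +
      Cln2_E G z.1 z.2 - p * z.1.card - s * z.2.card := ⟨_, rfl⟩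
  obtain ⟨⟨P, R⟩, hPR, hmax⟩ := Finset.exists_max_image
    ((L.powerset ×ˢ S.powerset).filter fun z : Finset V × Finset V => z.1.Nonempty) Φ
    ⟨(L, S), by
      rw [Finset.mem_filter, Finset.mem_product]
      exact ⟨⟨Finset.mem_powerset_self L, Finset.mem_powerset_self S⟩, hL⟩⟩
  rw [Finset.mem_filter, Finset.mem_product] at hPR
  obtain ⟨⟨hP, hR⟩, hPne⟩ := hPR
  simp only [Finset.mem_powerset] at hP hR hPne
  have hmax' : ∀ P' R' : Finset V, P' ⊆ L → R' ⊆ S → P'.Nonempty →
      Cln2_E G P' P' + Cln2_E G P' R' - p * P'.card - s * R'.card ≤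
        Cln2_E G P P + Cln2_E G P R - p * P.card - s * R.card := by
    intro P' R' h1 h2 h3
    have h4 := hmax (P', R') (by
      rw [Finset.mem_filter, Finset.mem_product]
      exact ⟨⟨Finset.mem_powerset.2 h1, Finset.mem_powerset.2 h2⟩, h3⟩)
    rw [hΦ] at h4
    exact h4
  have hPRd : Disjoint P R := Finset.disjoint_of_subset_left hP
    (Finset.disjoint_of_subset_right hR hdisj)
  have hu : ∀ v, (((P ∪ R).filter fun x => G.Adj v x).card : ℤ) =
      (P.filter fun x => G.Adj v x).card + (R.filter fun x => G.Adj v x).card := by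
    intro v
    rw [Cln2_deg, Cln2_deg, Cln2_deg, Finset.sum_union hPRd]
  have hsum : ((∑ v ∈ P, ((P ∪ R).filter fun x => G.Adj v x).card : ℕ) : ℤ) =
      Cln2_E G P P + Cln2_E G P R := by
    rw [Nat.cast_sum, ← Cln2_sum, ← Cln2_sum, Nat.cast_sum, Nat.cast_sum,
      ← Finset.sum_add_distrib]
    exact Finset.sum_congr rfl fun v _ => hu v
  -- the value at `(L, S)`
  have hLE : Cln2_E G P P + Cln2_E G P R + (k : ℤ) * (L \ P).card ≤
      Cln2_E G L L + Cln2_E G L S := by
    have h1 : Cln2_E G L L + Cln2_E G L S =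
        ∑ v ∈ L, ((univ.filter fun x => G.Adj v x).card : ℤ) := by
      rw [← Cln2_sum, ← Cln2_sum, Nat.cast_sum, Nat.cast_sum, ← Finset.sum_add_distrib]
      refine Finset.sum_congr rfl fun v _ => ?_
      rw [Cln2_deg, Cln2_deg, Cln2_deg, ← Finset.sum_union hdisj, hLS]
    rw [h1, ← hsum, ← Finset.sum_sdiff hP, add_comm]
    refine add_le_add ?_ ?_
    · rw [mul_comm, ← nsmul_eq_mul, ← Finset.sum_const]
      refine Finset.sum_le_sum fun v hv => ?_
      have h2 := hdeg v (Finset.sdiff_subset hv)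
      unfold dg at h2
      exact_mod_cast h2
    · rw [Nat.cast_sum]
      refine Finset.sum_le_sum fun v _ => ?_
      exact_mod_cast Finset.card_le_card (Finset.filter_subset_filter _ (Finset.subset_univ _))
  have hkp : ((k - p : ℕ) : ℤ) = k - p := by
    rw [Nat.cast_sub hpk]
  have h' : (s : ℤ) * S.card ≤ (k - p) * L.card := by
    rw [← hkp]
    exact_mod_cast h
  have hcP : ((L \ P).card : ℤ) = L.card - P.card := by
    have h1 := Finset.card_sdiff_add_card_eq_card hP
    have h2 : ((L \ P).card : ℤ) + P.card = L.card := by exact_mod_cast h1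
    linarith
  have hmLS := hmax' L S subset_rfl subset_rfl hL
  have hk0 : (p : ℤ) ≤ k := by exact_mod_cast hpk
  have hPL : (P.card : ℤ) ≤ L.card := by exact_mod_cast Finset.card_le_card hP
  -- the value of the maximum
  have h0 : (p : ℤ) * P.card + s * R.card ≤ Cln2_E G P P + Cln2_E G P R := by
    have h1 : (k : ℤ) * L.card ≤ Cln2_E G L L + Cln2_E G L S := by
      have h2 : Cln2_E G L L + Cln2_E G L S =
          ∑ v ∈ L, ((univ.filter fun x => G.Adj v x).card : ℤ) := by
        rw [← Cln2_sum, ← Cln2_sum, Nat.cast_sum, Nat.cast_sum, ← Finset.sum_add_distrib]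
        refine Finset.sum_congr rfl fun v _ => ?_
        rw [Cln2_deg, Cln2_deg, Cln2_deg, ← Finset.sum_union hdisj, hLS]
      rw [h2, mul_comm, ← nsmul_eq_mul, ← Finset.sum_const]
      refine Finset.sum_le_sum fun v hv => ?_
      have h3 := hdeg v hv
      unfold dg at h3
      exact_mod_cast h3
    linarith
  -- a vertex of large degree
  obtain ⟨v₀, hv₀, hd₀⟩ : ∃ v₀ ∈ P, (p : ℤ) ≤
      ((P ∪ R).filter fun x => G.Adj v₀ x).card := by
    by_contra hcon
    push Not at hcon
    have h1 : Cln2_E G P P + Cln2_E G P R < (p : ℤ) * P.card := by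
      rw [← hsum, Nat.cast_sum, mul_comm, ← nsmul_eq_mul, ← Finset.sum_const]
      exact Finset.sum_lt_sum_of_nonempty hPne fun v hv => hcon v hv
    have h2 : (0 : ℤ) ≤ s * R.card := by positivity
    linarith
  refine ⟨P, R, v₀, hP, hR, hv₀, ?_, ?_, by exact_mod_cast hd₀, ?_, ?_⟩
  · intro v hv
    have key : (p : ℤ) ≤ 2 * ((P ∪ R).filter fun x => G.Adj v x).card := by
      by_cases hne : (P.erase v).Nonempty
      · have h2 := hmax' (P.erase v) R ((Finset.erase_subset v P).trans hP) hR hne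
        rw [Cln2_card hv, Cln2_self G P hv, Cln2_left G P R hv] at h2
        rw [hu v]
        linarith
      · have h1 := Cln2_single hv hne
        have h2 : v₀ = v := by
          rw [h1, Finset.mem_singleton] at hv₀
          exact hv₀
        rw [h2] at hd₀
        have h3 : (0 : ℤ) ≤ ((P ∪ R).filter fun x => G.Adj v x).card := by positivity
        linarith
    exact_mod_cast key
  · intro v hv
    have h2 := hmax' P (R.erase v) hP ((Finset.erase_subset v R).trans hR) hPne
    rw [Cln2_card hv, Cln2_erase G P R hv] at h2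
    have h4 : (s : ℤ) ≤ (P.filter fun x => G.Adj v x).card := by linarith
    exact_mod_cast h4
  · have h1 : (s : ℤ) * R.card ≤ (k - p) * P.card := by
      rw [hcP] at hLE
      linarith
    rw [← hkp] at h1
    exact_mod_cast h1
  · have h1 := h0
    rw [← hsum] at h1
    exact_mod_cast h1

open Classical in
/-- Proof: maximise `∑_{v ∈ P'} d_{R'}(v) - p #P' - s #R'` over the pairs with `P' ⊆ P` nonempty,
`R' ⊆ R`. -/
theorem cleanB {V : Type} (G : SimpleGraph V) {p s : ℕ} (P R : Finset V) (hP : P.Nonempty)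
    (h : p * P.card + s * R.card ≤ ∑ v ∈ P, (R.filter fun x => G.Adj v x).card) :
    ∃ P' R' : Finset V, P' ⊆ P ∧ R' ⊆ R ∧ P'.Nonempty ∧
      (∀ v ∈ P', p ≤ (R'.filter fun x => G.Adj v x).card) ∧
      ∀ v ∈ R', s ≤ (P'.filter fun x => G.Adj v x).card := by
  obtain ⟨Φ, hΦ⟩ : ∃ Φ : Finset V × Finset V → ℤ, Φ = fun z => Cln2_E G z.1 z.2 -
      p * z.1.card - s * z.2.card := ⟨_, rfl⟩
  obtain ⟨⟨P', R'⟩, hPR, hmax⟩ := Finset.exists_max_image
    ((P.powerset ×ˢ R.powerset).filter fun z : Finset V × Finset V => z.1.Nonempty) Φ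
    ⟨(P, R), by
      rw [Finset.mem_filter, Finset.mem_product]
      exact ⟨⟨Finset.mem_powerset_self P, Finset.mem_powerset_self R⟩, hP⟩⟩
  rw [Finset.mem_filter, Finset.mem_product] at hPR
  obtain ⟨⟨hP', hR'⟩, hPne⟩ := hPR
  simp only [Finset.mem_powerset] at hP' hR' hPne
  have hmax' : ∀ X Y : Finset V, X ⊆ P → Y ⊆ R → X.Nonempty →
      Cln2_E G X Y - p * X.card - s * Y.card ≤
        Cln2_E G P' R' - p * P'.card - s * R'.card := by
    intro X Y h1 h2 h3
    have h4 := hmax (X, Y) (by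
      rw [Finset.mem_filter, Finset.mem_product]
      exact ⟨⟨Finset.mem_powerset.2 h1, Finset.mem_powerset.2 h2⟩, h3⟩)
    rw [hΦ] at h4
    exact h4
  have h0 : (p : ℤ) * P'.card + s * R'.card ≤ Cln2_E G P' R' := by
    have h1 := hmax' P R subset_rfl subset_rfl hP
    have h2 : (p : ℤ) * P.card + s * R.card ≤ Cln2_E G P R := by
      rw [← Cln2_sum]
      exact_mod_cast h
    linarith
  refine ⟨P', R', hP', hR', hPne, ?_, ?_⟩
  · intro v hv
    have key : (p : ℤ) ≤ (R'.filter fun x => G.Adj v x).card := by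
      by_cases hne : (P'.erase v).Nonempty
      · have h2 := hmax' (P'.erase v) R' ((Finset.erase_subset v P').trans hP') hR' hne
        rw [Cln2_card hv, Cln2_left G P' R' hv] at h2
        linarith
      · have h1 := Cln2_single hv hne
        have h2 : Cln2_E G P' R' = (R'.filter fun x => G.Adj v x).card := by
          rw [h1, ← Cln2_sum, Finset.sum_singleton]
        have h3 : (P'.card : ℤ) = 1 := by rw [h1, Finset.card_singleton, Nat.cast_one]
        have h4 : (0 : ℤ) ≤ s * R'.card := by positivity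
        rw [h2, h3] at h0
        linarith
    exact_mod_cast key
  · intro v hv
    have h2 := hmax' P' (R'.erase v) hP' ((Finset.erase_subset v R').trans hR') hPne
    rw [Cln2_card hv, Cln2_erase G P' R' hv] at h2
    have h4 : (s : ℤ) ≤ (P'.filter fun x => G.Adj v x).card := by linarith
    exact_mod_cast h4

open Classical in
/-- Proof: maximise `∑_{v ∈ X} d_X(v) - 2 a #X` over all `X ⊆ P`: if the maximum is attained by a
nonempty `X`, removing `v ∈ X` gives `d_X(v) ≥ a`. -/
theorem coreP {V : Type} (G : SimpleGraph V) (P : Finset V) (a : ℕ) :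
    (∃ X : Finset V, X ⊆ P ∧ X.Nonempty ∧ ∀ v ∈ X, a ≤ (X.filter fun x => G.Adj v x).card) ∨
      ∑ v ∈ P, (P.filter fun x => G.Adj v x).card ≤ 2 * a * P.card := by
  obtain ⟨Φ, hΦ⟩ : ∃ Φ : Finset V → ℤ, Φ = fun z => Cln2_E G z z - 2 * a * z.card := ⟨_, rfl⟩
  obtain ⟨X, hX, hmax⟩ := Finset.exists_max_image P.powerset Φ ⟨P, Finset.mem_powerset_self P⟩
  rw [Finset.mem_powerset] at hX
  have hmax' : ∀ Y : Finset V, Y ⊆ P →
      Cln2_E G Y Y - 2 * a * Y.card ≤ Cln2_E G X X - 2 * a * X.card := by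
    intro Y h1
    have h4 := hmax Y (Finset.mem_powerset.2 h1)
    rw [hΦ] at h4
    exact h4
  by_cases hne : X.Nonempty
  · refine Or.inl ⟨X, hX, hne, fun v hv => ?_⟩
    have h2 := hmax' (X.erase v) ((Finset.erase_subset v X).trans hX)
    rw [Cln2_card hv, Cln2_self G X hv] at h2
    have h4 : (a : ℤ) ≤ (X.filter fun x => G.Adj v x).card := by linarith
    exact_mod_cast h4
  · rw [Finset.not_nonempty_iff_eq_empty] at hne
    have h2 := hmax' P subset_rfl
    have h3 : Cln2_E G X X = 0 := by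
      rw [hne]
      unfold Cln2_E
      rw [Finset.sum_empty]
    rw [h3, hne, Finset.card_empty, Nat.cast_zero, mul_zero, sub_zero] at h2
    have h4 : Cln2_E G P P ≤ 2 * a * P.card := by linarith
    rw [← Cln2_sum] at h4
    refine Or.inr ?_
    exact_mod_cast h4

end KS137
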