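import Pool.Agent.H.MP_137e81_co.ls.Wrap
import Pool.Agent.H.MP_137e81_co.ls.Cln2
import Pool.Agent.H.MP_137e81_co.ls.Root

/-! Hosts with few edges between vertices of large degree. -/

set_option autoImplicit false

namespace KS137

open Finset

private theorem CaseB_num1 {Q k I D E a : ℕ} (hQ : 1 ≤ Q) (hk : 1000 * Q ≤ k)
    (hE : 400 * (Q * E) ≤ k) (ha : 64 * (Q * a) ≤ k) (hI : 32 * I ≤ 15 * k)
    (hD : I + 2 * D ≤ k + 4) :
    Q * (I + E) + (2 * Q - 1) * (D + E) + 2 * (Q * a) ≤ Q * k := by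
  have e1 : (2 * Q - 1) * (D + E) + (D + E) = 2 * (Q * D) + 2 * (Q * E) := by
    obtain ⟨q, rfl⟩ : ∃ q, Q = q + 1 := ⟨Q - 1, by omega⟩
    have : 2 * (q + 1) - 1 = 2 * q + 1 := by omega
    rw [this]
    ring
  have e2 : Q * (I + E) = Q * I + Q * E := mul_add _ _ _
  have h1 : Q * I + 2 * (Q * D) ≤ Q * k + 4 * Q := by
    have := Nat.mul_le_mul_left Q hD
    rw [mul_add, mul_add] at this
    linarith
  have h2 : 32 * (Q * I) ≤ 15 * (Q * k) := by
    have := Nat.mul_le_mul_left Q hI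
    linarith
  have h4 : k ≤ Q * k := Nat.le_mul_of_pos_left k hQ
  by_cases hc : k ≤ 8 * D
  · omega
  · have h3 : 8 * (Q * D) ≤ Q * k := by
      have : 8 * D ≤ k := by omega
      have := Nat.mul_le_mul_left Q this
      linarith
    omega

private theorem CaseB_num2 {Q k p' s' a s₁ nP nR e : ℕ} (hQ : 1 ≤ Q) (hs₁ : 1 ≤ s₁)
    (h1 : Q * s₁ * nR ≤ (2 * Q - 1) * s₁ * nP)
    (h2 : (k - (2 * Q - 1) * s₁) * nP + Q * s₁ * nR ≤ e + 2 * a * nP)
    (h3 : Q * p' + (2 * Q - 1) * s' + 2 * (Q * a) ≤ Q * k)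
    (h4 : p' + 2 * a + (2 * Q - 1) * s₁ ≤ k) : p' * nP + s' * nR ≤ e := by
  generalize 2 * Q - 1 = q at h1 h2 h3 h4
  obtain ⟨p, hp⟩ : ∃ p, p = k - q * s₁ := ⟨_, rfl⟩
  rw [← hp] at h2
  have hk : k = p + q * s₁ := by omega
  by_cases hc : s' ≤ Q * s₁
  · have m1 : s' * nR ≤ Q * s₁ * nR := Nat.mul_le_mul_right nR hc
    have m2 : (p' + 2 * a) * nP ≤ p * nP := Nat.mul_le_mul_right nP (by omega)
    nlinarith
  · obtain ⟨d, hd⟩ : ∃ d, s' = Q * s₁ + d := ⟨s' - Q * s₁, by omega⟩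
    have h1' : Q * nR ≤ q * nP := by
      refine Nat.le_of_mul_le_mul_left (c := s₁) ?_ hs₁
      nlinarith
    refine Nat.le_of_mul_le_mul_left (c := Q) ?_ hQ
    have n1 := Nat.mul_le_mul_left Q h2
    have n2 := Nat.mul_le_mul_left d h1'
    have n3 := Nat.mul_le_mul_right nP h3
    subst hd
    subst hk
    nlinarith

open Classical in
/-- Proof: `embed3` for `A = 400 Q`, `E = k / A`.  `s₁ = k / (200 Q)`, `s = Q s₁`,
`p = k - (2 Q - 1) s₁`, `a = k / (64 Q)`.  Let `z₁` be a vertex of `T` of maximal degree, `z₂` of maximal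
degree among the others, `D = dg z₂`, `I` the maximum of all `di t` (`32 I < 15 k`).  `tree_two`,
`tree_three`: `di t + 2 D ≤ k + 4` for all `t`.  Let `p' = I + E`, `s' = D + E`.  Then
`Q p' + (2 Q - 1) s' ≤ Q (k - 2 a)` (cases `8 D ≥ k`, `8 D < k`).  As `P`, `R` are disjoint the number
`e(P, R) = ∑_{v ∈ P} d_R(v)` is at least `(p - 2 a) #P + s #R`, and `Q #R ≤ (2 Q - 1) #P` (from
`s #R ≤ (k - p) #P`), so `p' #P + s' #R ≤ e(P, R)` (cases `s' ≤ s`, `s < s'`).  `cleanB`: `P'`, `R'`.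
`embed3` with `P'` for `P`, `U₀ = P' ∪ R'`, `v₀ ∈ P'`, `U₁ = {v₀}`, `C₁ v = ∅`, `e = k + 1`, `r = z₁`,
`C₀ v` a subset of the neighbours of `v` in `R'` with exactly `p'` elements (`v ∈ P'`), in `P'` with
exactly `s'` elements (`v ∈ R'`). -/
theorem caseB (Q : ℕ) (hQ : 1 ≤ Q) : ∃ M : ℕ, 2 ≤ M ∧ ∀ k, M ≤ k → ∀ {β V : Type} [Fintype β]
    [Fintype V] {T : SimpleGraph β}, T.IsTree → Fintype.card β = k + 1 → ∀ (G : SimpleGraph V),
    NoSpot G M k → (∀ t, 32 * di T t < 15 * k) → ∀ P R : Finset V, (∀ v ∈ P, k ≤ dg G v) →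
    Disjoint P R → P.Nonempty →
    Q * (k / (200 * Q)) * R.card ≤ (2 * Q - 1) * (k / (200 * Q)) * P.card →
    (k - (2 * Q - 1) * (k / (200 * Q))) * P.card + Q * (k / (200 * Q)) * R.card ≤
      ∑ v ∈ P, ((P ∪ R).filter fun x => G.Adj v x).card →
    ∑ v ∈ P, (P.filter fun x => G.Adj v x).card ≤ 2 * (k / (64 * Q)) * P.card →
    T.IsContained G := by
  obtain ⟨M₀, hM₀, hemb⟩ := embed3 (400 * Q) (by omega)
  refine ⟨max M₀ (1000 * Q), le_max_of_le_left hM₀, ?_⟩
  intro k hMk β V _ _ T hT hβ G hG hdi P R hPk hPR hPne h1 h2 h3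
  have hk0 : M₀ ≤ k := (le_max_left _ _).trans hMk
  have hkQ : 1000 * Q ≤ k := (le_max_right _ _).trans hMk
  have hG0 : NoSpot G M₀ k := hG.mono (le_max_left _ _)
  -- the numbers
  have hs1 : 200 * (Q * (k / (200 * Q))) ≤ k := by
    rw [← mul_assoc]
    exact Nat.mul_div_le k (200 * Q)
  have hs1' : 1 ≤ k / (200 * Q) := by
    rw [Nat.one_le_div_iff (by omega)]
    omega
  have ha1 : 64 * (Q * (k / (64 * Q))) ≤ k := by
    rw [← mul_assoc]
    exact Nat.mul_div_le k (64 * Q)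
  have hE1 : 400 * (Q * (k / (400 * Q))) ≤ k := by
    rw [← mul_assoc]
    exact Nat.mul_div_le k (400 * Q)
  generalize k / (200 * Q) = s₁ at h1 h2 hs1 hs1'
  generalize k / (64 * Q) = a at h3 ha1
  generalize hE : k / (400 * Q) = E at hE1
  have hE2 : E ≤ Q * E := Nat.le_mul_of_pos_left E hQ
  have ha2 : a ≤ Q * a := Nat.le_mul_of_pos_left a hQ
  have hs2 : (2 * Q - 1) * s₁ ≤ 2 * (Q * s₁) := by
    rw [← mul_assoc]
    exact Nat.mul_le_mul_right s₁ (by omega)
  -- the tree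
  have h1k : 1 ≤ k := by omega
  have : Nonempty β := Fintype.card_pos_iff.1 (by omega)
  obtain ⟨z₁, -, hz₁⟩ := Finset.exists_max_image (univ : Finset β) (dg T) Finset.univ_nonempty
  have hne : (univ.erase z₁).Nonempty := by
    rw [← Finset.card_pos, Finset.card_erase_of_mem (Finset.mem_univ _), Finset.card_univ, hβ]
    omega
  obtain ⟨z₂, hz₂m, hz₂⟩ := Finset.exists_max_image (univ.erase z₁) (dg T) hne
  have h12 : z₁ ≠ z₂ := (Finset.ne_of_mem_erase hz₂m).symm
  have hm1 : ∀ t, dg T t ≤ dg T z₁ := fun t => hz₁ t (Finset.mem_univ _)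
  have hm2 : ∀ t, t ≠ z₁ → dg T t ≤ dg T z₂ := fun t ht =>
    hz₂ t (Finset.mem_erase.2 ⟨ht, Finset.mem_univ _⟩)
  have h21 := hm1 z₂
  have hd1 : 2 ≤ dg T z₁ := by
    by_contra hc
    have hs := sum_dg hT hβ
    have hs2 : ∑ t, dg T t ≤ (univ : Finset β).card • 1 :=
      Finset.sum_le_card_nsmul _ _ _ fun t _ => by
        have := hm1 t
        omega
    rw [Finset.card_univ, hβ, smul_eq_mul] at hs2
    omega
  obtain ⟨tI, -, htI⟩ := Finset.exists_max_image (univ : Finset β) (di T) Finset.univ_nonempty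
  have hI : ∀ t, di T t ≤ di T tI := fun t => htI t (Finset.mem_univ _)
  have hdI := hdi tI
  have hD : di T tI + 2 * dg T z₂ ≤ k + 4 := by
    have h4 := tree_two hT h1k hβ h12
    by_cases ht1 : tI = z₁
    · subst ht1
      omega
    by_cases ht2 : tI = z₂
    · subst ht2
      omega
    · have h5 := tree_three hT h1k hβ h12 (Ne.symm ht1) (Ne.symm ht2)
      have h6 : di T tI ≤ dg T tI := by
        unfold di dg
        refine Finset.card_le_card ?_
        intro u hu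
        rw [Finset.mem_filter] at hu ⊢
        exact ⟨hu.1, hu.2.1⟩
      omega
  generalize di T tI = I at hI hdI hD
  generalize dg T z₂ = D at hm2 h21 hD
  -- the edges between `P` and `R`
  have hsum : ∑ v ∈ P, ((P ∪ R).filter fun x => G.Adj v x).card =
      ∑ v ∈ P, (P.filter fun x => G.Adj v x).card +
        ∑ v ∈ P, (R.filter fun x => G.Adj v x).card := by
    rw [← Finset.sum_add_distrib]
    refine Finset.sum_congr rfl fun v _ => ?_
    rw [Finset.filter_union, Finset.card_union_of_disjoint (Finset.disjoint_filter_filter hPR)]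
  have hc1 := CaseB_num1 hQ hkQ hE1 ha1 (by omega) hD
  have hc2 := CaseB_num2 (e := ∑ v ∈ P, (R.filter fun x => G.Adj v x).card) (a := a)
    (p' := I + E) (s' := D + E) hQ hs1' h1 (by omega) hc1 (by omega)
  obtain ⟨P', R', hP', hR', ⟨v₀, hv₀⟩, hdP, hdR⟩ := cleanB G P R hPne hc2
  have hdis : ∀ v ∈ P', v ∉ R' := fun v hv hv' =>
    Finset.disjoint_left.1 hPR (hP' hv) (hR' hv')
  have hex : ∀ v : V, ∃ X : Finset V, (∀ x ∈ X, G.Adj v x) ∧ X ⊆ P' ∪ R' ∧ X.card ≤ 2 * k ∧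
      (v ∈ P' → X.card = I + E) ∧ (v ∈ R' → X.card = D + E) := by
    intro v
    by_cases hvP : v ∈ P'
    · obtain ⟨X, hX, hXc⟩ := Finset.exists_subset_card_eq (hdP v hvP)
      exact ⟨X, fun x hx => (Finset.mem_filter.1 (hX hx)).2,
        fun x hx => Finset.mem_union_right _ (Finset.mem_filter.1 (hX hx)).1, by omega,
        fun _ => hXc, fun h => absurd h (hdis v hvP)⟩
    by_cases hvR : v ∈ R'
    · obtain ⟨X, hX, hXc⟩ := Finset.exists_subset_card_eq (hdR v hvR)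
      exact ⟨X, fun x hx => (Finset.mem_filter.1 (hX hx)).2,
        fun x hx => Finset.mem_union_left _ (Finset.mem_filter.1 (hX hx)).1, by omega,
        fun h => absurd h hvP, fun _ => hXc⟩
    · exact ⟨∅, by simp, by simp, by simp, fun h => absurd h hvP, fun h => absurd h hvR⟩
  choose C₀ hC1 hC2 hC3 hC4 hC5 using hex
  refine hemb k hk0 hT hβ G hG0 P' (P' ∪ R') {v₀} (fun v hv => hPk v (hP' hv))
    (Finset.singleton_subset_iff.2 (Finset.mem_union_left _ hv₀))
    (Finset.singleton_subset_iff.2 hv₀) C₀ (fun _ => ∅) hC1 (by simp) (by simp)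
    (fun v => by simpa using hC3 v) (fun v _ => hC2 v) (by simp) z₁ hd1 v₀
    (Finset.mem_singleton_self v₀) (k + 1) (by omega) ?_ ?_ ?_ (fun h => absurd h (by omega))
    (fun h => absurd h (by omega))
  · intro v hv hvP t ht _
    rcases Finset.mem_union.1 hv with h | h
    · exact absurd h hvP
    · have h5 := hC5 v h
      have h6 := hm2 t ht
      omega
  · intro v _ hvP t _ _
    have h5 := hC4 v hvP
    have h6 := hI t
    omega
  · intro v hv
    have h7 : v = v₀ := Finset.mem_singleton.1 hv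
    subst h7
    have h5 := hC4 v hv₀
    have h6 := hI z₁
    omega

end KS137
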