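import Pool.Agent.H.MP_137e81_co.ls.Wrap
import Pool.Agent.H.MP_137e81_co.ls.Root
import Pool.Agent.H.MP_137e81_co.ls.BipL

/-! Hosts with few edges between vertices of large degree, root in the part of large degrees. -/

set_option autoImplicit false

namespace KS137

open Finset

open Classical in
/-- Proof: `E = k / 16000`, `a = k / 8000`, `s = k / 200`, `p' = I + E`, `s' = D + E`, where `I` is the
maximum of all `di t`; `bip_level`; `cleanB`: `P'`, `R'`.  `embed3` for `A = 16000` with `P'` for `P`,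
`U₀ = P' ∪ R'`, `v₀ ∈ P'`, `U₁ = {v₀}`, `C₁ v = ∅`, `e = k + 1`, `C₀ v` a subset of the neighbours of
`v` in `R'` with exactly `p'` elements (`v ∈ P'`), in `P'` with exactly `s'` elements (`v ∈ R'`),
`∅` for the other `v`. -/
theorem caseB1 : ∃ M : ℕ, 2 ≤ M ∧ ∀ k, M ≤ k → ∀ {β V : Type} [Fintype β]
    [Fintype V] {T : SimpleGraph β}, T.IsTree → Fintype.card β = k + 1 → ∀ (G : SimpleGraph V),
    NoSpot G M k → (∀ t, 32 * di T t < 15 * k) → ∀ (r : β) (D : ℕ), 2 ≤ dg T r →
    (∀ t, t ≠ r → dg T t ≤ D) →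
    (∀ t, di T t + 2 * D + 3 * (k / 16000) + 2 * (k / 8000) ≤ k) →
    ∀ P R : Finset V, (∀ v ∈ P, k ≤ dg G v) → Disjoint P R → P.Nonempty →
    R.card ≤ 2 * P.card →
    (k - 2 * (k / 200)) * P.card + k / 200 * R.card ≤
      ∑ v ∈ P, ((P ∪ R).filter fun x => G.Adj v x).card →
    ∑ v ∈ P, (P.filter fun x => G.Adj v x).card ≤ 2 * (k / 8000) * P.card →
    T.IsContained G := by
  obtain ⟨M₀, hM₀, hemb⟩ := embed3 16000 (by omega)
  refine ⟨max M₀ 16000, le_max_of_le_left hM₀, ?_⟩
  intro k hMk β V _ _ T hT hβ G hG hdi r D hd1 hm2 hdD P R hPk hPR hPne h1 h2 h3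
  have hk0 : M₀ ≤ k := (le_max_left _ _).trans hMk
  have hkQ : 16000 ≤ k := (le_max_right _ _).trans hMk
  have hG0 : NoSpot G M₀ k := hG.mono (le_max_left _ _)
  -- the tree
  have : Nonempty β := ⟨r⟩
  obtain ⟨tI, -, htI⟩ := Finset.exists_max_image (univ : Finset β) (di T) Finset.univ_nonempty
  have hI : ∀ t, di T t ≤ di T tI := fun t => htI t (Finset.mem_univ _)
  have hdI := hdi tI
  have hD := hdD tI
  generalize di T tI = I at hI hdI hD
  -- the edges between `P` and `R`
  have hc2 := bip_level G (k := k) (s := k / 200) (a := k / 8000) (p' := I + k / 16000)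
    (s' := D + k / 16000) P R hPR h1 (by omega) h2 h3 (by omega) (by omega)
  obtain ⟨P', R', hP', hR', ⟨v₀, hv₀⟩, hdP, hdR⟩ := cleanB G P R hPne hc2
  have hdis : ∀ v ∈ P', v ∉ R' := fun v hv hv' =>
    Finset.disjoint_left.1 hPR (hP' hv) (hR' hv')
  have hex : ∀ v : V, ∃ X : Finset V, (∀ x ∈ X, G.Adj v x) ∧ X ⊆ P' ∪ R' ∧ X.card ≤ 2 * k ∧
      (v ∈ P' → X.card = I + k / 16000) ∧ (v ∈ R' → X.card = D + k / 16000) := by
    intro v
    by_cases hvP : v ∈ P'
    · obtain ⟨X, hX, hXc⟩ := Finset.exists_subset_card_eq (hdP v hvP)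
      exact ⟨X, fun x hx => (Finset.mem_filter.1 (hX hx)).2,
        fun x hx => Finset.mem_union_right _ (Finset.mem_filter.1 (hX hx)).1, by omega,
        fun _ => hXc, fun h => absurd h (hdis v hvP)⟩
    by_cases hvR : v ∈ R'
    · obtain ⟨X, hX, hXc⟩ := Finset.exists_subset_card_eq (hdR v hvR)
      exact ⟨X, fun x hx => (Finset.mem_filter.1 (hX hx)).2,
        fun x hx => Finset.mem_union_left _ (Finset.mem_filter.1 (hX hx)).1, by omega,
        fun h => absurd h hvP, fun _ => hXc⟩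
    · exact ⟨∅, by simp, by simp, by simp, fun h => absurd h hvP, fun h => absurd h hvR⟩
  choose C₀ hC1 hC2 hC3 hC4 hC5 using hex
  refine hemb k hk0 hT hβ G hG0 P' (P' ∪ R') {v₀} (fun v hv => hPk v (hP' hv))
    (Finset.singleton_subset_iff.2 (Finset.mem_union_left _ hv₀))
    (Finset.singleton_subset_iff.2 hv₀) C₀ (fun _ => ∅) hC1 (by simp) (by simp)
    (fun v => by simpa using hC3 v) (fun v _ => hC2 v) (by simp) r hd1 v₀
    (Finset.mem_singleton_self v₀) (k + 1) (by omega) ?_ ?_ ?_ (fun h => absurd h (by omega))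
    (fun h => absurd h (by omega))
  · intro v hv hvP t ht _
    rcases Finset.mem_union.1 hv with h | h
    · exact absurd h hvP
    · have h5 := hC5 v h
      have h6 := hm2 t ht
      omega
  · intro v _ hvP t _ _
    have h5 := hC4 v hvP
    have h6 := hI t
    omega
  · intro v hv
    have h7 : v = v₀ := Finset.mem_singleton.1 hv
    subst h7
    have h5 := hC4 v hv₀
    have h6 := hI r
    omega

end KS137
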