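import Pool.Agent.H.MP_137e81_co.ls.Wrap
import Pool.Agent.H.MP_137e81_co.ls.Root

/-! Hosts with many edges between vertices of large degree. -/

set_option autoImplicit false

namespace KS137

open Finset

private theorem CaseL_root {β : Type} [Fintype β] {T : SimpleGraph β} (hT : T.IsTree) {k : ℕ}
    (hk : Fintype.card β = k + 1) (h2 : 2 ≤ k) : ∃ r : β, 2 ≤ dg T r := by
  by_contra hcon
  push Not at hcon
  have h1 := sum_dg hT hk
  have h3 : ∑ t : β, dg T t ≤ ∑ _t : β, 1 := Finset.sum_le_sum fun t _ => by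
    have := hcon t
    omega
  rw [Finset.sum_const, Finset.card_univ, smul_eq_mul, mul_one, hk] at h3
  omega

private theorem CaseL_di_le {β : Type} [Fintype β] (T : SimpleGraph β) (t : β) :
    di T t ≤ dg T t := by
  classical
  unfold di dg
  refine Finset.card_le_card fun u hu => ?_
  rw [Finset.mem_filter] at hu ⊢
  exact ⟨hu.1, hu.2.1⟩

/-- the numbers -/
private theorem CaseL_num {Q k : ℕ} (hQ : 1 ≤ Q) (hk : 1000000 * Q ≤ k) :
    200 * (Q * (k / (200 * Q))) ≤ k ∧ k ≤ 200 * (Q * (k / (200 * Q))) + 200 * Q ∧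
    (2 * Q - 1) * (k / (200 * Q)) ≤ 2 * (Q * (k / (200 * Q))) ∧
    64 * (k / (64 * Q)) ≤ k ∧ 400 * (k / (400 * Q)) ≤ k ∧
    k / (k / 1000) + k / (400 * Q) ≤ k / (64 * Q) := by
  have e1 : 200 * Q * (k / (200 * Q)) ≤ k := Nat.mul_div_le _ _
  have e2 : k < 200 * Q * (k / (200 * Q)) + 200 * Q := Nat.lt_mul_div_succ _ (by omega)
  have e3 : 64 * Q * (k / (64 * Q)) ≤ k := Nat.mul_div_le _ _
  have e4 : k < 64 * Q * (k / (64 * Q)) + 64 * Q := Nat.lt_mul_div_succ _ (by omega)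
  have e5 : 400 * Q * (k / (400 * Q)) ≤ k := Nat.mul_div_le _ _
  refine ⟨by nlinarith, by nlinarith, ?_, by nlinarith, by nlinarith, ?_⟩
  · have : (2 * Q - 1) ≤ 2 * Q := by omega
    calc (2 * Q - 1) * (k / (200 * Q)) ≤ 2 * Q * (k / (200 * Q)) := Nat.mul_le_mul_right _ this
      _ = 2 * (Q * (k / (200 * Q))) := by ring
  · have h1 : k / (k / 1000) ≤ 1000 := by
      have : k / (k / 1000) < 1001 := Nat.div_lt_of_lt_mul (by omega)
      omega
    have h2 : 1000 + k / (400 * Q) ≤ k / (64 * Q) := by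
      by_contra hcon
      push Not at hcon
      have h3 : Q * (k / (64 * Q)) ≤ Q * (1000 + k / (400 * Q)) :=
        Nat.mul_le_mul_left _ hcon.le
      nlinarith
    omega

private theorem CaseL_num2 {Q k s q a E : ℕ} (hk : 1000000 * Q ≤ k)
    (n2 : k ≤ 200 * s + 200 * Q) (n3 : q ≤ 2 * s) (n1 : 200 * s ≤ k) (n4 : 64 * a ≤ k)
    (n5 : 400 * E ≤ k) : k / 1000 + E ≤ s + 1 ∧ k / 1000 + E ≤ (k - q + 1) / 2 - a + 1 ∧
    ∀ x, 32 * x < 15 * k → x + E ≤ (k - q + 1) / 2 - a + 1 := by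
  refine ⟨by omega, by omega, fun x hx => by omega⟩

open Classical in
/-- Proof: `embed3` for `A = 400 Q`.  `s = Q s₁`, `p = k - (2 Q - 1) s₁`, `s₁ = k / (200 Q)`,
`a = k / (64 Q)`, `e = k / 1000`.  `U₀ = P ∪ R`, `U₁ = X`, `C₁ v` (for `v ∈ X`) a subset of the neighbours
of `v` in `X` with exactly `a` elements, `∅` for the other `v`; `C₀ v` for `v ∈ P` a subset of the
neighbours of `v` in `P ∪ R` outside `C₁ v` with exactly `(p + 1) / 2 - a` elements, for `v ∈ R` a subset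
of the neighbours of `v` in `P` with exactly `s` elements, `∅` for the other `v`.  Root: any vertex `r`
with `2 ≤ dg r` (the degree sum is `2 k > k + 1`), `v₀ ∈ X`. -/
theorem caseL (Q : ℕ) (hQ : 1 ≤ Q) : ∃ M : ℕ, 2 ≤ M ∧ ∀ k, M ≤ k → ∀ {β V : Type} [Fintype β]
    [Fintype V] {T : SimpleGraph β}, T.IsTree → Fintype.card β = k + 1 → ∀ (G : SimpleGraph V),
    NoSpot G M k → (∀ t, 32 * di T t < 15 * k) → ∀ P R X : Finset V, (∀ v ∈ P, k ≤ dg G v) →
    Disjoint P R → X ⊆ P → X.Nonempty →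
    (∀ v ∈ P, k - (2 * Q - 1) * (k / (200 * Q)) ≤ 2 * ((P ∪ R).filter fun x => G.Adj v x).card) →
    (∀ v ∈ R, Q * (k / (200 * Q)) ≤ (P.filter fun x => G.Adj v x).card) →
    (∀ v ∈ X, k / (64 * Q) ≤ (X.filter fun x => G.Adj v x).card) → T.IsContained G := by
  obtain ⟨M0, hM0, hemb⟩ := embed3 (400 * Q) (by omega)
  refine ⟨M0 + 1000000 * Q, by omega, ?_⟩
  intro k hk β V _ _ T hT hcard G hG hdi P R X hP hPR hXP hX hdP hdR hdX
  obtain ⟨n1, n2, n3, n4, n5, n6⟩ := CaseL_num hQ (k := k) (by omega)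
  obtain ⟨s, hs⟩ : ∃ s, s = Q * (k / (200 * Q)) := ⟨_, rfl⟩
  obtain ⟨q, hq⟩ : ∃ q, q = (2 * Q - 1) * (k / (200 * Q)) := ⟨_, rfl⟩
  obtain ⟨a, ha⟩ : ∃ a, a = k / (64 * Q) := ⟨_, rfl⟩
  obtain ⟨E, hE⟩ : ∃ E, E = k / (400 * Q) := ⟨_, rfl⟩
  rw [← hs] at n1 n2 n3 hdR
  rw [← hq] at n3 hdP
  rw [← ha] at n4 n6 hdX
  rw [← hE] at n5 n6
  have hkQ : 1000000 * Q ≤ k := by omega
  obtain ⟨r, hr⟩ := CaseL_root hT hcard (by omega)
  obtain ⟨v₀, hv₀⟩ := hX
  -- the chosen neighbourhoods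
  have hex1 : ∀ v : V, ∃ C : Finset V, (∀ x ∈ C, G.Adj v x) ∧ C ⊆ X ∧ C.card ≤ a ∧
      (v ∈ X → C.card = a) ∧ (v ∉ X → C = ∅) := by
    intro v
    by_cases h0 : v ∈ X
    · obtain ⟨C, hC, hCc⟩ := Finset.exists_subset_card_eq (hdX v h0)
      exact ⟨C, fun x hx => (Finset.mem_filter.1 (hC hx)).2,
        fun x hx => (Finset.mem_filter.1 (hC hx)).1, hCc.le, fun _ => hCc, fun h => absurd h0 h⟩
    · exact ⟨∅, by simp, by simp, by simp, fun h => absurd h h0, fun _ => rfl⟩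
  choose C₁ hC₁a hC₁X hC₁c hC₁e hC₁0 using hex1
  have hex0 : ∀ v : V, ∃ C : Finset V, (∀ x ∈ C, G.Adj v x) ∧ C ⊆ P ∪ R ∧ Disjoint C (C₁ v) ∧
      C.card ≤ k ∧ (v ∈ P → (k - q + 1) / 2 - a ≤ C.card) ∧ (v ∈ R → v ∉ P → s ≤ C.card) := by
    intro v
    by_cases h0 : v ∈ P
    · have h1 := hdP v h0
      have h2 : (k - q + 1) / 2 - a ≤
          (((P ∪ R).filter fun x => G.Adj v x) \ C₁ v).card := by
        have h3 := Finset.le_card_sdiff (C₁ v) ((P ∪ R).filter fun x => G.Adj v x)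
        have h4 := hC₁c v
        omega
      obtain ⟨C, hC, hCc⟩ := Finset.exists_subset_card_eq h2
      have h5 : ∀ x ∈ C, x ∈ (P ∪ R).filter fun x => G.Adj v x := fun x hx =>
        (Finset.mem_sdiff.1 (hC hx)).1
      refine ⟨C, fun x hx => (Finset.mem_filter.1 (h5 x hx)).2,
        fun x hx => (Finset.mem_filter.1 (h5 x hx)).1, ?_, by omega, fun _ => hCc.ge,
        fun _ hn => absurd h0 hn⟩
      rw [Finset.disjoint_left]
      intro x hx
      exact (Finset.mem_sdiff.1 (hC hx)).2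
    by_cases hR : v ∈ R
    · obtain ⟨C, hC, hCc⟩ := Finset.exists_subset_card_eq (hdR v hR)
      refine ⟨C, fun x hx => (Finset.mem_filter.1 (hC hx)).2,
        fun x hx => Finset.mem_union_left _ (Finset.mem_filter.1 (hC hx)).1, ?_, by omega,
        fun h => absurd h h0, fun _ _ => hCc.ge⟩
      rw [hC₁0 v fun h => h0 (hXP h)]
      exact Finset.disjoint_empty_right _
    · exact ⟨∅, by simp, by simp, by simp, by simp, fun h => absurd h h0, fun h => absurd h hR⟩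
  choose C₀ hC₀a hC₀U hC₀d hC₀k hC₀P hC₀R using hex0
  have hle := CaseL_di_le T
  obtain ⟨m1, m2, m3⟩ := CaseL_num2 hkQ n2 n3 n1 n4 n5
  have hE' : k / (400 * Q) = E := hE.symm
  have hk1 : 1 ≤ k / 1000 := by
    rw [Nat.one_le_div_iff (by norm_num)]
    omega
  refine hemb k (by omega) hT hcard G (hG.mono (by omega)) P (P ∪ R) X hP
    (hXP.trans Finset.subset_union_left) hXP C₀ C₁ hC₀a hC₁a hC₀d ?_ (fun v _ => hC₀U v)
    (fun v _ => hC₁X v) r hr v₀ hv₀ (k / 1000) hk1 ?_ ?_ ?_ ?_ ?_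
  · intro v
    have h1 := hC₀k v
    have h2 := (hC₁c v).trans (Nat.le_of_mul_le_mul_left (n4.trans (Nat.le_mul_of_pos_left k
      (by norm_num : 0 < 64))) (by norm_num))
    rw [two_mul]
    exact add_le_add h1 h2
  · intro v hv hvP t _ ht
    rw [hE']
    rcases Finset.mem_union.1 hv with h1 | h1
    · exact absurd h1 hvP
    · exact ((add_le_add_left ht E).trans m1).trans (add_le_add_left (hC₀R v h1 hvP) 1)
  · intro v _ hvP t _ ht
    rw [hE']
    exact ((add_le_add_left ((hle t).trans ht) E).trans m2).trans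
      (add_le_add_left (hC₀P v hvP) 1)
  · intro v hv
    rw [hE']
    exact (m3 _ (hdi r)).trans (add_le_add_left (hC₀P v (hXP hv)) 1)
  · intro _ v hv t
    rw [hE']
    exact (m3 _ (hdi t)).trans (add_le_add_left (hC₀P v (hXP hv)) 1)
  · intro _ v hv
    rw [hE', hC₁e v hv]
    exact n6

end KS137
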