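import Pool.Agent.H.MP_137e81_co.ls.Wrap
import Pool.Agent.H.MP_137e81_co.ls.Cln2
import Pool.Agent.H.MP_137e81_co.ls.Root

/-! Trees with a vertex with nearly `k / 2` neighbours which are not leaves. -/

set_option autoImplicit false

namespace KS137

open Finset

open Classical in
/-- Proof: `embed3` for `A = 64`.  `s = k / 8`, `p = k - 2 s`; `clean2`: `P`, `R`, `v₀`.  Root `t₀`, the
vertex with `15 k ≤ 32 di t₀`; `U₀ = P ∪ R`, `U₁ = {v₀}`, `C₁ v = ∅`, `e = k + 1`, `C₀ v` a subset of the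
neighbours of `v` in `P ∪ R` (`v ∈ P`) or in `P` (`v ∈ R`) with exactly `s` (`v ∈ R`), `p / 2` rounded up
(`v ∈ P`, `v ≠ v₀`), `p` (`v = v₀`) elements, `∅` for the other `v`.  `tree_two` for `t₀`, `t`:
`dg t + di t ≤ k / 16 + 3` for `t ≠ t₀`, and `2 di t₀ ≤ dg t₀ + di t₀ ≤ k + 3`. -/
theorem caseZ : ∃ M : ℕ, 2 ≤ M ∧ ∀ k, M ≤ k → ∀ {β V : Type} [Fintype β] [Fintype V]
    {T : SimpleGraph β}, T.IsTree → Fintype.card β = k + 1 → ∀ (G : SimpleGraph V),
    NoSpot G M k → ∀ L : Finset V, (∀ v ∈ L, k ≤ dg G v) → L.Nonempty →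
    (univ \ L).card ≤ 2 * L.card → ∀ t₀ : β, 15 * k ≤ 32 * di T t₀ → T.IsContained G := by
  obtain ⟨M₀, hM₀, hemb⟩ := embed3 64 (by norm_num)
  refine ⟨max M₀ 1000, le_trans hM₀ (le_max_left _ _), ?_⟩
  intro k hk β V _ _ T hT hcard G hG L hLd hL hLc t₀ ht₀
  have hk1 : 1000 ≤ k := le_trans (le_max_right _ _) hk
  have hk0 : M₀ ≤ k := le_trans (le_max_left _ _) hk
  have hG0 : NoSpot G M₀ k := hG.mono (le_max_left _ _)
  obtain ⟨s, hs⟩ : ∃ s, s = k / 8 := ⟨_, rfl⟩
  obtain ⟨p, hp⟩ : ∃ p, p = k - 2 * s := ⟨_, rfl⟩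
  have hkp : k - p = 2 * s := by omega
  obtain ⟨P, R, v₀, hPL, hRL, hv₀, hPp, hRs, hv₀p, -, -⟩ := clean2 G (k := k) (p := p) (s := s) L hL
    hLd (by omega) (by omega) (by
      rw [hkp]
      calc s * (univ \ L).card ≤ s * (2 * L.card) := Nat.mul_le_mul_left _ hLc
        _ = 2 * s * L.card := by ring)
  -- the tree
  have hdi : ∀ t, di T t ≤ dg T t := by
    intro t
    unfold di dg
    refine Finset.card_le_card ?_
    intro u hu
    rw [Finset.mem_filter] at hu ⊢
    exact ⟨hu.1, hu.2.1⟩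
  have ht : ∀ t, t ≠ t₀ → dg T t + di T t ≤ k / 16 + 3 := by
    intro t hne
    have h1 := tree_two hT (by omega) hcard hne
    have h2 := hdi t₀
    omega
  have htt : 2 * di T t₀ ≤ k + 3 := by
    have : Nontrivial β := Fintype.one_lt_card_iff_nontrivial.1 (by omega)
    obtain ⟨t, hne⟩ := exists_ne t₀
    have h1 := tree_two hT (by omega) hcard hne
    have h2 := hdi t₀
    omega
  -- the chosen neighbourhoods
  have hex : ∀ v : V, ∃ X : Finset V, (∀ x ∈ X, G.Adj v x) ∧ X ⊆ P ∪ R ∧ X.card ≤ k ∧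
      (v ∈ P → p ≤ 2 * X.card) ∧ (v ∈ R → v ∉ P → s ≤ X.card) ∧ (v = v₀ → p ≤ X.card) := by
    intro v
    by_cases h0 : v = v₀
    · subst h0
      obtain ⟨X, hX, hXc⟩ := Finset.exists_subset_card_eq (s := (P ∪ R).filter fun x => G.Adj v x)
        (n := p) hv₀p
      exact ⟨X, fun x hx => (Finset.mem_filter.1 (hX hx)).2,
        fun x hx => (Finset.mem_filter.1 (hX hx)).1, by omega, fun _ => by omega,
        fun _ hn => absurd hv₀ hn, fun _ => by omega⟩
    by_cases hP : v ∈ P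
    · obtain ⟨X, hX, hXc⟩ := Finset.exists_subset_card_eq
        (s := (P ∪ R).filter fun x => G.Adj v x) (n := (p + 1) / 2) (by have := hPp v hP; omega)
      exact ⟨X, fun x hx => (Finset.mem_filter.1 (hX hx)).2,
        fun x hx => (Finset.mem_filter.1 (hX hx)).1, by omega, fun _ => by omega,
        fun _ hn => absurd hP hn, fun h => absurd h h0⟩
    by_cases hR : v ∈ R
    · obtain ⟨X, hX, hXc⟩ := Finset.exists_subset_card_eq (hRs v hR)
      exact ⟨X, fun x hx => (Finset.mem_filter.1 (hX hx)).2,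
        fun x hx => Finset.mem_union_left _ (Finset.mem_filter.1 (hX hx)).1, by omega,
        fun h => absurd h hP, fun _ _ => hXc.ge, fun h => absurd h h0⟩
    · exact ⟨∅, by simp, by simp, by simp, fun h => absurd h hP, fun h => absurd h hR,
        fun h => absurd h h0⟩
  choose C hC hCU hCk hCP hCR hC0 using hex
  refine hemb k hk0 hT hcard G hG0 P (P ∪ R) {v₀} (fun v hv => hLd v (hPL hv)) ?_ ?_ C
    (fun _ => ∅) hC ?_ ?_ ?_ (fun v _ => hCU v) ?_ t₀ ?_ v₀ (Finset.mem_singleton_self v₀) (k + 1)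
    (by omega) ?_ ?_ ?_ (fun h => absurd h (by omega)) (fun h => absurd h (by omega))
  · intro v hv
    rw [Finset.mem_singleton] at hv
    rw [hv]
    exact Finset.mem_union_left _ hv₀
  · intro v hv
    rw [Finset.mem_singleton] at hv
    rw [hv]
    exact hv₀
  · intro v x hx
    exact absurd hx (Finset.notMem_empty x)
  · intro v
    exact Finset.disjoint_empty_right _
  · intro v
    have := hCk v
    rw [Finset.card_empty]
    omega
  · intro v _
    exact Finset.empty_subset _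
  · have := hdi t₀
    omega
  · intro v hv hvP t hne _
    rcases Finset.mem_union.1 hv with h1 | h1
    · exact absurd h1 hvP
    · have h2 := hCR v h1 hvP
      have h3 := ht t hne
      omega
  · intro v _ hvP t hne _
    have h2 := hCP v hvP
    have h3 := ht t hne
    omega
  · intro v hv
    rw [Finset.mem_singleton] at hv
    have h2 := hC0 v hv
    omega

end KS137
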