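import Pool.Agent.H.MP_137e81_co.ls.Defs

/-! Cleaning the host graph. -/

set_option autoImplicit false

namespace KS137

open Finset

open Classical in
/-- the number of ordered pairs of adjacent vertices in `P × X` -/
private noncomputable def cE {V : Type} (G : SimpleGraph V) (P X : Finset V) : ℤ :=
  ∑ u ∈ P, ∑ x ∈ X, if G.Adj u x then 1 else 0

open Classical in
private theorem cE_deg {V : Type} (G : SimpleGraph V) (X : Finset V) (v : V) :
    (((X.filter fun x => G.Adj v x).card : ℕ) : ℤ) = ∑ x ∈ X, if G.Adj v x then 1 else 0 := by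
  rw [Finset.card_filter]
  push_cast
  rfl

open Classical in
private theorem cE_symm {V : Type} (G : SimpleGraph V) (P : Finset V) (v : V) :
    (∑ u ∈ P, if G.Adj u v then (1 : ℤ) else 0) = ∑ u ∈ P, if G.Adj v u then 1 else 0 := by
  refine Finset.sum_congr rfl fun u _ => ?_
  simp only [G.adj_comm u v]

open Classical in
private theorem cE_erase {V : Type} (G : SimpleGraph V) (P R : Finset V) {v : V} (hv : v ∈ R) :
    cE G P R = cE G P (R.erase v) + ∑ u ∈ P, if G.Adj v u then 1 else 0 := by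
  rw [← cE_symm]
  unfold cE
  rw [← Finset.sum_add_distrib]
  refine Finset.sum_congr rfl fun u _ => ?_
  rw [Finset.sum_erase_add _ _ hv]

open Classical in
private theorem cE_left {V : Type} (G : SimpleGraph V) (P R : Finset V) {v : V} (hv : v ∈ P) :
    cE G P R = cE G (P.erase v) R + ∑ u ∈ R, if G.Adj v u then 1 else 0 := by
  unfold cE
  rw [Finset.sum_erase_add _ _ hv]

open Classical in
private theorem cE_self {V : Type} (G : SimpleGraph V) (P : Finset V) {v : V} (hv : v ∈ P) :
    cE G P P = cE G (P.erase v) (P.erase v) + 2 * ∑ u ∈ P, if G.Adj v u then 1 else 0 := by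
  have h1 : (∑ u ∈ P.erase v, if G.Adj v u then (1 : ℤ) else 0) =
      ∑ u ∈ P, if G.Adj v u then 1 else 0 := by
    rw [← Finset.sum_erase_add P _ hv, if_neg (G.irrefl), add_zero]
  rw [cE_left G P P hv, cE_erase G (P.erase v) P hv, h1]
  ring

open Classical in
/-- Proof: let `L = univ.filter (k ≤ dg G ·)` and `S = univ \ L`, `#S ≤ #L`.  Among the pairs `(P, R)`
with `P ⊆ L` nonempty and `R ⊆ S` choose one which maximises the integer
`Φ(P, R) = ∑_{v ∈ P} d_{P ∪ R}(v) - (2 l - 1) #P - s #R` (`Finset.exists_max_image`), where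
`d_X(v) = #(X.filter (G.Adj v))`.  `Φ(P, R) ≥ Φ(L, S) ≥ (k + 1 - 2 l - s) #L ≥ 0`; so some `v₀ ∈ P` has
`d_{P ∪ R}(v₀) ≥ 2 l - 1`.  Removing `v ∈ R` from `R`: `d_P(v) ≥ s`.  Removing `v ∈ P` from `P` (if
`P ≠ {v}`): `d_P(v) + d_{P ∪ R}(v) ≥ 2 l - 1`, so `2 d_{P ∪ R}(v) ≥ 2 l - 1`; if `P = {v}` this follows
from `Φ ≥ 0`. -/
theorem exists_clean {V : Type} [Fintype V] [Nonempty V] (G : SimpleGraph V) {k l s : ℕ}
    (hG : Fintype.card V ≤ 2 * (univ.filter fun v => k ≤ dg G v).card)
    (hl : 1 ≤ l) (hs : 1 ≤ s) (h : 2 * l + s ≤ k + 1) :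
    ∃ (P R : Finset V) (v₀ : V), Disjoint P R ∧ v₀ ∈ P ∧ (∀ v ∈ P, k ≤ dg G v) ∧
      (∀ v ∈ P, l ≤ ((P ∪ R).filter fun x => G.Adj v x).card) ∧
      (∀ v ∈ R, s ≤ (P.filter fun x => G.Adj v x).card) ∧
      2 * l ≤ ((P ∪ R).filter fun x => G.Adj v₀ x).card + 1 := by
  obtain ⟨L, hL⟩ : ∃ L : Finset V, L = univ.filter fun v => k ≤ dg G v := ⟨_, rfl⟩
  obtain ⟨S, hS⟩ : ∃ S : Finset V, S = univ \ L := ⟨_, rfl⟩
  rw [← hL] at hG
  have hSL : S.card ≤ L.card := by
    have h1 : S.card + L.card = Fintype.card V := by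
      rw [hS, Finset.card_sdiff_add_card_eq_card (Finset.subset_univ L), Finset.card_univ]
    omega
  have hLne : L.Nonempty := by
    rw [← Finset.card_pos]
    have h1 : 0 < Fintype.card V := Fintype.card_pos
    omega
  have hdisj : Disjoint L S := by
    rw [hS]
    exact Finset.disjoint_sdiff
  obtain ⟨Φ, hΦ⟩ : ∃ Φ : Finset V × Finset V → ℤ, Φ = fun z => cE G z.1 z.1 + cE G z.1 z.2 -
      (2 * (l : ℤ) - 1) * z.1.card - s * z.2.card := ⟨_, rfl⟩
  obtain ⟨⟨P, R⟩, hPR, hmax⟩ := Finset.exists_max_image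
    ((L.powerset ×ˢ S.powerset).filter fun z : Finset V × Finset V => z.1.Nonempty) Φ
    ⟨(L, S), by
      rw [Finset.mem_filter, Finset.mem_product]
      exact ⟨⟨Finset.mem_powerset_self L, Finset.mem_powerset_self S⟩, hLne⟩⟩
  rw [Finset.mem_filter, Finset.mem_product] at hPR
  obtain ⟨⟨hP, hR⟩, hPne⟩ := hPR
  simp only [Finset.mem_powerset] at hP hR hPne
  have hmax' : ∀ P' R' : Finset V, P' ⊆ L → R' ⊆ S → P'.Nonempty → Φ (P', R') ≤ Φ (P, R) := by
    intro P' R' h1 h2 h3
    refine hmax (P', R') ?_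
    rw [Finset.mem_filter, Finset.mem_product]
    exact ⟨⟨Finset.mem_powerset.2 h1, Finset.mem_powerset.2 h2⟩, h3⟩
  have hPRd : Disjoint P R := Finset.disjoint_of_subset_left hP
    (Finset.disjoint_of_subset_right hR hdisj)
  have hu : ∀ v, (((P ∪ R).filter fun x => G.Adj v x).card : ℤ) =
      (∑ x ∈ P, if G.Adj v x then 1 else 0) + ∑ x ∈ R, if G.Adj v x then 1 else 0 := by
    intro v
    rw [cE_deg, Finset.sum_union hPRd]
  -- the value of the maximum
  have h0 : 0 ≤ Φ (P, R) := by
    refine le_trans ?_ (hmax' L S subset_rfl subset_rfl hLne)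
    rw [hΦ]
    have h1 : (k : ℤ) * L.card ≤ cE G L L + cE G L S := by
      unfold cE
      rw [← Finset.sum_add_distrib, mul_comm, ← nsmul_eq_mul, ← Finset.sum_const]
      refine Finset.sum_le_sum fun v hv => ?_
      rw [← Finset.sum_union hdisj, ← cE_deg]
      have h2 : L ∪ S = univ := by
        rw [hS]
        exact Finset.union_sdiff_of_subset (Finset.subset_univ L)
      rw [h2]
      rw [hL, Finset.mem_filter] at hv
      have h3 := hv.2
      unfold dg at h3
      exact_mod_cast h3
    have h2 : (2 * (l : ℤ) + s) ≤ k + 1 := by exact_mod_cast h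
    have h3 : (s : ℤ) * S.card ≤ s * L.card :=
      mul_le_mul_of_nonneg_left (by exact_mod_cast hSL) (by positivity)
    have h4 : (0 : ℤ) ≤ (k + 1 - (2 * (l : ℤ) + s)) * L.card :=
      mul_nonneg (by linarith) (by positivity)
    change 0 ≤ cE G L L + cE G L S - (2 * (l : ℤ) - 1) * L.card - s * S.card
    nlinarith
  have h0' : 0 ≤ cE G P P + cE G P R - (2 * (l : ℤ) - 1) * P.card - s * R.card := by
    rw [hΦ] at h0
    exact h0
  have hl' : (1 : ℤ) ≤ l := by exact_mod_cast hl
  -- a vertex of large degree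
  obtain ⟨v₀, hv₀, hd₀⟩ : ∃ v₀ ∈ P, 2 * (l : ℤ) - 1 ≤
      ((P ∪ R).filter fun x => G.Adj v₀ x).card := by
    by_contra hcon
    push Not at hcon
    have h1 : cE G P P + cE G P R < (2 * (l : ℤ) - 1) * P.card := by
      unfold cE
      rw [← Finset.sum_add_distrib, mul_comm, ← nsmul_eq_mul, ← Finset.sum_const]
      refine Finset.sum_lt_sum_of_nonempty hPne fun v hv => ?_
      rw [← hu v]
      exact hcon v hv
    have h2 : (0 : ℤ) ≤ s * R.card := by positivity
    linarith
  refine ⟨P, R, v₀, hPRd, hv₀, ?_, ?_, ?_, ?_⟩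
  · intro v hv
    have h1 := hP hv
    rw [hL, Finset.mem_filter] at h1
    exact h1.2
  · intro v hv
    have key : 2 * (l : ℤ) - 1 ≤ 2 * ((P ∪ R).filter fun x => G.Adj v x).card := by
      by_cases hne : (P.erase v).Nonempty
      · have h1 := hmax' (P.erase v) R ((Finset.erase_subset v P).trans hP) hR hne
        rw [hΦ] at h1
        have h2 : cE G (P.erase v) (P.erase v) + cE G (P.erase v) R -
            (2 * (l : ℤ) - 1) * (P.erase v).card - s * R.card ≤
            cE G P P + cE G P R - (2 * (l : ℤ) - 1) * P.card - s * R.card := h1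
        have h3 : ((P.erase v).card : ℤ) = P.card - 1 := by
          have h4 := Finset.card_erase_add_one hv
          have h5 : ((P.erase v).card : ℤ) + 1 = P.card := by exact_mod_cast h4
          linarith
        have h6 : (0 : ℤ) ≤ ∑ x ∈ R, if G.Adj v x then 1 else 0 :=
          Finset.sum_nonneg fun x _ => by split_ifs <;> norm_num
        rw [h3, cE_self G P hv, cE_left G P R hv] at h2
        rw [hu v]
        linarith
      · have h1 : P = {v} := by
          rw [Finset.not_nonempty_iff_eq_empty] at hne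
          rw [← Finset.insert_erase hv, hne, insert_empty_eq]
        have h2 : v₀ = v := by
          rw [h1, Finset.mem_singleton] at hv₀
          exact hv₀
        rw [h2] at hd₀
        have h3 : (0 : ℤ) ≤ ((P ∪ R).filter fun x => G.Adj v x).card := by positivity
        linarith
    omega
  · intro v hv
    have h1 := hmax' P (R.erase v) hP ((Finset.erase_subset v R).trans hR) hPne
    rw [hΦ] at h1
    have h2 : cE G P P + cE G P (R.erase v) - (2 * (l : ℤ) - 1) * P.card -
        s * (R.erase v).card ≤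
        cE G P P + cE G P R - (2 * (l : ℤ) - 1) * P.card - s * R.card := h1
    have h3 : ((R.erase v).card : ℤ) = R.card - 1 := by
      have h4 := Finset.card_erase_add_one hv
      have h5 : ((R.erase v).card : ℤ) + 1 = R.card := by exact_mod_cast h4
      linarith
    rw [h3, cE_erase G P R hv, ← cE_deg] at h2
    have h4 : (s : ℤ) ≤ (P.filter fun x => G.Adj v x).card := by linarith
    exact_mod_cast h4
  · omega

end KS137
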