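import Pool.Agent.H.MP_137e81_co.ls.Par

/-! The embedding lemma. -/

set_option autoImplicit false

namespace KS137

open Finset

open Classical in
/-- friends: different vertices whose sets have more than `h` common elements -/
def Fr {V : Type} (Γ : V → Finset V) (h : ℕ) (u v : V) : Prop :=
  u ≠ v ∧ h < (Γ u ∩ Γ v).card

lemma Fr.symm {V : Type} {Γ : V → Finset V} {h : ℕ} {u v : V} (H : Fr Γ h u v) : Fr Γ h v u := by
  classical
  refine ⟨H.1.symm, ?_⟩
  have := H.2
  rw [Finset.inter_comm] at this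
  exact this

/-- `z` has a child which is neither placed nor postponed -/
def Act {β V : Type} [Fintype β] (T : SimpleGraph β) (par : β → β) (r : β) (P : Finset V)
    (D : Finset β) (f : β → V) (z : β) : Prop :=
  ∃ c, c ∉ D ∧ c ≠ r ∧ par c = z ∧ ¬ (dg T c = 1 ∧ f z ∈ P)

open Classical in
/-- the invariants of a partial embedding `f` of the set `D` of vertices of the tree -/
structure Inv {β V : Type} [Fintype β] (T : SimpleGraph β) (par : β → β) (r : β) (U P : Finset V)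
    (Γ : V → Finset V) (v₀ : V) (b h e : ℕ) (D : Finset β) (f : β → V) : Prop where
  root : r ∈ D
  froot : f r = v₀
  memU : ∀ t ∈ D, f t ∈ U
  par_mem : ∀ t ∈ D, t ≠ r → par t ∈ D ∧ f t ∈ Γ (f (par t))
  inj : ∀ t ∈ D, ∀ u ∈ D, f t = f u → t = u
  leaf : ∀ t ∈ D, t ≠ r → dg T t = 1 → f (par t) ∉ P
  few : ∀ y ∈ D, (D.filter fun t => f t ∈ Γ (f y) ∧ ¬ T.Adj y t ∧
    ¬ (t ≠ r ∧ Fr Γ h (f (par t)) (f y))).card ≤ b
  big : ∀ y ∈ D, ∀ z ∈ D, e < dg T y → Fr Γ h (f y) (f z) → Act T par r P D f z →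
    ∀ t ∈ D, t ≠ r → par t ≠ y
  bigs : ∀ y ∈ D, ∀ z ∈ D, e < dg T y → e < dg T z → ¬ Fr Γ h (f y) (f z)

section

variable {β V : Type} [Fintype β] [Fintype V] {T : SimpleGraph β} {par : β → β} {dep : β → ℕ}
  {r : β} {U P : Finset V} {Γ : V → Finset V} {v₀ : V} {b h e : ℕ} {D : Finset β} {f : β → V}
  {G : SimpleGraph V}

lemma one_le_dg {x y : β} (hxy : T.Adj x y) : 1 ≤ dg T x := by
  classical
  unfold dg
  exact Finset.card_pos.2 ⟨y, Finset.mem_filter.2 ⟨Finset.mem_univ _, hxy⟩⟩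

lemma two_le_dg {x y z : β} (hxy : T.Adj x y) (hxz : T.Adj x z) (hyz : y ≠ z) : 2 ≤ dg T x := by
  classical
  unfold dg
  have h1 : ({y, z} : Finset β) ⊆ univ.filter fun u => T.Adj x u := by
    intro w hw
    rw [Finset.mem_insert, Finset.mem_singleton] at hw
    rcases hw with rfl | rfl
    · exact Finset.mem_filter.2 ⟨Finset.mem_univ _, hxy⟩
    · exact Finset.mem_filter.2 ⟨Finset.mem_univ _, hxz⟩
  have h2 := Finset.card_le_card h1
  rwa [Finset.card_pair hyz] at h2

open Classical in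
/-- the used elements of the set of an active vertex -/
lemma Emb_used (hp1 : ∀ t, t ≠ r → T.Adj t (par t) ∧ dep (par t) < dep t)
    (I : Inv T par r U P Γ v₀ b h e D f) {m2 : ℕ}
    (hfr : ∀ v, (univ.filter fun u => u ≠ v ∧ h < (Γ u ∩ Γ v).card).card ≤ m2) {y : β} (hy : y ∈ D)
    (hact : Act T par r P D f y) :
    (Γ (f y) ∩ D.image f).card ≤ (D.filter fun t => T.Adj y t).card + b + m2 * e := by
  have h1 : Γ (f y) ∩ D.image f ⊆
      ((D.filter fun t => T.Adj y t) ∪ (D.filter fun t => f t ∈ Γ (f y) ∧ ¬ T.Adj y t ∧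
        ¬ (t ≠ r ∧ Fr Γ h (f (par t)) (f y))) ∪
        ((D.filter fun z => Fr Γ h (f z) (f y)).biUnion fun z =>
          D.filter fun t => t ≠ r ∧ par t = z)).image f := by
    intro x hx
    rw [Finset.mem_inter, Finset.mem_image] at hx
    obtain ⟨hx1, t, ht, rfl⟩ := hx
    refine Finset.mem_image_of_mem f ?_
    by_cases h2 : T.Adj y t
    · exact Finset.mem_union_left _ (Finset.mem_union_left _ (Finset.mem_filter.2 ⟨ht, h2⟩))
    by_cases h3 : t ≠ r ∧ Fr Γ h (f (par t)) (f y)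
    · refine Finset.mem_union_right _ (Finset.mem_biUnion.2 ⟨par t, ?_, ?_⟩)
      · exact Finset.mem_filter.2 ⟨(I.par_mem t ht h3.1).1, h3.2⟩
      · exact Finset.mem_filter.2 ⟨ht, h3.1, rfl⟩
    · exact Finset.mem_union_left _ (Finset.mem_union_right _
        (Finset.mem_filter.2 ⟨ht, hx1, h2, h3⟩))
  have h2 : (D.filter fun z => Fr Γ h (f z) (f y)).card ≤ m2 := by
    refine le_trans ?_ (hfr (f y))
    refine Finset.card_le_card_of_injOn f ?_ ?_
    · intro z hz
      have hz' := Finset.mem_filter.1 hz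
      exact Finset.mem_coe.2 (Finset.mem_filter.2 ⟨Finset.mem_univ _, hz'.2⟩)
    · intro z hz z' hz' hzz
      exact I.inj z (Finset.mem_filter.1 hz).1 z' (Finset.mem_filter.1 hz').1 hzz
  have h3 : ((D.filter fun z => Fr Γ h (f z) (f y)).biUnion fun z =>
      D.filter fun t => t ≠ r ∧ par t = z).card ≤ m2 * e := by
    refine (Finset.card_biUnion_le_card_mul _ _ e ?_).trans (Nat.mul_le_mul_right e h2)
    intro z hz
    obtain ⟨hzD, hz2⟩ := Finset.mem_filter.1 hz
    by_cases hze : e < dg T z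
    · have h4 := I.big z hzD y hy hze hz2 hact
      have h5 : (D.filter fun t => t ≠ r ∧ par t = z) = ∅ := by
        rw [Finset.filter_eq_empty_iff]
        rintro t ht ⟨h6, h7⟩
        exact h4 t ht h6 h7
      rw [h5]
      exact Nat.zero_le _
    · refine le_trans (Finset.card_le_card ?_) (not_lt.1 hze)
      intro t ht
      obtain ⟨h6, h7, rfl⟩ := Finset.mem_filter.1 ht
      exact Finset.mem_filter.2 ⟨Finset.mem_univ _, (hp1 t h7).1.symm⟩
  have h4 := I.few y hy
  calc (Γ (f y) ∩ D.image f).card ≤ _ := Finset.card_le_card h1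
    _ ≤ _ := Finset.card_image_le
    _ ≤ _ := Finset.card_union_le _ _
    _ ≤ _ := Nat.add_le_add (Finset.card_union_le _ _) h3
    _ ≤ _ := by omega

open Classical in
/-- the number of the placed neighbours -/
lemma Emb_cap (hp1 : ∀ t, t ≠ r → T.Adj t (par t) ∧ dep (par t) < dep t)
    (hp2 : ∀ u v, T.Adj u v → (u ≠ r ∧ par u = v) ∨ (v ≠ r ∧ par v = u))
    (I : Inv T par r U P Γ v₀ b h e D f) (hr : 2 ≤ dg T r) (hv₀ : v₀ ∈ P) {E : ℕ}
    (hR : ∀ v ∈ U, v ∉ P → ∀ t, t ≠ r → dg T t + E ≤ (Γ v).card + 1)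
    (hP : ∀ v ∈ U, v ∈ P → ∀ t, t ≠ r → di T t + E ≤ (Γ v).card + 1)
    (h₀ : di T r + E ≤ (Γ v₀).card + 1) {t : β} (ht : t ∉ D) (htr : t ≠ r) {y : β}
    (hty : par t = y) (hpt : y ∈ D) (hpost : ¬ (dg T t = 1 ∧ f y ∈ P)) :
    (D.filter fun u => T.Adj y u).card + E ≤ (Γ (f y)).card := by
  have hadj : T.Adj y t := by
    rw [← hty]
    exact (hp1 t htr).1.symm
  have htn : t ∉ D.filter fun u => T.Adj y u := fun h1 => ht (Finset.mem_filter.1 h1).1
  by_cases hv : f y ∈ P
  · have h1 : (D.filter fun u => T.Adj y u).card + 1 ≤ di T y := by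
      rw [← Finset.card_insert_of_notMem htn]
      unfold di
      refine Finset.card_le_card ?_
      intro u hu
      rw [Finset.mem_insert] at hu
      refine Finset.mem_filter.2 ⟨Finset.mem_univ _, ?_⟩
      rcases hu with rfl | hu
      · refine ⟨hadj, ?_⟩
        have h2 : dg T u ≠ 1 := fun h3 => hpost ⟨h3, hv⟩
        have h3 := one_le_dg hadj.symm
        omega
      · obtain ⟨huD, hua⟩ := Finset.mem_filter.1 hu
        refine ⟨hua, ?_⟩
        rcases hp2 _ _ hua with ⟨h2, h3⟩ | ⟨h2, h3⟩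
        · by_cases hur : u = r
          · rw [hur]
            exact hr
          · refine two_le_dg hua.symm (hp1 u hur).1 ?_
            intro h4
            have h5 := (hp1 u hur).2
            have h6 := (hp1 _ h2).2
            rw [h3] at h6
            rw [← h4] at h5
            omega
        · have h4 : dg T u ≠ 1 := by
            intro h5
            have h6 := I.leaf u huD h2 h5
            rw [h3] at h6
            exact h6 hv
          have h5 := one_le_dg hua.symm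
          omega
    by_cases hyr : y = r
    · have h2 : f y = v₀ := by rw [hyr, I.froot]
      rw [h2]
      rw [hyr] at h1 ⊢
      omega
    · have h2 := hP _ (I.memU _ hpt) hv _ hyr
      omega
  · have hyr : y ≠ r := by
      intro h1
      rw [h1, I.froot] at hv
      exact hv hv₀
    have h1 : (D.filter fun u => T.Adj y u).card + 1 ≤ dg T y := by
      rw [← Finset.card_insert_of_notMem htn]
      unfold dg
      refine Finset.card_le_card ?_
      intro u hu
      rw [Finset.mem_insert] at hu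
      refine Finset.mem_filter.2 ⟨Finset.mem_univ _, ?_⟩
      rcases hu with rfl | hu
      · exact hadj
      · exact (Finset.mem_filter.1 hu).2
    have h2 := hR _ (I.memU _ hpt) hv _ hyr
    omega

open Classical in
/-- a good place for the child `t` of `y` -/
lemma Emb_choice (hp1 : ∀ t, t ≠ r → T.Adj t (par t) ∧ dep (par t) < dep t)
    (hp2 : ∀ u v, T.Adj u v → (u ≠ r ∧ par u = v) ∨ (v ≠ r ∧ par v = u))
    (I : Inv T par r U P Γ v₀ b h e D f) (hr : 2 ≤ dg T r) (hv₀ : v₀ ∈ P) {k m1 m2 B E : ℕ}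
    (hk : Fintype.card β = k + 1)
    (hE : b + m2 * e + m1 + m1 * h + B * m2 + 1 ≤ E)
    (hfull : ∀ W : Finset V, W.card ≤ k + 1 →
      (univ.filter fun v => b ≤ (Γ v ∩ W).card).card ≤ m1)
    (hfr : ∀ v, (univ.filter fun u => u ≠ v ∧ h < (Γ u ∩ Γ v).card).card ≤ m2)
    (hbig : (univ.filter fun t => e < dg T t).card ≤ B)
    (hR : ∀ v ∈ U, v ∉ P → ∀ t, t ≠ r → dg T t + E ≤ (Γ v).card + 1)
    (hP : ∀ v ∈ U, v ∈ P → ∀ t, t ≠ r → di T t + E ≤ (Γ v).card + 1)
    (h₀ : di T r + E ≤ (Γ v₀).card + 1) {t : β} (ht : t ∉ D) (htr : t ≠ r) {y : β}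
    (hty : par t = y) (hpt : y ∈ D) (hpost : ¬ (dg T t = 1 ∧ f y ∈ P)) :
    ∃ x ∈ Γ (f y), x ∉ D.image f ∧ (Γ x ∩ D.image f).card < b ∧
      (∀ z, z ≠ f y → ¬ Fr Γ h z (f y) → b ≤ (Γ z ∩ D.image f).card → x ∉ Γ z) ∧
      (∀ z ∈ D, e < dg T z → ¬ Fr Γ h x (f z)) := by
  have hW : (D.image f).card ≤ k + 1 := by
    refine Finset.card_image_le.trans ?_
    rw [← hk]
    exact Finset.card_le_univ _
  have h1 := Emb_used hp1 I hfr hpt ⟨t, ht, htr, hty, hpost⟩
  have h2 := Emb_cap hp1 hp2 I hr hv₀ hR hP h₀ ht htr hty hpt hpost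
  have h3 := hfull _ hW
  obtain ⟨F, hF⟩ : ∃ F, F = univ.filter fun v => b ≤ (Γ v ∩ D.image f).card := ⟨_, rfl⟩
  rw [← hF] at h3
  obtain ⟨B1, hB1⟩ : ∃ B1, B1 = (F.filter fun z => z ≠ f y ∧ ¬ Fr Γ h z (f y)).biUnion
      fun z => Γ z ∩ Γ (f y) := ⟨_, rfl⟩
  have h4 : B1.card ≤ m1 * h := by
    rw [hB1]
    refine (Finset.card_biUnion_le_card_mul _ _ h ?_).trans (Nat.mul_le_mul_right h
      ((Finset.card_le_card (Finset.filter_subset _ _)).trans h3))
    intro z hz
    obtain ⟨-, h5, h6⟩ := Finset.mem_filter.1 hz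
    by_contra h7
    exact h6 ⟨h5, not_le.1 h7⟩
  obtain ⟨B2, hB2⟩ : ∃ B2, B2 = (D.filter fun z => e < dg T z).biUnion
      fun z => univ.filter fun u => u ≠ f z ∧ h < (Γ u ∩ Γ (f z)).card := ⟨_, rfl⟩
  have h5 : B2.card ≤ B * m2 := by
    rw [hB2]
    refine (Finset.card_biUnion_le_card_mul _ _ m2 fun z _ => hfr (f z)).trans
      (Nat.mul_le_mul_right m2 (le_trans (Finset.card_le_card ?_) hbig))
    intro z hz
    exact Finset.mem_filter.2 ⟨Finset.mem_univ _, (Finset.mem_filter.1 hz).2⟩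
  obtain ⟨x, hx, hxn⟩ : ∃ x ∈ Γ (f y), x ∉ (Γ (f y) ∩ D.image f) ∪ F ∪ B1 ∪ B2 := by
    refine Finset.exists_mem_notMem_of_card_lt_card ?_
    calc ((Γ (f y) ∩ D.image f) ∪ F ∪ B1 ∪ B2).card
        ≤ ((Γ (f y) ∩ D.image f) ∪ F ∪ B1).card + B2.card := Finset.card_union_le _ _
      _ ≤ ((Γ (f y) ∩ D.image f) ∪ F).card + B1.card + B2.card :=
        Nat.add_le_add_right (Finset.card_union_le _ _) _
      _ ≤ (Γ (f y) ∩ D.image f).card + F.card + B1.card + B2.card :=
        Nat.add_le_add_right (Nat.add_le_add_right (Finset.card_union_le _ _) _) _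
      _ < (Γ (f y)).card := by omega
  simp only [Finset.mem_union, not_or] at hxn
  obtain ⟨⟨⟨hx1, hx2⟩, hx3⟩, hx4⟩ := hxn
  refine ⟨x, hx, fun h6 => hx1 (Finset.mem_inter.2 ⟨hx, h6⟩), ?_, ?_, ?_⟩
  · by_contra h6
    refine hx2 ?_
    rw [hF]
    exact Finset.mem_filter.2 ⟨Finset.mem_univ _, not_lt.1 h6⟩
  · intro z hz1 hz2 hz3 hxz
    refine hx3 ?_
    rw [hB1]
    refine Finset.mem_biUnion.2 ⟨z, Finset.mem_filter.2 ⟨?_, hz1, hz2⟩,
      Finset.mem_inter.2 ⟨hxz, hx⟩⟩
    rw [hF]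
    exact Finset.mem_filter.2 ⟨Finset.mem_univ _, hz3⟩
  · intro z hz1 hz2 hz3
    refine hx4 ?_
    rw [hB2]
    exact Finset.mem_biUnion.2 ⟨z, Finset.mem_filter.2 ⟨hz1, hz2⟩,
      Finset.mem_filter.2 ⟨Finset.mem_univ _, hz3⟩⟩

open Classical in
/-- the extension of a partial embedding -/
lemma Emb_ext (hp1 : ∀ t, t ≠ r → T.Adj t (par t) ∧ dep (par t) < dep t)
    (I : Inv T par r U P Γ v₀ b h e D f) (hΓ : ∀ v, ∀ x ∈ Γ v, G.Adj v x)
    (hΓU : ∀ v ∈ U, Γ v ⊆ U) {t : β} (ht : t ∉ D) (htr : t ≠ r) {y : β}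
    (hty : par t = y) (hpt : y ∈ D) (hpost : ¬ (dg T t = 1 ∧ f y ∈ P))
    (hact : e < dg T y → ∀ z ∈ D, Fr Γ h (f y) (f z) → ¬ Act T par r P D f z) {x : V}
    (hx : x ∈ Γ (f y)) (hx1 : x ∉ D.image f) (hx2 : (Γ x ∩ D.image f).card < b)
    (hx3 : ∀ z, z ≠ f y → ¬ Fr Γ h z (f y) → b ≤ (Γ z ∩ D.image f).card → x ∉ Γ z)
    (hx4 : ∀ z ∈ D, e < dg T z → ¬ Fr Γ h x (f z)) :
    Inv T par r U P Γ v₀ b h e (insert t D) (Function.update f t x) := by
  have hf : ∀ z ∈ D, Function.update f t x z = f z := by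
    intro z hz
    refine Function.update_of_ne ?_ _ _
    rintro rfl
    exact ht hz
  have hft : Function.update f t x t = x := Function.update_self _ _ _
  have hyt : y ≠ t := by
    rintro rfl
    exact ht hpt
  have hyf : Function.update f t x y = f y := hf y hpt
  have hcnt : ∀ v, (D.filter fun u => f u ∈ Γ v).card ≤ (Γ v ∩ D.image f).card := by
    intro v
    refine Finset.card_le_card_of_injOn f ?_ ?_
    · intro u hu
      obtain ⟨hu1, hu2⟩ := Finset.mem_filter.1 hu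
      exact Finset.mem_coe.2 (Finset.mem_inter.2 ⟨hu2, Finset.mem_image_of_mem f hu1⟩)
    · intro u hu u' hu' huu
      exact I.inj u (Finset.mem_filter.1 hu).1 u' (Finset.mem_filter.1 hu').1 huu
  refine ⟨Finset.mem_insert_of_mem I.root, ?_, ?_, ?_, ?_, ?_, ?_, ?_, ?_⟩
  · rw [hf r I.root, I.froot]
  · intro u hu
    rcases Finset.mem_insert.1 hu with rfl | hu
    · rw [hft]
      exact hΓU _ (I.memU y hpt) hx
    · rw [hf u hu]
      exact I.memU u hu
  · intro u hu hur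
    rcases Finset.mem_insert.1 hu with rfl | hu
    · rw [hty, hft, hyf]
      exact ⟨Finset.mem_insert_of_mem hpt, hx⟩
    · obtain ⟨h1, h2⟩ := I.par_mem u hu hur
      rw [hf u hu, hf _ h1]
      exact ⟨Finset.mem_insert_of_mem h1, h2⟩
  · intro u hu0 u' hu0' huu
    rcases Finset.mem_insert.1 hu0 with rfl | hu
    · rcases Finset.mem_insert.1 hu0' with rfl | hu'
      · rfl
      · rw [hft, hf u' hu'] at huu
        exact absurd (huu ▸ Finset.mem_image_of_mem f hu') hx1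
    · rcases Finset.mem_insert.1 hu0' with rfl | hu'
      · rw [hft, hf u hu] at huu
        exact absurd (huu ▸ Finset.mem_image_of_mem f hu) hx1
      · rw [hf u hu, hf u' hu'] at huu
        exact I.inj u hu u' hu' huu
  · intro u hu hur hu1
    rcases Finset.mem_insert.1 hu with rfl | hu
    · rw [hty, hyf]
      exact fun h1 => hpost ⟨hu1, h1⟩
    · rw [hf _ (I.par_mem u hu hur).1]
      exact I.leaf u hu hur hu1
  · intro y' hy'
    rcases Finset.mem_insert.1 hy' with rfl | hy'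
    · rw [hft]
      refine le_trans (le_trans (Finset.card_le_card ?_) (hcnt x)) hx2.le
      intro u hu
      obtain ⟨hu1, hu2, -⟩ := Finset.mem_filter.1 hu
      rcases Finset.mem_insert.1 hu1 with rfl | hu1
      · rw [hft] at hu2
        exact absurd (hΓ x x hu2) (G.loopless.irrefl x)
      · rw [hf u hu1] at hu2
        exact Finset.mem_filter.2 ⟨hu1, hu2⟩
    · rw [hf y' hy']
      by_cases h1 : x ∈ Γ (f y') ∧ ¬ T.Adj y' t ∧ ¬ (t ≠ r ∧ Fr Γ h (f y) (f y'))
      · obtain ⟨h2, h3, h4⟩ := h1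
        have h5 : f y' ≠ f y := by
          intro h6
          rw [I.inj y' hy' y hpt h6, ← hty] at h3
          exact h3 (hp1 t htr).1.symm
        have h6 : ¬ b ≤ (Γ (f y') ∩ D.image f).card := by
          intro h7
          refine hx3 _ h5 ?_ h7 h2
          intro h8
          exact h4 ⟨htr, h8.symm⟩
        have h7 := hcnt (f y')
        refine le_trans (Finset.card_le_card (t := insert t (D.filter fun u => f u ∈ Γ (f y'))) ?_)
          ((Finset.card_insert_le _ _).trans (by omega))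
        intro u hu
        obtain ⟨hu1, hu2, -⟩ := Finset.mem_filter.1 hu
        rcases Finset.mem_insert.1 hu1 with rfl | hu1
        · exact Finset.mem_insert_self _ _
        · rw [hf u hu1] at hu2
          exact Finset.mem_insert_of_mem (Finset.mem_filter.2 ⟨hu1, hu2⟩)
      · refine le_trans (Finset.card_le_card ?_) (I.few y' hy')
        intro u hu
        obtain ⟨hu1, hu2, hu3, hu4⟩ := Finset.mem_filter.1 hu
        rcases Finset.mem_insert.1 hu1 with rfl | hu1
        · rw [hft] at hu2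
          rw [hty, hyf] at hu4
          exact absurd ⟨hu2, hu3, hu4⟩ h1
        · rw [hf u hu1] at hu2
          refine Finset.mem_filter.2 ⟨hu1, hu2, hu3, ?_⟩
          rintro ⟨h2, h3⟩
          refine hu4 ⟨h2, ?_⟩
          rw [hf _ (I.par_mem u hu1 h2).1]
          exact h3
  · intro y1 hy10 z hz0 hbig hfr hA u hu0 hur hpu
    rcases Finset.mem_insert.1 hy10 with rfl | hy1
    · rcases Finset.mem_insert.1 hu0 with rfl | hu
      · exact hyt (hty.symm.trans hpu)
      · refine ht ?_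
        rw [← hpu]
        exact (I.par_mem u hu hur).1
    · rw [hf y1 hy1] at hfr
      rcases Finset.mem_insert.1 hz0 with rfl | hz
      · rw [hft] at hfr
        exact hx4 y1 hy1 hbig hfr.symm
      · rw [hf z hz] at hfr
        have hA' : Act T par r P D f z := by
          obtain ⟨c, hc1, hc2, hc3, hc4⟩ := hA
          rw [hf z hz] at hc4
          exact ⟨c, fun h1 => hc1 (Finset.mem_insert_of_mem h1), hc2, hc3, hc4⟩
        rcases Finset.mem_insert.1 hu0 with rfl | hu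
        · rw [hty] at hpu
          subst hpu
          exact hact hbig z hz hfr hA'
        · exact I.big y1 hy1 z hz hbig hfr hA' u hu hur hpu
  · intro y1 hy10 z hz0 hb1 hb2 hfr
    rcases Finset.mem_insert.1 hy10 with rfl | hy1
    · rcases Finset.mem_insert.1 hz0 with rfl | hz
      · exact hfr.1 rfl
      · rw [hft, hf z hz] at hfr
        exact hx4 z hz hb2 hfr
    · rcases Finset.mem_insert.1 hz0 with rfl | hz
      · rw [hft, hf y1 hy1] at hfr
        exact hx4 y1 hy1 hb1 hfr.symm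
      · rw [hf y1 hy1, hf z hz] at hfr
        exact I.bigs y1 hy1 z hz hb1 hb2 hfr

open Classical in
/-- in a maximal partial embedding all vertices which are not placed are postponed leaves -/
lemma Emb_max (hp1 : ∀ t, t ≠ r → T.Adj t (par t) ∧ dep (par t) < dep t)
    (hp2 : ∀ u v, T.Adj u v → (u ≠ r ∧ par u = v) ∨ (v ≠ r ∧ par v = u))
    (hΓ : ∀ v, ∀ x ∈ Γ v, G.Adj v x) (hΓU : ∀ v ∈ U, Γ v ⊆ U) (hr : 2 ≤ dg T r) (hv₀ : v₀ ∈ P)
    (hv₀U : v₀ ∈ U) {k m1 m2 B E : ℕ} (hk : Fintype.card β = k + 1)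
    (hE : b + m2 * e + m1 + m1 * h + B * m2 + 1 ≤ E)
    (hfull : ∀ W : Finset V, W.card ≤ k + 1 →
      (univ.filter fun v => b ≤ (Γ v ∩ W).card).card ≤ m1)
    (hfr : ∀ v, (univ.filter fun u => u ≠ v ∧ h < (Γ u ∩ Γ v).card).card ≤ m2)
    (hbig : (univ.filter fun t => e < dg T t).card ≤ B)
    (hR : ∀ v ∈ U, v ∉ P → ∀ t, t ≠ r → dg T t + E ≤ (Γ v).card + 1)
    (hP : ∀ v ∈ U, v ∈ P → ∀ t, t ≠ r → di T t + E ≤ (Γ v).card + 1)
    (h₀ : di T r + E ≤ (Γ v₀).card + 1) :
    ∃ (D : Finset β) (f : β → V), Inv T par r U P Γ v₀ b h e D f ∧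
      ∀ t, t ∉ D → t ≠ r ∧ par t ∈ D ∧ f (par t) ∈ P := by
  have hI0 : Inv T par r U P Γ v₀ b h e {r} (fun _ => v₀) := by
    refine ⟨Finset.mem_singleton_self _, rfl, fun t _ => hv₀U, ?_, ?_, ?_, ?_, ?_, ?_⟩
    · intro t ht htr
      exact absurd (Finset.mem_singleton.1 ht) htr
    · intro t ht u hu _
      rw [Finset.mem_singleton.1 ht, Finset.mem_singleton.1 hu]
    · intro t ht htr
      exact absurd (Finset.mem_singleton.1 ht) htr
    · intro y _
      refine le_trans (le_of_eq ?_) (Nat.zero_le b)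
      rw [Finset.card_eq_zero, Finset.filter_eq_empty_iff]
      rintro t - ⟨h1, -⟩
      exact G.loopless.irrefl v₀ (hΓ _ _ h1)
    · intro y _ z _ _ h1
      exact absurd rfl h1.1
    · intro y _ z _ _ _ h1
      exact h1.1 rfl
  obtain ⟨⟨D, f⟩, hDf, hmax⟩ := Finset.exists_max_image
    ((univ : Finset (Finset β × (β → V))).filter fun q => Inv T par r U P Γ v₀ b h e q.1 q.2)
    (fun q => q.1.card) ⟨({r}, fun _ => v₀), Finset.mem_filter.2 ⟨Finset.mem_univ _, hI0⟩⟩
  have I : Inv T par r U P Γ v₀ b h e D f := (Finset.mem_filter.1 hDf).2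
  -- no extension is possible
  have hext : ∀ t y, t ∉ D → t ≠ r → par t = y → y ∈ D → ¬ (dg T t = 1 ∧ f y ∈ P) →
      (e < dg T y → ∀ z ∈ D, Fr Γ h (f y) (f z) → ¬ Act T par r P D f z) → False := by
    intro t y ht htr hty hy hpost hact
    obtain ⟨x, hx, hx1, hx2, hx3, hx4⟩ := Emb_choice hp1 hp2 I hr hv₀ hk hE hfull hfr hbig hR hP h₀
      ht htr hty hy hpost
    have h1 := Emb_ext hp1 I hΓ hΓU ht htr hty hy hpost hact hx hx1 hx2 hx3 hx4
    have h2 := hmax (insert t D, Function.update f t x)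
      (Finset.mem_filter.2 ⟨Finset.mem_univ _, h1⟩)
    simp only [Finset.card_insert_of_notMem ht] at h2
    omega
  have hpost : ∀ t, t ∉ D → t ≠ r → par t ∈ D → dg T t = 1 ∧ f (par t) ∈ P := by
    intro t ht htr hpt
    by_contra hno
    refine hext t (par t) ht htr rfl hpt hno fun hb z hz hzf hza => ?_
    obtain ⟨c, hc1, hc2, hc3, hc4⟩ := hza
    refine hext c z hc1 hc2 hc3 hz hc4 fun hb2 => ?_
    exact absurd hzf (I.bigs _ hpt z hz hb hb2)
  have hdep : ∀ n t, dep t = n → t ∉ D → t ≠ r ∧ par t ∈ D := by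
    intro n
    induction n using Nat.strong_induction_on with
    | _ n ih =>
      intro t htn ht
      have htr : t ≠ r := by
        rintro rfl
        exact ht I.root
      refine ⟨htr, ?_⟩
      by_contra hpt
      obtain ⟨h1, h2⟩ := hp1 t htr
      obtain ⟨h3, h4⟩ := ih (dep (par t)) (htn ▸ h2) (par t) rfl hpt
      have h5 := (hpost _ hpt h3 h4).1
      obtain ⟨h6, h7⟩ := hp1 (par t) h3
      have h8 : 2 ≤ dg T (par t) := two_le_dg h1.symm h6 (by
        intro h9
        rw [← h9] at h7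
        omega)
      omega
  refine ⟨D, f, I, fun t ht => ?_⟩
  obtain ⟨h1, h2⟩ := hdep _ t rfl ht
  exact ⟨h1, h2, (hpost t ht h1 h2).2⟩

end

open Classical in
/-- The embedding lemma. -/
theorem embed {β V : Type} [Fintype β] [Fintype V] {T : SimpleGraph β} (hT : T.IsTree)
    (G : SimpleGraph V) {k : ℕ} (hk : Fintype.card β = k + 1) (U P : Finset V)
    (hPd : ∀ v ∈ P, k ≤ dg G v) (Γ : V → Finset V) (hΓ : ∀ v, ∀ x ∈ Γ v, G.Adj v x)
    (hΓU : ∀ v ∈ U, Γ v ⊆ U) {r : β} (hr : 2 ≤ dg T r) {v₀ : V} (hv₀ : v₀ ∈ P) (hv₀U : v₀ ∈ U)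
    {b h e m1 m2 B E : ℕ} (hE : b + m2 * e + m1 + m1 * h + B * m2 + 1 ≤ E)
    (hfull : ∀ W : Finset V, W.card ≤ k + 1 →
      (univ.filter fun v => b ≤ (Γ v ∩ W).card).card ≤ m1)
    (hfr : ∀ v, (univ.filter fun u => u ≠ v ∧ h < (Γ u ∩ Γ v).card).card ≤ m2)
    (hbig : (univ.filter fun t => e < dg T t).card ≤ B)
    (hR : ∀ v ∈ U, v ∉ P → ∀ t, t ≠ r → dg T t + E ≤ (Γ v).card + 1)
    (hP : ∀ v ∈ U, v ∈ P → ∀ t, t ≠ r → di T t + E ≤ (Γ v).card + 1)
    (h₀ : di T r + E ≤ (Γ v₀).card + 1) : T.IsContained G := by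
  obtain ⟨par, dep, hp1, hp2⟩ := exists_parent hT r
  obtain ⟨D, f, I, hD⟩ := Emb_max hp1 hp2 hΓ hΓU hr hv₀ hv₀U hk hE hfull hfr hbig hR hP h₀
  -- the postponed leaves
  obtain ⟨g, hg, hgm⟩ := exists_sdr (Z := {t // t ∉ D})
    (fun t => (univ.filter fun x => G.Adj (f (par t)) x) \ (D.image f).erase (f (par t))) (by
      intro t
      obtain ⟨h1, h2, h3⟩ := hD t t.2
      have h4 := hPd _ h3
      unfold dg at h4
      have h5 : ((D.image f).erase (f (par t))).card + 1 ≤ D.card := by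
        rw [Finset.card_erase_add_one (Finset.mem_image_of_mem f h2)]
        exact Finset.card_image_le
      have h6 := Finset.le_card_sdiff ((D.image f).erase (f (par t)))
        (univ.filter fun x => G.Adj (f (par t)) x)
      have h7 : Fintype.card {t // t ∉ D} + D.card = k + 1 := by
        rw [Fintype.card_subtype_compl, Fintype.card_coe, hk]
        have := Finset.card_le_univ D
        omega
      omega)
  have hg1 : ∀ t : {t // t ∉ D}, G.Adj (f (par t)) (g t) := by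
    intro t
    have h1 := Finset.mem_sdiff.1 (hgm t)
    exact (Finset.mem_filter.1 h1.1).2
  have hg2 : ∀ t : {t // t ∉ D}, ∀ u ∈ D, f u ≠ g t := by
    intro t u hu h1
    have h2 := Finset.mem_sdiff.1 (hgm t)
    refine h2.2 (Finset.mem_erase.2 ⟨?_, h1 ▸ Finset.mem_image_of_mem f hu⟩)
    intro h3
    have h4 := hg1 t
    rw [h3] at h4
    exact G.loopless.irrefl _ h4
  obtain ⟨F, hF⟩ : ∃ F : β → V, F = fun t => if ht : t ∈ D then f t else g ⟨t, ht⟩ := ⟨_, rfl⟩
  have hF1 : ∀ t, t ∈ D → F t = f t := by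
    intro t ht
    rw [hF]
    exact dif_pos ht
  have hF2 : ∀ t (ht : t ∉ D), F t = g ⟨t, ht⟩ := by
    intro t ht
    rw [hF]
    exact dif_neg ht
  have hinj : Function.Injective F := by
    intro t u htu
    by_cases ht : t ∈ D
    · by_cases hu : u ∈ D
      · rw [hF1 t ht, hF1 u hu] at htu
        exact I.inj t ht u hu htu
      · rw [hF1 t ht, hF2 u hu] at htu
        exact absurd htu (hg2 _ t ht)
    · by_cases hu : u ∈ D
      · rw [hF2 t ht, hF1 u hu] at htu
        exact absurd htu.symm (hg2 _ u hu)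
      · rw [hF2 t ht, hF2 u hu] at htu
        exact congrArg Subtype.val (hg htu)
  have hpar : ∀ t, t ≠ r → G.Adj (F (par t)) (F t) := by
    intro t htr
    by_cases ht : t ∈ D
    · obtain ⟨h1, h2⟩ := I.par_mem t ht htr
      rw [hF1 _ h1, hF1 t ht]
      exact hΓ _ _ h2
    · rw [hF1 _ (hD t ht).2.1, hF2 t ht]
      exact hg1 ⟨t, ht⟩
  have hadj : ∀ u v, T.Adj u v → G.Adj (F u) (F v) := by
    intro u v huv
    rcases hp2 u v huv with ⟨h1, rfl⟩ | ⟨h1, rfl⟩
    · exact (hpar u h1).symm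
    · exact hpar v h1
  exact ⟨⟨⟨F, fun {u v} huv => hadj u v huv⟩, hinj⟩⟩

end KS137
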