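import Pool.Agent.H.MP_137e81_co.ls.Root
import Pool.Agent.H.MP_137e81_co.ls.Clean
import Pool.Agent.H.MP_137e81_co.ls.Emb

/-! The theorem for hosts with few full vertices and few friends. -/

set_option autoImplicit false

namespace KS137

open Finset

open Classical in
/-- Proof: `exists_root`: `r`, `D`; `exists_clean` for `s = D + E - 1`, `l = (k + 2 - D - E) / 2`: `P`, `R`,
`v₀`; `Γ v ⊆ (P ∪ R).filter (G.Adj v)` with exactly `l` elements (`v ∈ P`, `v ≠ v₀`), `2 l - 1` elements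
(`v = v₀`), `Γ v ⊆ P.filter (G.Adj v)` with exactly `s` elements (`v ∈ R`), `Γ v = ∅` for the other `v`
(`Finset.exists_subset_card_eq`); all have at most `k + 1` elements.  `embed` with `U = P ∪ R`. -/
theorem core {β V : Type} [Fintype β] [Fintype V] [Nonempty V] {T : SimpleGraph β} (hT : T.IsTree)
    (G : SimpleGraph V) {k : ℕ} (hk : Fintype.card β = k + 1)
    (hG : Fintype.card V ≤ 2 * (univ.filter fun v => k ≤ dg G v).card)
    {b h e m1 m2 B E : ℕ} (hE2 : 2 ≤ E) (hE : b + m2 * e + m1 + m1 * h + B * m2 + 1 ≤ E)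
    (hEk : 12 * E ≤ k)
    (hfull : ∀ W : Finset V, W.card ≤ k + 1 →
      (univ.filter fun v => b ≤ (W.filter fun x => G.Adj v x).card).card ≤ m1)
    (hfr : ∀ (v : V) (W : Finset V), (∀ x ∈ W, G.Adj v x) → W.card ≤ k + 1 →
      (univ.filter fun u => u ≠ v ∧ h < (W.filter fun x => G.Adj u x).card).card ≤ m2)
    (hbig : (univ.filter fun t => e < dg T t).card ≤ B) : T.IsContained G := by
  obtain ⟨r, D, hr2, hD, hdi, hdr⟩ := exists_root hT hk hE2 hEk
  obtain ⟨s, hs⟩ : ∃ s, s = D + E - 1 := ⟨_, rfl⟩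
  obtain ⟨l, hl⟩ : ∃ l, l = (k + 2 - D - E) / 2 := ⟨_, rfl⟩
  obtain ⟨P, R, v₀, hPR, hv₀, hPk, hPl, hRs, hv0l⟩ := exists_clean G (k := k) (l := l) (s := s) hG
    (by omega) (by omega) (by omega)
  -- the chosen neighbourhoods
  have hex : ∀ v : V, ∃ X : Finset V, (∀ x ∈ X, G.Adj v x) ∧ X ⊆ P ∪ R ∧ X.card ≤ k + 1 ∧
      (v ∈ P → l ≤ X.card) ∧ (v ∈ R → v ∉ P → s ≤ X.card) ∧ (v = v₀ → 2 * l ≤ X.card + 1) := by
    intro v
    by_cases h0 : v = v₀
    · subst h0
      obtain ⟨X, hX, hXc⟩ := Finset.exists_subset_card_eq (s := (P ∪ R).filter fun x => G.Adj v x)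
        (n := 2 * l - 1) (by omega)
      exact ⟨X, fun x hx => (Finset.mem_filter.1 (hX hx)).2,
        fun x hx => (Finset.mem_filter.1 (hX hx)).1, by omega, fun _ => by omega,
        fun _ hn => absurd hv₀ hn, fun _ => by omega⟩
    by_cases hP : v ∈ P
    · obtain ⟨X, hX, hXc⟩ := Finset.exists_subset_card_eq (hPl v hP)
      exact ⟨X, fun x hx => (Finset.mem_filter.1 (hX hx)).2,
        fun x hx => (Finset.mem_filter.1 (hX hx)).1, by omega, fun _ => hXc.ge,
        fun _ hn => absurd hP hn, fun h => absurd h h0⟩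
    by_cases hR : v ∈ R
    · obtain ⟨X, hX, hXc⟩ := Finset.exists_subset_card_eq (hRs v hR)
      exact ⟨X, fun x hx => (Finset.mem_filter.1 (hX hx)).2,
        fun x hx => Finset.mem_union_left _ (Finset.mem_filter.1 (hX hx)).1, by omega,
        fun h => absurd h hP, fun _ _ => hXc.ge, fun h => absurd h h0⟩
    · exact ⟨∅, by simp, by simp, by simp, fun h => absurd h hP, fun h => absurd h hR,
        fun h => absurd h h0⟩
  choose Γ hΓ hΓU hΓk hΓP hΓR hΓ0 using hex
  refine embed hT G hk (P ∪ R) P hPk Γ hΓ (fun v _ => hΓU v) hr2 hv₀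
    (Finset.mem_union_left _ hv₀) (b := b) (h := h) (e := e) (m1 := m1) (m2 := m2) (B := B) (E := E)
    hE ?_ ?_ hbig ?_ ?_ ?_
  · intro W hW
    refine le_trans (Finset.card_le_card fun v hv => ?_) (hfull W hW)
    rw [Finset.mem_filter] at hv ⊢
    refine ⟨hv.1, hv.2.trans (Finset.card_le_card fun x hx => ?_)⟩
    rw [Finset.mem_inter] at hx
    exact Finset.mem_filter.2 ⟨hx.2, hΓ v x hx.1⟩
  · intro v
    refine le_trans (Finset.card_le_card fun u hu => ?_) (hfr v (Γ v) (hΓ v) (hΓk v))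
    rw [Finset.mem_filter] at hu ⊢
    refine ⟨hu.1, hu.2.1, hu.2.2.trans_le (Finset.card_le_card fun x hx => ?_)⟩
    rw [Finset.mem_inter] at hx
    exact Finset.mem_filter.2 ⟨hx.2, hΓ u x hx.1⟩
  · intro v hv hvP t ht
    rcases Finset.mem_union.1 hv with h1 | h1
    · exact absurd h1 hvP
    · have h2 := hΓR v h1 hvP
      have h3 := hD t ht
      omega
  · intro v _ hvP t ht
    have h2 := hΓP v hvP
    have h3 := hdi t ht
    omega
  · have h2 := hΓ0 v₀ rfl
    omega

end KS137
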