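import Pool.Agent.H.MP_137e81_co.Basic

/-! Degrees. -/

set_option autoImplicit false

namespace KS137

open Finset

open Classical in
/-- the number of neighbours of `t` -/
noncomputable def dg {β : Type} [Fintype β] (T : SimpleGraph β) (t : β) : ℕ :=
  (univ.filter fun u => T.Adj t u).card

open Classical in
/-- the number of the neighbours of `t` which are not leaves -/
noncomputable def di {β : Type} [Fintype β] (T : SimpleGraph β) (t : β) : ℕ :=
  (univ.filter fun u => T.Adj t u ∧ 2 ≤ dg T u).card

end KS137
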