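import Pool.Agent.H.MP_137e81_co.ls.Ord
import Pool.Agent.H.MP_137e81_co.ls.Emb

/-! The embedding lemma, second version. -/

set_option autoImplicit false

namespace KS137

open Finset

open Classical in
/-- the invariants of a partial embedding `f` of the set `D` of the vertices `t` with `rk t < n` which are
not postponed -/
structure Inv2 {β V : Type} [Fintype β] (T : SimpleGraph β) (par : β → β) (r : β) (Z : Finset β)
    (rk : β → ℕ) (N : ℕ) (P U₀ U₁ : Finset V) (C₀ C₁ Γ : V → Finset V) (lab : β → Prop) (v₀ : V)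
    (b h : ℕ) (n : ℕ) (D : Finset β) (f : β → V) : Prop where
  root : r ∈ D
  froot : f r = v₀
  lt : ∀ t ∈ D, rk t < n
  all : ∀ t, rk t < n → t ∉ D → t ≠ r ∧ dg T t = 1 ∧ par t ∈ D ∧ f (par t) ∈ P
  mem0 : ∀ t ∈ D, f t ∈ U₀
  mem1 : ∀ t ∈ D, lab t → f t ∈ U₁
  parD : ∀ t ∈ D, t ≠ r → par t ∈ D
  par0 : ∀ t ∈ D, t ≠ r → ¬ lab t → f t ∈ C₀ (f (par t))
  par1 : ∀ t ∈ D, t ≠ r → lab t → f t ∈ C₁ (f (par t))
  inj : ∀ t ∈ D, ∀ u ∈ D, f t = f u → t = u
  leaf : ∀ t ∈ D, t ≠ r → dg T t = 1 → f (par t) ∉ P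
  few : ∀ y ∈ D, (Γ (f y) ∩ D.image f).card ≤ b + (D.filter fun u => rk y < rk u).card
  seed : ∀ w ∈ D, w ∈ Z → (D.filter fun t => f t ∈ Γ (f w) ∧ ¬ T.Adj w t ∧
    ¬ (rk w < rk t ∧ rk t < rk w + N)).card ≤ b
  nofr : ∀ w ∈ D, w ∈ Z → ∀ u ∈ D, rk w < rk u → ¬ Fr Γ h (f u) (f w)

section

variable {β V : Type} [Fintype β] [Fintype V] {T : SimpleGraph β} {par : β → β} {r : β}
  {Z : Finset β} {rk sub : β → ℕ} {N : ℕ} {P U₀ U₁ : Finset V} {C₀ C₁ Γ : V → Finset V}
  {lab : β → Prop} {v₀ : V} {b h n : ℕ} {D : Finset β} {f : β → V} {G : SimpleGraph V}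

open Classical in
/-- the number of the elements of `D` with ranks in an interval -/
lemma Emb2_rk (hinj : Function.Injective rk) (D : Finset β) (x y : ℕ) :
    (D.filter fun u => x < rk u ∧ rk u < y).card ≤ y - x - 1 := by
  have h1 : ((D.filter fun u => x < rk u ∧ rk u < y).image rk).card ≤ (Finset.Ioo x y).card := by
    refine Finset.card_le_card ?_
    intro z hz
    obtain ⟨u, hu, rfl⟩ := Finset.mem_image.1 hz
    exact Finset.mem_Ioo.2 (Finset.mem_filter.1 hu).2
  rw [Finset.card_image_of_injective _ hinj, Nat.card_Ioo] at h1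
  exact h1

open Classical in
/-- the used elements of a candidate set `C ⊆ Γ (f y)` -/
lemma Emb2_used (O : Ord T par r Z rk sub N)
    (I : Inv2 T par r Z rk N P U₀ U₁ C₀ C₁ Γ lab v₀ b h n D f) {t y : β} (htn : rk t = n)
    (htr : t ≠ r) (hty : par t = y) (hy : y ∈ D) {C : Finset V} (hC : C ⊆ Γ (f y)) :
    (C ∩ D.image f).card ≤ (D.filter fun u => T.Adj y u ∧ f u ∈ C).card + b + N := by
  by_cases hyZ : y ∈ Z
  · have h1 : C ∩ D.image f ⊆
        ((D.filter fun u => T.Adj y u ∧ f u ∈ C) ∪ (D.filter fun t => f t ∈ Γ (f y) ∧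
          ¬ T.Adj y t ∧ ¬ (rk y < rk t ∧ rk t < rk y + N)) ∪
          (D.filter fun u => rk y < rk u ∧ rk u < rk y + N)).image f := by
      intro x hx
      rw [Finset.mem_inter, Finset.mem_image] at hx
      obtain ⟨hx1, u, hu, rfl⟩ := hx
      refine Finset.mem_image_of_mem f ?_
      by_cases h2 : T.Adj y u
      · exact Finset.mem_union_left _ (Finset.mem_union_left _
          (Finset.mem_filter.2 ⟨hu, h2, hx1⟩))
      by_cases h3 : rk y < rk u ∧ rk u < rk y + N
      · exact Finset.mem_union_right _ (Finset.mem_filter.2 ⟨hu, h3⟩)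
      · exact Finset.mem_union_left _ (Finset.mem_union_right _
          (Finset.mem_filter.2 ⟨hu, hC hx1, h2, h3⟩))
    have h2 := I.seed y hy hyZ
    have h3 := Emb2_rk O.inj D (rk y) (rk y + N)
    calc (C ∩ D.image f).card ≤ _ := Finset.card_le_card h1
      _ ≤ _ := Finset.card_image_le
      _ ≤ _ := Finset.card_union_le _ _
      _ ≤ _ := Nat.add_le_add (Finset.card_union_le _ _) h3
      _ ≤ _ := by omega
  · have h1 := I.few y hy
    have h2 : (C ∩ D.image f).card ≤ (Γ (f y) ∩ D.image f).card :=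
      Finset.card_le_card (Finset.inter_subset_inter_right hC)
    have h3 : (D.filter fun u => rk y < rk u).card ≤ N := by
      have h4 := Emb2_rk O.inj D (rk y) n
      have h5 : (D.filter fun u => rk y < rk u) = D.filter fun u => rk y < rk u ∧ rk u < n := by
        refine Finset.filter_congr fun u hu => ?_
        exact ⟨fun h6 => ⟨h6, I.lt u hu⟩, fun h6 => h6.1⟩
      rw [h5]
      have h6 := O.short t htr (by rw [hty]; exact hyZ)
      rw [hty, htn] at h6
      omega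
    omega

open Classical in
/-- the number of the placed neighbours in the candidate set -/
lemma Emb2_cap (O : Ord T par r Z rk sub N)
    (I : Inv2 T par r Z rk N P U₀ U₁ C₀ C₁ Γ lab v₀ b h n D f) (hr : 2 ≤ dg T r)
    (_hC₀ : ∀ v, C₀ v ⊆ Γ v) (_hC₁ : ∀ v, C₁ v ⊆ Γ v)
    (hdis : ∀ v, Disjoint (C₀ v) (C₁ v)) (_hlr : lab r) (hlab : ∀ t, t ≠ r → lab t → lab (par t))
    {q E : ℕ}
    (hq : ∀ y, lab y → (univ.filter fun u => T.Adj y u ∧ lab u).card ≤ q)
    (h0R : ∀ v ∈ U₀, v ∉ P → ∀ t, ¬ lab t → dg T t + E ≤ (C₀ v).card + 1)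
    (h0P : ∀ v ∈ U₀, v ∈ P → ∀ t, ¬ lab t → di T t + E ≤ (C₀ v).card + 1)
    (h1 : ∀ v ∈ U₁, v ∈ P → ∀ t, lab t → di T t + E ≤ (C₀ v).card + 1)
    (h1R : ∀ v ∈ U₁, v ∉ P → ∀ t, lab t → dg T t + E ≤ (C₀ v).card + 1)
    (h11 : ∀ v ∈ U₁, ∀ t, t ≠ r → lab t → q + E ≤ (C₁ v).card + 1) {t y : β} (htn : rk t = n)
    (htr : t ≠ r) (hty : par t = y) (hy : y ∈ D) (hpost : ¬ (dg T t = 1 ∧ f y ∈ P)) :
    ∃ C : Finset V, C = (if lab t then C₁ (f y) else C₀ (f y)) ∧
      (D.filter fun u => T.Adj y u ∧ f u ∈ C).card + E ≤ C.card := by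
  have ht : t ∉ D := fun h2 => absurd (I.lt t h2) (by omega)
  have hadj : T.Adj y t := by
    rw [← hty]
    exact (O.par_adj t htr).symm
  by_cases hl : lab t
  · have hly : lab y := by
      rw [← hty]
      exact hlab t htr hl
    refine ⟨C₁ (f y), (if_pos hl).symm, ?_⟩
    have h2 : (D.filter fun u => T.Adj y u ∧ f u ∈ C₁ (f y)).card + 1 ≤ q := by
      rw [← Finset.card_insert_of_notMem (a := t) (fun h2 => ht (Finset.mem_filter.1 h2).1)]
      refine le_trans (Finset.card_le_card ?_) (hq y hly)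
      intro u hu
      rw [Finset.mem_insert] at hu
      refine Finset.mem_filter.2 ⟨Finset.mem_univ _, ?_⟩
      rcases hu with rfl | hu
      · exact ⟨hadj, hl⟩
      · obtain ⟨huD, hua, huC⟩ := Finset.mem_filter.1 hu
        refine ⟨hua, ?_⟩
        rcases O.adj_par _ _ hua with ⟨h2, h3⟩ | ⟨h2, h3⟩
        · rw [← h3]
          exact hlab y h2 hly
        · by_contra h4
          have h5 := I.par0 u huD h2 h4
          rw [h3] at h5
          exact Finset.disjoint_left.1 (hdis (f y)) h5 huC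
    have h3 := h11 (f y) (I.mem1 y hy hly) t htr hl
    omega
  · refine ⟨C₀ (f y), (if_neg hl).symm, ?_⟩
    by_cases hv : f y ∈ P
    · have h2 : (D.filter fun u => T.Adj y u ∧ f u ∈ C₀ (f y)).card + 1 ≤ di T y := by
        rw [← Finset.card_insert_of_notMem (a := t) (fun h2 => ht (Finset.mem_filter.1 h2).1)]
        unfold di
        refine Finset.card_le_card ?_
        intro u hu
        rw [Finset.mem_insert] at hu
        refine Finset.mem_filter.2 ⟨Finset.mem_univ _, ?_⟩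
        rcases hu with rfl | hu
        · refine ⟨hadj, ?_⟩
          have h2 : dg T u ≠ 1 := fun h3 => hpost ⟨h3, hv⟩
          have h3 := one_le_dg hadj.symm
          omega
        · obtain ⟨huD, hua, -⟩ := Finset.mem_filter.1 hu
          refine ⟨hua, ?_⟩
          rcases O.adj_par _ _ hua with ⟨h2, h3⟩ | ⟨h2, h3⟩
          · by_cases hur : u = r
            · rw [hur]
              exact hr
            · refine two_le_dg hua.symm (O.par_adj u hur) ?_
              intro h4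
              have h5 := O.rk_par u hur
              have h6 := O.rk_par _ h2
              rw [h3] at h6
              rw [← h4] at h5
              omega
          · have h4 : dg T u ≠ 1 := by
              intro h5
              have h6 := I.leaf u huD h2 h5
              rw [h3] at h6
              exact h6 hv
            have h5 := one_le_dg hua.symm
            omega
      have h3 : di T y + E ≤ (C₀ (f y)).card + 1 := by
        by_cases hly : lab y
        · exact h1 _ (I.mem1 y hy hly) hv y hly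
        · exact h0P _ (I.mem0 y hy) hv y hly
      omega
    · have h2 : (D.filter fun u => T.Adj y u ∧ f u ∈ C₀ (f y)).card + 1 ≤ dg T y := by
        rw [← Finset.card_insert_of_notMem (a := t) (fun h2 => ht (Finset.mem_filter.1 h2).1)]
        unfold dg
        refine Finset.card_le_card ?_
        intro u hu
        rw [Finset.mem_insert] at hu
        refine Finset.mem_filter.2 ⟨Finset.mem_univ _, ?_⟩
        rcases hu with rfl | hu
        · exact hadj
        · exact (Finset.mem_filter.1 hu).2.1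
      have h3 : dg T y + E ≤ (C₀ (f y)).card + 1 := by
        by_cases hly : lab y
        · exact h1R _ (I.mem1 y hy hly) hv y hly
        · exact h0R _ (I.mem0 y hy) hv y hly
      omega

open Classical in
/-- a good place for the child `t` of `y` in the candidate set `C` -/
lemma Emb2_choice (O : Ord T par r Z rk sub N)
    (I : Inv2 T par r Z rk N P U₀ U₁ C₀ C₁ Γ lab v₀ b h n D f) {k m g g2 E : ℕ}
    (hk : Fintype.card β = k + 1) (hm : Z.card ≤ m)
    (hE : b + N + g + m * h + m * g2 + 1 ≤ E)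
    (hfull : ∀ W : Finset V, W.card ≤ k + 1 →
      (univ.filter fun v => b ≤ (Γ v ∩ W).card).card ≤ g)
    (hfr : ∀ v, (univ.filter fun u => u ≠ v ∧ h < (Γ u ∩ Γ v).card).card ≤ g2)
    {t y : β} (htn : rk t = n) (htr : t ≠ r) (hty : par t = y) (hy : y ∈ D) {C : Finset V}
    (hC : C ⊆ Γ (f y)) (hcap : (D.filter fun u => T.Adj y u ∧ f u ∈ C).card + E ≤ C.card) :
    ∃ x ∈ C, x ∉ D.image f ∧ (Γ x ∩ D.image f).card < b ∧
      (∀ w ∈ D, w ∈ Z → w ≠ y → ¬ Fr Γ h (f y) (f w) → b ≤ (Γ (f w) ∩ D.image f).card →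
        x ∉ Γ (f w)) ∧ ∀ w ∈ D, w ∈ Z → ¬ Fr Γ h x (f w) := by
  have hW : (D.image f).card ≤ k + 1 := by
    refine Finset.card_image_le.trans ?_
    rw [← hk]
    exact Finset.card_le_univ _
  have h1 := Emb2_used O I htn htr hty hy hC
  have h3 := hfull _ hW
  obtain ⟨F, hF⟩ : ∃ F, F = univ.filter fun v => b ≤ (Γ v ∩ D.image f).card := ⟨_, rfl⟩
  rw [← hF] at h3
  have hDZ : (D.filter fun w => w ∈ Z).card ≤ m := by
    refine (Finset.card_le_card ?_).trans hm
    intro w hw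
    exact (Finset.mem_filter.1 hw).2
  obtain ⟨B1, hB1⟩ : ∃ B1, B1 = ((D.filter fun w => w ∈ Z).filter fun w => w ≠ y ∧
      ¬ Fr Γ h (f y) (f w)).biUnion fun w => Γ (f y) ∩ Γ (f w) := ⟨_, rfl⟩
  have h4 : B1.card ≤ m * h := by
    rw [hB1]
    refine (Finset.card_biUnion_le_card_mul _ _ h ?_).trans (Nat.mul_le_mul_right h
      ((Finset.card_le_card (Finset.filter_subset _ _)).trans hDZ))
    intro w hw
    obtain ⟨hw1, hw2, hw3⟩ := Finset.mem_filter.1 hw
    by_contra h7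
    refine hw3 ⟨fun h8 => hw2 ?_, not_le.1 h7⟩
    exact (I.inj y hy w (Finset.mem_filter.1 hw1).1 h8).symm
  obtain ⟨B2, hB2⟩ : ∃ B2, B2 = (D.filter fun w => w ∈ Z).biUnion
      fun w => univ.filter fun u => u ≠ f w ∧ h < (Γ u ∩ Γ (f w)).card := ⟨_, rfl⟩
  have h5 : B2.card ≤ m * g2 := by
    rw [hB2]
    exact (Finset.card_biUnion_le_card_mul _ _ g2 fun w _ => hfr (f w)).trans
      (Nat.mul_le_mul_right g2 hDZ)
  obtain ⟨x, hx, hxn⟩ : ∃ x ∈ C, x ∉ (C ∩ D.image f) ∪ F ∪ B1 ∪ B2 := by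
    refine Finset.exists_mem_notMem_of_card_lt_card ?_
    calc ((C ∩ D.image f) ∪ F ∪ B1 ∪ B2).card
        ≤ ((C ∩ D.image f) ∪ F ∪ B1).card + B2.card := Finset.card_union_le _ _
      _ ≤ ((C ∩ D.image f) ∪ F).card + B1.card + B2.card :=
        Nat.add_le_add_right (Finset.card_union_le _ _) _
      _ ≤ (C ∩ D.image f).card + F.card + B1.card + B2.card :=
        Nat.add_le_add_right (Nat.add_le_add_right (Finset.card_union_le _ _) _) _
      _ < C.card := by omega
  simp only [Finset.mem_union, not_or] at hxn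
  obtain ⟨⟨⟨hx1, hx2⟩, hx3⟩, hx4⟩ := hxn
  refine ⟨x, hx, fun h6 => hx1 (Finset.mem_inter.2 ⟨hx, h6⟩), ?_, ?_, ?_⟩
  · by_contra h6
    refine hx2 ?_
    rw [hF]
    exact Finset.mem_filter.2 ⟨Finset.mem_univ _, not_lt.1 h6⟩
  · intro w hw hwZ hwy hwf _ hxw
    refine hx3 ?_
    rw [hB1]
    exact Finset.mem_biUnion.2 ⟨w, Finset.mem_filter.2 ⟨Finset.mem_filter.2 ⟨hw, hwZ⟩, hwy, hwf⟩,
      Finset.mem_inter.2 ⟨hC hx, hxw⟩⟩
  · intro w hw hwZ hwf
    refine hx4 ?_
    rw [hB2]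
    exact Finset.mem_biUnion.2 ⟨w, Finset.mem_filter.2 ⟨hw, hwZ⟩,
      Finset.mem_filter.2 ⟨Finset.mem_univ _, hwf⟩⟩

open Classical in
/-- the parent of a vertex of rank `n` is placed -/
lemma Emb2_parD (O : Ord T par r Z rk sub N)
    (I : Inv2 T par r Z rk N P U₀ U₁ C₀ C₁ Γ lab v₀ b h n D f) {t : β} (htn : rk t = n)
    (htr : t ≠ r) : par t ∈ D := by
  by_contra h1
  have h2 := O.rk_par t htr
  obtain ⟨h3, h4, -, -⟩ := I.all (par t) (htn ▸ h2) h1
  have h5 := O.rk_par _ h3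
  have h6 : 2 ≤ dg T (par t) := two_le_dg (O.par_adj t htr).symm (O.par_adj _ h3) (by
    intro h7
    rw [← h7] at h5
    omega)
  omega

open Classical in
/-- the extension of a partial embedding -/
lemma Emb2_ext (O : Ord T par r Z rk sub N)
    (I : Inv2 T par r Z rk N P U₀ U₁ C₀ C₁ Γ lab v₀ b h n D f)
    (hΓ : ∀ v, ∀ x ∈ Γ v, G.Adj v x) (hU : U₁ ⊆ U₀) (hU₀ : ∀ v ∈ U₀, C₀ v ⊆ U₀)
    (hU₁ : ∀ v ∈ U₁, C₁ v ⊆ U₁) (hlab : ∀ t, t ≠ r → lab t → lab (par t))
    {t y : β} (htn : rk t = n) (htr : t ≠ r) (hty : par t = y) (hpt : y ∈ D)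
    (hpost : ¬ (dg T t = 1 ∧ f y ∈ P)) {x : V}
    (hx0 : ¬ lab t → x ∈ C₀ (f y)) (hx01 : lab t → x ∈ C₁ (f y)) (hx1 : x ∉ D.image f)
    (hx2 : (Γ x ∩ D.image f).card < b)
    (hx3 : ∀ w ∈ D, w ∈ Z → w ≠ y → ¬ Fr Γ h (f y) (f w) → b ≤ (Γ (f w) ∩ D.image f).card →
      x ∉ Γ (f w)) (hx4 : ∀ w ∈ D, w ∈ Z → ¬ Fr Γ h x (f w)) :
    Inv2 T par r Z rk N P U₀ U₁ C₀ C₁ Γ lab v₀ b h (n + 1) (insert t D)
      (Function.update f t x) := by
  have ht : t ∉ D := fun h2 => absurd (I.lt t h2) (by omega)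
  have hf : ∀ z ∈ D, Function.update f t x z = f z := by
    intro z hz
    refine Function.update_of_ne ?_ _ _
    rintro rfl
    exact ht hz
  have hft : Function.update f t x t = x := Function.update_self _ _ _
  have hyf : Function.update f t x y = f y := hf y hpt
  have hlt : ∀ z ∈ D, rk z < rk t := by
    intro z hz
    rw [htn]
    exact I.lt z hz
  have himg : (insert t D).image (Function.update f t x) = insert x (D.image f) := by
    rw [Finset.image_insert, hft]
    congr 1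
    exact Finset.image_congr fun z hz => hf z hz
  have hxx : x ∉ Γ x := fun h1 => G.loopless.irrefl x (hΓ x x h1)
  have hcnt : ∀ v, (D.filter fun u => f u ∈ Γ v).card ≤ (Γ v ∩ D.image f).card := by
    intro v
    refine Finset.card_le_card_of_injOn f ?_ ?_
    · intro u hu
      obtain ⟨hu1, hu2⟩ := Finset.mem_filter.1 hu
      exact Finset.mem_coe.2 (Finset.mem_inter.2 ⟨hu2, Finset.mem_image_of_mem f hu1⟩)
    · intro u hu u' hu' huu
      exact I.inj u (Finset.mem_filter.1 hu).1 u' (Finset.mem_filter.1 hu').1 huu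
  have hx1' : lab t → x ∈ U₁ := by
    intro hl
    refine hU₁ _ (I.mem1 y hpt ?_) (hx01 hl)
    rw [← hty]
    exact hlab t htr hl
  have hx0' : x ∈ U₀ := by
    by_cases hl : lab t
    · exact hU (hx1' hl)
    · exact hU₀ _ (I.mem0 y hpt) (hx0 hl)
  refine ⟨Finset.mem_insert_of_mem I.root, ?_, ?_, ?_, ?_, ?_, ?_, ?_, ?_, ?_, ?_, ?_, ?_, ?_⟩
  · rw [hf r I.root, I.froot]
  · intro u hu0
    rcases Finset.mem_insert.1 hu0 with rfl | hu
    · omega
    · have := I.lt u hu
      omega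
  · intro u hun hu
    rw [Finset.mem_insert, not_or] at hu
    have h1 : rk u ≠ n := by
      intro h2
      rw [← htn] at h2
      exact hu.1 (O.inj h2)
    obtain ⟨h2, h3, h4, h5⟩ := I.all u (by omega) hu.2
    rw [hf _ h4]
    exact ⟨h2, h3, Finset.mem_insert_of_mem h4, h5⟩
  · intro u hu0
    rcases Finset.mem_insert.1 hu0 with rfl | hu
    · rw [hft]
      exact hx0'
    · rw [hf u hu]
      exact I.mem0 u hu
  · intro u hu0 hl
    rcases Finset.mem_insert.1 hu0 with rfl | hu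
    · rw [hft]
      exact hx1' hl
    · rw [hf u hu]
      exact I.mem1 u hu hl
  · intro u hu0 hur
    rcases Finset.mem_insert.1 hu0 with rfl | hu
    · rw [hty]
      exact Finset.mem_insert_of_mem hpt
    · exact Finset.mem_insert_of_mem (I.parD u hu hur)
  · intro u hu0 hur hl
    rcases Finset.mem_insert.1 hu0 with rfl | hu
    · rw [hty, hft, hyf]
      exact hx0 hl
    · rw [hf u hu, hf _ (I.parD u hu hur)]
      exact I.par0 u hu hur hl
  · intro u hu0 hur hl
    rcases Finset.mem_insert.1 hu0 with rfl | hu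
    · rw [hty, hft, hyf]
      exact hx01 hl
    · rw [hf u hu, hf _ (I.parD u hu hur)]
      exact I.par1 u hu hur hl
  · intro u hu0 u' hu0' huu
    rcases Finset.mem_insert.1 hu0 with rfl | hu
    · rcases Finset.mem_insert.1 hu0' with rfl | hu'
      · rfl
      · rw [hft, hf u' hu'] at huu
        exact absurd (huu ▸ Finset.mem_image_of_mem f hu') hx1
    · rcases Finset.mem_insert.1 hu0' with rfl | hu'
      · rw [hft, hf u hu] at huu
        exact absurd (huu ▸ Finset.mem_image_of_mem f hu) hx1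
      · rw [hf u hu, hf u' hu'] at huu
        exact I.inj u hu u' hu' huu
  · intro u hu0 hur hu1
    rcases Finset.mem_insert.1 hu0 with rfl | hu
    · rw [hty, hyf]
      exact fun h1 => hpost ⟨hu1, h1⟩
    · rw [hf _ (I.parD u hu hur)]
      exact I.leaf u hu hur hu1
  · intro y' hy0
    rw [himg]
    rcases Finset.mem_insert.1 hy0 with rfl | hy'
    · rw [hft, Finset.inter_insert_of_notMem hxx]
      omega
    · rw [hf y' hy']
      have h1 := I.few y' hy'
      have h2 : ((insert t D).filter fun u => rk y' < rk u) =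
          insert t (D.filter fun u => rk y' < rk u) := by
        rw [Finset.filter_insert, if_pos (hlt y' hy')]
      rw [h2, Finset.card_insert_of_notMem fun h3 => ht (Finset.mem_filter.1 h3).1]
      have h3 : (Γ (f y') ∩ insert x (D.image f)).card ≤ (Γ (f y') ∩ D.image f).card + 1 := by
        refine (Finset.card_le_card (t := insert x (Γ (f y') ∩ D.image f)) ?_).trans
          (Finset.card_insert_le _ _)
        intro z hz
        rw [Finset.mem_inter, Finset.mem_insert] at hz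
        rcases hz.2 with rfl | h4
        · exact Finset.mem_insert_self _ _
        · exact Finset.mem_insert_of_mem (Finset.mem_inter.2 ⟨hz.1, h4⟩)
      omega
  · intro w hw0 hwZ
    rcases Finset.mem_insert.1 hw0 with rfl | hw
    · rw [hft]
      refine le_trans (le_trans (Finset.card_le_card ?_) (hcnt x)) hx2.le
      intro u hu
      obtain ⟨hu1, hu2, -⟩ := Finset.mem_filter.1 hu
      rcases Finset.mem_insert.1 hu1 with rfl | hu1
      · rw [hft] at hu2
        exact absurd hu2 hxx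
      · rw [hf u hu1] at hu2
        exact Finset.mem_filter.2 ⟨hu1, hu2⟩
    · rw [hf w hw]
      by_cases h1 : x ∈ Γ (f w) ∧ ¬ T.Adj w t ∧ ¬ (rk w < rk t ∧ rk t < rk w + N)
      · obtain ⟨h2, h3, h4⟩ := h1
        have h5 : w ≠ y := by
          rintro rfl
          rw [← hty] at h3
          exact h3 (O.par_adj t htr).symm
        have h9 : rk w ≠ rk y := fun h10 => h5 (O.inj h10)
        have h8 : ¬ Fr Γ h (f y) (f w) := by
          by_cases hyZ : y ∈ Z
          · rcases Nat.lt_or_ge (rk w) (rk y) with h10 | h10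
            · exact I.nofr w hw hwZ y hpt h10
            · intro h11
              exact I.nofr y hpt hyZ w hw (by omega) h11.symm
          · have h10 := O.short t htr (by rw [hty]; exact hyZ)
            rw [hty] at h10
            have h11 := hlt w hw
            exact I.nofr w hw hwZ y hpt (by omega)
        have h6 : ¬ b ≤ (Γ (f w) ∩ D.image f).card := fun h7 => hx3 w hw hwZ h5 h8 h7 h2
        have h7 := hcnt (f w)
        refine le_trans (Finset.card_le_card (t := insert t (D.filter fun u => f u ∈ Γ (f w))) ?_)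
          ((Finset.card_insert_le _ _).trans (by omega))
        intro u hu
        obtain ⟨hu1, hu2, -⟩ := Finset.mem_filter.1 hu
        rcases Finset.mem_insert.1 hu1 with rfl | hu1
        · exact Finset.mem_insert_self _ _
        · rw [hf u hu1] at hu2
          exact Finset.mem_insert_of_mem (Finset.mem_filter.2 ⟨hu1, hu2⟩)
      · refine le_trans (Finset.card_le_card ?_) (I.seed w hw hwZ)
        intro u hu
        obtain ⟨hu1, hu2, hu3, hu4⟩ := Finset.mem_filter.1 hu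
        rcases Finset.mem_insert.1 hu1 with rfl | hu1
        · rw [hft] at hu2
          exact absurd ⟨hu2, hu3, hu4⟩ h1
        · rw [hf u hu1] at hu2
          exact Finset.mem_filter.2 ⟨hu1, hu2, hu3, hu4⟩
  · intro w hw0 hwZ u hu0 hwu
    rcases Finset.mem_insert.1 hu0 with rfl | hu
    · rcases Finset.mem_insert.1 hw0 with rfl | hw
      · exact absurd hwu (lt_irrefl _)
      · rw [hft, hf w hw]
        exact hx4 w hw hwZ
    · rcases Finset.mem_insert.1 hw0 with rfl | hw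
      · exact absurd (hlt u hu) (by omega)
      · rw [hf u hu, hf w hw]
        exact I.nofr w hw hwZ u hu hwu

open Classical in
/-- the first `n` steps -/
lemma Emb2_steps (O : Ord T par r Z rk sub N) (hr : 2 ≤ dg T r)
    (hΓ : ∀ v, ∀ x ∈ Γ v, G.Adj v x) (hU : U₁ ⊆ U₀) (hC₀ : ∀ v, C₀ v ⊆ Γ v)
    (hC₁ : ∀ v, C₁ v ⊆ Γ v) (hdis : ∀ v, Disjoint (C₀ v) (C₁ v)) (hU₀ : ∀ v ∈ U₀, C₀ v ⊆ U₀)
    (hU₁ : ∀ v ∈ U₁, C₁ v ⊆ U₁) (hlr : lab r) (hlab : ∀ t, t ≠ r → lab t → lab (par t))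
    (hv₀ : v₀ ∈ U₁) {k m g g2 q E : ℕ} (hk : Fintype.card β = k + 1) (hm : Z.card ≤ m)
    (hE : b + N + g + m * h + m * g2 + 1 ≤ E)
    (hfull : ∀ W : Finset V, W.card ≤ k + 1 →
      (univ.filter fun v => b ≤ (Γ v ∩ W).card).card ≤ g)
    (hfr : ∀ v, (univ.filter fun u => u ≠ v ∧ h < (Γ u ∩ Γ v).card).card ≤ g2)
    (hq : ∀ y, lab y → (univ.filter fun u => T.Adj y u ∧ lab u).card ≤ q)
    (h0R : ∀ v ∈ U₀, v ∉ P → ∀ t, ¬ lab t → dg T t + E ≤ (C₀ v).card + 1)
    (h0P : ∀ v ∈ U₀, v ∈ P → ∀ t, ¬ lab t → di T t + E ≤ (C₀ v).card + 1)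
    (h1 : ∀ v ∈ U₁, v ∈ P → ∀ t, lab t → di T t + E ≤ (C₀ v).card + 1)
    (h1R : ∀ v ∈ U₁, v ∉ P → ∀ t, lab t → dg T t + E ≤ (C₀ v).card + 1)
    (h11 : ∀ v ∈ U₁, ∀ t, t ≠ r → lab t → q + E ≤ (C₁ v).card + 1) (j : ℕ) :
    ∃ (D : Finset β) (f : β → V),
      Inv2 T par r Z rk N P U₀ U₁ C₀ C₁ Γ lab v₀ b h (rk r + 1 + j) D f := by
  induction j with
  | zero =>
    refine ⟨{r}, fun _ => v₀, Finset.mem_singleton_self _, rfl, ?_, ?_, fun t _ => hU hv₀,
      fun t _ _ => hv₀, ?_, ?_, ?_, ?_, ?_, ?_, ?_, ?_⟩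
    · intro t ht
      rw [Finset.mem_singleton.1 ht]
      omega
    · have h2 : ∀ i t, rk t = i → t ≠ r → rk r < rk t := by
        intro i
        induction i using Nat.strong_induction_on with
        | _ i ih =>
          intro t hti htr
          have h3 := O.rk_par t htr
          by_cases h4 : par t = r
          · rw [h4] at h3
            exact h3
          · exact (ih (rk (par t)) (hti ▸ h3) (par t) rfl h4).trans h3
      intro t ht htr
      rw [Finset.mem_singleton] at htr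
      exact absurd (h2 _ t rfl htr) (by omega)
    · intro t ht htr
      exact absurd (Finset.mem_singleton.1 ht) htr
    · intro t ht htr
      exact absurd (Finset.mem_singleton.1 ht) htr
    · intro t ht htr
      exact absurd (Finset.mem_singleton.1 ht) htr
    · intro t ht u hu _
      rw [Finset.mem_singleton.1 ht, Finset.mem_singleton.1 hu]
    · intro t ht htr
      exact absurd (Finset.mem_singleton.1 ht) htr
    · intro y _
      have h2 : Γ v₀ ∩ ({r} : Finset β).image (fun _ => v₀) = ∅ := by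
        rw [Finset.image_singleton, Finset.eq_empty_iff_forall_notMem]
        intro x hx
        rw [Finset.mem_inter, Finset.mem_singleton] at hx
        obtain ⟨h3, rfl⟩ := hx
        exact G.loopless.irrefl _ (hΓ _ _ h3)
      rw [h2]
      exact Nat.zero_le _
    · intro w _ _
      refine le_trans (le_of_eq ?_) (Nat.zero_le b)
      rw [Finset.card_eq_zero, Finset.filter_eq_empty_iff]
      rintro t - ⟨h2, -⟩
      exact G.loopless.irrefl v₀ (hΓ _ _ h2)
    · intro w _ _ u _ _ h2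
      exact h2.1 rfl
  | succ j ih =>
    obtain ⟨D, f, I⟩ := ih
    by_cases hex : ∃ t, rk t = rk r + 1 + j
    · obtain ⟨t, htn⟩ := hex
      have htr : t ≠ r := by
        rintro rfl
        omega
      have hpt := Emb2_parD O I htn htr
      by_cases hpost : dg T t = 1 ∧ f (par t) ∈ P
      · refine ⟨D, f, I.root, I.froot, fun u hu => (I.lt u hu).trans (by omega), ?_, I.mem0,
          I.mem1, I.parD, I.par0, I.par1, I.inj, I.leaf, I.few, I.seed, I.nofr⟩
        intro u hun hu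
        by_cases h2 : rk u = rk r + 1 + j
        · rw [← htn] at h2
          rw [O.inj h2]
          exact ⟨htr, hpost.1, hpt, hpost.2⟩
        · exact I.all u (by omega) hu
      · obtain ⟨C, hCdef, hcap⟩ := Emb2_cap O I hr hC₀ hC₁ hdis hlr hlab hq h0R h0P h1 h1R h11
          htn htr rfl hpt hpost
        have hC : C ⊆ Γ (f (par t)) := by
          rw [hCdef]
          split_ifs
          · exact hC₁ _
          · exact hC₀ _
        obtain ⟨x, hx, hx1, hx2, hx3, hx4⟩ := Emb2_choice O I hk hm hE hfull hfr htn htr rfl hpt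
          hC hcap
        refine ⟨insert t D, Function.update f t x, ?_⟩
        refine Emb2_ext O I hΓ hU hU₀ hU₁ hlab htn htr rfl hpt hpost ?_ ?_ hx1 hx2 hx3 hx4
        · intro hl
          rw [hCdef, if_neg hl] at hx
          exact hx
        · intro hl
          rw [hCdef, if_pos hl] at hx
          exact hx
    · refine ⟨D, f, I.root, I.froot, fun u hu => (I.lt u hu).trans (by omega), ?_, I.mem0,
        I.mem1, I.parD, I.par0, I.par1, I.inj, I.leaf, I.few, I.seed, I.nofr⟩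
      intro u hun hu
      have h2 : rk u ≠ rk r + 1 + j := fun h3 => hex ⟨u, h3⟩
      exact I.all u (by omega) hu

end

open Classical in
/-- The embedding lemma for hosts with few full vertices and few friends. -/
theorem embed2g {β V : Type} [Fintype β] [Fintype V] {T : SimpleGraph β} (G : SimpleGraph V) {k : ℕ}
    (hk : Fintype.card β = k + 1) {par : β → β} {r : β} {Z : Finset β} {rk sub : β → ℕ} {N : ℕ}
    (O : Ord T par r Z rk sub N) (hr : 2 ≤ dg T r) (P U₀ U₁ : Finset V)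
    (hPd : ∀ v ∈ P, k ≤ dg G v) (hU : U₁ ⊆ U₀) (C₀ C₁ Γ : V → Finset V)
    (hΓ : ∀ v, ∀ x ∈ Γ v, G.Adj v x) (hC₀ : ∀ v, C₀ v ⊆ Γ v) (hC₁ : ∀ v, C₁ v ⊆ Γ v)
    (hdis : ∀ v, Disjoint (C₀ v) (C₁ v)) (hU₀ : ∀ v ∈ U₀, C₀ v ⊆ U₀) (hU₁ : ∀ v ∈ U₁, C₁ v ⊆ U₁)
    (lab : β → Prop) (hlr : lab r) (hlab : ∀ t, t ≠ r → lab t → lab (par t)) {v₀ : V}
    (hv₀ : v₀ ∈ U₁) {b g h g2 m q E : ℕ} (hm : Z.card ≤ m)
    (hE : b + N + g + m * h + m * g2 + 1 ≤ E)
    (hfull : ∀ W : Finset V, W.card ≤ k + 1 →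
      (univ.filter fun v => b ≤ (Γ v ∩ W).card).card ≤ g)
    (hfr : ∀ v, (univ.filter fun u => u ≠ v ∧ h < (Γ u ∩ Γ v).card).card ≤ g2)
    (hq : ∀ y, lab y → (univ.filter fun u => T.Adj y u ∧ lab u).card ≤ q)
    (h0R : ∀ v ∈ U₀, v ∉ P → ∀ t, ¬ lab t → dg T t + E ≤ (C₀ v).card + 1)
    (h0P : ∀ v ∈ U₀, v ∈ P → ∀ t, ¬ lab t → di T t + E ≤ (C₀ v).card + 1)
    (h1 : ∀ v ∈ U₁, v ∈ P → ∀ t, lab t → di T t + E ≤ (C₀ v).card + 1)
    (h1R : ∀ v ∈ U₁, v ∉ P → ∀ t, lab t → dg T t + E ≤ (C₀ v).card + 1)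
    (h11 : ∀ v ∈ U₁, ∀ t, t ≠ r → lab t → q + E ≤ (C₁ v).card + 1) : T.IsContained G := by
  obtain ⟨D, f, I⟩ := Emb2_steps O hr hΓ hU hC₀ hC₁ hdis hU₀ hU₁ hlr hlab hv₀ hk hm hE hfull
    hfr hq h0R h0P h1 h1R h11 (univ.sup rk)
  have hD : ∀ t, t ∉ D → t ≠ r ∧ par t ∈ D ∧ f (par t) ∈ P := by
    intro t ht
    have h2 : rk t ≤ univ.sup rk := Finset.le_sup (Finset.mem_univ t)
    obtain ⟨h3, -, h4⟩ := I.all t (by omega) ht
    exact ⟨h3, h4⟩
  have hpar2 : ∀ t ∈ D, t ≠ r → G.Adj (f (par t)) (f t) := by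
    intro t ht htr
    by_cases hl : lab t
    · exact hΓ _ _ (hC₁ _ (I.par1 t ht htr hl))
    · exact hΓ _ _ (hC₀ _ (I.par0 t ht htr hl))
  -- the postponed leaves
  obtain ⟨g', hg, hgm⟩ := exists_sdr (Z := {t // t ∉ D})
    (fun t => (univ.filter fun x => G.Adj (f (par t)) x) \ (D.image f).erase (f (par t))) (by
      intro t
      obtain ⟨h1, h2, h3⟩ := hD t t.2
      have h4 := hPd _ h3
      unfold dg at h4
      have h5 : ((D.image f).erase (f (par t))).card + 1 ≤ D.card := by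
        rw [Finset.card_erase_add_one (Finset.mem_image_of_mem f h2)]
        exact Finset.card_image_le
      have h6 := Finset.le_card_sdiff ((D.image f).erase (f (par t)))
        (univ.filter fun x => G.Adj (f (par t)) x)
      have h7 : Fintype.card {t // t ∉ D} + D.card = k + 1 := by
        rw [Fintype.card_subtype_compl, Fintype.card_coe, hk]
        have := Finset.card_le_univ D
        omega
      omega)
  have hg1 : ∀ t : {t // t ∉ D}, G.Adj (f (par t)) (g' t) := by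
    intro t
    have h1 := Finset.mem_sdiff.1 (hgm t)
    exact (Finset.mem_filter.1 h1.1).2
  have hg2 : ∀ t : {t // t ∉ D}, ∀ u ∈ D, f u ≠ g' t := by
    intro t u hu h1
    have h2 := Finset.mem_sdiff.1 (hgm t)
    refine h2.2 (Finset.mem_erase.2 ⟨?_, h1 ▸ Finset.mem_image_of_mem f hu⟩)
    intro h3
    have h4 := hg1 t
    rw [h3] at h4
    exact G.loopless.irrefl _ h4
  obtain ⟨F, hF⟩ : ∃ F : β → V, F = fun t => if ht : t ∈ D then f t else g' ⟨t, ht⟩ := ⟨_, rfl⟩
  have hF1 : ∀ t, t ∈ D → F t = f t := by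
    intro t ht
    rw [hF]
    exact dif_pos ht
  have hF2 : ∀ t (ht : t ∉ D), F t = g' ⟨t, ht⟩ := by
    intro t ht
    rw [hF]
    exact dif_neg ht
  have hinj : Function.Injective F := by
    intro t u htu
    by_cases ht : t ∈ D
    · by_cases hu : u ∈ D
      · rw [hF1 t ht, hF1 u hu] at htu
        exact I.inj t ht u hu htu
      · rw [hF1 t ht, hF2 u hu] at htu
        exact absurd htu (hg2 _ t ht)
    · by_cases hu : u ∈ D
      · rw [hF2 t ht, hF1 u hu] at htu
        exact absurd htu.symm (hg2 _ u hu)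
      · rw [hF2 t ht, hF2 u hu] at htu
        exact congrArg Subtype.val (hg htu)
  have hpar : ∀ t, t ≠ r → G.Adj (F (par t)) (F t) := by
    intro t htr
    by_cases ht : t ∈ D
    · rw [hF1 _ (I.parD t ht htr), hF1 t ht]
      exact hpar2 t ht htr
    · rw [hF1 _ (hD t ht).2.1, hF2 t ht]
      exact hg1 ⟨t, ht⟩
  have hadj : ∀ u v, T.Adj u v → G.Adj (F u) (F v) := by
    intro u v huv
    rcases O.adj_par u v huv with ⟨h1, rfl⟩ | ⟨h1, rfl⟩
    · exact (hpar u h1).symm
    · exact hpar v h1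
  exact ⟨⟨⟨F, fun {u v} huv => hadj u v huv⟩, hinj⟩⟩

open Classical in
/-- The embedding lemma for hosts with few full vertices and few friends, `U₁ ⊆ P`. -/
theorem embed2 {β V : Type} [Fintype β] [Fintype V] {T : SimpleGraph β} (G : SimpleGraph V) {k : ℕ}
    (hk : Fintype.card β = k + 1) {par : β → β} {r : β} {Z : Finset β} {rk sub : β → ℕ} {N : ℕ}
    (O : Ord T par r Z rk sub N) (hr : 2 ≤ dg T r) (P U₀ U₁ : Finset V)
    (hPd : ∀ v ∈ P, k ≤ dg G v) (hU : U₁ ⊆ U₀) (hUP : U₁ ⊆ P) (C₀ C₁ Γ : V → Finset V)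
    (hΓ : ∀ v, ∀ x ∈ Γ v, G.Adj v x) (hC₀ : ∀ v, C₀ v ⊆ Γ v) (hC₁ : ∀ v, C₁ v ⊆ Γ v)
    (hdis : ∀ v, Disjoint (C₀ v) (C₁ v)) (hU₀ : ∀ v ∈ U₀, C₀ v ⊆ U₀) (hU₁ : ∀ v ∈ U₁, C₁ v ⊆ U₁)
    (lab : β → Prop) (hlr : lab r) (hlab : ∀ t, t ≠ r → lab t → lab (par t)) {v₀ : V}
    (hv₀ : v₀ ∈ U₁) {b g h g2 m q E : ℕ} (hm : Z.card ≤ m)
    (hE : b + N + g + m * h + m * g2 + 1 ≤ E)
    (hfull : ∀ W : Finset V, W.card ≤ k + 1 →
      (univ.filter fun v => b ≤ (Γ v ∩ W).card).card ≤ g)
    (hfr : ∀ v, (univ.filter fun u => u ≠ v ∧ h < (Γ u ∩ Γ v).card).card ≤ g2)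
    (hq : ∀ y, lab y → (univ.filter fun u => T.Adj y u ∧ lab u).card ≤ q)
    (h0R : ∀ v ∈ U₀, v ∉ P → ∀ t, ¬ lab t → dg T t + E ≤ (C₀ v).card + 1)
    (h0P : ∀ v ∈ U₀, v ∈ P → ∀ t, ¬ lab t → di T t + E ≤ (C₀ v).card + 1)
    (h1 : ∀ v ∈ U₁, ∀ t, lab t → di T t + E ≤ (C₀ v).card + 1)
    (h11 : ∀ v ∈ U₁, ∀ t, t ≠ r → lab t → q + E ≤ (C₁ v).card + 1) : T.IsContained G :=
  embed2g G hk O hr P U₀ U₁ hPd hU C₀ C₁ Γ hΓ hC₀ hC₁ hdis hU₀ hU₁ lab hlr hlab hv₀ hm hE hfull
    hfr hq h0R h0P (fun v hv _ => h1 v hv) (fun _ hv hvP => absurd (hUP hv) hvP) h11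

end KS137
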