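import Pool.Agent.H.MP_137e81_co.ls.HostA
import Pool.Agent.H.MP_137e81_co.ls.HostB

/-! Embeddings with prescribed hosts. -/

set_option autoImplicit false

namespace KS137

open Finset

open Classical in
/-- Proof: `greedy_host` for `N = univ.filter (2 ≤ dg t ∨ (t ≠ r ∧ ¬ Q (par t)))` (closed under parents: the
parent of every `t ≠ r` has degree at least 2, `two_le_dg`), then `finish` for `D = N`: for `t ∉ N` we have
`t ≠ r`, `Q (par t)`, `par t ∈ N`. -/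
theorem host_embed {β V : Type} [Fintype β] [Fintype V] {T : SimpleGraph β} (G : SimpleGraph V)
    {k : ℕ} (hk : Fintype.card β = k + 1) {par : β → β} {dep : β → ℕ} {r : β}
    (hp1 : ∀ t, t ≠ r → T.Adj t (par t) ∧ dep (par t) < dep t)
    (hp2 : ∀ u v, T.Adj u v → (u ≠ r ∧ par u = v) ∨ (v ≠ r ∧ par v = u)) (hr : 2 ≤ dg T r)
    (Q : β → Prop) (A : β → Finset V) (hQ : ∀ t, Q t → ∀ v ∈ A t, k ≤ dg G v) (D₀ : Finset β)
    (hrD : r ∈ D₀) (hD₀ : ∀ t ∈ D₀, t ≠ r → par t ∈ D₀) (hDd : ∀ t ∈ D₀, 2 ≤ dg T t) (f₀ : β → V)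
    (h0A : ∀ t ∈ D₀, f₀ t ∈ A t) (h0i : ∀ t ∈ D₀, ∀ u ∈ D₀, f₀ t = f₀ u → t = u)
    (h0a : ∀ t ∈ D₀, t ≠ r → G.Adj (f₀ (par t)) (f₀ t)) {n : ℕ}
    (hn : (univ.filter fun t => 2 ≤ dg T t ∨ (t ≠ r ∧ ¬ Q (par t))).card ≤ n)
    (hK : ∀ t, t ∉ D₀ → 2 ≤ dg T t ∨ ¬ Q (par t) → ∀ v ∈ A (par t),
      n ≤ ((A t).filter fun x => G.Adj v x).card) : T.IsContained G := by
  have hpd : ∀ t, t ≠ r → 2 ≤ dg T (par t) := by
    intro t ht
    by_cases hpr : par t = r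
    · rw [hpr]
      exact hr
    · refine two_le_dg (hp1 t ht).1.symm (hp1 _ hpr).1 ?_
      intro h1
      have h2 := (hp1 t ht).2
      have h3 := (hp1 _ hpr).2
      rw [← h1] at h3
      omega
  set N : Finset β := univ.filter fun t => 2 ≤ dg T t ∨ (t ≠ r ∧ ¬ Q (par t)) with hNdef
  have hmem : ∀ t, t ∈ N ↔ (2 ≤ dg T t ∨ (t ≠ r ∧ ¬ Q (par t))) := by
    intro t
    rw [hNdef, mem_filter]
    exact ⟨fun h => h.2, fun h => ⟨mem_univ _, h⟩⟩
  have hparN : ∀ t, t ≠ r → par t ∈ N := fun t ht => (hmem _).2 (Or.inl (hpd t ht))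
  obtain ⟨f, -, hfA, hfi, hfa⟩ := greedy_host G (par := par) (dep := dep) (r := r)
    (fun t ht => (hp1 t ht).2) N D₀ (fun t ht => (hmem t).2 (Or.inl (hDd t ht))) hrD hD₀
    (fun t _ htr => hparN t htr) A f₀ h0A h0i h0a (by
      intro t htN htD v hv
      refine hn.trans (hK t htD ?_ v hv)
      rcases (hmem t).1 htN with h | h
      · exact Or.inl h
      · exact Or.inr h.2)
  refine finish G hk hp2 N f hfi (fun t ht htr => ⟨hparN t htr, hfa t ht htr⟩) ?_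
  intro t ht
  rw [hmem] at ht
  push Not at ht
  have htr : t ≠ r := by
    rintro rfl
    omega
  exact ⟨htr, hparN t htr, hQ _ (ht.2 htr) _ (hfA _ (hparN t htr))⟩

end KS137
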