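import Pool.Agent.H.MP_137e81_co.ls.Emb

/-! Greedy embeddings with prescribed hosts. -/

set_option autoImplicit false

namespace KS137

open Finset

open Classical in
/-- Proof: induction on `#(N \ D₀)`: if `D₀ ≠ N` choose `t ∈ N \ D₀` of minimal `dep`; then `par t ∈ D₀`; the
set `(A t).filter (G.Adj (f₀ (par t)))` has at least `#N > #D₀` elements, so it has an element outside
`f₀(D₀)`. -/
theorem greedy_host {β V : Type} [Fintype β] [Fintype V] (G : SimpleGraph V) {par : β → β}
    {dep : β → ℕ} {r : β} (hp : ∀ t, t ≠ r → dep (par t) < dep t) (N D₀ : Finset β)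
    (hDN : D₀ ⊆ N) (hr : r ∈ D₀) (hD₀ : ∀ t ∈ D₀, t ≠ r → par t ∈ D₀)
    (hN : ∀ t ∈ N, t ≠ r → par t ∈ N) (A : β → Finset V) (f₀ : β → V)
    (h0A : ∀ t ∈ D₀, f₀ t ∈ A t) (h0i : ∀ t ∈ D₀, ∀ u ∈ D₀, f₀ t = f₀ u → t = u)
    (h0a : ∀ t ∈ D₀, t ≠ r → G.Adj (f₀ (par t)) (f₀ t))
    (hK : ∀ t ∈ N, t ∉ D₀ → ∀ v ∈ A (par t), N.card ≤ ((A t).filter fun x => G.Adj v x).card) :
    ∃ f : β → V, (∀ t ∈ D₀, f t = f₀ t) ∧ (∀ t ∈ N, f t ∈ A t) ∧
      (∀ t ∈ N, ∀ u ∈ N, f t = f u → t = u) ∧ ∀ t ∈ N, t ≠ r → G.Adj (f (par t)) (f t) := by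
  obtain ⟨n, hn⟩ : ∃ n, (N \ D₀).card = n := ⟨_, rfl⟩
  induction n generalizing D₀ f₀ with
  | zero =>
    have h1 : N ⊆ D₀ := Finset.sdiff_eq_empty_iff_subset.1 (Finset.card_eq_zero.1 hn)
    exact ⟨f₀, fun t _ => rfl, fun t ht => h0A t (h1 ht), fun t ht u hu => h0i t (h1 ht) u (h1 hu),
      fun t ht => h0a t (h1 ht)⟩
  | succ n ih =>
    have hne : (N \ D₀).Nonempty := by
      rw [← Finset.card_pos, hn]
      exact Nat.succ_pos n
    obtain ⟨t, ht, hmin⟩ := Finset.exists_min_image (N \ D₀) dep hne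
    rw [Finset.mem_sdiff] at ht
    obtain ⟨htN, htD⟩ := ht
    have htr : t ≠ r := fun h => htD (h ▸ hr)
    have hpN : par t ∈ N := hN t htN htr
    have hpt : par t ≠ t := fun h => by
      have := hp t htr
      rw [h] at this
      exact lt_irrefl _ this
    have hpD : par t ∈ D₀ := by
      by_contra h
      have h1 := hmin (par t) (Finset.mem_sdiff.2 ⟨hpN, h⟩)
      exact absurd (hp t htr) (not_lt.2 h1)
    have h1 := hK t htN htD (f₀ (par t)) (h0A _ hpD)
    have h2 : (D₀.image f₀).card < ((A t).filter fun x => G.Adj (f₀ (par t)) x).card := by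
      refine lt_of_lt_of_le (lt_of_le_of_lt Finset.card_image_le ?_) h1
      exact Finset.card_lt_card (Finset.ssubset_iff_subset_ne.2 ⟨hDN, fun h => htD (h ▸ htN)⟩)
    obtain ⟨x, hx, hxD⟩ := Finset.exists_mem_notMem_of_card_lt_card h2
    rw [Finset.mem_filter] at hx
    have hxD' : ∀ u ∈ D₀, f₀ u ≠ x := fun u hu h => hxD (Finset.mem_image.2 ⟨u, hu, h⟩)
    have hut : ∀ u ∈ D₀, u ≠ t := fun u hu h => htD (h ▸ hu)
    have e1 : ∀ u ∈ D₀, Function.update f₀ t x u = f₀ u := fun u hu =>
      Function.update_of_ne (hut u hu) x f₀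
    have e2 : Function.update f₀ t x t = x := Function.update_self t x f₀
    obtain ⟨f, hf1, hf2, hf3, hf4⟩ := ih (insert t D₀)
      (by
        intro u hu
        rcases Finset.mem_insert.1 hu with h | h
        · exact h ▸ htN
        · exact hDN h)
      (Finset.mem_insert_of_mem hr)
      (by
        intro u hu hur
        rcases Finset.mem_insert.1 hu with h | h
        · exact Finset.mem_insert_of_mem (h ▸ hpD)
        · exact Finset.mem_insert_of_mem (hD₀ u h hur))
      (Function.update f₀ t x)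
      (by
        intro u hu
        rcases Finset.mem_insert.1 hu with h | h
        · rw [h, e2]
          exact hx.1
        · rw [e1 u h]
          exact h0A u h)
      (by
        intro u hu w hw huw
        rcases Finset.mem_insert.1 hu with h | h
        · rcases Finset.mem_insert.1 hw with h' | h'
          · rw [h, h']
          · rw [h, e2, e1 w h'] at huw
            exact absurd huw.symm (hxD' w h')
        · rcases Finset.mem_insert.1 hw with h' | h'
          · rw [h', e2, e1 u h] at huw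
            exact absurd huw (hxD' u h)
          · rw [e1 u h, e1 w h'] at huw
            exact h0i u h w h' huw)
      (by
        intro u hu hur
        rcases Finset.mem_insert.1 hu with h | h
        · rw [h, e2, e1 _ hpD]
          exact hx.2
        · rw [e1 u h, e1 _ (hD₀ u h hur)]
          exact h0a u h hur)
      (fun u hu hu' => hK u hu fun h => hu' (Finset.mem_insert_of_mem h))
      (by
        rw [Finset.sdiff_insert, Finset.card_erase_of_mem (Finset.mem_sdiff.2 ⟨htN, htD⟩), hn]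
        rfl)
    refine ⟨f, fun u hu => ?_, hf2, hf3, hf4⟩
    rw [hf1 u (Finset.mem_insert_of_mem hu), e1 u hu]

end KS137
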