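import Pool.Agent.H.MP_137e81_co.ls.Root

/-! An inequality for three vertices of a tree. -/

set_option autoImplicit false

namespace KS137

open Finset

private theorem HubA_c4 {β : Type} {T : SimpleGraph β} (hT : T.IsTree) {u v a b : β}
    (huv : u ≠ v) (h1 : T.Adj u a) (h2 : T.Adj v a) (h3 : T.Adj u b) (h4 : T.Adj v b) : a = b := by
  have hp : (SimpleGraph.Walk.cons h1
      (SimpleGraph.Walk.cons h2.symm SimpleGraph.Walk.nil)).IsPath := by
    simp [huv, h1.ne, h2.ne']
  have hq : (SimpleGraph.Walk.cons h3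
      (SimpleGraph.Walk.cons h4.symm SimpleGraph.Walk.nil)).IsPath := by
    simp [huv, h3.ne, h4.ne']
  have h := (hT.isAcyclic.subsingleton_path u v).elim ⟨_, hp⟩ ⟨_, hq⟩
  have h' := congrArg (fun p : T.Path u v => (p : T.Walk u v).support) h
  simpa using h'

open Classical in
/-- the neighbours of `t` of degree at least 2 -/
private noncomputable def HubA_N {β : Type} [Fintype β] (T : SimpleGraph β) (t : β) : Finset β :=
  univ.filter fun u => T.Adj t u ∧ 2 ≤ dg T u

private theorem HubA_mem_N {β : Type} [Fintype β] {T : SimpleGraph β} {t u : β} :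
    u ∈ HubA_N T t ↔ T.Adj t u ∧ 2 ≤ dg T u := by
  classical
  simp [HubA_N]

private theorem HubA_card_N {β : Type} [Fintype β] (T : SimpleGraph β) (t : β) :
    (HubA_N T t).card = di T t := rfl

private theorem HubA_inter {β : Type} [Fintype β] [DecidableEq β] {T : SimpleGraph β}
    (hT : T.IsTree) {u v : β} (huv : u ≠ v) : (HubA_N T u ∩ HubA_N T v).card ≤ 1 := by
  rw [Finset.card_le_one]
  intro a ha b hb
  rw [Finset.mem_inter] at ha hb
  exact HubA_c4 hT huv (HubA_mem_N.1 ha.1).1 (HubA_mem_N.1 ha.2).1 (HubA_mem_N.1 hb.1).1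
    (HubA_mem_N.1 hb.2).1

/-- Proof: as `tree_two` (Root.lean).  `X = {u, v, w} ∪ A ∪ B ∪ C`, where `A`, `B`, `C` are the sets of
the neighbours of `u`, `v`, `w` of degree at least 2; `sum_dg_le` gives
`dg u + dg v + dg w + #X ≤ k + 5`; the pairwise intersections of `A`, `B`, `C` have at most one element (no
cycle of length 4), so `#(A ∪ B ∪ C) ≥ #A + #B + #C - 3` and `#X ≥ di u + di v + di w - 3`. -/
theorem tree_hub3 {β : Type} [Fintype β] {T : SimpleGraph β} (hT : T.IsTree) {k : ℕ} (h1 : 1 ≤ k)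
    (hk : Fintype.card β = k + 1) {u v w : β} (huv : u ≠ v) (huw : u ≠ w) (hvw : v ≠ w) :
    dg T u + dg T v + dg T w + di T u + di T v + di T w ≤ k + 8 := by
  classical
  set A := HubA_N T u with hA
  set B := HubA_N T v with hB
  set C := HubA_N T w with hC
  have hu : u ∉ ({v, w} : Finset β) := by
    rw [Finset.mem_insert, Finset.mem_singleton]
    rintro (h | h)
    · exact huv h
    · exact huw h
  have hZ : ({u, v, w} : Finset β).card = 3 := by
    rw [Finset.card_insert_of_notMem hu, Finset.card_pair hvw]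
  have hs := sum_dg_le hT h1 hk ({u, v, w} ∪ ((A ∪ B ∪ C) \ {u, v, w}))
  rw [Finset.sum_union Finset.disjoint_sdiff, Finset.card_union_of_disjoint Finset.disjoint_sdiff,
    Finset.sum_insert hu, Finset.sum_pair hvw, hZ] at hs
  have h3 : ((A ∪ B ∪ C) \ {u, v, w}).card • 2 ≤ ∑ t ∈ (A ∪ B ∪ C) \ {u, v, w}, dg T t := by
    refine Finset.card_nsmul_le_sum _ _ _ ?_
    intro y hy
    rw [Finset.mem_sdiff, Finset.mem_union, Finset.mem_union] at hy
    rcases hy.1 with (h | h) | h
    · exact (HubA_mem_N.1 h).2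
    · exact (HubA_mem_N.1 h).2
    · exact (HubA_mem_N.1 h).2
  rw [smul_eq_mul] at h3
  have hc1 : (A ∪ B).card + (A ∩ B).card = A.card + B.card := Finset.card_union_add_card_inter A B
  have hc2 : (A ∪ B ∪ C).card + ((A ∪ B) ∩ C).card = (A ∪ B).card + C.card :=
    Finset.card_union_add_card_inter (A ∪ B) C
  have hc3 : ((A ∪ B ∪ C) \ {u, v, w}).card + ((A ∪ B ∪ C) ∩ {u, v, w}).card
      = (A ∪ B ∪ C).card := Finset.card_sdiff_add_card_inter _ _
  have hc4 : ((A ∪ B ∪ C) ∩ {u, v, w}).card ≤ 3 :=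
    (Finset.card_le_card Finset.inter_subset_right).trans hZ.le
  have hc5 : ((A ∪ B) ∩ C).card ≤ (A ∩ C).card + (B ∩ C).card := by
    rw [Finset.union_inter_distrib_right]
    exact Finset.card_union_le _ _
  have hAB : (A ∩ B).card ≤ 1 := HubA_inter hT huv
  have hAC : (A ∩ C).card ≤ 1 := HubA_inter hT huw
  have hBC : (B ∩ C).card ≤ 1 := HubA_inter hT hvw
  have hA' : A.card = di T u := HubA_card_N T u
  have hB' : B.card = di T v := HubA_card_N T v
  have hC' : C.card = di T w := HubA_card_N T w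
  omega

end KS137
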