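import Pool.Agent.H.MP_137e81_co.ls.HubA

/-! The cases of the exact theorem. -/

set_option autoImplicit false

namespace KS137

open Finset

private theorem HubB_di_le {β : Type} [Fintype β] (T : SimpleGraph β) (t : β) :
    di T t ≤ dg T t := by
  classical
  unfold di dg
  refine Finset.card_le_card ?_
  intro u hu
  rw [Finset.mem_filter] at hu ⊢
  exact ⟨hu.1, hu.2.1⟩

/-- Proof: let `z₁`, `z₂` be the vertices of largest and second largest degree, `D = dg z₂`.  If the first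
alternative fails for `r = z₁`, `D`, there is `t₀` with `k + 1 ≤ di t₀ + 2 D + 3 E + 2 a`.  If the
third fails, `dg z₁ + D + 12 E + 8 a + 12 ≤ k`.  `tree_three` shows `t₀ ∈ {z₁, z₂}`.  Second alternative for
`r = t₀`, `D' = dg z₁`, `I' = 3 E + 2 a + 7`: `tree_two` for `z₁`, `z₂` and `tree_hub3` for
`z₁`, `z₂`, `t`.  All inequalities by `omega`. -/
theorem tree_cases {β : Type} [Fintype β] {T : SimpleGraph β} (hT : T.IsTree) {k E a : ℕ}
    (h2 : 2 ≤ k) (hk : Fintype.card β = k + 1) :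
    (∃ (r : β) (D : ℕ), 2 ≤ dg T r ∧ (∀ t, t ≠ r → dg T t ≤ D) ∧
      ∀ t, di T t + 2 * D + 3 * E + 2 * a ≤ k) ∨
    (∃ (r : β) (D I : ℕ), 2 ≤ dg T r ∧ (∀ t, dg T t ≤ D) ∧ (∀ t, t ≠ r → di T t ≤ I) ∧
      I + 2 * D + 3 * E + 2 * a ≤ k) ∨
    ∃ z₁ z₂ : β, z₁ ≠ z₂ ∧ dg T z₂ ≤ dg T z₁ ∧
      k + 3 ≤ dg T z₁ + dg T z₂ + 12 * E + 8 * a + 14 := by
  classical
  have h1k : 1 ≤ k := by omega
  have : Nonempty β := Fintype.card_pos_iff.1 (by omega)
  obtain ⟨z₁, -, hz₁⟩ := Finset.exists_max_image (univ : Finset β) (dg T) Finset.univ_nonempty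
  have hne : (univ.erase z₁).Nonempty := by
    rw [← Finset.card_pos, Finset.card_erase_of_mem (Finset.mem_univ _), Finset.card_univ, hk]
    omega
  obtain ⟨z₂, hz₂m, hz₂⟩ := Finset.exists_max_image (univ.erase z₁) (dg T) hne
  have h12 : z₁ ≠ z₂ := (Finset.ne_of_mem_erase hz₂m).symm
  have hm1 : ∀ t, dg T t ≤ dg T z₁ := fun t => hz₁ t (Finset.mem_univ _)
  have hm2 : ∀ t, t ≠ z₁ → dg T t ≤ dg T z₂ := fun t ht =>
    hz₂ t (Finset.mem_erase.2 ⟨ht, Finset.mem_univ _⟩)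
  have h21 := hm1 z₂
  have hd1 : 2 ≤ dg T z₁ := by
    by_contra hc
    have hs := sum_dg hT hk
    have hs2 : ∑ t, dg T t ≤ (univ : Finset β).card • 1 :=
      Finset.sum_le_card_nsmul _ _ _ fun t _ => by
        have := hm1 t
        omega
    rw [Finset.card_univ, hk, smul_eq_mul] at hs2
    omega
  by_cases c3 : k + 3 ≤ dg T z₁ + dg T z₂ + 12 * E + 8 * a + 14
  · exact Or.inr (Or.inr ⟨z₁, z₂, h12, h21, c3⟩)
  by_cases c1 : ∀ t, di T t + 2 * dg T z₂ + 3 * E + 2 * a ≤ k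
  · exact Or.inl ⟨z₁, dg T z₂, hd1, hm2, c1⟩
  push Not at c1
  obtain ⟨t₀, ht₀⟩ := c1
  have ht₁ := HubB_di_le T t₀
  have htz : t₀ = z₁ ∨ t₀ = z₂ := by
    by_contra hc
    push Not at hc
    have h3 := tree_three hT h1k hk h12 (Ne.symm hc.1) (Ne.symm hc.2)
    have h4 := hm2 t₀ hc.1
    omega
  have h2t := tree_two hT h1k hk h12
  have i1 := HubB_di_le T z₁
  have i2 := HubB_di_le T z₂
  refine Or.inr (Or.inl ⟨t₀, dg T z₁, 3 * E + 2 * a + 7, by omega, hm1, ?_, ?_⟩)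
  · intro t ht
    rcases htz with rfl | rfl
    · by_cases e2 : t = z₂
      · subst e2
        omega
      · have h3 := tree_hub3 hT h1k hk h12 (Ne.symm ht) (Ne.symm e2)
        have h5 := HubB_di_le T t
        omega
    · by_cases e2 : t = z₁
      · subst e2
        omega
      · have h3 := tree_hub3 hT h1k hk h12 (Ne.symm e2) (Ne.symm ht)
        have h5 := HubB_di_le T t
        omega
  · rcases htz with rfl | rfl <;> omega

end KS137
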