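import Pool.Agent.H.MP_137e81_co.ls.Upper2
import Pool.Agent.H.MP_137e81_co.ls.Bridge

/-! The exact threshold for nowhere-dense hosts. -/

set_option autoImplicit false

namespace KS137

open Finset

open Classical in
private theorem Main2_set {V : Type} [Fintype V] (G : SimpleGraph V) (k : ℕ) :
    {v : V | k ≤ (G.neighborSet v).ncard}.ncard = (univ.filter fun v => k ≤ dg G v).card := by
  have h : {v : V | k ≤ (G.neighborSet v).ncard} =
      ((univ.filter fun v => k ≤ dg G v : Finset V) : Set V) := by
    ext v
    have h1 : G.neighborSet v = ((univ.filter fun u => G.Adj v u : Finset V) : Set V) := by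
      ext u
      simp
    have h2 : (G.neighborSet v).ncard = dg G v := by
      rw [h1, Set.ncard_coe_finset]
      rfl
    simp [h2]
  rw [h, Set.ncard_coe_finset]

/-- Proof: as `upper_real` in Main.lean: `γ = 1 / M`, `upper2`, `noDenseSpot_iff`. -/
theorem upper2_real : ∃ γ : ℝ, 0 < γ ∧ ∀ (k : ℕ) {β : Type} [Fintype β]
    (T : SimpleGraph β), T.IsTree → Fintype.card β = k + 1 → ∀ {V : Type} [Fintype V] [Nonempty V]
    (G : SimpleGraph V), NoDenseSpot G (γ * k) γ →
    Fintype.card V ≤ 3 * {v : V | k ≤ (G.neighborSet v).ncard}.ncard → T.IsContained G := by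
  classical
  obtain ⟨M, hM, hup⟩ := upper2
  have hM0 : (0 : ℝ) < M := by
    have : (2 : ℝ) ≤ M := by exact_mod_cast hM
    linarith
  refine ⟨1 / M, by positivity, ?_⟩
  intro k β _ T hT hk V _ _ G hG0 hL
  have hG := (noDenseSpot_iff G _ _).1 hG0
  rw [Main2_set] at hL
  set L : Finset V := univ.filter fun v => k ≤ dg G v with hLdef
  have hn : 0 < Fintype.card V := Fintype.card_pos
  have hLc : 0 < L.card := by omega
  have hLne : L.Nonempty := Finset.card_pos.1 hLc
  refine hup k hT hk G ?_ L (fun v hv => (Finset.mem_filter.1 hv).2) hLne ?_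
  · intro A B hA hAB h1 h2
    obtain ⟨a, ha⟩ := hA
    have hB : B.Nonempty := by
      have h3 := h1 a ha
      have h4 : 0 < (B.filter fun x => G.Adj a x).card := by
        rcases Nat.eq_zero_or_pos (B.filter fun x => G.Adj a x).card with h | h
        · rw [h, mul_zero] at h3
          omega
        · exact h
      obtain ⟨x, hx⟩ := Finset.card_pos.1 h4
      exact ⟨x, (Finset.mem_filter.1 hx).1⟩
    have h3 := hG A B ⟨a, ha⟩ hB hAB (fun a ha => by
      have h := h1 a ha
      have h' : (k : ℝ) < M * ((B.filter fun x => G.Adj a x).card : ℝ) := by exact_mod_cast h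
      rw [one_div, inv_mul_lt_iff₀ hM0]
      exact h') (fun x hx => by
      have h := h2 x hx
      have h' : (k : ℝ) < M * ((A.filter fun a => G.Adj x a).card : ℝ) := by exact_mod_cast h
      rw [one_div, inv_mul_lt_iff₀ hM0]
      exact h')
    have h4 : (M : ℝ) * (∑ a ∈ A, ((B.filter fun x => G.Adj a x).card : ℝ)) ≤
        (A.card : ℝ) * B.card := by
      calc (M : ℝ) * (∑ a ∈ A, ((B.filter fun x => G.Adj a x).card : ℝ))
          ≤ M * (1 / M * A.card * B.card) := mul_le_mul_of_nonneg_left h3 hM0.le
        _ = (A.card : ℝ) * B.card := by field_simp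
    exact_mod_cast h4
  · have hsum : (univ \ L).card + L.card = Fintype.card V := by
      rw [Finset.card_sdiff_add_card_eq_card (Finset.subset_univ L), Finset.card_univ]
    omega

end KS137
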