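import Pool.Agent.H.MP_137e81_co.ls.Seeds

/-! A good order of the vertices of a rooted tree. -/

set_option autoImplicit false

namespace KS137

open Finset

open Classical in
/-- `par` is the parent function of the tree `T` with root `r`, `sub u` is the number of the descendants
of `u`, `rk` is an enumeration of the vertices, parents first, `Z` is a set of seeds such that the
children of every vertex `u` outside `Z` come at most `N` places after `u` -/
structure Ord {β : Type} [Fintype β] (T : SimpleGraph β) (par : β → β) (r : β)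
    (Z : Finset β) (rk sub : β → ℕ) (N : ℕ) : Prop where
  par_adj : ∀ t, t ≠ r → T.Adj t (par t)
  adj_par : ∀ u v, T.Adj u v → (u ≠ r ∧ par u = v) ∨ (v ≠ r ∧ par v = u)
  root : r ∈ Z
  inj : Function.Injective rk
  rk_par : ∀ t, t ≠ r → rk (par t) < rk t
  short : ∀ t, t ≠ r → par t ∉ Z → rk t ≤ rk (par t) + N
  sub_eq : ∀ u, sub u = 1 + ∑ c ∈ univ.filter (fun c => c ≠ r ∧ par c = u), sub c
  sub_root : sub r = Fintype.card β

/-- the ranks of the values of an injective function -/
private theorem Ord_rank {β : Type} [Fintype β] {key : β → ℕ} (hk : Function.Injective key) :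
    ∃ rk : β → ℕ, Function.Injective rk ∧ (∀ x y, key x < key y → rk x < rk y) ∧
      ∀ x y, rk y ≤ rk x + (univ.filter fun z => key x ≤ key z ∧ key z < key y).card := by
  have hlt : ∀ x y, key x < key y → (univ.filter fun z => key z < key x).card <
      (univ.filter fun z => key z < key y).card := by
    intro x y hxy
    refine card_lt_card ((ssubset_iff_of_subset ?_).2 ⟨x, ?_, ?_⟩)
    · intro z hz
      rw [mem_filter] at hz ⊢
      exact ⟨hz.1, hz.2.trans hxy⟩
    · rw [mem_filter]
      exact ⟨mem_univ _, hxy⟩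
    · rw [mem_filter]
      exact fun h => lt_irrefl _ h.2
  refine ⟨fun u => (univ.filter fun z => key z < key u).card, ?_, hlt, ?_⟩
  · intro x y hxy
    by_contra hne
    rcases lt_trichotomy (key x) (key y) with h | h | h
    · exact absurd hxy (hlt x y h).ne
    · exact hne (hk h)
    · exact absurd hxy (hlt y x h).ne'
  · classical
    intro x y
    refine (card_le_card ?_).trans (card_union_le (univ.filter fun z => key z < key x)
      (univ.filter fun z => key x ≤ key z ∧ key z < key y))
    intro z hz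
    rw [mem_filter] at hz
    rw [mem_union, mem_filter, mem_filter]
    rcases lt_or_ge (key z) (key x) with h | h
    · exact Or.inl ⟨mem_univ _, h⟩
    · exact Or.inr ⟨mem_univ _, h, hz.2⟩

/-- a block function defined everywhere -/
private theorem Ord_block {β : Type} [Fintype β] {par : β → β} {dep : β → ℕ} {r : β}
    (hp : ∀ t, t ≠ r → dep (par t) < dep t) {N : ℕ} {Z : Finset β} {blk : β → β}
    (h1 : ∀ u, u ∉ Z → par u ∈ Z → blk u = u) (h2 : ∀ u, u ∉ Z → par u ∉ Z → blk u = blk (par u))
    (h3 : ∀ u, u ∉ Z → dep (blk u) ≤ dep u)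
    (h4 : ∀ t, ∃ C : Finset β, C.card ≤ N ∧ ∀ u, u ∉ Z → blk u = t → u ∈ C) :
    ∃ B : β → β, (∀ u, dep (B u) ≤ dep u) ∧ (∀ t, t ≠ r → B t = B (par t) ∨ B t = t) ∧
      (∀ t, t ≠ r → par t ∉ Z → B t = B (par t)) ∧
      ∀ t, ∃ C : Finset β, C.card ≤ N + Z.card ∧ ∀ u, B u = t → u ∈ C := by
  classical
  obtain ⟨B, hB⟩ : ∃ B : β → β, ∀ u, B u =
      if u ∈ Z then (if u = r ∨ par u ∈ Z then u else blk (par u)) else blk u := ⟨_, fun u => rfl⟩
  have e1 : ∀ u, u ∉ Z → B u = blk u := fun u hu => by rw [hB, if_neg hu]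
  have e2 : ∀ u, u ∈ Z → (u = r ∨ par u ∈ Z) → B u = u := fun u hu hu' => by
    rw [hB, if_pos hu, if_pos hu']
  have e3 : ∀ u, u ∈ Z → ¬ (u = r ∨ par u ∈ Z) → B u = blk (par u) := fun u hu hu' => by
    rw [hB, if_pos hu, if_neg hu']
  have hpar : ∀ t, t ≠ r → par t ∉ Z → B t = B (par t) := by
    intro t ht hpt
    by_cases hZ : t ∈ Z
    · rw [e3 t hZ (by
        rintro (h | h)
        · exact ht h
        · exact hpt h), e1 _ hpt]
    · rw [e1 t hZ, h2 t hZ hpt, e1 _ hpt]
  refine ⟨B, fun u => ?_, fun t ht => ?_, hpar, fun t => ?_⟩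
  · by_cases hZ : u ∈ Z
    · by_cases hu : u = r ∨ par u ∈ Z
      · rw [e2 u hZ hu]
      · rw [e3 u hZ hu]
        rw [not_or] at hu
        exact (h3 _ hu.2).trans (hp u hu.1).le
    · rw [e1 u hZ]
      exact h3 u hZ
  · by_cases hpt : par t ∈ Z
    · right
      by_cases hZ : t ∈ Z
      · exact e2 t hZ (Or.inr hpt)
      · rw [e1 t hZ, h1 t hZ hpt]
    · exact Or.inl (hpar t ht hpt)
  · obtain ⟨C, hC, hCm⟩ := h4 t
    refine ⟨C ∪ Z, (card_union_le _ _).trans (Nat.add_le_add_right hC _), fun u hu => ?_⟩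
    by_cases hZ : u ∈ Z
    · exact mem_union_right _ hZ
    · rw [e1 u hZ] at hu
      exact mem_union_left _ (hCm u hZ hu)

/-- the key of a vertex -/
private theorem Ord_key {β : Type} [Fintype β] {par : β → β} {dep : β → ℕ} {r : β}
    (hp : ∀ t, t ≠ r → dep (par t) < dep t) {B : β → β} (hBd : ∀ u, dep (B u) ≤ dep u)
    (hBs : ∀ t, t ≠ r → B t = B (par t) ∨ B t = t) :
    ∃ key : β → ℕ, Function.Injective key ∧ (∀ t, t ≠ r → key (par t) < key t) ∧
      ∀ s t x, B s = B t → key s ≤ key x → key x < key t → B x = B t := by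
  classical
  obtain ⟨e, he, hed⟩ : ∃ e : β → ℕ, Function.Injective e ∧ ∀ x y, dep x < dep y → e x < e y := by
    refine ⟨fun x => dep x * Fintype.card β + (Fintype.equivFin β x).val, ?_, ?_⟩
    · intro x y hxy
      have hxy' : dep x * Fintype.card β + (Fintype.equivFin β x).val =
        dep y * Fintype.card β + (Fintype.equivFin β y).val := hxy
      have hx := (Fintype.equivFin β x).isLt
      have hy := (Fintype.equivFin β y).isLt
      have h1 := congrArg (fun n => n % Fintype.card β) hxy'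
      simp only [Nat.mul_add_mod_self_right, Nat.mod_eq_of_lt hx, Nat.mod_eq_of_lt hy] at h1
      exact (Fintype.equivFin β).injective (Fin.ext h1)
    · intro x y hxy
      show dep x * Fintype.card β + (Fintype.equivFin β x).val <
        dep y * Fintype.card β + (Fintype.equivFin β y).val
      have hx := (Fintype.equivFin β x).isLt
      have h1 : (dep x + 1) * Fintype.card β ≤ dep y * Fintype.card β :=
        Nat.mul_le_mul_right _ hxy
      rw [add_mul, one_mul] at h1
      omega
  obtain ⟨M, hM⟩ : ∃ M, ∀ x, e x < M :=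
    ⟨univ.sup e + 1, fun x => Nat.lt_succ_of_le (le_sup (mem_univ x))⟩
  have hmod : ∀ u, (e (B u) * M + e u) % M = e u := fun u => by
    rw [Nat.mul_add_mod_self_right, Nat.mod_eq_of_lt (hM u)]
  have hdiv : ∀ u, (e (B u) * M + e u) / M = e (B u) := fun u => by
    have hM0 : 0 < M := (Nat.zero_le _).trans_lt (hM u)
    rw [mul_comm, Nat.mul_add_div hM0, Nat.div_eq_of_lt (hM u), add_zero]
  refine ⟨fun u => e (B u) * M + e u, ?_, ?_, ?_⟩
  · intro x y hxy
    have h1 : (e (B x) * M + e x) % M = (e (B y) * M + e y) % M := congrArg (· % M) hxy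
    rw [hmod, hmod] at h1
    exact he h1
  · intro t ht
    show e (B (par t)) * M + e (par t) < e (B t) * M + e t
    have h1 := hed _ _ (hp t ht)
    rcases hBs t ht with h | h
    · rw [h]
      omega
    · have h2 : e (B (par t)) < e (B t) := by
        rw [h]
        exact hed _ _ ((hBd (par t)).trans_lt (hp t ht))
      have h3 : (e (B (par t)) + 1) * M ≤ e (B t) * M := Nat.mul_le_mul_right _ h2
      rw [add_mul, one_mul] at h3
      have h4 := hM (par t)
      omega
  · intro s t x hst h1 h2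
    have h3 : (e (B s) * M + e s) / M ≤ (e (B x) * M + e x) / M := Nat.div_le_div_right h1
    have h4 : (e (B x) * M + e x) / M ≤ (e (B t) * M + e t) / M := Nat.div_le_div_right h2.le
    rw [hdiv, hdiv] at h3 h4
    rw [hst] at h3
    exact he (le_antisymm h4 h3)

open Classical in
/-- Proof: `exists_parent`, `exists_sub`, `exists_seeds`.  Let `B u = blk u` for `u ∉ Z`; for `u ∈ Z` let
`B u = u` if `u = r` or `par u ∈ Z`, `B u = blk (par u)` otherwise; `dep (B u) ≤ dep u`.  Let `id : β → ℕ`
be injective (`Fintype.equivFin`), `key u = (dep (B u), id (B u), dep u, id u)` ordered lexicographically,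
`rk u` the number of `x` with `key x < key u`.  If `t ≠ r`: `B t = B (par t)` or `B t = t`, so
`key (par t) < key t`.  If `par t ∉ Z`: `B t = B (par t)`, and every `x` with
`key (par t) ≤ key x < key t` has `B x = B t`; at most `N + #Z` such `x`. -/
theorem exists_ord {β : Type} [Fintype β] {T : SimpleGraph β} (hT : T.IsTree) (r : β) {N : ℕ}
    (hN : 1 ≤ N) :
    ∃ (par : β → β) (Z : Finset β) (rk sub : β → ℕ), Z.card * N ≤ Fintype.card β + N ∧
      Ord T par r Z rk sub (N + Z.card) := by
  obtain ⟨par, dep, hpar, hadj⟩ := exists_parent hT r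
  have hp : ∀ t, t ≠ r → dep (par t) < dep t := fun t ht => (hpar t ht).2
  obtain ⟨sub, hs, hr⟩ := exists_sub hp
  obtain ⟨Z, blk, hrZ, hZ, hb1, hb2, hb3, hb4⟩ := exists_seeds hp hs hr hN
  obtain ⟨B, hBd, hBs, hBp, hBc⟩ := Ord_block hp hb1 hb2 hb3 fun t =>
    ⟨univ.filter fun u => u ∉ Z ∧ blk u = t, hb4 t, fun u hu hu' =>
      mem_filter.2 ⟨mem_univ _, hu, hu'⟩⟩
  obtain ⟨key, hk, hkp, hkB⟩ := Ord_key hp hBd hBs
  obtain ⟨rk, hrk, hrk1, hrk2⟩ := Ord_rank hk
  refine ⟨par, Z, rk, sub, hZ, ⟨fun t ht => (hpar t ht).1, hadj, hrZ, hrk,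
    fun t ht => hrk1 _ _ (hkp t ht), fun t ht hpt => ?_, hs, hr⟩⟩
  refine (hrk2 (par t) t).trans (Nat.add_le_add_left ?_ _)
  obtain ⟨C, hC, hCm⟩ := hBc (B t)
  refine (card_le_card fun x hx => ?_).trans hC
  rw [mem_filter] at hx
  exact hCm x (hkB (par t) t x (hBp t ht hpt).symm hx.2.1 hx.2.2)

end KS137
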