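import Pool.Agent.H.MP_137e81_co.ls.Sub

/-! Seeds of a rooted tree. -/

set_option autoImplicit false

namespace KS137

open Finset

open Classical in
/-- The sum over all vertices of the sums over the children. -/
private theorem seeds_sum {β : Type} [Fintype β] (par : β → β) (r : β) (f : β → ℕ) :
    ∑ u, ∑ c ∈ univ.filter (fun c => c ≠ r ∧ par c = u), f c + f r = ∑ u, f u := by
  have h1 : ∑ u, ∑ c ∈ univ.filter (fun c => c ≠ r ∧ par c = u), f c
      = ∑ c ∈ univ.filter (fun c => c ≠ r), f c := by
    have h2 : ∀ u, univ.filter (fun c => c ≠ r ∧ par c = u)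
        = (univ.filter (fun c => c ≠ r)).filter (fun c => par c = u) := by
      intro u
      rw [Finset.filter_filter]
    simp_rw [h2]
    exact Finset.sum_fiberwise _ _ _
  rw [h1, Finset.filter_ne', Finset.sum_erase_add _ _ (mem_univ r)]

open Classical in
/-- The bound for one block. -/
private theorem seeds_block {β : Type} [Fintype β] {par : β → β} {r : β} (W : β → ℕ)
    (C : Finset β) (t : β) (N : ℕ) (hW : ∀ u, W u < N)
    (h1 : ∀ u ∈ C, 1 + ∑ c ∈ univ.filter (fun c => c ≠ r ∧ par c = u), W c ≤ W u)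
    (h2 : ∀ c ∈ C, c ≠ t → c ≠ r ∧ par c ∈ C) : C.card ≤ N := by
  have h3 : C.card + ∑ u ∈ C, ∑ c ∈ univ.filter (fun c => c ≠ r ∧ par c = u), W c
      ≤ ∑ u ∈ C, W u := by
    rw [Finset.card_eq_sum_ones, ← Finset.sum_add_distrib]
    exact Finset.sum_le_sum h1
  have h4 : ∑ c ∈ C.erase t, W c
      ≤ ∑ u ∈ C, ∑ c ∈ univ.filter (fun c => c ≠ r ∧ par c = u), W c := by
    have h5 : ∑ u ∈ C, ∑ c ∈ (C.erase t).filter (fun c => par c = u), W c
        = ∑ c ∈ C.erase t, W c := by
      apply Finset.sum_fiberwise_of_maps_to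
      intro c hc
      exact (h2 c (Finset.mem_of_mem_erase hc) (Finset.ne_of_mem_erase hc)).2
    rw [← h5]
    apply Finset.sum_le_sum
    intro u _
    apply Finset.sum_le_sum_of_subset
    intro c hc
    rw [Finset.mem_filter] at hc ⊢
    exact ⟨mem_univ _, (h2 c (Finset.mem_of_mem_erase hc.1) (Finset.ne_of_mem_erase hc.1)).1, hc.2⟩
  by_cases ht : t ∈ C
  · have h6 := Finset.sum_erase_add C W ht
    have h7 := hW t
    omega
  · rw [Finset.erase_eq_of_notMem ht] at h4
    omega

open Classical in
/-- Proof: `Z = {r} ∪ {u | ∑ (children c of u) (sub c / N) < sub u / N}`.  `∑_u (sub u / N - ∑_c sub c / N)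
= sub r / N` (all terms are nonnegative) gives the bound on `Z`.  For `u ∉ Z` let `blk u = par^[j] u` with
the least `j` such that `par^[j + 1] u ∈ Z`.  Let `W u = sub u % N`; for `u ∉ Z`:
`W u ≥ 1 + ∑ (children c of u) W c`, hence for `C = {u ∉ Z | blk u = t}`:
`#C ≤ ∑_{u ∈ C} W u - ∑_{u ∈ C} ∑_c W c ≤ W t < N`, since the parent of every `c ∈ C` other than `t` lies
in `C` (if `t ∉ C` the bound is `0`). -/
theorem exists_seeds {β : Type} [Fintype β] {par : β → β} {dep : β → ℕ} {r : β}
    (hp : ∀ t, t ≠ r → dep (par t) < dep t) {sub : β → ℕ}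
    (hs : ∀ u, sub u = 1 + ∑ c ∈ univ.filter (fun c => c ≠ r ∧ par c = u), sub c)
    (hr : sub r = Fintype.card β) {N : ℕ} (hN : 1 ≤ N) :
    ∃ (Z : Finset β) (blk : β → β), r ∈ Z ∧ Z.card * N ≤ Fintype.card β + N ∧
      (∀ u, u ∉ Z → par u ∈ Z → blk u = u) ∧ (∀ u, u ∉ Z → par u ∉ Z → blk u = blk (par u)) ∧
      (∀ u, u ∉ Z → dep (blk u) ≤ dep u) ∧
      ∀ t, (univ.filter fun u => u ∉ Z ∧ blk u = t).card ≤ N := by
  set S : Finset β := univ.filter fun u =>
    ∑ c ∈ univ.filter (fun c => c ≠ r ∧ par c = u), sub c / N < sub u / N with hS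
  set Z : Finset β := insert r S with hZ
  -- the comparison
  have hle : ∀ u, ∑ c ∈ univ.filter (fun c => c ≠ r ∧ par c = u), sub c / N ≤ sub u / N := by
    intro u
    rw [Nat.le_div_iff_mul_le (by omega), hs u, Finset.sum_mul]
    have : ∑ c ∈ univ.filter (fun c => c ≠ r ∧ par c = u), sub c / N * N
        ≤ ∑ c ∈ univ.filter (fun c => c ≠ r ∧ par c = u), sub c :=
      Finset.sum_le_sum fun c _ => Nat.div_mul_le_self _ _
    omega
  have hScard : S.card ≤ sub r / N := by
    have h1 : ∑ u, ∑ c ∈ univ.filter (fun c => c ≠ r ∧ par c = u), sub c / N + S.card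
        ≤ ∑ u, sub u / N := by
      have h2 : S.card = ∑ u, if u ∈ S then 1 else 0 := by
        rw [Finset.sum_ite_mem, Finset.univ_inter, Finset.card_eq_sum_ones]
      rw [h2, ← Finset.sum_add_distrib]
      apply Finset.sum_le_sum
      intro u _
      by_cases hu : u ∈ S
      · rw [if_pos hu]
        have := (Finset.mem_filter.mp hu).2
        omega
      · rw [if_neg hu]
        have := hle u
        omega
    have h3 := seeds_sum par r (fun c => sub c / N)
    simp only at h3
    omega
  have hnZ : ∀ u, u ∉ Z → u ≠ r ∧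
      sub u / N ≤ ∑ c ∈ univ.filter (fun c => c ≠ r ∧ par c = u), sub c / N := by
    intro u hu
    rw [hZ, Finset.mem_insert, not_or] at hu
    refine ⟨hu.1, ?_⟩
    by_contra hlt
    exact hu.2 (Finset.mem_filter.mpr ⟨mem_univ _, not_le.mp hlt⟩)
  -- the function blk
  let F : (u : β) → ((v : β) → dep v < dep u → β) → β := fun u rec =>
    if h : u ≠ r ∧ par u ∉ Z then rec (par u) (hp u h.1) else u
  let blk : β → β := (measure dep).wf.fix F
  have hblk : ∀ u, blk u = if u ≠ r ∧ par u ∉ Z then blk (par u) else u := by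
    intro u
    have := (measure dep).wf.fix_eq F u
    by_cases h : u ≠ r ∧ par u ∉ Z
    · rw [if_pos h]
      change (measure dep).wf.fix F u = _
      rw [this]
      simp only [F]
      rw [dif_pos h]
    · rw [if_neg h]
      change (measure dep).wf.fix F u = _
      rw [this]
      simp only [F]
      rw [dif_neg h]
  have hb1 : ∀ u, u ∉ Z → par u ∈ Z → blk u = u := by
    intro u _ hpu
    rw [hblk, if_neg]
    rintro ⟨_, h⟩
    exact h hpu
  have hb2 : ∀ u, u ∉ Z → par u ∉ Z → blk u = blk (par u) := by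
    intro u hu hpu
    rw [hblk, if_pos ⟨(hnZ u hu).1, hpu⟩]
  have hb3 : ∀ n u, dep u ≤ n → dep (blk u) ≤ dep u := by
    intro n
    induction n with
    | zero =>
      intro u hu
      rw [hblk]
      split_ifs with h
      · have := hp u h.1
        omega
      · exact le_rfl
    | succ n ih =>
      intro u hu
      rw [hblk]
      split_ifs with h
      · have h1 := hp u h.1
        have h2 := ih (par u) (by omega)
        omega
      · exact le_rfl
  refine ⟨Z, blk, Finset.mem_insert_self _ _, ?_, hb1, hb2, fun u _ => hb3 _ u le_rfl, ?_⟩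
  · have h1 : Z.card ≤ S.card + 1 := Finset.card_insert_le _ _
    have h2 : sub r / N * N ≤ sub r := Nat.div_mul_le_self _ _
    rw [hr] at h2 hScard
    calc Z.card * N ≤ (Fintype.card β / N + 1) * N := Nat.mul_le_mul_right _ (by omega)
      _ = Fintype.card β / N * N + N := by ring
      _ ≤ _ := by omega
  · intro t
    apply seeds_block (par := par) (r := r) (fun u => sub u % N) _ t N
      (fun u => Nat.mod_lt _ (by omega))
    · intro u hu
      have huZ := (Finset.mem_filter.mp hu).2.1
      have h1 := (hnZ u huZ).2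
      have h2 := Nat.div_add_mod (sub u) N
      have h3 : ∑ c ∈ univ.filter (fun c => c ≠ r ∧ par c = u), sub c
          = N * ∑ c ∈ univ.filter (fun c => c ≠ r ∧ par c = u), sub c / N
            + ∑ c ∈ univ.filter (fun c => c ≠ r ∧ par c = u), sub c % N := by
        rw [Finset.mul_sum, ← Finset.sum_add_distrib]
        exact Finset.sum_congr rfl fun c _ => (Nat.div_add_mod (sub c) N).symm
      have h4 := hs u
      have h5 : N * (sub u / N)
          ≤ N * ∑ c ∈ univ.filter (fun c => c ≠ r ∧ par c = u), sub c / N :=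
        Nat.mul_le_mul_left _ h1
      omega
    · intro c hc hct
      obtain ⟨-, hcZ, hbc⟩ := Finset.mem_filter.mp hc
      have hpc : par c ∉ Z := by
        intro h
        exact hct ((hb1 c hcZ h).symm.trans hbc)
      refine ⟨(hnZ c hcZ).1, Finset.mem_filter.mpr ⟨mem_univ _, hpc, ?_⟩⟩
      rw [← hb2 c hcZ hpc, hbc]

end KS137
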