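import Mathlib

/-! Dense spots (Hladky, Komlos, Piguet, Simonovits, Stein, Szemeredi). -/

set_option autoImplicit false

namespace KS137

/-- `(A, B)` is an `(m, γ)`-dense spot of `G`: `A`, `B` are disjoint nonempty sets of vertices, in the
bipartite graph of all edges of `G` between `A` and `B` every degree is greater than `m`, and its density
is greater than `γ` -/
def DenseSpot {V : Type} (G : SimpleGraph V) (m γ : ℝ) (A B : Set V) : Prop :=
  A.Nonempty ∧ B.Nonempty ∧ Disjoint A B ∧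
    (∀ a ∈ A, m < ({b | b ∈ B ∧ G.Adj a b}.ncard : ℝ)) ∧
    (∀ b ∈ B, m < ({a | a ∈ A ∧ G.Adj a b}.ncard : ℝ)) ∧
    γ * (A.ncard * B.ncard) < ({p : V × V | p.1 ∈ A ∧ p.2 ∈ B ∧ G.Adj p.1 p.2}.ncard : ℝ)

/-- `G` is `(m, γ)`-nowhere-dense: it has no `(m, γ)`-dense spot -/
def NoDenseSpot {V : Type} (G : SimpleGraph V) (m γ : ℝ) : Prop :=
  ∀ A B : Set V, ¬ DenseSpot G m γ A B

end KS137
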