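import Pool.Agent.H.MP_137e81_co.ls.Par

/-! The number of the descendants of the vertices of a rooted tree. -/

set_option autoImplicit false

namespace KS137

open Finset

open Classical in
/-- Proof: let `D` be the maximal depth.  By induction on `n` there is a function which satisfies the
equation for all `u` with `D ≤ dep u + n` (`n = 0`: such `u` have no children, the value is `1`).
The sum of the equations over all `u` gives `sub r = card β`. -/
theorem exists_sub {β : Type} [Fintype β] {par : β → β} {dep : β → ℕ} {r : β}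
    (hp : ∀ t, t ≠ r → dep (par t) < dep t) :
    ∃ sub : β → ℕ, (∀ u, sub u = 1 + ∑ c ∈ univ.filter (fun c => c ≠ r ∧ par c = u), sub c) ∧
      sub r = Fintype.card β := by
  obtain ⟨D, hD⟩ : ∃ D, ∀ u, dep u ≤ D := ⟨univ.sup dep, fun u => le_sup (mem_univ u)⟩
  have key : ∀ n, ∃ sub : β → ℕ, ∀ u, D ≤ dep u + n →
      sub u = 1 + ∑ c ∈ univ.filter (fun c => c ≠ r ∧ par c = u), sub c := by
    intro n
    induction n with
    | zero =>
      refine ⟨fun _ => 1, fun u hu => ?_⟩
      have h0 : univ.filter (fun c => c ≠ r ∧ par c = u) = ∅ := by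
        rw [filter_eq_empty_iff]
        rintro c - ⟨hc, hpc⟩
        have h1 := hp c hc
        have h2 := hD c
        rw [hpc] at h1
        omega
      rw [h0, sum_empty, add_zero]
    | succ n ih =>
      obtain ⟨sub, hs⟩ := ih
      refine ⟨fun u => 1 + ∑ c ∈ univ.filter (fun c => c ≠ r ∧ par c = u), sub c,
        fun u hu => ?_⟩
      show 1 + ∑ c ∈ univ.filter (fun c => c ≠ r ∧ par c = u), sub c =
        1 + ∑ c ∈ univ.filter (fun c => c ≠ r ∧ par c = u),
          (1 + ∑ d ∈ univ.filter (fun d => d ≠ r ∧ par d = c), sub d)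
      congr 1
      refine sum_congr rfl fun c hc => hs c ?_
      rw [mem_filter] at hc
      have h1 := hp c hc.2.1
      rw [hc.2.2] at h1
      omega
  obtain ⟨sub, hs⟩ := key D
  have hs' := fun u => hs u (by omega)
  refine ⟨sub, hs', ?_⟩
  have h1 : ∑ u, sub u =
      ∑ u, (1 + ∑ c ∈ univ.filter (fun c => c ≠ r ∧ par c = u), sub c) :=
    sum_congr rfl fun u _ => hs' u
  rw [sum_add_distrib, sum_const, card_univ, smul_eq_mul, mul_one] at h1
  have h2 : ∑ u, ∑ c ∈ univ.filter (fun c => c ≠ r ∧ par c = u), sub c =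
      ∑ c ∈ univ.filter (fun c => c ≠ r), sub c := by
    rw [← sum_fiberwise (univ.filter (fun c => c ≠ r)) par sub]
    refine sum_congr rfl fun u _ => ?_
    rw [filter_filter]
  have h3 : ∑ c ∈ univ.filter (fun c => c ≠ r), sub c + sub r = ∑ u, sub u := by
    rw [filter_ne']
    exact sum_erase_add _ _ (mem_univ r)
  omega

end KS137
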