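import Pool.Agent.H.MP_137e81_co.ls.Core
import Pool.Agent.H.MP_137e81_co.ls.Few

/-! Hosts in which any `s` vertices have few common neighbours. -/

set_option autoImplicit false

namespace KS137

open Finset

/-- the arithmetic of the first counting -/
private theorem ThmA_one {s k b m1 p : ℕ} (hm1 : m1 = 200 * (s + 1)) (hk : 200 ≤ k)
    (hb : k < 100 * (b + 1)) (hp : 2 * p ≤ k) :
    (s + 1 - 1) * (k + 1) + p < (m1 + 1) * b := by
  have e1 : s * k ≤ s * (100 * b + 99) := Nat.mul_le_mul_left _ (by omega)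
  have e2 : s * 200 ≤ s * k := Nat.mul_le_mul_left _ hk
  have e3 : k ≤ 100 * b + 99 := by omega
  rw [hm1, Nat.add_sub_cancel]
  nlinarith

/-- the arithmetic of the second counting -/
private theorem ThmA_two {s k h m1 m2 p : ℕ} (hm2 : m2 = 200 * (s + 1) * m1)
    (hh : k < 100 * m1 * (h + 1)) (hp : 2 * p ≤ k) :
    (s + 1 - 1) * (k + 1) + p < (m2 + 1) * (h + 1) := by
  have e1 : (2 * (s + 1)) * (k + 1) ≤ (2 * (s + 1)) * (100 * m1 * (h + 1)) :=
    Nat.mul_le_mul_left _ hh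
  have e2 : (m2 + 1) * (h + 1) = (2 * (s + 1)) * (100 * m1 * (h + 1)) + (h + 1) := by
    rw [hm2]
    ring
  rw [e2, Nat.add_sub_cancel]
  nlinarith

open Classical in
/-- the number of the vertices of large degree -/
private theorem ThmA_big {β : Type} [Fintype β] {T : SimpleGraph β} (hT : T.IsTree) {k e m : ℕ}
    (hk : Fintype.card β = k + 1) (he : k < 100 * m * (e + 1)) :
    (univ.filter fun t => e < dg T t).card ≤ 200 * m := by
  by_contra hcon
  have h1 : (univ.filter fun t => e < dg T t).card * (e + 1) ≤ 2 * k := by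
    rw [← sum_dg hT hk, ← smul_eq_mul]
    refine (Finset.card_nsmul_le_sum (univ.filter fun t => e < dg T t) (dg T) (e + 1) ?_).trans ?_
    · intro t ht
      exact (mem_filter.1 ht).2
    · exact Finset.sum_le_sum_of_subset (filter_subset _ _)
  have h2 : (200 * m + 1) * (e + 1) ≤ (univ.filter fun t => e < dg T t).card * (e + 1) :=
    Nat.mul_le_mul_right _ (by omega)
  have h3 : 200 * m * (e + 1) = 2 * (100 * m * (e + 1)) := by ring
  have h4 : (200 * m + 1) * (e + 1) = 200 * m * (e + 1) + (e + 1) := by ring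
  omega

open Classical in
private theorem ThmA_aux (s : ℕ) : ∃ M : ℕ, 1 ≤ M ∧ ∀ k, M ≤ k → ∀ {β : Type} [Fintype β]
    {T : SimpleGraph β}, T.IsTree → Fintype.card β = k + 1 →
    ∀ {V : Type} [Fintype V] [Nonempty V] (G : SimpleGraph V),
    (∀ Q : Finset V, Q.card = s + 1 → M * (univ.filter fun x => ∀ a ∈ Q, G.Adj a x).card ≤ k) →
    Fintype.card V ≤ 2 * (univ.filter fun v => k ≤ dg G v).card → T.IsContained G := by
  obtain ⟨m1, hm1⟩ : ∃ m1, m1 = 200 * (s + 1) := ⟨_, rfl⟩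
  obtain ⟨m2, hm2⟩ : ∃ m2, m2 = 200 * (s + 1) * m1 := ⟨_, rfl⟩
  obtain ⟨C1, hC1⟩ : ∃ C1, C1 = (m1 + 1).choose (s + 1) := ⟨_, rfl⟩
  obtain ⟨C2, hC2⟩ : ∃ C2, C2 = (m2 + 1).choose (s + 1) := ⟨_, rfl⟩
  obtain ⟨M, hM⟩ : ∃ M, M = 2 * ((m1 + 1) * C1) + 2 * ((m2 + 1) * C2) +
      20 * (m1 + 200 * (m2 * m2) + 1) + 200 := ⟨_, rfl⟩
  refine ⟨M, by omega, ?_⟩
  intro k hk β _ T hT hβ V _ _ G hQ hG
  obtain ⟨c, hc⟩ : ∃ c, c = k / M := ⟨_, rfl⟩
  have hM0 : 0 < M := by omega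
  have hcM : M * c ≤ k := by
    rw [hc]
    exact Nat.mul_div_le k M
  have hQc : ∀ Q : Finset V, Q.card = s + 1 →
      (univ.filter fun x => ∀ a ∈ Q, G.Adj a x).card ≤ c := by
    intro Q h
    rw [hc, Nat.le_div_iff_mul_le hM0, mul_comm]
    exact hQ Q h
  have hp1 : 2 * ((m1 + 1) * (C1 * c)) ≤ k := by
    have h1 : (2 * ((m1 + 1) * C1)) * c ≤ M * c := Nat.mul_le_mul_right _ (by omega)
    have h2 : 2 * ((m1 + 1) * (C1 * c)) = (2 * ((m1 + 1) * C1)) * c := by ring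
    omega
  have hp2 : 2 * ((m2 + 1) * (C2 * c)) ≤ k := by
    have h1 : (2 * ((m2 + 1) * C2)) * c ≤ M * c := Nat.mul_le_mul_right _ (by omega)
    have h2 : 2 * ((m2 + 1) * (C2 * c)) = (2 * ((m2 + 1) * C2)) * c := by ring
    omega
  have hm1p : 0 < m1 := by omega
  have hm2p : 0 < m2 := by
    rw [hm2]
    positivity
  obtain ⟨b, hb⟩ : ∃ b, b = k / 100 := ⟨_, rfl⟩
  obtain ⟨h, hh⟩ : ∃ h, h = k / (100 * m1) := ⟨_, rfl⟩
  obtain ⟨e, he⟩ : ∃ e, e = k / (100 * m2) := ⟨_, rfl⟩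
  have hb1 : k < 100 * (b + 1) := by omega
  have hh1 : k < 100 * m1 * (h + 1) := by
    rw [hh]
    exact Nat.lt_mul_div_succ k (by omega)
  have he1 : k < 100 * m2 * (e + 1) := by
    rw [he]
    exact Nat.lt_mul_div_succ k (by omega)
  have hh2 : 100 * (m1 * h) ≤ k := by
    have h1 := Nat.mul_div_le k (100 * m1)
    rw [← hh] at h1
    rw [← mul_assoc]
    exact h1
  have he2 : 100 * (m2 * e) ≤ k := by
    have h1 := Nat.mul_div_le k (100 * m2)
    rw [← he] at h1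
    rw [← mul_assoc]
    exact h1
  have hb2 : 100 * b ≤ k := by omega
  have hc1 := ThmA_one hm1 (by omega) hb1 hp1
  have hc2 := ThmA_two hm2 hh1 hp2
  rw [hC1] at hc1
  rw [hC2] at hc2
  have hBm : 200 * m2 * m2 = 200 * (m2 * m2) := by ring
  refine core hT G hβ hG (b := b) (h := h) (e := e) (m1 := m1) (m2 := m2) (B := 200 * m2)
    (E := b + m2 * e + m1 + m1 * h + 200 * m2 * m2 + 1) (by omega) le_rfl ?_ ?_ ?_
    (ThmA_big hT hβ he1)
  · rw [hBm]
    omega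
  · intro W hW
    exact Nat.lt_succ_iff.1 (full_s G hQc hc1 W hW)
  · intro v W _ hW
    refine Nat.lt_succ_iff.1 (lt_of_le_of_lt (card_le_card ?_) (full_s G hQc hc2 W hW))
    intro u hu
    rw [mem_filter] at hu ⊢
    exact ⟨hu.1, hu.2.2⟩

open Classical in
/-- Proof: we may assume `1 ≤ s` (otherwise the hypothesis for `s + 1`, or `s = 0` directly: it follows from
the case `s = 1` as subsets of one element have fewer common neighbours).  `m1 = 200 s`, `m2 = 200 s m1`,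
`c1 = m1.choose s`, `c2 = m2.choose s`, `M` large.  `b = k / 100`, `h + 1 = k / (100 m1)`,
`e = k / (100 m2)`, `B = 400 m2` (`∑ dg T t = 2 k`: `B * e ≤ ...`), `c = k / M`; `full_s` twice;
`12 E ≤ k`. -/
theorem sparse (s : ℕ) : ∃ M : ℕ, 1 ≤ M ∧ ∀ k, M ≤ k → ∀ {β : Type} [Fintype β] {T : SimpleGraph β},
    T.IsTree → Fintype.card β = k + 1 → ∀ {V : Type} [Fintype V] [Nonempty V] (G : SimpleGraph V),
    (∀ Q : Finset V, Q.card = s → M * (univ.filter fun x => ∀ a ∈ Q, G.Adj a x).card ≤ k) →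
    Fintype.card V ≤ 2 * (univ.filter fun v => k ≤ dg G v).card → T.IsContained G := by
  obtain ⟨M, hM1, hM⟩ := ThmA_aux s
  refine ⟨M, hM1, fun k hk β _ T hT hβ V _ _ G hQ hG => hM k hk hT hβ G (fun Q hQc => ?_) hG⟩
  obtain ⟨Q', hQ', hcard⟩ : ∃ Q' ⊆ Q, Q'.card = s :=
    Finset.exists_subset_card_eq (by omega)
  refine le_trans (Nat.mul_le_mul_left _ (card_le_card ?_)) (hQ Q' hcard)
  intro x hx
  rw [mem_filter] at hx ⊢
  exact ⟨hx.1, fun a ha => hx.2 a (hQ' ha)⟩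

end KS137
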