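import Pool.Agent.H.MP_137e81_co.ls.Core
import Pool.Agent.H.MP_137e81_co.ls.Few

/-! Hosts with small codegrees. -/

set_option autoImplicit false

namespace KS137

open Finset

open Classical in
private lemma thmB_nonempty {V : Type} [Fintype V] [Nonempty V] (G : SimpleGraph V) {k : ℕ}
    (hG : Fintype.card V ≤ 2 * (univ.filter fun v => k ≤ dg G v).card) :
    ∃ v : V, k ≤ dg G v := by
  have h0 : 0 < Fintype.card V := Fintype.card_pos
  have h1 : 0 < (univ.filter fun v => k ≤ dg G v).card := by omega
  obtain ⟨v, hv⟩ := Finset.card_pos.1 h1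
  exact ⟨v, (Finset.mem_filter.1 hv).2⟩

open Classical in
/-- Proof: `k ≤ 1`: trivial (`k = 0`: one vertex; `k = 1`: two adjacent vertices, `T` has two vertices).
`2 ≤ k < 1500`: two distinct vertices have no common neighbour, so every degree is at most `1 < k`, the
set of the vertices of degree at least `k` is empty, contradiction.  `1500 ≤ k`: `q = k / 1500`,
`core` with `h = q`, `m2 = 0`, `B = card β`, `e = 0`, `b = k / 20`, `m1 = 24`, `E = b + 24 + 24 * q + 1`;
`hfull` by `full_pair` for `m = 25`; `hfr`: the filter is empty. -/
theorem codegree {β : Type} [Fintype β] {T : SimpleGraph β} (hT : T.IsTree) {k : ℕ}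
    (hk : Fintype.card β = k + 1) {V : Type} [Fintype V] [Nonempty V] (G : SimpleGraph V)
    (hc : ∀ u v : V, u ≠ v → 1500 * (univ.filter fun x => G.Adj u x ∧ G.Adj v x).card ≤ k)
    (hG : Fintype.card V ≤ 2 * (univ.filter fun v => k ≤ dg G v).card) : T.IsContained G := by
  obtain ⟨v, hv⟩ := thmB_nonempty G hG
  rcases Nat.lt_or_ge k 1500 with hk1 | hk1
  · have hk2 : k ≤ 1 := by
      by_contra hcon
      push Not at hcon
      have h2 : 1 < (univ.filter fun x => G.Adj v x).card := by
        have : k ≤ (univ.filter fun x => G.Adj v x).card := hv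
        omega
      obtain ⟨x, hx, y, hy, hxy⟩ := Finset.one_lt_card.1 h2
      have h3 := hc x y hxy
      have h4 : 0 < (univ.filter fun z => G.Adj x z ∧ G.Adj y z).card :=
        Finset.card_pos.2 ⟨v, by
          simp only [Finset.mem_filter, Finset.mem_univ, true_and] at hx hy ⊢
          exact ⟨hx.symm, hy.symm⟩⟩
      omega
    rcases Nat.lt_or_ge k 1 with hk3 | hk3
    · have hk0 : k = 0 := by omega
      subst hk0
      have hsub : Subsingleton β := Fintype.card_le_one_iff_subsingleton.1 (by omega)
      refine ⟨⟨⟨fun _ => v, ?_⟩, ?_⟩⟩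
      · intro a b hab
        exact absurd (Subsingleton.elim a b) hab.ne
      · intro a b _
        exact Subsingleton.elim a b
    · have hk0 : k = 1 := by omega
      subst hk0
      have h2 : 0 < (univ.filter fun x => G.Adj v x).card := hv
      obtain ⟨u, hu⟩ := Finset.card_pos.1 h2
      have hvu : G.Adj v u := (Finset.mem_filter.1 hu).2
      have e : β ≃ Fin 2 := Fintype.equivFinOfCardEq hk
      have key : ∀ a b : β, a ≠ b → (e a = 0 ∧ e b ≠ 0) ∨ (e a ≠ 0 ∧ e b = 0) := by
        intro a b hab
        have h1 : e a ≠ e b := fun h => hab (e.injective h)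
        revert h1
        generalize e a = i
        generalize e b = j
        revert i j
        decide
      refine ⟨⟨⟨fun a => if e a = 0 then v else u, ?_⟩, ?_⟩⟩
      · intro a b hab
        rcases key a b hab.ne with ⟨h1, h2⟩ | ⟨h1, h2⟩
        · simpa [h1, h2] using hvu
        · simpa [h1, h2] using hvu.symm
      · intro a b hab
        by_contra hne
        rcases key a b hne with ⟨h1, h2⟩ | ⟨h1, h2⟩
        · simp [h1, h2] at hab
          exact hvu.ne hab
        · simp [h1, h2] at hab
          exact hvu.ne hab.symm
  · have hq : ∀ u v : V, u ≠ v →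
        (univ.filter fun x => G.Adj u x ∧ G.Adj v x).card ≤ k / 1500 := by
      intro u v huv
      have := hc u v huv
      omega
    refine core (b := k / 20) (h := k / 1500) (e := 0) (m1 := 24) (m2 := 0)
      (B := Fintype.card β) (E := k / 20 + 24 + 24 * (k / 1500) + 1) hT G hk hG
      (by omega) (by omega) (by omega) ?_ ?_ ?_
    · intro W hW
      have hch : (25 : ℕ).choose 2 = 300 := by decide
      have := full_pair G (q := k / 1500) (m := 25) (b := k / 20) (w := k + 1) hq
        (by rw [hch]; omega) W hW
      omega
    · intro w W hW _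
      rw [Nat.le_zero, Finset.card_eq_zero, Finset.filter_eq_empty_iff]
      rintro u - ⟨huw, hlt⟩
      have h1 : (W.filter fun x => G.Adj u x) ⊆ (univ.filter fun x => G.Adj u x ∧ G.Adj w x) := by
        intro x hx
        rw [Finset.mem_filter] at hx
        rw [Finset.mem_filter]
        exact ⟨Finset.mem_univ _, hx.2, hW x hx.1⟩
      have h2 := Finset.card_le_card h1
      have h3 := hq u w huw
      omega
    · exact Finset.card_le_univ _

end KS137
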