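import Pool.Agent.H.MP_137e81_co.ls.CaseZ
import Pool.Agent.H.MP_137e81_co.ls.CaseL
import Pool.Agent.H.MP_137e81_co.ls.CaseB

/-! The upper bound. -/

set_option autoImplicit false

namespace KS137

open Finset

open Classical in
/-- Proof: `M` the maximum of the three constants (`NoSpot.mono`).  `k < M`: no edges
(`not_adj_of_noSpot`), so `k = 0` (`L` is nonempty) and `T` has one vertex.  `M ≤ k`: `caseZ` if there is
`t` with `15 k ≤ 32 di t`; otherwise `clean2` for `p = k - (2 Q - 1) s₁`, `s = Q s₁`,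
`s₁ = k / (200 Q)` (`k - p = (2 Q - 1) s₁`), and `coreP` for `a = k / (64 Q)`. -/
theorem upper (Q : ℕ) (hQ : 1 ≤ Q) : ∃ M : ℕ, 2 ≤ M ∧ ∀ k, ∀ {β V : Type} [Fintype β]
    [Fintype V] {T : SimpleGraph β}, T.IsTree → Fintype.card β = k + 1 → ∀ (G : SimpleGraph V),
    NoSpot G M k → ∀ L : Finset V, (∀ v ∈ L, k ≤ dg G v) → L.Nonempty →
    Q * (univ \ L).card ≤ (2 * Q - 1) * L.card → T.IsContained G := by
  obtain ⟨Mz, hz2, hz⟩ := caseZ
  obtain ⟨Ml, hl2, hl⟩ := caseL Q hQ
  obtain ⟨Mb, hb2, hb⟩ := caseB Q hQ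
  obtain ⟨M, hM⟩ : ∃ M, M = max Mz (max Ml (max Mb (200 * Q))) := ⟨_, rfl⟩
  have hMz : Mz ≤ M := by rw [hM]; exact le_max_left _ _
  have hMl : Ml ≤ M := by
    rw [hM]
    exact (le_max_left _ _).trans (le_max_right _ _)
  have hMb : Mb ≤ M := by
    rw [hM]
    exact ((le_max_left _ _).trans (le_max_right _ _)).trans (le_max_right _ _)
  have hMQ : 200 * Q ≤ M := by
    rw [hM]
    exact ((le_max_right _ _).trans (le_max_right _ _)).trans (le_max_right _ _)
  refine ⟨M, hz2.trans hMz, ?_⟩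
  intro k β V _ _ T hT hcard G hG L hL hLne hLc
  rcases lt_or_ge k M with hkM | hkM
  · -- no edges
    have hno := not_adj_of_noSpot G hG hkM (hz2.trans hMz)
    obtain ⟨v, hv⟩ := hLne
    have h1 : dg G v = 0 := by
      unfold dg
      rw [Finset.card_eq_zero, Finset.filter_eq_empty_iff]
      intro u _
      exact hno v u
    have h2 := hL v hv
    have hk0 : k = 0 := by omega
    have hsub : Subsingleton β := by
      rw [← Fintype.card_le_one_iff_subsingleton, hcard, hk0]
    refine ⟨⟨⟨fun _ => v, ?_⟩, ?_⟩⟩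
    · intro a b hab
      exact absurd (Subsingleton.elim a b) hab.ne
    · intro a b _
      exact Subsingleton.elim a b
  · by_cases hex : ∃ t, 15 * k ≤ 32 * di T t
    · obtain ⟨t, ht⟩ := hex
      refine hz k (hMz.trans hkM) hT hcard G (hG.mono hMz) L hL hLne ?_ t ht
      have h1 : Q * (univ \ L).card ≤ Q * (2 * L.card) := by
        refine hLc.trans ?_
        have : (2 * Q - 1) * L.card ≤ (2 * Q) * L.card := Nat.mul_le_mul_right _ (by omega)
        calc (2 * Q - 1) * L.card ≤ (2 * Q) * L.card := this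
          _ = Q * (2 * L.card) := by ring
      exact Nat.le_of_mul_le_mul_left h1 (by omega)
    · push Not at hex
      obtain ⟨s₁, hs₁⟩ : ∃ s₁, s₁ = k / (200 * Q) := ⟨_, rfl⟩
      have hs1 : 1 ≤ s₁ := by
        rw [hs₁]
        exact (Nat.one_le_div_iff (by omega)).2 (hMQ.trans hkM)
      have hsk : 200 * Q * s₁ ≤ k := by
        rw [hs₁]
        exact Nat.mul_div_le k (200 * Q)
      have h2Q : (2 * Q - 1) * s₁ ≤ k := by
        refine le_trans ?_ hsk
        exact Nat.mul_le_mul_right _ (by omega)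
      have hkp : k - (k - (2 * Q - 1) * s₁) = (2 * Q - 1) * s₁ := Nat.sub_sub_self h2Q
      have hs : 1 ≤ Q * s₁ := Nat.one_le_iff_ne_zero.2 (Nat.mul_ne_zero (by omega) (by omega))
      obtain ⟨P, R, v₀, hPL, hRL, hv₀, hP, hR, hv₀d, hRc, hsum⟩ := clean2 G (k := k)
        (p := k - (2 * Q - 1) * s₁) (s := Q * s₁) L hLne hL (Nat.sub_le _ _) hs (by
          rw [hkp]
          calc Q * s₁ * (univ \ L).card = s₁ * (Q * (univ \ L).card) := by ring
            _ ≤ s₁ * ((2 * Q - 1) * L.card) := Nat.mul_le_mul_left _ hLc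
            _ = (2 * Q - 1) * s₁ * L.card := by ring)
      rw [hkp] at hRc
      have hPk : ∀ v ∈ P, k ≤ dg G v := fun v hv => hL v (hPL hv)
      have hdis : Disjoint P R := by
        rw [Finset.disjoint_left]
        intro v hv hv2
        exact (Finset.mem_sdiff.1 (hRL hv2)).2 (hPL hv)
      rcases coreP G P (k / (64 * Q)) with ⟨X, hXP, hXne, hX⟩ | hX
      · refine hl k (hMl.trans hkM) hT hcard G (hG.mono hMl) hex P R X hPk hdis hXP hXne ?_ ?_ hX
        · rw [← hs₁]
          exact hP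
        · rw [← hs₁]
          exact hR
      · refine hb k (hMb.trans hkM) hT hcard G (hG.mono hMb) hex P R hPk hdis ⟨v₀, hv₀⟩ ?_ ?_ hX
        · rw [← hs₁]
          exact hRc
        · rw [← hs₁]
          exact hsum

end KS137
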