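import Pool.Agent.H.MP_137e81_co.ls.CaseZ
import Pool.Agent.H.MP_137e81_co.ls.CaseL2
import Pool.Agent.H.MP_137e81_co.ls.CaseB1
import Pool.Agent.H.MP_137e81_co.ls.CaseB2
import Pool.Agent.H.MP_137e81_co.ls.Broom
import Pool.Agent.H.MP_137e81_co.ls.HubB

/-! The exact upper bound. -/

set_option autoImplicit false

namespace KS137

open Finset

open Classical in
/-- Proof: `M` large (the maximum of the constants of `caseZ`, `caseL2`, `caseB1`, `caseB2`, `broom` and
`10 ^ 9`; `NoSpot.mono`).  `k < M`: no edges (`not_adj_of_noSpot`), so `k = 0` and `T` has one vertex (as in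
`upper`).  `M ≤ k`: `caseZ` if there is `t` with `15 k ≤ 32 di t`.  Otherwise `tree_cases` for
`E = k / 16000`, `a = k / 8000`.  Third alternative: `12 E + 8 a + 14 ≤ k / 400`, `broom`.  In the other
two cases `clean2` for `s = k / 200`, `p = k - 2 s` (`s #(univ \ L) ≤ 2 s #L`), `#R ≤ 2 #P`; `coreP` for `a`:
`caseL2` or `caseB1` / `caseB2` (in the second alternative replace `I` by the minimum of `I` and
`(15 k - 1) / 32`). -/
theorem upper2 : ∃ M : ℕ, 2 ≤ M ∧ ∀ k, ∀ {β V : Type} [Fintype β]
    [Fintype V] {T : SimpleGraph β}, T.IsTree → Fintype.card β = k + 1 → ∀ (G : SimpleGraph V),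
    NoSpot G M k → ∀ L : Finset V, (∀ v ∈ L, k ≤ dg G v) → L.Nonempty →
    (univ \ L).card ≤ 2 * L.card → T.IsContained G := by
  obtain ⟨Mz, hz2, hz⟩ := caseZ
  obtain ⟨Ml, hl2, hl⟩ := caseL2
  obtain ⟨M1, h12, h1⟩ := caseB1
  obtain ⟨M2, h22, h2⟩ := caseB2
  obtain ⟨Mb, hb2, hb⟩ := broom
  obtain ⟨M, hM⟩ : ∃ M, M = Mz + Ml + M1 + M2 + Mb + 10 ^ 9 := ⟨_, rfl⟩
  have hMz : Mz ≤ M := by omega
  have hMl : Ml ≤ M := by omega
  have hM1 : M1 ≤ M := by omega
  have hM2 : M2 ≤ M := by omega
  have hMb : Mb ≤ M := by omega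
  have hM9 : 10 ^ 9 ≤ M := by omega
  refine ⟨M, hz2.trans hMz, ?_⟩
  intro k β V _ _ T hT hcard G hG L hL hLne hLc
  rcases lt_or_ge k M with hkM | hkM
  · -- no edges
    have hno := not_adj_of_noSpot G hG hkM (hz2.trans hMz)
    obtain ⟨v, hv⟩ := hLne
    have h1 : dg G v = 0 := by
      unfold dg
      rw [Finset.card_eq_zero, Finset.filter_eq_empty_iff]
      intro u _
      exact hno v u
    have h2 := hL v hv
    have hk0 : k = 0 := by omega
    have hsub : Subsingleton β := by
      rw [← Fintype.card_le_one_iff_subsingleton, hcard, hk0]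
    refine ⟨⟨⟨fun _ => v, ?_⟩, ?_⟩⟩
    · intro a b hab
      exact absurd (Subsingleton.elim a b) hab.ne
    · intro a b _
      exact Subsingleton.elim a b
  · by_cases hex : ∃ t, 15 * k ≤ 32 * di T t
    · obtain ⟨t, ht⟩ := hex
      exact hz k (hMz.trans hkM) hT hcard G (hG.mono hMz) L hL hLne hLc t ht
    · push Not at hex
      have hk9 : 10 ^ 9 ≤ k := hM9.trans hkM
      -- the good region
      have hreg : ∃ P R : Finset V, (∀ v ∈ P, k ≤ dg G v) ∧ Disjoint P R ∧ P.Nonempty ∧
          R.card ≤ 2 * P.card ∧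
          (∀ v ∈ P, k - 2 * (k / 200) ≤ 2 * ((P ∪ R).filter fun x => G.Adj v x).card) ∧
          (∀ v ∈ R, k / 200 ≤ (P.filter fun x => G.Adj v x).card) ∧
          (k - 2 * (k / 200)) * P.card + k / 200 * R.card ≤
            ∑ v ∈ P, ((P ∪ R).filter fun x => G.Adj v x).card := by
        have hs : 1 ≤ k / 200 := by omega
        have hkp : k - (k - 2 * (k / 200)) = 2 * (k / 200) := by omega
        obtain ⟨P, R, v₀, hPL, hRL, hv₀, hP, hR, -, hRc, hsum⟩ := clean2 G (k := k)
          (p := k - 2 * (k / 200)) (s := k / 200) L hLne hL (Nat.sub_le _ _) hs (by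
            rw [hkp]
            calc k / 200 * (univ \ L).card ≤ k / 200 * (2 * L.card) := Nat.mul_le_mul_left _ hLc
              _ = 2 * (k / 200) * L.card := by ring)
        rw [hkp] at hRc
        refine ⟨P, R, fun v hv => hL v (hPL hv), ?_, ⟨v₀, hv₀⟩, ?_, hP, hR, hsum⟩
        · rw [Finset.disjoint_left]
          intro v hv hv2
          exact (Finset.mem_sdiff.1 (hRL hv2)).2 (hPL hv)
        · have h3 : k / 200 * R.card ≤ k / 200 * (2 * P.card) := by
            refine hRc.trans (le_of_eq ?_)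
            ring
          exact Nat.le_of_mul_le_mul_left h3 hs
      rcases tree_cases hT (k := k) (E := k / 16000) (a := k / 8000) (by omega) hcard with
        ⟨r, D, hr, hD, hc⟩ | ⟨r, D, I, hr, hD, hI, hc⟩ | ⟨z₁, z₂, hne, hle, hc⟩
      · obtain ⟨P, R, hPk, hdis, hPne, hRP, hP, hR, hsum⟩ := hreg
        rcases coreP G P (k / 8000) with ⟨X, hXP, hXne, hX⟩ | hX
        · exact hl k (hMl.trans hkM) hT hcard G (hG.mono hMl) hex P R X hPk hdis hXP hXne hP hR hX
        · exact h1 k (hM1.trans hkM) hT hcard G (hG.mono hM1) hex r D hr hD hc P R hPk hdis hPne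
            hRP hsum hX
      · obtain ⟨P, R, hPk, hdis, hPne, hRP, hP, hR, hsum⟩ := hreg
        rcases coreP G P (k / 8000) with ⟨X, hXP, hXne, hX⟩ | hX
        · exact hl k (hMl.trans hkM) hT hcard G (hG.mono hMl) hex P R X hPk hdis hXP hXne hP hR hX
        · refine h2 k (hM2.trans hkM) hT hcard G (hG.mono hM2) hex r D (min I ((15 * k - 1) / 32))
            hr hD ?_ ?_ ?_ P R hPk hdis hPne hRP hsum hX
          · intro t ht
            have h3 := hI t ht
            have h4 := hex t
            refine le_min h3 ?_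
            omega
          · have h3 := min_le_left I ((15 * k - 1) / 32)
            omega
          · have h3 := min_le_right I ((15 * k - 1) / 32)
            omega
      · exact hb k (hMb.trans hkM) hT hcard G (hG.mono hMb) z₁ z₂ hne hle (by omega) L hL hLne hLc

end KS137
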