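import Pool.Agent.H.MP_137e81_co.ls.Emb2
import Pool.Agent.H.MP_137e81_co.ls.NoSpot

/-! The embedding lemma for graphs without dense spots. -/

set_option autoImplicit false

namespace KS137

open Finset

section

variable {β : Type} [Fintype β] {T : SimpleGraph β} {par : β → β} {r : β}
  {Z : Finset β} {rk sub : β → ℕ} {N : ℕ}

open Classical in
private theorem Wrap_sub_lt (O : Ord T par r Z rk sub N) {t : β} (ht : t ≠ r) :
    sub t < sub (par t) := by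
  rw [O.sub_eq (par t)]
  have h : sub t ≤ ∑ c ∈ univ.filter (fun c => c ≠ r ∧ par c = par t), sub c :=
    Finset.single_le_sum (f := sub) (fun _ _ => Nat.zero_le _)
      (mem_filter.2 ⟨mem_univ _, ht, rfl⟩)
  omega

private theorem Wrap_le (O : Ord T par r Z rk sub N) (t : β) : sub t ≤ sub r := by
  have key : ∀ n, ∀ t, rk t = n → sub t ≤ sub r := by
    intro n
    induction n using Nat.strong_induction_on with
    | _ n ih =>
      intro t ht
      by_cases h : t = r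
      · rw [h]
      · have h1 := Wrap_sub_lt O h
        have h2 := ih (rk (par t)) (by rw [← ht]; exact O.rk_par t h) (par t) rfl
        omega
  exact key _ t rfl

private theorem Wrap_lt (O : Ord T par r Z rk sub N) {t : β} (ht : t ≠ r) : sub t < sub r :=
  lt_of_lt_of_le (Wrap_sub_lt O ht) (Wrap_le O _)

open Classical in
private theorem Wrap_nb (O : Ord T par r Z rk sub N) (y : β) (p : β → Prop) :
    (univ.filter fun u => T.Adj y u ∧ p u).card ≤
      (univ.filter fun c => (c ≠ r ∧ par c = y) ∧ p c).card + 1 := by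
  have h : (univ.filter fun u => T.Adj y u ∧ p u) ⊆
      insert (par y) (univ.filter fun c => (c ≠ r ∧ par c = y) ∧ p c) := by
    intro u hu
    rw [mem_filter] at hu
    rw [mem_insert, mem_filter]
    rcases O.adj_par y u hu.2.1 with h1 | h1
    · exact Or.inl h1.2.symm
    · exact Or.inr ⟨mem_univ _, h1, hu.2.2⟩
  exact (card_le_card h).trans (card_insert_le _ _)

open Classical in
private theorem Wrap_ch (O : Ord T par r Z rk sub N) (y : β) (p : β → Prop) (n : ℕ)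
    (hp : ∀ c, c ≠ r → p c → n ≤ sub c) :
    (univ.filter fun c => (c ≠ r ∧ par c = y) ∧ p c).card * n + 1 ≤ sub y := by
  have h1 : (univ.filter fun c => (c ≠ r ∧ par c = y) ∧ p c).card * n ≤
      ∑ c ∈ univ.filter (fun c => (c ≠ r ∧ par c = y) ∧ p c), sub c := by
    rw [← smul_eq_mul]
    exact Finset.card_nsmul_le_sum _ _ _ fun c hc =>
      hp c (mem_filter.1 hc).2.1.1 (mem_filter.1 hc).2.2
  have h2 : ∑ c ∈ univ.filter (fun c => (c ≠ r ∧ par c = y) ∧ p c), sub c ≤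
      ∑ c ∈ univ.filter (fun c => c ≠ r ∧ par c = y), sub c := by
    apply Finset.sum_le_sum_of_subset
    intro c hc
    exact mem_filter.2 ⟨mem_univ _, (mem_filter.1 hc).2.1⟩
  rw [O.sub_eq y]
  omega

private theorem Wrap_pos (O : Ord T par r Z rk sub N) (t : β) : 1 ≤ sub t := by
  rw [O.sub_eq t]
  omega

private theorem Wrap_dg (O : Ord T par r Z rk sub N) (t : β) : dg T t ≤ sub t := by
  classical
  obtain ⟨p, hp⟩ : ∃ p : β → Prop, ∀ u, p u := ⟨fun _ => True, fun _ => trivial⟩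
  have h1 := Wrap_nb O t p
  have h2 := Wrap_ch O t p 1 (fun c _ _ => Wrap_pos O c)
  rw [mul_one] at h2
  have h3 := h1.trans h2
  unfold dg
  refine (Finset.card_le_card ?_).trans h3
  intro u hu
  exact mem_filter.2 ⟨mem_univ _, (mem_filter.1 hu).2, hp u⟩

open Classical in
private theorem Wrap_q (O : Ord T par r Z rk sub N) (y : β) {e k : ℕ} (p : β → Prop) (he : 0 < e)
    (hp : ∀ c, c ≠ r → p c → e ≤ sub c) (hk : sub r = k + 1) :
    (univ.filter fun u => T.Adj y u ∧ p u).card ≤ k / e + 1 := by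
  refine (Wrap_nb O y p).trans (Nat.add_le_add_right ?_ 1)
  rw [Nat.le_div_iff_mul_le he]
  have h2 := Wrap_ch O y p e hp
  have h3 := Wrap_le O y
  omega

end

private theorem Wrap_num (A k s : ℕ) (hA : 1 ≤ A) (hs : 1 ≤ s)
    (h1 : 16 * A * (16 * A + 2) * s ≤ k) (h2 : k < 16 * A * (16 * A + 2) * (s + 1)) :
    1 ≤ k / (8 * A) ∧ k + 1 < (16 * A + 2) * (k / (8 * A)) ∧
      (∀ z ≤ 16 * A + 2, k / (8 * A) + (k / (8 * A) + z) + k / (16 * A) +
        (16 * A + 2) * (k / (8 * A * (16 * A + 2))) +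
        (16 * A + 2) * (k / (8 * A * (16 * A + 2)) / 2) + 1 ≤ k / A) ∧
      (k + 1) * ((k / (16 * A) + 1) + (k + 1)) + (k / (16 * A) + 1) * (k + 1) <
        11 * (16 * A * (16 * A + 2)) ^ 2 *
          ((k / (16 * A) + 1) * (k / (8 * A) - (k / (16 * A) + 1))) ∧
      (k + 1) * ((k / (8 * A * (16 * A + 2)) / 2 + 1) + 2 * k) +
          (k / (8 * A * (16 * A + 2)) / 2 + 1) * (2 * k) <
        11 * (16 * A * (16 * A + 2)) ^ 2 *
          ((k / (8 * A * (16 * A + 2)) / 2 + 1) *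
            (k / (8 * A * (16 * A + 2)) + 1 - (k / (8 * A * (16 * A + 2)) / 2 + 1))) := by
  obtain ⟨m, hm⟩ : ∃ m, m = 16 * A + 2 := ⟨_, rfl⟩
  rw [← hm] at h1 h2 ⊢
  have hm18 : 18 ≤ m := by omega
  have hA8 : 0 < 8 * A := by omega
  have hA16 : 0 < 16 * A := by omega
  have hAm : 0 < 8 * A * m := by positivity
  have hms : m ≤ m * s := Nat.le_mul_of_pos_right _ hs
  -- the quotients
  obtain ⟨b, hb⟩ : ∃ b, b = k / (8 * A) := ⟨_, rfl⟩
  obtain ⟨g, hg⟩ : ∃ g, g = k / (16 * A) := ⟨_, rfl⟩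
  obtain ⟨h, hh⟩ : ∃ h, h = k / (8 * A * m) := ⟨_, rfl⟩
  rw [← hb, ← hg, ← hh]
  have b1 : 2 * (m * s) ≤ b := by
    rw [hb, Nat.le_div_iff_mul_le hA8]
    calc 2 * (m * s) * (8 * A) = 16 * A * m * s := by ring
      _ ≤ k := h1
  have b2 : b < 2 * (m * (s + 1)) := by
    rw [hb, Nat.div_lt_iff_lt_mul hA8]
    calc k < 16 * A * m * (s + 1) := h2
      _ = 2 * (m * (s + 1)) * (8 * A) := by ring
  have b3 : k < (b + 1) * (8 * A) := by
    rw [hb]
    exact Nat.lt_mul_of_div_lt (Nat.lt_succ_self _) hA8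
  have g1 : m * s ≤ g := by
    rw [hg, Nat.le_div_iff_mul_le hA16]
    calc m * s * (16 * A) = 16 * A * m * s := by ring
      _ ≤ k := h1
  have g2 : g < m * (s + 1) := by
    rw [hg, Nat.div_lt_iff_lt_mul hA16]
    calc k < 16 * A * m * (s + 1) := h2
      _ = m * (s + 1) * (16 * A) := by ring
  have g3 : k < (g + 1) * (16 * A) := by
    rw [hg]
    exact Nat.lt_mul_of_div_lt (Nat.lt_succ_self _) hA16
  have g4 : 2 * g ≤ b := by
    rw [hb, Nat.le_div_iff_mul_le hA8]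
    have h5 : g * (16 * A) ≤ k := by
      rw [hg]
      exact Nat.div_mul_le_self _ _
    calc 2 * g * (8 * A) = g * (16 * A) := by ring
      _ ≤ k := h5
  have c1 : 2 * s ≤ h := by
    rw [hh, Nat.le_div_iff_mul_le hAm]
    calc 2 * s * (8 * A * m) = 16 * A * m * s := by ring
      _ ≤ k := h1
  have c2 : h < 2 * (s + 1) := by
    rw [hh, Nat.div_lt_iff_lt_mul hAm]
    calc k < 16 * A * m * (s + 1) := h2
      _ = 2 * (s + 1) * (8 * A * m) := by ring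
  have c3 : h / 2 = s := by omega
  have e1 : 16 * (m * s) ≤ k / A := by
    rw [Nat.le_div_iff_mul_le (by omega : 0 < A)]
    calc 16 * (m * s) * A = 16 * A * m * s := by ring
      _ ≤ k := h1
  rw [c3]
  obtain ⟨x, hx⟩ : ∃ x, x = m * s := ⟨_, rfl⟩
  have hx1 : m * (s + 1) = x + m := by rw [hx]; ring
  have hx18 : 18 ≤ x := by omega
  rw [← hx] at b1 g1 e1 hms
  rw [hx1] at b2 g2
  have hmh : m * h ≤ 2 * x + m := by
    have : m * h ≤ m * (2 * s + 1) := Nat.mul_le_mul_left _ (by omega)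
    have e : m * (2 * s + 1) = 2 * x + m := by rw [hx]; ring
    omega
  refine ⟨by omega, ?_, ?_, ?_, ?_⟩
  · have e2 : m * b = 8 * A * b + (8 * A * b + 2 * b) := by rw [hm]; ring
    have e3 : (b + 1) * (8 * A) = 8 * A * b + 8 * A := by ring
    have e4 : 8 * A ≤ 8 * A * b := Nat.le_mul_of_pos_right _ (by omega)
    omega
  · intro z hz
    rw [← hx]
    omega
  · have k1 : k + 1 ≤ (g + 1) * (16 * A) := g3
    have x1 : g + 1 ≤ 2 * (b - (g + 1)) := by omega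
    have x0 : 0 < g + 1 := Nat.succ_pos _
    obtain ⟨y, hy⟩ : ∃ y, y = g + 1 := ⟨_, rfl⟩
    obtain ⟨w, hw⟩ : ∃ w, w = b - (g + 1) := ⟨_, rfl⟩
    obtain ⟨D, hD⟩ : ∃ D, D = 16 * A * m := ⟨_, rfl⟩
    rw [← hw, ← hy] at x1
    rw [← hy] at k1 x0
    rw [← hw, ← hy, ← hD]
    have hD1 : 1 ≤ D := by rw [hD]; nlinarith
    have hDA : D = 16 * A * (16 * A) + 2 * (16 * A) := by rw [hD, hm]; ring
    have l1 : (k + 1) * (y + (k + 1)) + y * (k + 1) ≤ D * (y * y) := by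
      calc (k + 1) * (y + (k + 1)) + y * (k + 1)
          ≤ (y * (16 * A)) * (y + y * (16 * A)) + y * (y * (16 * A)) := by
            apply Nat.add_le_add
            · exact Nat.mul_le_mul k1 (Nat.add_le_add_left k1 _)
            · exact Nat.mul_le_mul_left _ k1
        _ = D * (y * y) := by rw [hDA]; ring
    have l2 : D * (y * y) ≤ D * (y * (2 * w)) :=
      Nat.mul_le_mul_left _ (Nat.mul_le_mul_left _ x1)
    have hyw : 1 ≤ y * w := Nat.mul_pos x0 (by omega)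
    have l3 : D * (y * (2 * w)) = 2 * D * (y * w) := by ring
    have l4 : 2 * D < 11 * D ^ 2 := by nlinarith
    calc (k + 1) * (y + (k + 1)) + y * (k + 1) ≤ 2 * D * (y * w) := by omega
      _ < 11 * D ^ 2 * (y * w) := Nat.mul_lt_mul_of_pos_right l4 hyw
  · obtain ⟨D, hD⟩ : ∃ D, D = 16 * A * m := ⟨_, rfl⟩
    rw [← hD] at h2 ⊢
    have hD1 : 1 ≤ D := by rw [hD]; nlinarith
    have k1 : k + 1 ≤ D * (s + 1) := h2
    have k2 : k ≤ D * (s + 1) := by omega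
    have w1 : s ≤ h + 1 - (s + 1) := by omega
    have l1 : (k + 1) * ((s + 1) + 2 * k) + (s + 1) * (2 * k) ≤
        (D * (2 * D + 3)) * ((s + 1) * (s + 1)) := by
      calc (k + 1) * ((s + 1) + 2 * k) + (s + 1) * (2 * k)
          ≤ (D * (s + 1)) * ((s + 1) + 2 * (D * (s + 1))) + (s + 1) * (2 * (D * (s + 1))) := by
            apply Nat.add_le_add
            · exact Nat.mul_le_mul k1 (Nat.add_le_add_left (Nat.mul_le_mul_left _ k2) _)
            · exact Nat.mul_le_mul_left _ (Nat.mul_le_mul_left _ k2)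
        _ = (D * (2 * D + 3)) * ((s + 1) * (s + 1)) := by ring
    have l2 : (D * (2 * D + 3)) * ((s + 1) * (s + 1)) ≤
        (D * (2 * D + 3)) * ((s + 1) * (2 * s)) :=
      Nat.mul_le_mul_left _ (Nat.mul_le_mul_left _ (by omega))
    have l3 : (D * (2 * D + 3)) * ((s + 1) * (2 * s)) = (2 * (D * (2 * D + 3))) * ((s + 1) * s) := by
      ring
    have l4 : 2 * (D * (2 * D + 3)) < 11 * D ^ 2 := by nlinarith
    have hss : 1 ≤ (s + 1) * s := Nat.mul_pos (Nat.succ_pos _) (by omega)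
    calc (k + 1) * ((s + 1) + 2 * k) + (s + 1) * (2 * k)
        ≤ (2 * (D * (2 * D + 3))) * ((s + 1) * s) := by omega
      _ < 11 * D ^ 2 * ((s + 1) * s) := Nat.mul_lt_mul_of_pos_right l4 hss
      _ ≤ 11 * D ^ 2 * ((s + 1) * (h + 1 - (s + 1))) :=
        Nat.mul_le_mul_left _ (Nat.mul_le_mul_left _ w1)

open Classical in
/-- Proof: `m = 16 A + 2`, `N₀ = k / (8 A)`, `exists_ord` for `N₀` (`#Z ≤ (k + 1) / N₀ + 1 ≤ m`),
`N = N₀ + #Z`, `b = k / (8 A)`, `g = k / (16 A)`, `h = k / (8 A m)`, `g2 = h / 2`, `E = k / A`,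
`Γ v = C₀ v ∪ C₁ v`, `lab t` : `t = r ∨ e < sub t`.  `hfull`, `hfr` by `few_of_noSpot` (`w = k + 1` and
`w = 2 k`), `M` large.  Tree facts: `dg T t ≤ sub t` for `t ≠ r` (the neighbours of `t` are the parent and
the children, `sub c ≥ 1`), so `¬ lab t` implies `dg T t ≤ e`; `sub t < sub (par t)`; if `e > k` only `r`
is labelled (`sub t ≤ card β = k + 1`, `sub t ≤ k` for `t ≠ r`); the labelled children `c` of `y` have
`e + 1 ≤ sub c` and `∑ sub c ≤ sub y - 1 ≤ k`, so `q = k / e + 1`. -/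
theorem embed3g (A : ℕ) (hA : 1 ≤ A) : ∃ M : ℕ, 2 ≤ M ∧ ∀ k, M ≤ k → ∀ {β V : Type} [Fintype β]
    [Fintype V] {T : SimpleGraph β}, T.IsTree → Fintype.card β = k + 1 → ∀ (G : SimpleGraph V),
    NoSpot G M k → ∀ (P U₀ U₁ : Finset V), (∀ v ∈ P, k ≤ dg G v) → U₁ ⊆ U₀ →
    ∀ (C₀ C₁ : V → Finset V), (∀ v, ∀ x ∈ C₀ v, G.Adj v x) → (∀ v, ∀ x ∈ C₁ v, G.Adj v x) →
    (∀ v, Disjoint (C₀ v) (C₁ v)) → (∀ v, (C₀ v).card + (C₁ v).card ≤ 2 * k) →
    (∀ v ∈ U₀, C₀ v ⊆ U₀) → (∀ v ∈ U₁, C₁ v ⊆ U₁) → ∀ r : β, 2 ≤ dg T r → ∀ v₀ ∈ U₁, ∀ e : ℕ,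
    1 ≤ e →
    (∀ v ∈ U₀, v ∉ P → ∀ t, t ≠ r → dg T t ≤ e → dg T t + k / A ≤ (C₀ v).card + 1) →
    (∀ v ∈ U₀, v ∈ P → ∀ t, t ≠ r → dg T t ≤ e → di T t + k / A ≤ (C₀ v).card + 1) →
    (∀ v ∈ U₁, v ∈ P → di T r + k / A ≤ (C₀ v).card + 1) →
    (∀ v ∈ U₁, v ∉ P → dg T r + k / A ≤ (C₀ v).card + 1) → (e ≤ k → U₁ ⊆ P) →
    (e ≤ k → ∀ v ∈ U₁, ∀ t, di T t + k / A ≤ (C₀ v).card + 1) →
    (e ≤ k → ∀ v ∈ U₁, k / e + k / A ≤ (C₁ v).card) → T.IsContained G := by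
  have hDpos : 0 < 16 * A * (16 * A + 2) := Nat.mul_pos (by omega) (by omega)
  have hDsq : 16 * A * (16 * A + 2) ≤ (16 * A * (16 * A + 2)) ^ 2 := Nat.le_self_pow (by omega) _
  refine ⟨11 * (16 * A * (16 * A + 2)) ^ 2, by omega, ?_⟩
  intro k hMk β V _ _ T hT hβ G hG P U₀ U₁ hPd hU C₀ C₁ hC₀ hC₁ hdis hcard hU₀ hU₁ r hr v₀ hv₀
    e he H0R H0P H1r H1rR HUP H1 H11
  obtain ⟨s, hs⟩ : ∃ s, s = k / (16 * A * (16 * A + 2)) := ⟨_, rfl⟩
  have hs1 : 1 ≤ s := by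
    rw [hs, Nat.le_div_iff_mul_le hDpos, one_mul]
    omega
  have hsk : 16 * A * (16 * A + 2) * s ≤ k := by
    rw [hs]
    exact Nat.mul_div_le _ _
  have hks : k < 16 * A * (16 * A + 2) * (s + 1) := by
    rw [hs]
    exact Nat.lt_mul_div_succ _ hDpos
  obtain ⟨n1, n2, n3, n4, n5⟩ := Wrap_num A k s hA hs1 hsk hks
  obtain ⟨par, Z, rk, sub, hZ, O⟩ := exists_ord hT r n1
  have hZm : Z.card ≤ 16 * A + 2 := by
    by_contra hc
    have h1 : (16 * A + 2 + 1) * (k / (8 * A)) ≤ Z.card * (k / (8 * A)) :=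
      Nat.mul_le_mul_right _ (by omega)
    have h2 : (16 * A + 2 + 1) * (k / (8 * A)) =
        (16 * A + 2) * (k / (8 * A)) + k / (8 * A) := by ring
    omega
  have hroot : sub r = k + 1 := by rw [O.sub_root, hβ]
  refine embed2g G hβ O hr P U₀ U₁ hPd hU C₀ C₁ (fun v => C₀ v ∪ C₁ v) ?_
    (fun v => subset_union_left) (fun v => subset_union_right) hdis hU₀ hU₁
    (fun t => t = r ∨ e < sub t) (Or.inl rfl) ?_ hv₀ (b := k / (8 * A)) (g := k / (16 * A))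
    (h := k / (8 * A * (16 * A + 2))) (g2 := k / (8 * A * (16 * A + 2)) / 2) (m := 16 * A + 2)
    (q := k / e + 1) (E := k / A) hZm ?_ ?_ ?_ ?_ ?_ ?_ ?_ ?_ ?_
  · intro v x hx
    rcases mem_union.1 hx with h1 | h1
    · exact hC₀ v x h1
    · exact hC₁ v x h1
  · intro t ht hl
    rcases hl with h1 | h1
    · exact absurd h1 ht
    · exact Or.inr (lt_trans h1 (Wrap_sub_lt O ht))
  · exact n3 _ hZm
  · intro W hW
    have h1 := few_of_noSpot G hG n4 W hW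
    have h2 : (univ.filter fun v => k / (8 * A) ≤ ((C₀ v ∪ C₁ v) ∩ W).card) ⊆
        univ.filter fun v => k / (8 * A) ≤ (W.filter fun x => G.Adj v x).card := by
      intro v hv
      rw [mem_filter] at hv ⊢
      refine ⟨mem_univ _, hv.2.trans (card_le_card ?_)⟩
      intro x hx
      rw [mem_inter, mem_union] at hx
      refine mem_filter.2 ⟨hx.2, ?_⟩
      rcases hx.1 with h3 | h3
      · exact hC₀ v x h3
      · exact hC₁ v x h3
    have h3 := card_le_card h2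
    show (univ.filter fun v => k / (8 * A) ≤ ((C₀ v ∪ C₁ v) ∩ W).card).card ≤ k / (16 * A)
    omega
  · intro v
    have hW : (C₀ v ∪ C₁ v).card ≤ 2 * k := (card_union_le _ _).trans (hcard v)
    have h1 := few_of_noSpot G hG n5 (C₀ v ∪ C₁ v) hW
    have h2 : (univ.filter fun u => u ≠ v ∧ k / (8 * A * (16 * A + 2)) <
          ((C₀ u ∪ C₁ u) ∩ (C₀ v ∪ C₁ v)).card) ⊆
        univ.filter fun u => k / (8 * A * (16 * A + 2)) + 1 ≤
          ((C₀ v ∪ C₁ v).filter fun x => G.Adj u x).card := by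
      intro u hu
      rw [mem_filter] at hu ⊢
      refine ⟨mem_univ _, (Nat.succ_le_of_lt hu.2.2).trans (card_le_card ?_)⟩
      intro x hx
      rw [mem_inter] at hx
      refine mem_filter.2 ⟨hx.2, ?_⟩
      rcases mem_union.1 hx.1 with h3 | h3
      · exact hC₀ u x h3
      · exact hC₁ u x h3
    have h3 := card_le_card h2
    show (univ.filter fun u => u ≠ v ∧ k / (8 * A * (16 * A + 2)) <
          ((C₀ u ∪ C₁ u) ∩ (C₀ v ∪ C₁ v)).card).card ≤ k / (8 * A * (16 * A + 2)) / 2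
    omega
  · intro y _
    exact Wrap_q O y (fun u => u = r ∨ e < sub u) he (fun c hc hl => by
      rcases hl with h | h
      · exact absurd h hc
      · exact h.le) hroot
  · intro v hv hvP t hl
    have hl' : ¬ (t = r ∨ e < sub t) := hl
    rw [not_or, not_lt] at hl'
    exact H0R v hv hvP t hl'.1 ((Wrap_dg O t).trans hl'.2)
  · intro v hv hvP t hl
    have hl' : ¬ (t = r ∨ e < sub t) := hl
    rw [not_or, not_lt] at hl'
    exact H0P v hv hvP t hl'.1 ((Wrap_dg O t).trans hl'.2)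
  · intro v hv hvP t hl
    by_cases ht : t = r
    · rw [ht]
      exact H1r v hv hvP
    · rcases hl with h | h
      · exact absurd h ht
      · have h1 := Wrap_lt O ht
        exact H1 (by omega) v hv t
  · intro v hv hvP t hl
    by_cases ht : t = r
    · rw [ht]
      exact H1rR v hv hvP
    · rcases hl with h | h
      · exact absurd h ht
      · have h1 := Wrap_lt O ht
        exact absurd (HUP (by omega) hv) hvP
  · intro v hv t ht hl
    rcases hl with h | h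
    · exact absurd h ht
    · have h1 := Wrap_lt O ht
      have h2 := H11 (by omega) v hv
      omega


open Classical in
/-- The case `U₁ ⊆ P`. -/
theorem embed3 (A : ℕ) (hA : 1 ≤ A) : ∃ M : ℕ, 2 ≤ M ∧ ∀ k, M ≤ k → ∀ {β V : Type} [Fintype β]
    [Fintype V] {T : SimpleGraph β}, T.IsTree → Fintype.card β = k + 1 → ∀ (G : SimpleGraph V),
    NoSpot G M k → ∀ (P U₀ U₁ : Finset V), (∀ v ∈ P, k ≤ dg G v) → U₁ ⊆ U₀ → U₁ ⊆ P →
    ∀ (C₀ C₁ : V → Finset V), (∀ v, ∀ x ∈ C₀ v, G.Adj v x) → (∀ v, ∀ x ∈ C₁ v, G.Adj v x) →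
    (∀ v, Disjoint (C₀ v) (C₁ v)) → (∀ v, (C₀ v).card + (C₁ v).card ≤ 2 * k) →
    (∀ v ∈ U₀, C₀ v ⊆ U₀) → (∀ v ∈ U₁, C₁ v ⊆ U₁) → ∀ r : β, 2 ≤ dg T r → ∀ v₀ ∈ U₁, ∀ e : ℕ,
    1 ≤ e →
    (∀ v ∈ U₀, v ∉ P → ∀ t, t ≠ r → dg T t ≤ e → dg T t + k / A ≤ (C₀ v).card + 1) →
    (∀ v ∈ U₀, v ∈ P → ∀ t, t ≠ r → dg T t ≤ e → di T t + k / A ≤ (C₀ v).card + 1) →
    (∀ v ∈ U₁, di T r + k / A ≤ (C₀ v).card + 1) →
    (e ≤ k → ∀ v ∈ U₁, ∀ t, di T t + k / A ≤ (C₀ v).card + 1) →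
    (e ≤ k → ∀ v ∈ U₁, k / e + k / A ≤ (C₁ v).card) → T.IsContained G := by
  obtain ⟨M, hM, h⟩ := embed3g A hA
  refine ⟨M, hM, ?_⟩
  intro k hMk β V _ _ T hT hβ G hG P U₀ U₁ hPd hU hUP C₀ C₁ hC₀ hC₁ hdis hcard hU₀ hU₁ r hr v₀ hv₀
    e he H0R H0P H1r H1 H11
  exact h k hMk hT hβ G hG P U₀ U₁ hPd hU C₀ C₁ hC₀ hC₁ hdis hcard hU₀ hU₁ r hr v₀ hv₀ e he H0R
    H0P (fun v hv _ => H1r v hv) (fun v hv hvP => absurd (hUP hv) hvP) (fun _ => hUP) H1 H11

end KS137
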